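import Pool.Agent.Helper26.WD.Tree

/-!
# Arithmetic of polynomials modulo `7`
-/

namespace Pool.Agent.Helper26.WD

open Piece

/-- Prepend a coefficient, without creating leading zeros. -/
def cns (x : ℕ) (xs : List ℕ) : List ℕ :=
  List.rec (motive := fun _ => List ℕ) (Nat.rec (motive := fun _ => List ℕ) []
    (fun n _ => [Nat.succ n]) x) (fun y ys _ => x :: y :: ys) xs

/-- Sum of polynomials. -/
def padd (l : List ℕ) : List ℕ → List ℕ :=
  List.rec (motive := fun _ => List ℕ → List ℕ) (fun ys => ys)
    (fun x xs ih ys => List.rec (motive := fun _ => List ℕ) (x :: xs)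
      (fun y ys _ => cns (Nat.mod (Nat.add x y) 7) (ih ys)) ys) l

/-- Multiplication by a constant. -/
def pmul (c : ℕ) (l : List ℕ) : List ℕ :=
  List.rec (motive := fun _ => List ℕ) [] (fun x _ ih => Nat.mod (Nat.mul c x) 7 :: ih) l

/-- Multiplication by the variable. -/
def shf (l : List ℕ) : List ℕ :=
  List.rec (motive := fun _ => List ℕ) [] (fun x xs _ => 0 :: x :: xs) l

/-- Negation. -/
def opB (a : Bool) : Bool := Bool.rec (motive := fun _ => Bool) true false a

/-- Equality of booleans. -/
def eqB (a b : Bool) : Bool := Bool.rec (motive := fun _ => Bool) (opB b) b a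

/-- Positivity of a crossing. -/
def posB (a b o : Bool) : Bool := eqB (eqB a b) o

/-- The coefficient algebra for the HOMFLY polynomial at `l = 3` modulo `7`. -/
def algP : Alg Bool (List ℕ) where
  one := [1]
  add := padd
  al := fun a b o x => Bool.rec (motive := fun _ => List ℕ) (pmul 4 x) (pmul 2 x) (posB a b o)
  be := fun a b o x => Bool.rec (motive := fun _ => List ℕ) []
    (Bool.rec (motive := fun _ => List ℕ) (shf (pmul 2 x)) (shf (pmul 3 x)) o) (eqB a b)
  ga := fun a b o x => Bool.rec (motive := fun _ => List ℕ)
    (Bool.rec (motive := fun _ => List ℕ) (shf (pmul 3 x)) (shf (pmul 2 x)) o) [] (eqB a b)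
  kap := fun _ x => x
  de := fun x => pmul 2 x
  cp := shf
  hasBe := eqB
  hasGa := fun a b => opB (eqB a b)
  op := opB
  eqb := eqB

/-- Decoding of a polynomial: digits in base `8`, with a leading digit `1`. -/
def decF (f : ℕ) : ℕ → List ℕ :=
  Nat.rec (motive := fun _ => ℕ → List ℕ) (fun _ => [])
    (fun _ ih n => Bool.rec (motive := fun _ => List ℕ) (Nat.mod n 8 :: ih (Nat.div n 8)) []
      (Nat.ble n 1)) f

/-- Equality of polynomials. -/
def eqN (l : List ℕ) : List ℕ → Bool :=
  List.rec (motive := fun _ => List ℕ → Bool)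
    (fun l' => List.rec (motive := fun _ => Bool) true (fun _ _ _ => false) l')
    (fun x _ ih l' => List.rec (motive := fun _ => Bool) false (fun y ys _ =>
      Bool.rec (motive := fun _ => Bool) false (ih ys) (Nat.beq x y)) l') l

/-- Equality of lists. -/
def eqLs {β : Type} (f : β → β → Bool) (l : List β) : List β → Bool :=
  List.rec (motive := fun _ => List β → Bool)
    (fun l' => List.rec (motive := fun _ => Bool) true (fun _ _ _ => false) l')
    (fun x _ ih l' => List.rec (motive := fun _ => Bool) false (fun y ys _ =>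
      Bool.rec (motive := fun _ => Bool) false (ih ys) (f x y)) l') l

theorem eqLs_sound {β : Type} {f : β → β → Bool} (hf : ∀ x y, f x y = true → x = y)
    (l l' : List β) (h : eqLs f l l' = true) : l = l' := by
  induction l generalizing l' with
  | nil =>
    match l' with
    | [] => rfl
    | y :: l' => exact absurd h (by simp [eqLs])
  | cons x l ih =>
    match l' with
    | [] => exact absurd h (by simp [eqLs])
    | y :: l' =>
      change Bool.rec (motive := fun _ => Bool) false (eqLs f l l') (f x y) = true at h
      cases hxy : f x y with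
      | false => rw [hxy] at h; simp at h
      | true =>
        rw [hxy] at h
        rw [hf x y hxy, ih l' h]

/-- Equality of trees. -/
def eqT {C : Type} (e : C → C → Bool) (n : ℕ) : L C n → L C n → Bool :=
  Nat.rec (motive := fun n => L C n → L C n → Bool) e (fun n ih => eqLs (β := L C n) ih) n

theorem eqT_sound {C : Type} {e : C → C → Bool} (he : ∀ x y, e x y = true → x = y) (n : ℕ)
    (x y : L C n) (h : eqT e n x y = true) : x = y := by
  induction n with
  | zero => exact he x y h
  | succ n ih => exact eqLs_sound ih x y h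

/-- Equality of states. -/
def eqSt {Ω C : Type} (e' : Ω → Ω → Bool) (e : C → C → Bool) (x y : St Ω C) : Bool :=
  if h : x.k = y.k then
    Bool.rec (motive := fun _ => Bool) false (eqT e (y.k + 1) (h ▸ x.v) y.v) (eqLs e' x.s y.s)
  else false

theorem eqSt_sound {Ω C : Type} {e' : Ω → Ω → Bool} {e : C → C → Bool}
    (he' : ∀ x y, e' x y = true → x = y) (he : ∀ x y, e x y = true → x = y)
    (x y : St Ω C) (h : eqSt e' e x y = true) : x = y := by
  obtain ⟨k, s, v⟩ := x
  obtain ⟨k', s', v'⟩ := y
  unfold eqSt at h
  split_ifs at h with hk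
  change k = k' at hk
  subst hk
  cases hs : eqLs e' s s' with
  | false => simp only [hs] at h; simp at h
  | true =>
    simp only [hs] at h
    rw [eqLs_sound he' s s' hs, eqT_sound he (k + 1) v v' h]

theorem eqN_sound (x y : List ℕ) (h : eqN x y = true) : x = y :=
  eqLs_sound (f := Nat.beq) (fun _ _ h => Nat.eq_of_beq_eq_true h) x y h

theorem eqB_sound (x y : Bool) (h : eqB x y = true) : x = y := by
  cases x <;> cases y <;> simp_all [eqB, opB]

/-- Equality of states over polynomials. -/
def eqP (x y : St Bool (List ℕ)) : Bool := eqSt eqB eqN x y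

theorem eqP_sound (x y : St Bool (List ℕ)) (h : eqP x y = true) : x = y :=
  eqSt_sound eqB_sound eqN_sound x y h

/-- Map on coefficients. -/
def mT {C D : Type} (g : C → D) (n : ℕ) : L C n → L D n :=
  Nat.rec (motive := fun n => L C n → L D n) g (fun n ih => mapL (β := L C n) (γ := L D n) ih) n

/-- A state with encoded polynomials. -/
def stP (k : ℕ) (s : List Bool) (v : L ℕ (k + 1)) : St Bool (List ℕ) :=
  ⟨k, s, mT (decF 64) (Nat.succ k) v⟩

end Pool.Agent.Helper26.WD
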