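import Pool.Agent.Helper26.WD.Tree

/-!
# The knot and its Whitehead double
-/

namespace Pool.Agent.Helper26.WD

open Piece

/-- The knot without its last local maximum. -/
def knot₁ : List (Piece Bool) :=
  [cup 0 true, cup 2 false, cup 4 false, cr 1 false, cr 1 false, cr 1 false, cr 3 true, cr 2 false,
    cr 1 true, cr 2 false, cr 1 false, cr 3 true, cr 4 false, cr 3 false, cr 2 true, cap 3,
    cup 1 false, cr 2 false, cr 3 true, cr 4 false, cr 3 true, cr 2 true, cr 2 true, cr 1 true,
    cr 2 false, cr 1 true, cr 4 true, cr 3 false, cap 0, cap 0]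

/-- The knot. -/
def knot : List (Piece Bool) := knot₁ ++ [cap 0]

end Pool.Agent.Helper26.WD
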