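import Pool.Agent.Helper26.WD.SoundRun
import Pool.Agent.Helper26.WD.AlgP
import Pool.Agent.Helper26.WD.Prog

/-!
# Arithmetic of polynomials in `z` with coefficients in `ℤ[a, a⁻¹]`

An element is a pair `(n, l)`; it stands for `a ^ (-n) * ∑ i j, l[i][j] * a ^ i * z ^ j`.
-/

namespace Pool.Agent.Helper26.WD

open Piece

/-- The type of coefficients. -/
abbrev KC : Type := ℕ × List (List ℤ)

/-- Prepend a coefficient. -/
def cnz (x : ℤ) (xs : List ℤ) : List ℤ :=
  List.rec (motive := fun _ => List ℤ)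
    (match x with
      | Int.ofNat n => Nat.rec (motive := fun _ => List ℤ) [] (fun n _ => [Int.ofNat (Nat.succ n)]) n
      | Int.negSucc n => [Int.negSucc n]) (fun y ys _ => x :: y :: ys) xs

/-- Sum. -/
def zadd (l : List ℤ) : List ℤ → List ℤ :=
  List.rec (motive := fun _ => List ℤ → List ℤ) (fun ys => ys)
    (fun x xs ih ys => List.rec (motive := fun _ => List ℤ) (x :: xs)
      (fun y ys _ => cnz (Int.add x y) (ih ys)) ys) l

/-- Negation. -/
def zneg (l : List ℤ) : List ℤ := mapL Int.neg l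

/-- Multiplication by `z`. -/
def zshf (l : List ℤ) : List ℤ :=
  List.rec (motive := fun _ => List ℤ) [] (fun x xs _ => 0 :: x :: xs) l

/-- Prepend a coefficient. -/
def cne (x : List ℤ) (xs : List (List ℤ)) : List (List ℤ) :=
  List.rec (motive := fun _ => List (List ℤ))
    (List.rec (motive := fun _ => List (List ℤ)) [] (fun a l _ => [a :: l]) x)
    (fun y ys _ => x :: y :: ys) xs

/-- Sum. -/
def aadd (l : List (List ℤ)) : List (List ℤ) → List (List ℤ) :=
  List.rec (motive := fun _ => List (List ℤ) → List (List ℤ)) (fun ys => ys)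
    (fun x xs ih ys => List.rec (motive := fun _ => List (List ℤ)) (x :: xs)
      (fun y ys _ => cne (zadd x y) (ih ys)) ys) l

/-- Multiplication by a power of `a`. -/
def pre (n : ℕ) (l : List (List ℤ)) : List (List ℤ) :=
  Nat.rec (motive := fun _ => List (List ℤ)) l (fun _ ih => [] :: ih) n

/-- Sum. -/
def kadd (x y : KC) : KC :=
  ifb (isNil x.2) y (ifb (isNil y.2) x
    (ifb (Nat.ble x.1 y.1) (y.1, aadd (pre (Nat.sub y.1 x.1) x.2) y.2)
      (x.1, aadd x.2 (pre (Nat.sub x.1 y.1) y.2))))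

/-- Negation. -/
def kneg (x : KC) : KC := (x.1, mapL zneg x.2)

/-- Multiplication by `z`. -/
def kz (x : KC) : KC := (x.1, mapL zshf x.2)

/-- Multiplication by `a⁻¹`. -/
def kai (x : KC) : KC := (Nat.succ x.1, x.2)

/-- Multiplication by `a`. -/
def ka (x : KC) : KC :=
  Nat.rec (motive := fun _ => KC) (0, [] :: x.2) (fun n _ => (n, x.2)) x.1

/-- The coefficient algebra for the Kauffman polynomial. -/
def algK : Alg Unit KC where
  one := (0, [[1]])
  add := kadd
  al := fun _ _ _ x => kneg x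
  be := fun _ _ _ x => kz x
  ga := fun _ _ _ x => kz x
  kap := fun o x => Bool.rec (motive := fun _ => KC) (ka x) (kai x) o
  de := fun x => kadd (kadd (ka x) (kai x)) (kneg (kz x))
  cp := kz
  hasBe := fun _ _ => true
  hasGa := fun _ _ => true
  op := fun _ => ()
  eqb := fun _ _ => true

/-- The result of the computation for the knot. -/
def kval : KC :=
  (8, [[], [0, 0, 0, 0, 7, 0, -45, 0, 78, 0, -49, 0, 10],
    [0, 0, 0, 0, 0, -1, 0, 9, 0, -22, 0, 43, 0, -30, 0, 6],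
    [0, 0, 0, 0, 7, 0, -76, 0, 182, 0, -174, 0, 100, 0, -36, 0, 5],
    [0, 0, 0, 13, 0, -50, 0, 106, 0, -158, 0, 199, 0, -140, 0, 46, 0, -6],
    [0, 0, 0, 0, -52, 0, 180, 0, -241, 0, 163, 0, -6, 0, -62, 0, 32, 0, -5],
    [0, 0, 0, 49, 0, -182, 0, 311, 0, -335, 0, 275, 0, -149, 0, 40, 0, -4],
    [0, 0, 0, 0, -143, 0, 586, 0, -947, 0, 797, 0, -387, 0, 118, 0, -28, 0, 4],
    [0, 0, 0, 67, 0, -233, 0, 310, 0, -171, 0, -46, 0, 116, 0, -62, 0, 11],
    [0, 0, 0, 0, -144, 0, 598, 0, -939, 0, 755, 0, -383, 0, 135, 0, -33, 0, 4],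
    [0, 0, 0, 40, 0, -126, 0, 112, 0, 27, 0, -117, 0, 54, 0, -2, 0, -2],
    [0, 0, 0, 0, -58, 0, 242, 0, -345, 0, 245, 0, -105, 0, -2, 0, 21, 0, -5],
    [0, 0, 0, 9, 0, -46, 0, 102, 0, -138, 0, 165, 0, -158, 0, 71, 0, -11],
    [0, 0, 0, 0, 1, 0, 2, 0, 14, 0, 0, 0, -29, 0, 13, 0, -1],
    [0, 0, 0, 0, 0, -33, 0, 128, 0, -174, 0, 127, 0, -57, 0, 11],
    [0, 0, 0, 0, 5, 0, -17, 0, 22, 0, 1, 0, -16, 0, 6],
    [0, 0, 0, 0, 0, -13, 0, 42, 0, -37, 0, 10]])

theorem run_knotK : ((runT algK (knot.map Piece.forget) (St.init algK)).val : List KC) = [kval] := by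
  decide +kernel

end Pool.Agent.Helper26.WD
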