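import Pool.Agent.Helper26.WD.Rep

/-!
# Blocks: an arc with its left end at position `0` which is dragged over the other strands
-/

namespace Pool.Agent.Helper26.WD

set_option linter.unusedSectionVars false

open Piece

section Lengths

variable {Ω : Type} [DecidableEq Ω] [Dir Ω]

theorem length_step_cup {i : ℕ} {a : Ω} {s t : List Ω} (h : step (cup i a) s = some t) :
    t.length = s.length + 2 := by
  simp only [step] at h
  split_ifs at h with hi
  rw [Option.some.injEq] at h
  subst h
  simp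
  omega

theorem length_step_cap {i : ℕ} {s t : List Ω} (h : step (cap i) s = some t) :
    t.length + 2 = s.length := by
  simp only [step] at h
  match hd : s.drop i, h with
  | a :: b :: u, h =>
    simp only at h
    split_ifs at h
    rw [Option.some.injEq] at h
    subst h
    have := congrArg List.length hd
    simp at this
    simp
    omega
  | [a], h => simp at h
  | [], h => simp at h

theorem length_step_cr {i : ℕ} {o : Bool} {s t : List Ω} (h : step (cr i o) s = some t) :
    t.length = s.length := by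
  simp only [step] at h
  match hd : s.drop i, h with
  | a :: b :: u, h =>
    simp only at h
    rw [Option.some.injEq] at h
    subst h
    have := congrArg List.length hd
    simp at this
    simp
    omega
  | [a], h => simp at h
  | [], h => simp at h

end Lengths

namespace Skein

variable {Ω : Type} [DecidableEq Ω] [Dir Ω] {S : Type} [CommRing S]

/-- Crossings `p, p + 1, …, p + n - 1` (in this order). -/
def drag (Ω S : Type) [DecidableEq Ω] [Dir Ω] [CommRing S] (p : ℕ) : ℕ → (E Ω S →ₗ[S] E Ω S)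
  | 0 => LinearMap.id
  | n + 1 => op S (cr (p + n) true) ∘ₗ drag Ω S p n

/-- Crossings `n - 1, …, 0` (in this order). -/
def dragL (Ω S : Type) [DecidableEq Ω] [Dir Ω] [CommRing S] : ℕ → (E Ω S →ₗ[S] E Ω S)
  | 0 => LinearMap.id
  | n + 1 => dragL Ω S n ∘ₗ op S (cr n false)

/-- The arc with its left end at position `0`, whose right end is dragged over the strands to
position `i + 1`. -/
def W (S : Type) [CommRing S] (a : Ω) : ℕ → (E Ω S →ₗ[S] E Ω S)
  | 0 => op S (cup 0 a)
  | i + 1 => op S (cr (i + 1) true) ∘ₗ W S a i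

theorem W_zero (a : Ω) (φ : E Ω S) : W S a 0 φ = op S (cup 0 a) φ := rfl

theorem W_succ (a : Ω) (i : ℕ) (φ : E Ω S) :
    W S a (i + 1) φ = op S (cr (i + 1) true) (W S a i φ) := rfl

theorem drag_zero (p : ℕ) (φ : E Ω S) : drag Ω S p 0 φ = φ := rfl

theorem drag_succ (p n : ℕ) (φ : E Ω S) :
    drag Ω S p (n + 1) φ = op S (cr (p + n) true) (drag Ω S p n φ) := rfl

theorem dragL_zero (φ : E Ω S) : dragL Ω S 0 φ = φ := rfl

theorem dragL_succ (n : ℕ) (φ : E Ω S) :
    dragL Ω S (n + 1) φ = dragL Ω S n (op S (cr n false) φ) := rfl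

variable (F : Skein Ω S)

/-- The span of the vectors with at least `n` strands. -/
def Len (n : ℕ) : Submodule S (E Ω S) := F.M (fun s => n ≤ s.length)

theorem Len_V {n : ℕ} {φ : E Ω S} (h : φ ∈ F.Len n) : φ ∈ F.V := F.mem_V h

theorem Len_mono {n m : ℕ} (hnm : n ≤ m) {φ : E Ω S} (h : φ ∈ F.Len m) : φ ∈ F.Len n :=
  F.M_mono (fun _ hs => hnm.trans hs) h

theorem cr_Len (i : ℕ) (o : Bool) {n : ℕ} {φ : E Ω S} (h : φ ∈ F.Len n) :
    op S (cr i o) φ ∈ F.Len n :=
  F.op_mem _ (fun s hs t ht => by rw [length_step_cr ht]; exact hs) h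

theorem cup_Len (i : ℕ) (a : Ω) {n : ℕ} {φ : E Ω S} (h : φ ∈ F.Len n) :
    op S (cup i a) φ ∈ F.Len (n + 2) :=
  F.op_mem _ (fun s hs t ht => by rw [length_step_cup ht]; omega) h

theorem W_Len (a : Ω) (i : ℕ) {n : ℕ} {φ : E Ω S} (h : φ ∈ F.Len n) :
    W S a i φ ∈ F.Len (n + 2) := by
  induction i with
  | zero => exact F.cup_Len 0 a h
  | succ i ih => exact F.cr_Len _ _ ih

theorem W_V (a : Ω) (i : ℕ) {φ : E Ω S} (h : φ ∈ F.V) : W S a i φ ∈ F.V := by
  induction i with
  | zero => exact F.op_mem_V _ h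
  | succ i ih => exact F.op_mem_V _ ih

theorem drag_V (p n : ℕ) {φ : E Ω S} (h : φ ∈ F.V) : drag Ω S p n φ ∈ F.V := by
  induction n with
  | zero => exact h
  | succ i ih => exact F.op_mem_V _ ih

theorem drag_Len (p n : ℕ) {m : ℕ} {φ : E Ω S} (h : φ ∈ F.Len m) : drag Ω S p n φ ∈ F.Len m := by
  induction n with
  | zero => exact h
  | succ i ih => exact F.cr_Len _ _ ih

theorem r2_Len (i : ℕ) (o : Bool) {φ : E Ω S} (hφ : φ ∈ F.Len (i + 2)) :
    op S (cr i (!o)) (op S (cr i o) φ) = φ :=
  F.r2 (n := i + 2) i o (by omega) hφ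

/-! ### Crossings -/

/-- A crossing to the right of the arc. -/
theorem cr_W_right {i q : ℕ} (h : i ≤ q) (a : Ω) (o : Bool) {φ : E Ω S} (hφ : φ ∈ F.V) :
    op S (cr (q + 2) o) (W S a i φ) = W S a i (op S (cr q o) φ) := by
  induction i with
  | zero => exact F.cr_cup h a o hφ
  | succ i ih =>
    rw [W_succ, F.cr_cr (by omega) true o (F.W_V a i hφ), ih (by omega), W_succ]

/-- A crossing under the arc. -/
theorem cr_W_left {i q : ℕ} (h : q + 2 ≤ i) (a : Ω) (o : Bool) {φ : E Ω S} (hφ : φ ∈ F.V) :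
    op S (cr (q + 1) o) (W S a i φ) = W S a i (op S (cr q o) φ) := by
  induction i, h using Nat.le_induction with
  | base =>
    rw [W_succ, W_succ, F.r3 (q + 1) true true o (by simp) (F.W_V a q hφ),
      F.cr_W_right (le_refl q) a o hφ, W_succ, W_succ]
  | succ i hi ih =>
    rw [W_succ, ← F.cr_cr (by omega) o true (F.W_V a i hφ), ih, W_succ]

theorem cr_W_succ_false (i : ℕ) (a : Ω) {φ : E Ω S} (hφ : φ ∈ F.Len (i + 1)) :
    op S (cr (i + 1) false) (W S a (i + 1) φ) = W S a i φ := by
  rw [W_succ]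
  exact F.r2_Len (i + 1) true (F.W_Len a i hφ)

/-- The curl at position `0`. -/
theorem cr_W_zero (a : Ω) (o : Bool) {φ : E Ω S} (hφ : φ ∈ F.V) :
    op S (cr 0 o) (W S a 0 φ) = F.kap o • W S (Dir.op a) 0 φ :=
  F.curl_cup 0 a o hφ

/-- The left end of the arc crosses over the next strand. -/
theorem cr_W_flip (a : Ω) (i : ℕ) {φ : E Ω S} (hφ : φ ∈ F.Len 1) :
    op S (cr 0 true) (W S a (i + 1) φ) = drag Ω S 2 i (op S (cup 1 a) φ) := by
  induction i with
  | zero =>
    rw [W_succ, W_zero, F.slideCup 0 a true (F.Len_V hφ), drag_zero]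
    exact F.r2_Len 0 false (F.Len_mono (by omega) (F.cup_Len 1 a hφ))
  | succ i ih =>
    rw [W_succ, ← F.cr_cr (by omega) true true (F.W_V a (i + 1) (F.Len_V hφ)), ih, drag_succ]
    congr 3
    omega

/-! ### Local minima -/

/-- A local minimum to the right of the arc. -/
theorem cup_W_right {i q : ℕ} (h : i ≤ q) (a b : Ω) {φ : E Ω S} (hφ : φ ∈ F.V) :
    op S (cup (q + 2) b) (W S a i φ) = W S a i (op S (cup q b) φ) := by
  induction i with
  | zero => exact F.cup_cup h a b hφ
  | succ i ih =>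
    rw [W_succ, F.cup_cr (by omega) b true (F.W_V a i hφ), ih (by omega), W_succ]

/-- A local minimum under the arc. -/
theorem cup_W_left {i q : ℕ} (h : q ≤ i) (a b : Ω) {φ : E Ω S} (hφ : φ ∈ F.Len q) :
    op S (cup (q + 1) b) (W S a i φ) = W S a (i + 2) (op S (cup q b) φ) := by
  induction i, h using Nat.le_induction with
  | base =>
    rw [W_succ, W_succ, ← F.cup_W_right (le_refl q) a b (F.Len_V hφ)]
    have h1 := F.slideCup (q + 1) b false (F.W_V a q (F.Len_V hφ))
    rw [Bool.not_false] at h1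
    rw [← h1]
    exact (F.r2_Len (q + 1 + 1) false (F.Len_mono (by omega)
      (F.cup_Len (q + 1) b (F.W_Len a q hφ)))).symm
  | succ i hi ih =>
    rw [W_succ, ← F.cr_cup (i := q + 1) (j := i + 1) (by omega) b true (F.W_V a i (F.Len_V hφ)), ih,
      W_succ a (i + 2)]

/-- Two arcs (case 1). -/
theorem drag_W {p n i : ℕ} (h : n = 0 ∨ p + n + 1 ≤ i) (a : Ω) {φ : E Ω S} (hφ : φ ∈ F.V) :
    drag Ω S (p + 1) n (W S a i φ) = W S a i (drag Ω S p n φ) := by
  induction n with
  | zero => rfl
  | succ n ih =>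
    have h' : p + (n + 1) + 1 ≤ i := by omega
    rw [drag_succ, ih (by omega), drag_succ, show p + 1 + n = p + n + 1 by omega,
      F.cr_W_left (by omega) a true (F.drag_V p n hφ)]

theorem W_eq_drag (a : Ω) (i : ℕ) (φ : E Ω S) : W S a i φ = drag Ω S 1 i (op S (cup 0 a) φ) := by
  induction i with
  | zero => rfl
  | succ i ih => rw [W_succ, drag_succ, ih, Nat.add_comm 1 i]

/-- Two arcs, the inner one under the outer one: the left ends may be interchanged. -/
theorem cr_W_W_left {i j : ℕ} (h : j ≤ i) (a b : Ω) {φ : E Ω S} (hφ : φ ∈ F.V) :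
    op S (cr 0 false) (W S a (i + 2) (W S b j φ)) = W S b (j + 1) (W S a i φ) := by
  -- the arc `a` over the whole arc `b`
  have h1 : W S a (i + 2) (W S b j φ) = drag Ω S 2 j (op S (cup 1 b) (W S a i φ)) := by
    have h0 : φ ∈ F.Len 0 := F.M_mono (fun _ _ => Nat.zero_le _) hφ
    rw [W_eq_drag b j, ← F.drag_W (p := 1) (by omega) a (F.op_mem_V _ hφ),
      F.cup_W_left (Nat.zero_le i) a b h0]
  have h0 : W S a i φ ∈ F.Len 2 :=
    F.Len_mono (by omega) (F.W_Len (n := 0) a i (F.M_mono (fun _ _ => Nat.zero_le _) hφ))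
  rw [h1, ← F.cr_W_flip b j (F.Len_mono (by omega) h0)]
  exact F.r2_Len 0 true (F.Len_mono (by omega) (F.W_Len b (j + 1) h0))

/-- Two arcs, the right end of the inner one to the right of the outer one. -/
theorem cr_W_W_right {i j : ℕ} (h : i ≤ j) (a b : Ω) {φ : E Ω S} (hφ : φ ∈ F.V) :
    op S (cr 0 true) (W S a (i + 1) (W S b j φ)) = W S b (j + 2) (W S a i φ) := by
  have h0 : φ ∈ F.Len 0 := F.M_mono (fun _ _ => Nat.zero_le _) hφ
  rw [F.cr_W_flip a i (F.Len_mono (by omega) (F.W_Len b j h0)),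
    F.cup_W_left (Nat.zero_le j) b a h0, W_eq_drag a i]
  exact F.drag_W (p := 1) (by omega) b (F.op_mem_V _ hφ)

/-! ### Local maxima -/

/-- A local maximum to the right of the arc. -/
theorem cap_W_right {i q : ℕ} (h : i ≤ q) (a : Ω) {φ : E Ω S} (hφ : φ ∈ F.V) :
    op S (cap (q + 2)) (W S a i φ) = W S a i (op S (cap q) φ) := by
  induction i with
  | zero => exact F.cap_cup h a hφ
  | succ i ih =>
    rw [W_succ, F.cap_cr (by omega) true (F.W_V a i hφ), ih (by omega), W_succ]

/-- A local maximum under the arc. -/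
theorem cap_W_left {i q : ℕ} (h : q ≤ i) (a : Ω) {φ : E Ω S} (hφ : φ ∈ F.Len (q + 1)) :
    op S (cap (q + 1)) (W S a (i + 2) φ) = W S a i (op S (cap q) φ) := by
  induction i, h using Nat.le_induction with
  | base =>
    have h1 := F.slideCap (q + 1) true (F.W_V a (q + 1) (F.Len_V hφ))
    have h2 : op S (cap (q + 1)) (W S a (q + 2) φ) = op S (cap (q + 1))
      (op S (cr (q + 1 + 1) true) (W S a (q + 1) φ)) := rfl
    have h3 := F.slideCap (q + 1) false (F.W_V a (q + 1) (F.Len_V hφ))
    rw [Bool.not_false] at h3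
    rw [h2, ← h3, F.cr_W_succ_false q a hφ, F.cap_W_right (le_refl q) a (F.Len_V hφ)]
  | succ i hi ih =>
    rw [W_succ a (i + 2), ← F.cr_cap (i := q + 1) (j := i + 1) (by omega) true
      (F.W_V a (i + 2) (F.Len_V hφ)), ih, W_succ]

/-- A local maximum at the right end of the arc. -/
theorem cap_W_right_end (i : ℕ) (a : Ω) {φ : E Ω S} (hφ : φ ∈ F.M (fun s => s[i]? = some a)) :
    op S (cap (i + 1)) (W S a i φ) = dragL Ω S i φ := by
  induction i generalizing φ with
  | zero => exact F.zigR 0 a hφ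
  | succ i ih =>
    have hV := F.mem_V hφ
    rw [W_succ, F.slideCap (i + 1) true (F.W_V a i hV), Bool.not_true,
      F.cr_W_right (le_refl i) a false hV, dragL_succ]
    apply ih
    refine F.op_mem _ (fun s hs t ht => ?_) hφ
    simp only [step] at ht
    match hd : s.drop i, ht with
    | x :: y :: u, ht =>
      simp only at ht
      rw [Option.some.injEq] at ht
      have hy : s[i + 1]? = some y := by
        have : (s.drop i)[1]? = some y := by rw [hd]; rfl
        rwa [List.getElem?_drop] at this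
      rw [hs, Option.some.injEq] at hy
      subst ht
      have hl : i < s.length := by
        by_contra hc
        rw [List.drop_eq_nil_of_le (by omega)] at hd
        simp at hd
      rw [List.getElem?_append_right (by simp), List.length_take, Nat.min_eq_left (by omega)]
      simp [hy]
    | [x], ht => simp at ht
    | [], ht => simp at ht

/-- A local maximum at the right end of the arc, after a crossing. -/
theorem cap_W_right_end' (i : ℕ) (a : Ω) {φ : E Ω S} (hφ : φ ∈ F.M (fun s => s[i]? = some a)) :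
    op S (cap (i + 1)) (W S a (i + 1) φ) = F.kap true • dragL Ω S i φ := by
  rw [W_succ, F.curl_cap (i + 1) true (F.W_V a i (F.mem_V hφ)), F.cap_W_right_end i a hφ]

/-- A local maximum at the left end of the arc. -/
theorem cap_W_left_end (i : ℕ) (a : Ω) {φ : E Ω S}
    (hφ : φ ∈ F.M (fun s => s[0]? = some (Dir.op a))) :
    op S (cap 0) (W S a (i + 1) φ) = F.kap false • drag Ω S 0 i φ := by
  have hV := F.mem_V hφ
  induction i with
  | zero =>
    rw [W_succ, W_zero, F.slideCup 0 a true hV, Bool.not_true,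
      F.curl_cap 0 false (F.op_mem_V _ hV), F.zigL 0 a hφ, drag_zero]
  | succ i ih =>
    rw [W_succ, ← F.cr_cap (i := 0) (j := i) (by omega) true (F.W_V a (i + 1) hV), ih, map_smul,
      drag_succ, Nat.zero_add]

end Skein

end Pool.Agent.Helper26.WD
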