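import Pool.Agent.Helper26.WD.SoundT

/-!
# Soundness of the evaluation of diagrams
-/

namespace Pool.Agent.Helper26.WD

set_option linter.unusedSectionVars false

open Piece Skein

variable {Ω : Type} [DecidableEq Ω] [Dir Ω] {S : Type} [CommRing S] {C : Type}

/-- The number of local maxima. -/
def caps {Ω : Type} : List (Piece Ω) → ℕ
  | [] => 0
  | cap _ :: D => caps D + 1
  | _ :: D => caps D

theorem caps_append {Ω : Type} (D D' : List (Piece Ω)) : caps (D ++ D') = caps D + caps D' := by
  induction D with
  | nil => simp [caps]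
  | cons p D ih =>
    cases p <;> simp only [List.cons_append, caps, ih] <;> omega

variable {F : Skein Ω S} {A : Alg Ω C} (I : Interp F A)

/-- The vector of a state. -/
def semS (x : St Ω C) : E Ω S := semV I x.k x.s x.v

theorem stepT_cup (i : ℕ) (b : Ω) (x : St Ω C) :
    stepT A (cup i b) x = ⟨x.k + 1, insS b (A.op b) i x.s, cupT C x.k i x.v⟩ := rfl

theorem stepT_cr (i : ℕ) (o : Bool) (x : St Ω C) :
    stepT A (cr i o) x = ⟨x.k, swp i x.s, crT A x.k i o x.s x.v⟩ := rfl

theorem stepT_cap (i k : ℕ) (s : List Ω) (v : L C (k + 2)) :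
    stepT A (cap i) ⟨k + 1, s, v⟩ = ⟨k, delS i s, capT A k i s v⟩ := rfl

theorem step_sound (p : Piece Ω) (x : St Ω C) (hx : x.s.length = 2 * x.k) {s' : List Ω}
    (h : step p x.s = some s') :
    (stepT A p x).s = s' ∧ s'.length = 2 * (stepT A p x).k ∧
      I.u ^ caps [p] • op S p (semS I x) = semS I (stepT A p x) := by
  cases p with
  | cup i b =>
    obtain ⟨h1, rfl⟩ := of_step_cup h
    rw [stepT_cup, I.op]
    refine ⟨rfl, ?_, ?_⟩
    · change (insS b (Dir.op b) i x.s).length = 2 * (x.k + 1)
      rw [length_insS _ _ h1]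
      omega
    · change I.u ^ 0 • _ = _
      rw [pow_zero, one_smul]
      exact cup_sound I b x.k i x.s hx h1 x.v
  | cr i o =>
    obtain ⟨h1, rfl⟩ := of_step_cr h
    rw [stepT_cr]
    refine ⟨rfl, ?_, ?_⟩
    · change (swp i x.s).length = 2 * x.k
      rw [length_swp]
      exact hx
    · change I.u ^ 0 • _ = _
      rw [pow_zero, one_smul]
      exact crT_sound I x.k i o x.s x.v hx h1
  | cap i =>
    obtain ⟨⟨y, hy, hy'⟩, rfl⟩ := of_step_cap h
    have hl := lt_of_get hy'
    obtain ⟨k, s, v⟩ := x
    match k, v, hx with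
    | 0, v, hx =>
      change s.length = 0 at hx
      change i + 1 < s.length at hl
      omega
    | k + 1, v, hx =>
      rw [stepT_cap]
      change s.length = 2 * (k + 1) at hx
      refine ⟨rfl, ?_, ?_⟩
      · have := length_delS hl
        change (delS i s).length = 2 * k
        change (delS i s).length + 2 = s.length at this
        omega
      · change I.u ^ 1 • _ = _
        rw [pow_one]
        exact capT_sound I k i s v (by omega) ⟨y, hy, hy'⟩

theorem run_sound (D : List (Piece Ω)) (x : St Ω C) (hx : x.s.length = 2 * x.k) {s' : List Ω}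
    (h : run D x.s = some s') :
    (runT A D x).s = s' ∧ s'.length = 2 * (runT A D x).k ∧
      I.u ^ caps D • opL S D (semS I x) = semS I (runT A D x) := by
  induction D generalizing x with
  | nil =>
    simp only [run_nil, Option.some.injEq] at h
    subst h
    refine ⟨rfl, hx, ?_⟩
    change I.u ^ 0 • _ = _
    rw [pow_zero, one_smul, opL_nil, runT_nil]
  | cons p D ih =>
    rw [run_cons] at h
    cases hs : step p x.s with
    | none => rw [hs] at h; simp at h
    | some t =>
      rw [hs, Option.bind_some] at h
      obtain ⟨h1, h2, h3⟩ := step_sound I p x hx hs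
      subst h1
      obtain ⟨h4, h5, h6⟩ := ih (stepT A p x) h2 h
      rw [runT_cons]
      refine ⟨h4, h5, ?_⟩
      have hc : caps (p :: D) = caps D + caps [p] := by
        have := caps_append [p] D
        simp only [List.cons_append, List.nil_append] at this
        omega
      rw [← h6, ← h3, map_smul, smul_smul, ← pow_add, ← hc, opL_cons]

/-- The initial state. -/
def St.init (A : Alg Ω C) : St Ω C := ⟨0, [], ([A.one] : List C)⟩

theorem semS_init : semS I (St.init A) = F.vec [] := by
  change (([A.one] : List C).map I.ι).sum • F.vec [] = F.vec []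
  simp [I.one]

/-- The value of a diagram computed by the algorithm. -/
def St.val (x : St Ω C) : List C :=
  match x with
  | ⟨0, _, v⟩ => v
  | ⟨_ + 1, _, _⟩ => []

theorem value_sound {D : List (Piece Ω)} (h : run D [] = some []) :
    I.u ^ caps D * F.f D =
      (((runT A D (St.init A)).val : List C).map I.ι).sum * F.f [] := by
  obtain ⟨h1, h2, h3⟩ := run_sound I D (St.init A) rfl h
  rw [semS_init] at h3
  have h4 := congrFun h3 []
  generalize runT A D (St.init A) = y at h1 h2 h3 h4 ⊢
  obtain ⟨k, s, v⟩ := y
  match k, v, h2, h4 with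
  | 0, v, h2, h4 =>
    have e1 : (I.u ^ caps D • opL S D (F.vec [])) [] = I.u ^ caps D * F.f D := by
      rw [opL_vec]
      change I.u ^ caps D * F.f ([] ++ D ++ []) = _
      simp
    rw [e1] at h4
    rw [h4]
    change ((v : List C).map I.ι).sum * F.f ([] ++ []) = _
    simp [St.val]
  | k + 1, v, h2, h4 =>
    simp at h2

theorem runT_append {A : Alg Ω C} (D D' : List (Piece Ω)) (x : St Ω C) :
    runT A (D ++ D') x = runT A D' (runT A D x) := by
  induction D generalizing x with
  | nil => rfl
  | cons p D ih => rw [List.cons_append, runT_cons, runT_cons, ih]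

end Pool.Agent.Helper26.WD
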