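import Pool.Agent.Helper26.WD.HomflyMod

/-!
# Coefficients
-/

namespace Pool.Agent.Helper26.WD

open Piece LaurentPolynomial

theorem coeff_T_mul {R : Type*} [CommRing R] (n k : ℤ) (g : LaurentPolynomial R) :
    (T n * g).coeff k = g.coeff (k - n) := by
  rw [T, AddMonoidAlgebra.coeff_single_mul_apply, one_mul, sub_eq_neg_add]

theorem coeff_C_mul {R : Type*} [CommRing R] (r : R) (g : LaurentPolynomial R) (k : ℤ) :
    (C r * g).coeff k = r * g.coeff k := by
  rw [← single_eq_C, AddMonoidAlgebra.coeff_single_mul_apply, neg_zero, zero_add]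

theorem coeff_C {R : Type*} [CommRing R] (r : R) (k : ℤ) :
    (C r : LaurentPolynomial R).coeff k = if k = 0 then r else 0 := by
  rw [← single_eq_C, AddMonoidAlgebra.coeff_single, Finsupp.single_apply]
  simp only [eq_comm]

theorem exists_isMaxExp {g : LaurentPolynomial (LaurentPolynomial ℤ)} {k : ℤ}
    (h : g.coeff k ≠ 0) : ∃ n, IsMaxExp g n ∧ k ≤ n := by
  have hk : k ∈ g.coeff.support := Finsupp.mem_support_iff.2 h
  refine ⟨g.coeff.support.max' ⟨k, hk⟩, ⟨?_, ?_⟩, Finset.le_max' _ _ hk⟩
  · exact Finsupp.mem_support_iff.1 (Finset.max'_mem _ _)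
  · intro j hj
    by_contra h0
    exact absurd (Finset.le_max' _ j (Finsupp.mem_support_iff.2 h0)) (not_le.2 hj)

theorem IsMaxExp.unique {g : LaurentPolynomial (LaurentPolynomial ℤ)} {m n : ℤ}
    (hm : IsMaxExp g m) (hn : IsMaxExp g n) : m = n := by
  rcases lt_trichotomy m n with h | h | h
  · exact absurd (hm.2 n h) hn.1
  · exact h
  · exact absurd (hn.2 m h) hm.1

theorem coeff_toL (l : List ℕ) (k : ℕ) : (toL l).coeff (k : ℤ) = ((l.getD k 0 : ℕ) : ZMod 7) := by
  induction l generalizing k with
  | nil => simp [toL]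
  | cons x l ih =>
    rw [toL, AddMonoidAlgebra.coeff_add, Finsupp.add_apply, coeff_C, coeff_T_mul]
    cases k with
    | zero =>
      have : (toL l).coeff (-1) = 0 := by
        clear ih
        have key : ∀ (l : List ℕ) (j : ℤ), j < 0 → (toL l).coeff j = 0 := by
          intro l
          induction l with
          | nil => intro j _; simp [toL]
          | cons x l ih =>
            intro j hj
            rw [toL, AddMonoidAlgebra.coeff_add, Finsupp.add_apply, coeff_C, coeff_T_mul,
              if_neg (by omega), ih _ (by omega), add_zero]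
        exact key l (-1) (by norm_num)
      simp [this]
    | succ k =>
      have h1 : ((k + 1 : ℕ) : ℤ) - 1 = (k : ℤ) := by push_cast; ring
      rw [h1, ih, if_neg (by omega), zero_add]
      simp

end Pool.Agent.Helper26.WD
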