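import Pool.Agent.Helper26.WD.Lists

/-!
# Counting three-colourings
-/

namespace Pool.Agent.Helper26.WD

set_option linter.unusedSectionVars false

open Piece

/-- Colours. -/
abbrev Col : Type := Fin 3

/-- The third colour of two different colours. -/
def thd (x y : Col) : Col := ⟨(2 * (x.val + y.val)) % 3, Nat.mod_lt _ (by norm_num)⟩

/-- Continuations. -/
abbrev Cont : Type := List Col → ℕ

/-- The action of a local minimum. -/
def fcup (s : List Col) (k : Cont) : ℕ := k (0 :: 0 :: s) + k (1 :: 1 :: s) + k (2 :: 2 :: s)

/-- The action of a local maximum. -/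
def fcap (s : List Col) (k : Cont) : ℕ :=
  match s with
  | a :: b :: s => if a = b then k s else 0
  | _ => 0

/-- The action of a crossing. -/
def fcr (o : Bool) (s : List Col) (k : Cont) : ℕ :=
  match s with
  | a :: b :: s => if o then k (thd a b :: a :: s) else k (b :: thd a b :: s)
  | _ => 0

/-- Action at a position. -/
def actAt (f : List Col → Cont → ℕ) : ℕ → List Col → Cont → ℕ
  | 0, s, k => f s k
  | _ + 1, [], _ => 0
  | i + 1, c :: s, k => actAt f i s (fun s' => k (c :: s'))

/-- The type of a piece. -/
def kind {Ω : Type} : Piece Ω → List Col → Cont → ℕ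
  | cup _ _ => fcup
  | cap _ => fcap
  | cr _ o => fcr o

/-- The action of a piece. -/
def act {Ω : Type} (p : Piece Ω) (s : List Col) (k : Cont) : ℕ := actAt (kind p) p.pos s k

/-- The number of extensions of a colouring of the strands at the bottom. -/
def cnt {Ω : Type} : List (Piece Ω) → Cont → Cont
  | [], k => k
  | p :: D, k => fun s => act p s (cnt D k)

variable {Ω : Type} [DecidableEq Ω] [Dir Ω]

theorem cnt_append (A B : List (Piece Ω)) (k : Cont) : cnt (A ++ B) k = cnt A (cnt B k) := by
  induction A with
  | nil => rfl
  | cons p A ih =>
    funext s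
    simp only [List.cons_append, cnt, ih]

theorem act_zero (p : Piece Ω) (h : p.pos = 0) (s : List Col) (k : Cont) :
    act p s k = kind p s k := by
  rw [act, h, actAt]

theorem act_shift_one_cons (p : Piece Ω) (c : Col) (s : List Col) (k : Cont) :
    act (p.shift 1) (c :: s) k = act p s (fun s' => k (c :: s')) := by
  cases p <;> rfl

theorem act_shift_one_nil (p : Piece Ω) (k : Cont) : act (p.shift 1) [] k = 0 := by
  cases p <;> rfl

theorem act_shift_two_cons (p : Piece Ω) (c d : Col) (s : List Col) (k : Cont) :
    act (p.shift 2) (c :: d :: s) k = act p s (fun s' => k (c :: d :: s')) := by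
  have : p.shift 2 = (p.shift 1).shift 1 := by rw [shift_shift]
  rw [this, act_shift_one_cons, act_shift_one_cons]

theorem act_shift_two_one (p : Piece Ω) (c : Col) (k : Cont) :
    act (p.shift 2) [c] k = 0 := by
  have : p.shift 2 = (p.shift 1).shift 1 := by rw [shift_shift]
  rw [this, act_shift_one_cons, act_shift_one_nil]

theorem act_shift_two_nil (p : Piece Ω) (k : Cont) : act (p.shift 2) [] k = 0 := by
  have : p.shift 2 = (p.shift 1).shift 1 := by rw [shift_shift]
  rw [this, act_shift_one_nil]

theorem kind_zero (p : Piece Ω) (s : List Col) : kind p s (fun _ => 0) = 0 := by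
  cases p with
  | cup i a => rfl
  | cap i =>
    match s with
    | [] => rfl
    | [a] => rfl
    | a :: b :: s => simp [kind, fcap]
  | cr i o =>
    match s with
    | [] => rfl
    | [a] => rfl
    | a :: b :: s => simp [kind, fcr]

theorem actAt_zero' (f : List Col → Cont → ℕ) (hf : ∀ s, f s (fun _ => 0) = 0) (i : ℕ)
    (s : List Col) : actAt f i s (fun _ => 0) = 0 := by
  induction i generalizing s with
  | zero => exact hf s
  | succ i ih =>
    match s with
    | [] => rfl
    | c :: s => exact ih s

theorem act_cont_zero (p : Piece Ω) (s : List Col) : act p s (fun _ => 0) = 0 :=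
  actAt_zero' _ (kind_zero p) _ s

theorem kind_add (p : Piece Ω) (s : List Col) (k k' : Cont) :
    kind p s (fun t => k t + k' t) = kind p s k + kind p s k' := by
  cases p with
  | cup i a => simp only [kind, fcup]; ring
  | cap i =>
    match s with
    | [] => rfl
    | [a] => rfl
    | a :: b :: s => simp only [kind, fcap]; split_ifs <;> simp
  | cr i o =>
    match s with
    | [] => rfl
    | [a] => rfl
    | a :: b :: s => simp only [kind, fcr]; split_ifs <;> rfl

theorem act_add (p : Piece Ω) (s : List Col) (k k' : Cont) :
    act p s (fun t => k t + k' t) = act p s k + act p s k' := by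
  unfold act
  generalize p.pos = i
  induction i generalizing s k k' with
  | zero => exact kind_add p s k k'
  | succ i ih =>
    match s with
    | [] => rfl
    | c :: s => exact ih s _ _

/-- Pieces far from each other. -/
theorem act_far (x y : Piece Ω) (h : x.pos ≤ y.pos) (s : List Col) (k : Cont) :
    act x s (fun t => act (y.shift x.out) t k) = act (y.shift x.inn) s (fun t => act x t k) := by
  obtain ⟨i, hi⟩ : ∃ i, x.pos = i := ⟨_, rfl⟩
  induction i generalizing x y s k with
  | zero =>
    cases x with
    | cup j a =>
      change j = 0 at hi
      subst hi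
      change act (cup 0 a) s (fun t => act (y.shift 2) t k) =
        act (y.shift 0) s (fun t => act (cup 0 a) t k)
      rw [shift_zero]
      change act (y.shift 2) _ k + act (y.shift 2) _ k + act (y.shift 2) _ k =
        act y s (fun t => k (0 :: 0 :: t) + k (1 :: 1 :: t) + k (2 :: 2 :: t))
      rw [act_shift_two_cons, act_shift_two_cons, act_shift_two_cons,
        act_add y s (fun t => k (0 :: 0 :: t) + k (1 :: 1 :: t)) (fun t => k (2 :: 2 :: t)),
        act_add]
    | cap j =>
      change j = 0 at hi
      subst hi
      change act (cap 0) s (fun t => act (y.shift 0) t k) =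
        act (y.shift 2) s (fun t => act (cap 0) t k)
      rw [shift_zero]
      match s with
      | [] =>
        rw [act_shift_two_nil]
        rfl
      | [a] =>
        rw [act_shift_two_one]
        rfl
      | a :: b :: s =>
        rw [act_shift_two_cons]
        change (if a = b then act y s k else 0) = act y s (fun t => if a = b then k t else 0)
        split_ifs
        · rfl
        · rw [act_cont_zero]
    | cr j o =>
      change j = 0 at hi
      subst hi
      change act (cr 0 o) s (fun t => act (y.shift 2) t k) =
        act (y.shift 2) s (fun t => act (cr 0 o) t k)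
      match s with
      | [] =>
        rw [act_shift_two_nil]
        rfl
      | [a] =>
        rw [act_shift_two_one]
        rfl
      | a :: b :: s =>
        rw [act_shift_two_cons]
        cases o with
        | false =>
          change act (y.shift 2) (b :: thd a b :: s) k = _
          rw [act_shift_two_cons]
          rfl
        | true =>
          change act (y.shift 2) (thd a b :: a :: s) k = _
          rw [act_shift_two_cons]
          rfl
  | succ i ih =>
    obtain ⟨x', rfl, hx⟩ := exists_shift x (by omega)
    obtain ⟨y', rfl, hy⟩ := exists_shift y (by omega)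
    have h1 : (x'.shift 1).out = x'.out := by cases x' <;> rfl
    have h2 : (x'.shift 1).inn = x'.inn := by cases x' <;> rfl
    have h3 : (y'.shift 1).shift x'.out = (y'.shift x'.out).shift 1 := by
      rw [shift_shift, shift_shift, Nat.add_comm]
    have h4 : (y'.shift 1).shift x'.inn = (y'.shift x'.inn).shift 1 := by
      rw [shift_shift, shift_shift, Nat.add_comm]
    rw [h1, h2, h3, h4]
    match s with
    | [] => rw [act_shift_one_nil, act_shift_one_nil]
    | c :: s =>
      rw [act_shift_one_cons, act_shift_one_cons]
      simp only [act_shift_one_cons]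
      exact ih x' y' (by omega) s _ (by omega)

/-- Reduction of a local identity to the position `0`. -/
theorem cnt_shift_one (A : List (Piece Ω)) (c : Col) (s : List Col) (k : Cont) :
    cnt (A.map (Piece.shift 1)) k (c :: s) = cnt A (fun s' => k (c :: s')) s := by
  induction A generalizing s with
  | nil => rfl
  | cons p A ih =>
    simp only [List.map_cons, cnt]
    rw [act_shift_one_cons]
    congr 1
    funext s'
    exact ih s'

theorem cnt_local (A B : ℕ → List (Piece Ω)) (m : ℕ)
    (hA : ∀ i, A (i + 1) = (A i).map (Piece.shift 1))
    (hB : ∀ i, B (i + 1) = (B i).map (Piece.shift 1))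
    (h0 : ∀ s k, m ≤ s.length → cnt (A 0) k s = cnt (B 0) k s) (i : ℕ) (s : List Col) (k : Cont)
    (hs : i + m ≤ s.length) : cnt (A i) k s = cnt (B i) k s := by
  induction i generalizing s k with
  | zero => exact h0 s k (by omega)
  | succ i ih =>
    match s with
    | [] => simp at hs
    | c :: s =>
      rw [hA, hB, cnt_shift_one, cnt_shift_one]
      apply ih
      simp only [List.length_cons] at hs
      omega

theorem step_length {p : Piece Ω} {s s' : List Ω} (h : step p s = some s') :
    p.pos + p.inn ≤ s.length ∧ s'.length + p.inn = s.length + p.out := by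
  cases p with
  | cup i a =>
    obtain ⟨h1, rfl⟩ := of_step_cup h
    refine ⟨h1, ?_⟩
    rw [length_insS _ _ h1]
    rfl
  | cr i o =>
    obtain ⟨h1, rfl⟩ := of_step_cr h
    refine ⟨h1, ?_⟩
    rw [length_swp]
    rfl
  | cap i =>
    obtain ⟨⟨y, hy, hy'⟩, rfl⟩ := of_step_cap h
    have hl := (List.getElem?_eq_some_iff.1 hy').1
    exact ⟨hl, length_delS hl⟩

theorem run_length_pair {p q : Piece Ω} {s s' : List Ω} (h : run [p, q] s = some s') :
    p.pos + p.inn ≤ s.length ∧ q.pos + q.inn + p.inn ≤ s.length + p.out := by
  rw [run_pair] at h
  cases hs : step p s with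
  | none => rw [hs] at h; simp at h
  | some t =>
    rw [hs, Option.bind_some] at h
    obtain ⟨h1, h2⟩ := step_length hs
    obtain ⟨h3, -⟩ := step_length h
    exact ⟨h1, by omega⟩

theorem cnt_move {A B : List (Piece Ω)} (hM : Move A B) (t t' : List Ω) (h : run A t = some t')
    (s : List Col) (hs : s.length = t.length) (k : Cont) : cnt A k s = cnt B k s := by
  cases hM with
  | reg hR =>
    cases hR with
    | far x y hxy => exact act_far x y hxy s k
    | zigR i a =>
      have hl := run_length_pair h
      simp only [pos, inn, out] at hl
      refine cnt_local (fun i => [cup i a, cap (i + 1)]) (fun _ => []) 1 (fun _ => rfl)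
        (fun _ => rfl) (fun s k hs => ?_) i s k (by omega)
      match s with
      | c :: s =>
        change ((if (0 : Col) = c then k (0 :: s) else 0) + (if (1 : Col) = c then k (1 :: s)
          else 0)) + (if (2 : Col) = c then k (2 :: s) else 0) = k (c :: s)
        fin_cases c <;> simp
    | zigL i a =>
      have hl := run_length_pair h
      simp only [pos, inn, out] at hl
      refine cnt_local (fun i => [cup (i + 1) a, cap i]) (fun _ => []) 1 (fun _ => rfl)
        (fun _ => rfl) (fun s k hs => ?_) i s k (by omega)
      match s with
      | c :: s =>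
        change ((if c = (0 : Col) then k (0 :: s) else 0) + (if c = (1 : Col) then k (1 :: s)
          else 0)) + (if c = (2 : Col) then k (2 :: s) else 0) = k (c :: s)
        fin_cases c <;> simp
    | slideCup i a o =>
      have hl := run_length_pair h
      simp only [pos, inn, out] at hl
      refine cnt_local (fun i => [cup i a, cr (i + 1) o]) (fun i => [cup (i + 1) a, cr i (!o)]) 1
        (fun _ => rfl) (fun _ => rfl) (fun s k hs => ?_) i s k (by omega)
      match s with
      | c :: s =>
        cases o with
        | true =>
          change k (0 :: thd 0 c :: 0 :: s) + k (1 :: thd 1 c :: 1 :: s) +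
            k (2 :: thd 2 c :: 2 :: s) = k (0 :: thd c 0 :: 0 :: s) + k (1 :: thd c 1 :: 1 :: s) +
            k (2 :: thd c 2 :: 2 :: s)
          fin_cases c <;> rfl
        | false =>
          change k (0 :: c :: thd 0 c :: s) + k (1 :: c :: thd 1 c :: s) +
            k (2 :: c :: thd 2 c :: s) = k (thd c 0 :: c :: 0 :: s) + k (thd c 1 :: c :: 1 :: s) +
            k (thd c 2 :: c :: 2 :: s)
          fin_cases c
          · change k (0 :: 0 :: 0 :: s) + k (1 :: 0 :: 2 :: s) + k (2 :: 0 :: 1 :: s) =
              k (0 :: 0 :: 0 :: s) + k (2 :: 0 :: 1 :: s) + k (1 :: 0 :: 2 :: s)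
            ring
          · change k (0 :: 1 :: 2 :: s) + k (1 :: 1 :: 1 :: s) + k (2 :: 1 :: 0 :: s) =
              k (2 :: 1 :: 0 :: s) + k (1 :: 1 :: 1 :: s) + k (0 :: 1 :: 2 :: s)
            ring
          · change k (0 :: 2 :: 1 :: s) + k (1 :: 2 :: 0 :: s) + k (2 :: 2 :: 2 :: s) =
              k (1 :: 2 :: 0 :: s) + k (0 :: 2 :: 1 :: s) + k (2 :: 2 :: 2 :: s)
            ring
    | slideCap i o =>
      have hl := run_length_pair h
      simp only [pos, inn, out] at hl
      refine cnt_local (fun i => [cr i o, cap (i + 1)]) (fun i => [cr (i + 1) (!o), cap i]) 3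
        (fun _ => rfl) (fun _ => rfl) (fun s k hs => ?_) i s k (by omega)
      match s with
      | a :: b :: c :: s =>
        cases o with
        | true =>
          change (if a = c then k (thd a b :: s) else 0) = (if a = c then k (thd b c :: s) else 0)
          fin_cases a <;> fin_cases b <;> fin_cases c <;> rfl
        | false =>
          change (if thd a b = c then k (b :: s) else 0) = (if a = thd b c then k (b :: s) else 0)
          fin_cases a <;> fin_cases b <;> fin_cases c <;> rfl
    | r2 i o =>
      have hl := run_length_pair h
      simp only [pos, inn, out] at hl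
      refine cnt_local (fun i => [cr i o, cr i (!o)]) (fun _ => []) 2
        (fun _ => rfl) (fun _ => rfl) (fun s k hs => ?_) i s k (by omega)
      match s with
      | a :: b :: s =>
        cases o with
        | true =>
          change k (a :: thd (thd a b) a :: s) = k (a :: b :: s)
          fin_cases a <;> fin_cases b <;> rfl
        | false =>
          change k (thd b (thd a b) :: b :: s) = k (a :: b :: s)
          fin_cases a <;> fin_cases b <;> rfl
    | r3 i o₁ o₂ o₃ ho =>
      have hl : i + 3 ≤ s.length := by
        have h' : run ([cr i o₁, cr (i + 1) o₂] ++ [cr i o₃]) t = some t' := h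
        rw [run_append] at h'
        cases hr : run [cr i o₁, cr (i + 1) o₂] t with
        | none => rw [hr] at h'; simp at h'
        | some u =>
          have hl := run_length_pair hr
          simp only [pos, inn, out] at hl
          omega
      refine cnt_local (fun i => [cr i o₁, cr (i + 1) o₂, cr i o₃])
        (fun i => [cr (i + 1) o₃, cr i o₂, cr (i + 1) o₁]) 3
        (fun _ => rfl) (fun _ => rfl) (fun s k hs => ?_) i s k (by omega)
      match s with
      | a :: b :: c :: s =>
        revert ho
        cases o₁ <;> cases o₂ <;> cases o₃ <;> intro ho <;>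
          first
          | (exfalso; exact ho ⟨rfl, by decide⟩)
          | (fin_cases a <;> fin_cases b <;> fin_cases c <;> rfl)
  | curlCup i a o =>
    have hl := run_length_pair h
    simp only [pos, inn, out] at hl
    refine cnt_local (fun i => [cup i a, cr i o]) (fun i => [cup i (Dir.op a)]) 0
      (fun _ => rfl) (fun _ => rfl) (fun s k hs => ?_) i s k (by omega)
    cases o <;> rfl
  | curlCap i o =>
    have hl := run_length_pair h
    simp only [pos, inn, out] at hl
    refine cnt_local (fun i => [cr i o, cap i]) (fun i => [cap i]) 2
      (fun _ => rfl) (fun _ => rfl) (fun s k hs => ?_) i s k (by omega)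
    match s with
    | a :: b :: s =>
      cases o <;> fin_cases a <;> fin_cases b <;> rfl

theorem act_congr (p : Piece Ω) (s : List Col) (k k' : Cont)
    (h : ∀ s' : List Col, s'.length + p.inn = s.length + p.out → k s' = k' s') :
    act p s k = act p s k' := by
  obtain ⟨i, hi⟩ : ∃ i, p.pos = i := ⟨_, rfl⟩
  induction i generalizing p s k k' with
  | zero =>
    rw [act_zero p hi, act_zero p hi]
    cases p with
    | cup i a =>
      simp only [kind, fcup]
      simp only [inn, out] at h
      rw [h (0 :: 0 :: s) rfl, h (1 :: 1 :: s) rfl, h (2 :: 2 :: s) rfl]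
    | cap i =>
      match s with
      | [] => rfl
      | [a] => rfl
      | a :: b :: s =>
        simp only [kind, fcap]
        split_ifs
        · exact h s rfl
        · rfl
    | cr i o =>
      match s with
      | [] => rfl
      | [a] => rfl
      | a :: b :: s =>
        simp only [kind, fcr]
        rw [h (thd a b :: a :: s) rfl, h (b :: thd a b :: s) rfl]
  | succ i ih =>
    obtain ⟨p', rfl, hp⟩ := exists_shift p (by omega)
    match s with
    | [] => rw [act_shift_one_nil, act_shift_one_nil]
    | c :: s =>
      rw [act_shift_one_cons, act_shift_one_cons]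
      apply ih
      · intro s' hs'
        apply h
        have h1 : (p'.shift 1).out = p'.out := by cases p' <;> rfl
        have h2 : (p'.shift 1).inn = p'.inn := by cases p' <;> rfl
        rw [h1, h2]
        simp only [List.length_cons]
        omega
      · omega

theorem cnt_congr (D : List (Piece Ω)) (k k' : Cont) (t u : List Ω)
    (s : List Col) (hs : s.length = t.length) (h : run D t = some u)
    (hk : ∀ s' : List Col, s'.length = u.length → k s' = k' s') : cnt D k s = cnt D k' s := by
  induction D generalizing s t with
  | nil =>
    simp only [run_nil, Option.some.injEq] at h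
    subst h
    exact hk s hs
  | cons p D ih =>
    rw [run_cons] at h
    cases hr : step p t with
    | none => rw [hr] at h; simp at h
    | some v =>
      rw [hr, Option.bind_some] at h
      have hl := (step_length hr).2
      exact act_congr p s _ _ fun s' hs' => ih v s' (by omega) h

/-- The number of three-colourings. -/
def cols (D : List (Piece Ω)) : ℕ := cnt D (fun _ => 1) []

theorem cols_stepBy {D D' : List (Piece Ω)} (h : StepBy Move D D') : cols D = cols D' := by
  obtain ⟨D₁, A, B, D₂, hM, rfl, rfl, hd, hd'⟩ := h
  unfold cols
  rw [cnt_append, cnt_append, cnt_append, cnt_append]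
  unfold IsDiagram at hd
  rw [run_append, run_append] at hd
  cases hr : run D₁ [] with
  | none => rw [hr] at hd; simp at hd
  | some u =>
    rw [hr, Option.bind_some] at hd
    cases hA : run A u with
    | none => rw [hA] at hd; simp at hd
    | some v =>
      exact cnt_congr D₁ _ _ [] u [] rfl hr fun s' hs' => cnt_move hM u v hA s' hs' _

theorem cols_isotopic {D D' : List (Piece Ω)} (h : Isotopic D D') : cols D = cols D' := by
  induction h with
  | rel _ _ h => exact cols_stepBy h
  | refl _ => rfl
  | symm _ _ _ ih => exact ih.symm
  | trans _ _ _ _ _ ih₁ ih₂ => exact ih₁.trans ih₂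

end Pool.Agent.Helper26.WD
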