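import Mathlib

/-!
# Sliced link diagrams, the HOMFLY polynomial, the Kauffman polynomial, Whitehead doubles

Link diagrams are given as sliced (Morse) diagrams: a diagram is a list of elementary pieces
(local minima, local maxima, crossings), read from bottom to top.  At each level the diagram meets
a horizontal line in finitely many strands, numbered `0, 1, 2, …` from left to right, and each
strand has a direction.  For oriented diagrams the directions are `true` (upwards) and `false`
(downwards); for unoriented diagrams the type of directions is `Unit`.

Two diagrams of links are isotopic iff they are related by the planar moves and the Reidemeister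
moves listed below (`RegMove`, `Move`).
-/

namespace Pool.Agent.Helper26.WD

/-- A type of directions of strands, with reversal of directions. -/
class Dir (Ω : Type) where
  /-- the opposite direction -/
  op : Ω → Ω
  op_op : ∀ a, op (op a) = a

/-- Oriented diagrams: `true` is upwards, `false` is downwards. -/
instance : Dir Bool := ⟨Bool.not, Bool.not_not⟩

/-- Unoriented diagrams. -/
instance : Dir Unit := ⟨id, fun _ => rfl⟩

/-- Elementary pieces of sliced diagrams, read from bottom to top.
* `cup i a` is a local minimum: it creates two new adjacent strands, at the positions `i` and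
  `i + 1`, with directions `a` and `op a`.
* `cap i` is a local maximum: it joins the strands at the positions `i` and `i + 1`.
* `cr i o` is a crossing of the strands at the positions `i` and `i + 1`.  If `o = true`, the
  strand going from position `i` (below) to position `i + 1` (above) passes over the other one;
  if `o = false`, the strand going from position `i + 1` to position `i` passes over. -/
inductive Piece (Ω : Type) : Type
  | cup (i : ℕ) (a : Ω)
  | cap (i : ℕ)
  | cr (i : ℕ) (o : Bool)

namespace Piece

variable {Ω : Type}

/-- The position of a piece. -/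
def pos : Piece Ω → ℕ
  | cup i _ => i
  | cap i => i
  | cr i _ => i

/-- The number of strands entering a piece from below. -/
def inn : Piece Ω → ℕ
  | cup _ _ => 0
  | cap _ => 2
  | cr _ _ => 2

/-- The number of strands leaving a piece at the top. -/
def out : Piece Ω → ℕ
  | cup _ _ => 2
  | cap _ => 0
  | cr _ _ => 2

/-- The piece moved to the right by `k` positions. -/
def shift (k : ℕ) : Piece Ω → Piece Ω
  | cup i a => cup (i + k) a
  | cap i => cap (i + k)
  | cr i o => cr (i + k) o

end Piece

open Piece

section Run

variable {Ω : Type} [DecidableEq Ω] [Dir Ω]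

/-- The effect of a piece on the list of directions of the strands; `none` if the piece does not
fit. -/
def step : Piece Ω → List Ω → Option (List Ω)
  | cup i a, s => if i ≤ s.length then some (s.take i ++ a :: Dir.op a :: s.drop i) else none
  | cap i, s =>
    match s.drop i with
    | a :: b :: t => if b = Dir.op a then some (s.take i ++ t) else none
    | _ => none
  | cr i _, s =>
    match s.drop i with
    | a :: b :: t => some (s.take i ++ b :: a :: t)
    | _ => none

/-- The effect of a list of pieces on the list of directions of the strands. -/
def run : List (Piece Ω) → List Ω → Option (List Ω)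
  | [], s => some s
  | p :: D, s => (step p s).bind (run D)

/-- `D` is a diagram of a (possibly empty) link. -/
def IsDiagram (D : List (Piece Ω)) : Prop := run D [] = some []

end Run

section Moves

variable {Ω : Type} [DecidableEq Ω] [Dir Ω]

/-- Local moves generating regular isotopy of diagrams in the plane. -/
inductive RegMove : List (Piece Ω) → List (Piece Ω) → Prop
  /-- pieces far from each other may be interchanged -/
  | far (x y : Piece Ω) (h : x.pos ≤ y.pos) :
      RegMove [x, y.shift x.out] [y.shift x.inn, x]
  /-- zigzags may be straightened -/
  | zigR (i : ℕ) (a : Ω) : RegMove [cup i a, cap (i + 1)] []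
  | zigL (i : ℕ) (a : Ω) : RegMove [cup (i + 1) a, cap i] []
  /-- a strand may be slid over or under a local minimum -/
  | slideCup (i : ℕ) (a : Ω) (o : Bool) :
      RegMove [cup i a, cr (i + 1) o] [cup (i + 1) a, cr i (!o)]
  /-- a strand may be slid over or under a local maximum -/
  | slideCap (i : ℕ) (o : Bool) :
      RegMove [cr i o, cap (i + 1)] [cr (i + 1) (!o), cap i]
  /-- second Reidemeister move -/
  | r2 (i : ℕ) (o : Bool) : RegMove [cr i o, cr i (!o)] []
  /-- third Reidemeister move; the hypothesis says that the three strands are at three different
  heights -/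
  | r3 (i : ℕ) (o₁ o₂ o₃ : Bool) (h : ¬ (o₁ = o₃ ∧ o₂ ≠ o₁)) :
      RegMove [cr i o₁, cr (i + 1) o₂, cr i o₃] [cr (i + 1) o₃, cr i o₂, cr (i + 1) o₁]

/-- Local moves generating isotopy of diagrams: the moves of regular isotopy and the first
Reidemeister move. -/
inductive Move : List (Piece Ω) → List (Piece Ω) → Prop
  | reg {A B : List (Piece Ω)} (h : RegMove A B) : Move A B
  | curlCup (i : ℕ) (a : Ω) (o : Bool) : Move [cup i a, cr i o] [cup i (Dir.op a)]
  | curlCap (i : ℕ) (o : Bool) : Move [cr i o, cap i] [cap i]

/-- One local move inside a diagram. -/
def StepBy (M : List (Piece Ω) → List (Piece Ω) → Prop) (D D' : List (Piece Ω)) : Prop :=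
  ∃ D₁ A B D₂, M A B ∧ D = D₁ ++ A ++ D₂ ∧ D' = D₁ ++ B ++ D₂ ∧ IsDiagram D ∧ IsDiagram D'

/-- Regular isotopy of diagrams. -/
def RegIsotopic (D D' : List (Piece Ω)) : Prop := Relation.EqvGen (StepBy RegMove) D D'

/-- Isotopy of (the links given by) diagrams. -/
def Isotopic (D D' : List (Piece Ω)) : Prop := Relation.EqvGen (StepBy Move) D D'

end Moves

/-- The positive crossing of two strands with directions `a` and `b`. -/
def posCr (i : ℕ) (a b : Bool) : Piece Bool := cr i (a == b)

/-- The negative crossing of two strands with directions `a` and `b`. -/
def negCr (i : ℕ) (a b : Bool) : Piece Bool := cr i (!(a == b))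

/-- The oriented smoothing of a crossing of two strands with directions `a` and `b`. -/
def smooth (i : ℕ) (a b : Bool) : List (Piece Bool) := if a = b then [] else [cap i, cup i b]

open LaurentPolynomial in
/-- `P` is the HOMFLY polynomial: an invariant of oriented links with values in
`ℤ[l, l⁻¹][m, m⁻¹]` (the outer variable is `m`, the inner variable is `l`), with value `1` on the
unknot and satisfying the skein relation `l⁻¹ P(L₊) - l P(L₋) = m P(L₀)`. -/
structure IsHomfly (P : List (Piece Bool) → LaurentPolynomial (LaurentPolynomial ℤ)) : Prop where
  isotopy : ∀ D D', Isotopic D D' → P D = P D'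
  unknot : P [cup 0 true, cap 0] = 1
  skein : ∀ (D₁ D₂ : List (Piece Bool)) (i : ℕ) (s₁ s₂ : List Bool) (a b : Bool),
    run D₁ [] = some (s₁ ++ a :: b :: s₂) → s₁.length = i →
    run D₂ (s₁ ++ b :: a :: s₂) = some [] →
    C (T (-1)) * P (D₁ ++ [posCr i a b] ++ D₂) - C (T 1) * P (D₁ ++ [negCr i a b] ++ D₂)
      = T 1 * P (D₁ ++ smooth i a b ++ D₂)

open LaurentPolynomial in
/-- `B` is the regular isotopy invariant of unoriented link diagrams with values in
`ℤ[a, a⁻¹][z, z⁻¹]` (the outer variable is `z`, the inner variable is `a`) from which the Kauffman
polynomial is obtained: it is `1` on the circle, it is multiplied by `a` resp. `a⁻¹` by a positive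
resp. negative curl, and at any crossing the values at the diagram and at the crossing-switched
diagram add up to `z` times the sum of the values at the two smoothings. -/
structure IsKauffman (B : List (Piece Unit) → LaurentPolynomial (LaurentPolynomial ℤ)) :
    Prop where
  regular : ∀ D D', RegIsotopic D D' → B D = B D'
  unknot : B [cup 0 (), cap 0] = 1
  curlCup : ∀ (D₁ D₂ : List (Piece Unit)) (i : ℕ) (o : Bool),
    IsDiagram (D₁ ++ [cup i (), cr i o] ++ D₂) →
    B (D₁ ++ [cup i (), cr i o] ++ D₂) = C (T (if o then -1 else 1)) * B (D₁ ++ [cup i ()] ++ D₂)
  curlCap : ∀ (D₁ D₂ : List (Piece Unit)) (i : ℕ) (o : Bool),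
    IsDiagram (D₁ ++ [cr i o, cap i] ++ D₂) →
    B (D₁ ++ [cr i o, cap i] ++ D₂) = C (T (if o then -1 else 1)) * B (D₁ ++ [cap i] ++ D₂)
  skein : ∀ (D₁ D₂ : List (Piece Unit)) (i : ℕ) (o : Bool),
    IsDiagram (D₁ ++ [cr i o] ++ D₂) →
    B (D₁ ++ [cr i o] ++ D₂) + B (D₁ ++ [cr i (!o)] ++ D₂)
      = T 1 * (B (D₁ ++ D₂) + B (D₁ ++ [cap i, cup i ()] ++ D₂))

/-- Forget the orientation of a piece. -/
def Piece.forget : Piece Bool → Piece Unit
  | cup i _ => cup i ()
  | cap i => cap i
  | cr i o => cr i o

/-- The sign of the piece `p`, if the strands below it have the directions `s`: `1` for a positive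
crossing, `-1` for a negative crossing, `0` for a cup or cap. -/
def pieceSign : Piece Bool → List Bool → ℤ
  | cr i o, s =>
    match s.drop i with
    | a :: b :: _ => if o = (a == b) then 1 else -1
    | _ => 0
  | _, _ => 0

/-- The writhe of an oriented diagram. -/
def writheFrom : List (Piece Bool) → List Bool → ℤ
  | [], _ => 0
  | p :: D, s => pieceSign p s + writheFrom D ((step p s).getD [])

/-- The writhe of an oriented diagram. -/
def writhe (D : List (Piece Bool)) : ℤ := writheFrom D []

open LaurentPolynomial in
/-- The Kauffman polynomial `F(L) = a ^ (-w(D)) [D]` of an oriented link diagram, where `B` is the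
bracket `[ ]`. -/
noncomputable def kauffmanF (B : List (Piece Unit) → LaurentPolynomial (LaurentPolynomial ℤ))
    (D : List (Piece Bool)) : LaurentPolynomial (LaurentPolynomial ℤ) :=
  C (T (-writhe D)) * B (D.map Piece.forget)

/-- The largest exponent of the outer variable occurring in `g` is `n`. -/
def IsMaxExp (g : LaurentPolynomial (LaurentPolynomial ℤ)) (n : ℤ) : Prop :=
  g.coeff n ≠ 0 ∧ ∀ k, n < k → g.coeff k = 0

/-- Labellings of the strands of a diagram which are constant along components: `x k` is the label
of the `k`-th local minimum (counted from `0`), `n` is the number of local minima below the current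
level, `t` is the list of labels of the strands at the current level. -/
def Labels {Ω α : Type} (x : ℕ → α) : List (Piece Ω) → ℕ → List α → Prop
  | [], _, _ => True
  | cup i _ :: D, n, t => Labels x D (n + 1) (t.take i ++ x n :: x n :: t.drop i)
  | cap i :: D, n, t =>
    match t.drop i with
    | a :: b :: t' => a = b ∧ Labels x D n (t.take i ++ t')
    | _ => False
  | cr i _ :: D, n, t =>
    match t.drop i with
    | a :: b :: t' => Labels x D n (t.take i ++ b :: a :: t')
    | _ => False

/-- The number of local minima. -/
def minima {Ω : Type} (D : List (Piece Ω)) : ℕ :=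
  (D.filter fun p => match p with | cup _ _ => true | _ => false).length

/-- `D` is a diagram of a knot: it is nonempty and every labelling of its strands which is constant
along components is constant. -/
def IsKnot (D : List (Piece Bool)) : Prop :=
  IsDiagram D ∧ D ≠ [] ∧
    ∀ x : ℕ → Bool, Labels x D 0 [] → ∀ i < minima D, ∀ j < minima D, x i = x j

/-- The two parallel copies, with opposite directions, of a piece: strand number `i` is replaced by
the strands number `2 i` (upwards) and `2 i + 1` (downwards). -/
def Piece.double : Piece Bool → List (Piece Bool)
  | cup i _ => [cup (2 * i) true, cup (2 * i + 1) false]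
  | cap i => [cap (2 * i + 1), cap (2 * i)]
  | cr i o => [cr (2 * i + 1) o, cr (2 * i) o, cr (2 * i + 2) o, cr (2 * i + 1) o]

/-- The clasp, in place of the doubled strand number `i`; `c` determines the sign of the clasp. -/
def clasp (i : ℕ) (c : Bool) : List (Piece Bool) :=
  [cup (2 * i + 2) true, cr (2 * i + 1) c, cr (2 * i + 1) c, cap (2 * i)]

/-- `k` full twists of the doubled strand number `i`; `o` determines their sign. -/
def fullTwists (i k : ℕ) (o : Bool) : List (Piece Bool) := List.replicate (2 * k) (cr (2 * i) o)

/-- `W` is a Whitehead double of the knot with diagram `K`: two parallel copies of `K` with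
opposite directions, with a number of full twists and a clasp inserted in the doubled strand
number `i` at some level of `K`. -/
def IsWhiteheadDouble (K W : List (Piece Bool)) : Prop :=
  ∃ (K₁ K₂ : List (Piece Bool)) (s : List Bool) (i k : ℕ) (o c : Bool),
    K = K₁ ++ K₂ ∧ run K₁ [] = some s ∧ i < s.length ∧
    W = K₁.flatMap Piece.double ++ fullTwists i k o ++ clasp i c ++ K₂.flatMap Piece.double

end Pool.Agent.Helper26.WD
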