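import Pool.Agent.Helper26.WD.KauFun

/-!
# Existence of the Kauffman polynomial from Kauffman functionals over the complex numbers
-/

namespace Pool.Agent.Helper26.WD

open Piece LaurentPolynomial

theorem infinite_unitsC : (Set.univ : Set ℂˣ).Infinite := by
  let g : ℕ → ℂˣ := fun n => Units.mk0 ((n : ℂ) + 1) (by exact_mod_cast Nat.succ_ne_zero n)
  apply Set.infinite_of_injective_forall_mem (f := g)
  · intro n k h
    have h1 : (g n : ℂ) = g k := by rw [h]
    simp only [g, Units.val_mk0, add_left_inj] at h1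
    exact_mod_cast h1
  · intro n
    trivial

/-- The Kauffman polynomial exists. -/
theorem exists_isKauffman_of (h : ∀ a z : ℂˣ, ∃ g, KauFun a z g) : ∃ B, IsKauffman B := by
  apply exists_isKauffman (K := ℂ) (fun a => {z | (z : ℂ) ≠ (a : ℂ) + (a : ℂ)⁻¹})
  · have h1 : {l : ℂˣ | {z : ℂˣ | (z : ℂ) ≠ (l : ℂ) + (l : ℂ)⁻¹}.Infinite} = Set.univ := by
      apply Set.eq_univ_of_forall
      intro l
      have h2 : {z : ℂˣ | (z : ℂ) = (l : ℂ) + (l : ℂ)⁻¹}.Finite := by
        apply Set.Subsingleton.finite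
        intro x hx y hy
        apply Units.ext
        rw [Set.mem_setOf_eq] at hx hy
        rw [hx, hy]
      have h3 : {z : ℂˣ | (z : ℂ) ≠ (l : ℂ) + (l : ℂ)⁻¹} =
          Set.univ \ {z : ℂˣ | (z : ℂ) = (l : ℂ) + (l : ℂ)⁻¹} := by
        ext z
        simp
      rw [Set.mem_setOf_eq, h3]
      exact infinite_unitsC.diff h2
    rw [h1]
    exact infinite_unitsC
  · intro a z hz h0
    apply hz
    have hz0 : (z : ℂ) ≠ 0 := z.ne_zero
    have h1 : ((a : ℂ) + (a : ℂ)⁻¹) / z = 1 := by linear_combination h0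
    rw [div_eq_one_iff_eq hz0] at h1
    exact h1.symm
  · intro a z _
    exact h a z

end Pool.Agent.Helper26.WD
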