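import Pool.Agent.Helper26.WD.ExistsP
import Pool.Agent.Helper26.WD.ExistsB
import Pool.Agent.Helper99.GLN.Main

/-!
# Existence of the HOMFLY polynomial
-/

namespace Pool.Agent.Helper26.WD

/-- The HOMFLY polynomial exists. -/
theorem exists_homfly : ∃ P, IsHomfly P :=
  exists_isHomfly_of_glN (fun N hN q hq => Helper99.GLN.exists_glN N hN q hq)

end Pool.Agent.Helper26.WD
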