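import Pool.Agent.Helper26.WD.HomFun

/-!
# Existence of the HOMFLY polynomial from the `gl_N` functionals
-/

namespace Pool.Agent.Helper26.WD

open Piece LaurentPolynomial

/-- The statement on `gl_N` functionals. -/
def GLN : Prop := ∀ (N : ℕ), 0 < N → ∀ q : ℝ, 1 < q →
  ∃ f : List (Piece Bool) → ℝ,
    (∀ D D', StepBy Move D D' → f D = f D') ∧
    f [] = 1 ∧
    (∀ D, run D [] ≠ some [] → f D = 0) ∧
    (q - q⁻¹) * f [cup 0 true, cap 0] = q ^ N - (q⁻¹) ^ N ∧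
    (∀ (D₁ D₂ : List (Piece Bool)) (i : ℕ) (s₁ s₂ : List Bool) (a b : Bool),
      run D₁ [] = some (s₁ ++ a :: b :: s₂) → s₁.length = i →
      run D₂ (s₁ ++ b :: a :: s₂) = some [] →
      q ^ N * f (D₁ ++ [posCr i a b] ++ D₂) - (q⁻¹) ^ N * f (D₁ ++ [negCr i a b] ++ D₂)
        = (q - q⁻¹) * f (D₁ ++ smooth i a b ++ D₂))

/-- The pairs of parameters. -/
def ZH (l : ℝˣ) : Set ℝˣ :=
  {m | ∃ N : ℕ, 0 < N ∧ ∃ q : ℝ, 1 < q ∧ (l : ℝ)⁻¹ = q ^ N ∧ (m : ℝ) = q - q⁻¹}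

theorem sub_inv_pos {q : ℝ} (hq : 1 < q) : 0 < q - q⁻¹ := by
  have h1 : q⁻¹ < 1 := inv_lt_one_of_one_lt₀ hq
  linarith

theorem sub_inv_inj {p q : ℝ} (hp : 1 < p) (hq : 1 < q) (h : p - p⁻¹ = q - q⁻¹) : p = q := by
  have hp0 : p ≠ 0 := by positivity
  have hq0 : q ≠ 0 := by positivity
  have h1 : (p - q) * (p * q + 1) = 0 := by
    have h2 : p * q * (p - p⁻¹) = p * q * (q - q⁻¹) := by rw [h]
    have h3 : p * q * (p - p⁻¹) = p ^ 2 * q - q := by field_simp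
    have h4 : p * q * (q - q⁻¹) = p * q ^ 2 - p := by field_simp
    rw [h3, h4] at h2
    linear_combination h2
  rcases mul_eq_zero.1 h1 with h2 | h2
  · linarith
  · have : 0 < p * q := by positivity
    linarith

theorem infinite_ZH {c : ℝ} (hc : 1 < c) (l : ℝˣ) (hl : (l : ℝ) = c⁻¹) : (ZH l).Infinite := by
  have hc0 : (0 : ℝ) < c := by linarith
  have hroot : ∀ n : ℕ, 1 < c ^ ((n + 1 : ℕ) : ℝ)⁻¹ := fun n =>
    Real.one_lt_rpow hc (by positivity)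
  let g : ℕ → ℝˣ := fun n =>
    Units.mk0 (c ^ ((n + 1 : ℕ) : ℝ)⁻¹ - (c ^ ((n + 1 : ℕ) : ℝ)⁻¹)⁻¹) (sub_inv_pos (hroot n)).ne'
  apply Set.infinite_of_injective_forall_mem (f := g)
  · intro n k h
    have h1 : (g n : ℝ) = g k := by rw [h]
    simp only [g, Units.val_mk0] at h1
    have h2 := sub_inv_inj (hroot n) (hroot k) h1
    have h3 := (Real.rpow_right_inj hc0 hc.ne').1 h2
    have h4 := inv_injective h3
    have h5 : n + 1 = k + 1 := by exact_mod_cast h4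
    omega
  · intro n
    refine ⟨n + 1, Nat.succ_pos n, c ^ ((n + 1 : ℕ) : ℝ)⁻¹, hroot n, ?_, rfl⟩
    rw [hl, inv_inv, Real.rpow_inv_natCast_pow hc0.le (Nat.succ_ne_zero n)]

theorem infinite_infinite_ZH : {l | (ZH l).Infinite}.Infinite := by
  let g : ℕ → ℝˣ := fun n => Units.mk0 (((n : ℝ) + 2)⁻¹) (by positivity)
  apply Set.infinite_of_injective_forall_mem (f := g)
  · intro n k h
    have h1 : (g n : ℝ) = g k := by rw [h]
    simp only [g, Units.val_mk0] at h1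
    have h2 := inv_injective h1
    have h3 : (n : ℝ) = k := by linarith
    exact_mod_cast h3
  · intro n
    apply infinite_ZH (c := (n : ℝ) + 2)
    · have : (0 : ℝ) ≤ n := Nat.cast_nonneg n
      linarith
    · rfl

/-- The HOMFLY polynomial exists. -/
theorem exists_isHomfly_of_glN (h : GLN) : ∃ P, IsHomfly P := by
  apply exists_isHomfly ZH infinite_infinite_ZH
  · rintro l m ⟨N, hN, q, hq, hl, hm⟩
    have h1 : 1 < q ^ N := one_lt_pow₀ hq hN.ne'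
    have h2 : (l : ℝ) < 1 := by
      have h3 : (l : ℝ) = (q ^ N)⁻¹ := by rw [← hl, inv_inv]
      rw [h3]
      exact inv_lt_one_of_one_lt₀ h1
    rw [hl]
    intro h0
    linarith
  · rintro l m ⟨N, hN, q, hq, hl, hm⟩
    obtain ⟨f, h1, h2, h3, h4, h5⟩ := h N hN q hq
    have hl' : (l : ℝ) = q⁻¹ ^ N := by rw [inv_pow, ← hl, inv_inv]
    refine ⟨f, ⟨h1, h2, h3, ?_, ?_⟩⟩
    · rw [hm, hl, hl']
      exact h4
    · rw [hm, hl, hl']
      exact h5

end Pool.Agent.Helper26.WD
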