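import Pool.Agent.Helper26.WD.Coeffs

/-!
# Separation of Laurent polynomials by evaluations
-/

namespace Pool.Agent.Helper26.WD

open LaurentPolynomial

variable {K : Type} [Field K]

/-- Evaluation of Laurent polynomials in one variable. -/
noncomputable def evI (l : Kˣ) : LaurentPolynomial ℤ →+* K :=
  LaurentPolynomial.eval₂ (Int.castRingHom K) l

/-- Evaluation of Laurent polynomials in two variables. -/
noncomputable def evK (l m : Kˣ) : LaurentPolynomial (LaurentPolynomial ℤ) →+* K :=
  LaurentPolynomial.eval₂ (evI l) m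

theorem evK_T (l m : Kˣ) (n : ℤ) : evK l m (T n) = ((m ^ n : Kˣ) : K) := by
  rw [evK, eval₂_T]

theorem evK_C (l m : Kˣ) (x : LaurentPolynomial ℤ) : evK l m (C x) = evI l x := by
  rw [evK, eval₂_C]

theorem evI_T (l : Kˣ) (n : ℤ) : evI l (T n) = ((l ^ n : Kˣ) : K) := by
  rw [evI, eval₂_T]

theorem evK_CT (l m : Kˣ) (n : ℤ) : evK l m (C (T n)) = ((l ^ n : Kˣ) : K) := by
  rw [evK_C, evI_T]

/-- A Laurent polynomial over a field with infinitely many roots is zero. -/
theorem eq_zero_of_roots (g : LaurentPolynomial K) (M : Set Kˣ) (hM : M.Infinite)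
    (h : ∀ m ∈ M, LaurentPolynomial.eval₂ (RingHom.id K) m g = 0) : g = 0 := by
  obtain ⟨n, f, hf⟩ := LaurentPolynomial.exists_T_pow g
  have h1 : f = 0 := by
    apply Polynomial.eq_zero_of_infinite_isRoot
    refine (hM.image (Units.val_injective.injOn)).mono ?_
    rintro _ ⟨m, hm, rfl⟩
    have h2 := congrArg (LaurentPolynomial.eval₂ (RingHom.id K) m) hf
    rw [map_mul, h m hm, zero_mul, LaurentPolynomial.eval₂_toLaurent] at h2
    exact h2
  rw [h1, map_zero] at hf
  have h3 : g * T n * T (-n) = 0 := by rw [← hf, zero_mul]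
  rw [mul_T_assoc] at h3
  simpa using h3

/-- A Laurent polynomial with integer coefficients with infinitely many roots is zero. -/
theorem eq_zero_of_rootsZ [CharZero K] (c : LaurentPolynomial ℤ) (M : Set Kˣ) (hM : M.Infinite)
    (h : ∀ m ∈ M, evI m c = 0) : c = 0 := by
  have key : (AddMonoidAlgebra.mapRingHom ℤ (Int.castRingHom K)) c = 0 := by
    apply eq_zero_of_roots _ M hM
    intro m hm
    have h2 : (LaurentPolynomial.eval₂ (RingHom.id K) m).comp
        (AddMonoidAlgebra.mapRingHom ℤ (Int.castRingHom K)) = evI m := by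
      apply RingHom.ext
      intro x
      induction x using LaurentPolynomial.induction_on' with
      | add p q hp hq => rw [map_add, map_add, hp, hq]
      | C_mul_T n a =>
        rw [RingHom.comp_apply, evI, eval₂_C_mul_T, ← single_eq_C_mul_T, 
          AddMonoidAlgebra.coe_mapRingHom, AddMonoidAlgebra.map_single, single_eq_C_mul_T,
          eval₂_C_mul_T]
        rfl
    rw [← RingHom.comp_apply, h2]
    exact h m hm
  ext n
  have h3 := congrArg (fun g : LaurentPolynomial K => g.coeff n) key
  simp only [AddMonoidAlgebra.coeff_mapRingHom, AddMonoidAlgebra.coeff_zero, Finsupp.coe_zero,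
    Pi.zero_apply, eq_intCast, Int.cast_eq_zero] at h3
  simpa using h3

/-- Separation. -/
theorem eq_zero_of_evK [CharZero K] (x : LaurentPolynomial (LaurentPolynomial ℤ))
    (Z : Kˣ → Set Kˣ) (hZ : {l | (Z l).Infinite}.Infinite)
    (h : ∀ l, ∀ m ∈ Z l, evK l m x = 0) : x = 0 := by
  ext1 k
  rw [AddMonoidAlgebra.coeff_zero, Finsupp.coe_zero, Pi.zero_apply]
  apply eq_zero_of_rootsZ _ _ hZ
  intro l hl
  have key : (AddMonoidAlgebra.mapRingHom ℤ (evI l)) x = 0 := by
    apply eq_zero_of_roots _ (Z l) hl
    intro m hm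
    have h2 : (LaurentPolynomial.eval₂ (RingHom.id K) m).comp
        (AddMonoidAlgebra.mapRingHom ℤ (evI l)) = evK l m := by
      apply RingHom.ext
      intro x
      induction x using LaurentPolynomial.induction_on' with
      | add p q hp hq => rw [map_add, map_add, hp, hq]
      | C_mul_T n a =>
        rw [RingHom.comp_apply, evK, eval₂_C_mul_T, ← single_eq_C_mul_T,
          AddMonoidAlgebra.coe_mapRingHom, AddMonoidAlgebra.map_single, single_eq_C_mul_T,
          eval₂_C_mul_T]
        rfl
    rw [← RingHom.comp_apply, h2]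
    exact h l m hm
  have h3 := congrArg (fun g : LaurentPolynomial K => g.coeff k) key
  simpa only [AddMonoidAlgebra.coeff_mapRingHom, AddMonoidAlgebra.coeff_zero, Finsupp.coe_zero,
    Pi.zero_apply] using h3

end Pool.Agent.Helper26.WD
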