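import Pool.Agent.Helper26.WD.Writhe
import Pool.Agent.Helper26.WD.Sep

/-!
# The framed HOMFLY functional
-/

namespace Pool.Agent.Helper26.WD

set_option linter.unusedSectionVars false

open Piece LaurentPolynomial

variable {K : Type} [Field K]

/-- The framed HOMFLY functional. -/
noncomputable def frF (P : List (Piece Bool) → LaurentPolynomial (LaurentPolynomial ℤ))
    (A h : Kˣ) (D : List (Piece Bool)) : K :=
  if D = [] then 1 else if run D [] = some [] then
    (((A : K) - (A : K)⁻¹) / h) * ((A ^ writhe D : Kˣ) : K) * evK A⁻¹ h (P D) else 0

variable (P : List (Piece Bool) → LaurentPolynomial (LaurentPolynomial ℤ)) (A h : Kˣ)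

theorem frF_eq {D : List (Piece Bool)} (h0 : D ≠ []) (hd : run D [] = some []) :
    frF P A h D =
      (((A : K) - (A : K)⁻¹) / h) * ((A ^ writhe D : Kˣ) : K) * evK A⁻¹ h (P D) := by
  rw [frF, if_neg h0, if_pos hd]

theorem frF_nil : frF P A h [] = 1 := by
  rw [frF, if_pos rfl]

theorem writhe_regMove {D D' : List (Piece Bool)} (h : StepBy RegMove D D') :
    writhe D = writhe D' := by
  obtain ⟨D₁, X, Y, D₂, hM, rfl, rfl, hd, hd'⟩ := h
  unfold IsDiagram at hd hd'
  unfold writhe
  cases hs : run D₁ [] with
  | none => rw [run_append, run_append, hs] at hd; simp at hd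
  | some s =>
    rw [run_append, run_append, hs, Option.bind_some] at hd
    rw [run_append, run_append, hs, Option.bind_some] at hd'
    cases hX : run X s with
    | none => rw [hX] at hd; simp at hd
    | some t =>
      cases hY : run Y s with
      | none => rw [hY] at hd'; simp at hd'
      | some t' =>
        have ht : t = t' := by
          cases hM with
          | far x y hxy =>
            rw [run_far x y hxy, hY] at hX
            exact (Option.some.inj hX).symm
          | zigR i a =>
            rw [run_nil] at hY
            have hi : s[i]? = some a := by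
              rw [run_pair] at hX
              cases hc : step (cup i a) s with
              | none => rw [hc] at hX; simp at hX
              | some u =>
                rw [hc, Option.bind_some] at hX
                obtain ⟨s₁, s₂, rfl, h1, rfl⟩ := step_cup_some hc
                obtain ⟨⟨y, hy, hy'⟩, -⟩ := of_step_cap hX
                subst h1
                rw [List.getElem?_append_right (by omega)] at hy hy'
                have f1 : s₁.length + 1 - s₁.length = 1 := by omega
                have f2 : s₁.length + 1 + 1 - s₁.length = 2 := by omega
                rw [f1] at hy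
                rw [f2] at hy'
                simp only [List.getElem?_cons_succ, List.getElem?_cons_zero,
                  Option.some.injEq] at hy hy'
                subst hy
                rw [Dir.op_op] at hy'
                rw [List.getElem?_append_right (le_refl _), Nat.sub_self]
                exact hy'
            rw [run_zigR i a s hi] at hX
            rw [← Option.some.inj hX, ← Option.some.inj hY]
          | zigL i a =>
            rw [run_nil] at hY
            have hi : s[i]? = some (Dir.op a) := by
              rw [run_pair] at hX
              cases hc : step (cup (i + 1) a) s with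
              | none => rw [hc] at hX; simp at hX
              | some u =>
                rw [hc, Option.bind_some] at hX
                obtain ⟨s₁, s₂, rfl, h1, rfl⟩ := step_cup_some hc
                obtain ⟨⟨y, hy, hy'⟩, -⟩ := of_step_cap hX
                rw [List.getElem?_append_left (by omega)] at hy
                rw [List.getElem?_append_right (by omega), h1, Nat.sub_self] at hy'
                simp only [List.getElem?_cons_zero, Option.some.injEq] at hy'
                rw [List.getElem?_append_left (by omega), hy, hy', Dir.op_op]
            rw [run_zigL i a s hi] at hX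
            rw [← Option.some.inj hX, ← Option.some.inj hY]
          | slideCup i a o =>
            rw [run_slideCup i a o s, hY] at hX
            exact (Option.some.inj hX).symm
          | slideCap i o =>
            rw [run_slideCap i o s, hY] at hX
            exact (Option.some.inj hX).symm
          | r2 i o =>
            rw [run_nil] at hY
            have hi : i + 1 < s.length := by
              rw [run_pair] at hX
              cases hc : step (cr i o) s with
              | none => rw [hc] at hX; simp at hX
              | some u => exact (of_step_cr hc).1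
            rw [run_r2 i o (!o) s hi] at hX
            rw [← Option.some.inj hX, ← Option.some.inj hY]
          | r3 i o₁ o₂ o₃ ho =>
            rw [run_r3 i o₁ o₂ o₃ s, hY] at hX
            exact (Option.some.inj hX).symm
        subst ht
        have e1 : run (D₁ ++ X) [] = some t := by
          rw [run_append, hs, Option.bind_some]; exact hX
        have e2 : run (D₁ ++ Y) [] = some t := by
          rw [run_append, hs, Option.bind_some]; exact hY
        rw [writheFrom_append _ _ e1, writheFrom_append _ _ e2, writheFrom_append _ _ hs,
          writheFrom_append _ _ hs, writheFrom_regMove hM hX]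

theorem writhe_mid {D₁ X D₂ : List (Piece Bool)} {s t : List Bool} (h1 : run D₁ [] = some s)
    (h2 : run X s = some t) :
    writhe (D₁ ++ X ++ D₂) = writhe D₁ + writheFrom X s + writheFrom D₂ t := by
  have e1 : run (D₁ ++ X) [] = some t := by
    rw [run_append, h1, Option.bind_some]; exact h2
  rw [writhe, writheFrom_append _ _ e1, writheFrom_append _ _ h1]
  rfl

theorem sgn_op (o a : Bool) : sgn o a (Dir.op a) = if o then -1 else 1 := by
  cases o <;> cases a <;> rfl

/-- The framed HOMFLY functional. -/
noncomputable def framedSkein (hP : IsHomfly P) : Skein Bool K where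
  f := frF P A h
  kap := fun o => if o then (A : K)⁻¹ else A
  al := fun _ _ _ => 1
  be := fun a b o => if a = b then (if o then (h : K) else -h) else 0
  ga := fun a b o => if b = !a then (if o then -(h : K) else h) else 0
  de := ((A : K) - (A : K)⁻¹) / h
  zero := by
    intro D hD
    rw [frF, if_neg, if_neg hD]
    rintro rfl
    simp at hD
  reg := by
    intro D D' hs
    obtain ⟨h1, h2⟩ := stepBy_ne_nil hs
    have h3 := hP.reg P hs
    have h4 := writhe_regMove hs
    obtain ⟨D₁, X, Y, D₂, hM, rfl, rfl, hd, hd'⟩ := hs
    rw [frF_eq P A h h1 hd, frF_eq P A h h2 hd', h3, h4]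
  curlCup := by
    intro D₁ D₂ i a o hd
    unfold IsDiagram at hd
    cases hs : run D₁ [] with
    | none => rw [run_append, run_append, hs] at hd; simp at hd
    | some s =>
      have hd0 := hd
      rw [run_append, run_append, hs, Option.bind_some] at hd
      have hcc := run_curlCup i a o s
      cases hX : run [cup i a, cr i o] s with
      | none => rw [hX] at hd; simp at hd
      | some t =>
        have hY : run [cup i (Dir.op a)] s = some t := by rw [← hcc]; exact hX
        rw [hX, Option.bind_some] at hd
        have hd' : run (D₁ ++ [cup i (Dir.op a)] ++ D₂) [] = some [] := by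
          rw [run_append, run_append, hs, Option.bind_some, hY, Option.bind_some]
          exact hd
        have hPe : P (D₁ ++ [cup i a, cr i o] ++ D₂) = P (D₁ ++ [cup i (Dir.op a)] ++ D₂) := by
          apply hP.isotopy
          apply Relation.EqvGen.rel
          exact ⟨D₁, _, _, D₂, Move.curlCup i a o, rfl, rfl, hd0, hd'⟩
        rw [frF_eq P A h (by simp) hd0, frF_eq P A h (by simp) hd', hPe, writhe_mid hs hX,
          writhe_mid hs hY]
        have hc : step (cup i a) s = some (s.take i ++ a :: Dir.op a :: s.drop i) ∧
            i ≤ s.length := by
          cases hc : step (cup i a) s with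
          | none => rw [run_pair, hc] at hX; simp at hX
          | some u =>
            obtain ⟨hl, -⟩ := of_step_cup hc
            refine ⟨?_, hl⟩
            rw [← hc]
            simp [step, hl]
        have e1 : writheFrom [cup i a, cr i o] s = if o then -1 else 1 := by
          rw [writheFrom_pair hc.1, pieceSign_cr _ _ _ _ _ _ (by simp [hc.2]), sgn_op]
          change 0 + _ = _
          rw [zero_add]
        have e2 : writheFrom [cup i (Dir.op a)] s = 0 := rfl
        rw [e1, e2]
        cases o with
        | true =>
          simp only [if_true]
          rw [show writhe D₁ + -1 + writheFrom D₂ t = -1 + (writhe D₁ + 0 + writheFrom D₂ t) by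
            ring, zpow_add, zpow_neg_one, Units.val_mul, Units.val_inv_eq_inv_val]
          ring
        | false =>
          simp only [if_false, Bool.false_eq_true]
          rw [show writhe D₁ + 1 + writheFrom D₂ t = 1 + (writhe D₁ + 0 + writheFrom D₂ t) by
            ring, zpow_add, zpow_one, Units.val_mul]
          ring
  curlCap := by
    intro D₁ D₂ i o hd
    unfold IsDiagram at hd
    cases hs : run D₁ [] with
    | none => rw [run_append, run_append, hs] at hd; simp at hd
    | some s =>
      have hd0 := hd
      rw [run_append, run_append, hs, Option.bind_some] at hd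
      have hcc := run_curlCap i o s
      cases hX : run [cr i o, cap i] s with
      | none => rw [hX] at hd; simp at hd
      | some t =>
        have hY : run [cap i] s = some t := by rw [← hcc]; exact hX
        rw [hX, Option.bind_some] at hd
        have hd' : run (D₁ ++ [cap i] ++ D₂) [] = some [] := by
          rw [run_append, run_append, hs, Option.bind_some, hY, Option.bind_some]
          exact hd
        have hPe : P (D₁ ++ [cr i o, cap i] ++ D₂) = P (D₁ ++ [cap i] ++ D₂) := by
          apply hP.isotopy
          apply Relation.EqvGen.rel
          exact ⟨D₁, _, _, D₂, Move.curlCap i o, rfl, rfl, hd0, hd'⟩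
        rw [frF_eq P A h (by simp) hd0, frF_eq P A h (by simp) hd', hPe, writhe_mid hs hX,
          writhe_mid hs hY]
        have e1 : writheFrom [cr i o, cap i] s = if o then -1 else 1 := by
          rw [run_singleton] at hY
          obtain ⟨s₁, a, s₂, rfl, h1, -⟩ := step_cap_some hY
          rw [writheFrom_pair (step_cr_split _ _ _ _ _ _ h1), pieceSign_cr _ _ _ _ _ _ h1, sgn_op]
          change _ + 0 = _
          rw [add_zero]
        have e2 : writheFrom [cap i] s = 0 := rfl
        rw [e1, e2]
        cases o with
        | true =>
          simp only [if_true]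
          rw [show writhe D₁ + -1 + writheFrom D₂ t = -1 + (writhe D₁ + 0 + writheFrom D₂ t) by
            ring, zpow_add, zpow_neg_one, Units.val_mul, Units.val_inv_eq_inv_val]
          ring
        | false =>
          simp only [if_false, Bool.false_eq_true]
          rw [show writhe D₁ + 1 + writheFrom D₂ t = 1 + (writhe D₁ + 0 + writheFrom D₂ t) by
            ring, zpow_add, zpow_one, Units.val_mul]
          ring
  skein := by
    intro D₁ D₂ i o s a b hr ha hb hd
    obtain ⟨hs, hl⟩ := split_of_get ha hb
    generalize s.take i = s₁ at hs hl
    generalize s.drop (i + 2) = s₂ at hs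
    subst hs
    unfold IsDiagram at hd
    have hne : D₁ ≠ [] := by
      rintro rfl
      simp at hr
    have hc : ∀ o, run [cr i o] (s₁ ++ a :: b :: s₂) = some (s₁ ++ b :: a :: s₂) := by
      intro o
      rw [run_singleton, step_cr_split _ _ _ _ _ _ hl]
    have hd2 : run D₂ (s₁ ++ b :: a :: s₂) = some [] := by
      rw [run_append, run_append, hr, Option.bind_some, hc, Option.bind_some] at hd
      exact hd
    have hcd : ∀ o, run (D₁ ++ [cr i o] ++ D₂) [] = some [] := by
      intro o
      rw [run_append, run_append, hr, Option.bind_some, hc, Option.bind_some]
      exact hd2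
    have hsk := congrArg (evK A⁻¹ h) (hP.skein D₁ D₂ i s₁ s₂ a b hr hl hd2)
    rw [map_sub, map_mul, map_mul, map_mul, evK_CT, evK_CT, evK_T] at hsk
    simp only [zpow_neg, zpow_one, inv_inv, Units.val_inv_eq_inv_val] at hsk
    have hw : ∀ o, writhe (D₁ ++ [cr i o] ++ D₂) =
        writhe D₁ + sgn o a b + writheFrom D₂ (s₁ ++ b :: a :: s₂) := by
      intro o
      rw [writhe_mid hr (hc o), writheFrom_cons _ _ (step_cr_split _ _ _ _ _ _ hl),
        pieceSign_cr _ _ _ _ _ _ hl]
      simp [writheFrom]
    have p1 : ∀ x y : ℤ, ((A ^ (x + 1 + y) : Kˣ) : K) = (A : K) * ((A ^ (x + y) : Kˣ) : K) := by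
      intro x y
      rw [show x + 1 + y = 1 + (x + y) by ring, zpow_add, zpow_one, Units.val_mul]
    have p2 : ∀ x y : ℤ, ((A ^ (x + -1 + y) : Kˣ) : K) = (A : K)⁻¹ * ((A ^ (x + y) : Kˣ) : K) := by
      intro x y
      rw [show x + -1 + y = -1 + (x + y) by ring, zpow_add, zpow_neg_one, Units.val_mul,
        Units.val_inv_eq_inv_val]
    rw [frF_eq P A h (by simp [hne]) (hcd o), frF_eq P A h (by simp [hne]) (hcd (!o)), hw, hw]
    by_cases hab : a = b
    · subst hab
      have hd0 : run (D₁ ++ D₂) [] = some [] := by
        rw [run_append, hr, Option.bind_some]
        exact hd2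
      have hw0 : writhe (D₁ ++ D₂) = writhe D₁ + writheFrom D₂ (s₁ ++ a :: a :: s₂) := by
        rw [writhe, writheFrom_append _ _ hr]
        rfl
      have c1 : (if a = a then (if o then (h : K) else -h) else 0) = if o then (h : K) else -h :=
        if_pos rfl
      have c2 : (if a = !a then (if o then -(h : K) else h) else 0) = 0 :=
        if_neg (by cases a <;> simp)
      rw [frF_eq P A h (by simp [hne]) hd0, hw0, c1, c2]
      simp only [posCr, negCr, smooth, beq_self_eq_true, Bool.not_true, if_true,
        List.append_nil] at hsk
      cases o with
      | true =>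
        have f1 : sgn true a a = 1 := by cases a <;> rfl
        have f2 : sgn (!true) a a = -1 := by cases a <;> rfl
        rw [f1, f2]
        rw [p1, p2]
        generalize ((A ^ (writhe D₁ + writheFrom D₂ (s₁ ++ a :: a :: s₂)) : Kˣ) : K) = W
        simp only [if_true, Bool.not_true]
        linear_combination (((A : K) - (A : K)⁻¹) / h) * W * hsk
      | false =>
        have f1 : sgn false a a = -1 := by cases a <;> rfl
        have f2 : sgn (!false) a a = 1 := by cases a <;> rfl
        rw [f1, f2]
        rw [p1, p2]
        generalize ((A ^ (writhe D₁ + writheFrom D₂ (s₁ ++ a :: a :: s₂)) : Kˣ) : K) = W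
        simp only [if_false, Bool.not_false, Bool.false_eq_true]
        linear_combination (-(((A : K) - (A : K)⁻¹) / h)) * W * hsk
    · have hab' : b = Dir.op a := by
        cases a <;> cases b <;> first | rfl | (exact absurd rfl hab)
      have hba : a = Dir.op b := by rw [hab', Dir.op_op]
      have hm : run [cap i, cup i b] (s₁ ++ a :: b :: s₂) = some (s₁ ++ b :: a :: s₂) := by
        rw [run_pair, step_cap_split _ _ _ _ _ hl hab', Option.bind_some,
          step_cup_split _ _ _ _ hl, ← hba]
      have hd0 : run (D₁ ++ [cap i, cup i b] ++ D₂) [] = some [] := by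
        rw [run_append, run_append, hr, Option.bind_some, hm, Option.bind_some]
        exact hd2
      have hw0 : writhe (D₁ ++ [cap i, cup i b] ++ D₂) =
          writhe D₁ + writheFrom D₂ (s₁ ++ b :: a :: s₂) := by
        rw [writhe_mid hr hm]
        have : writheFrom [cap i, cup i b] (s₁ ++ a :: b :: s₂) = 0 := by
          rw [writheFrom_pair (step_cap_split _ _ _ _ _ hl hab')]
          rfl
        rw [this, add_zero]
      have hbeq : (a == b) = false := by simpa using hab
      have hb2 : b = !a := hab'
      rw [frF_eq P A h (by simp [hne]) hd0, hw0, if_neg hab, if_pos hb2]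
      simp only [posCr, negCr, smooth, hbeq, Bool.not_false, if_neg hab] at hsk
      cases o with
      | true =>
        have f1 : sgn true a b = -1 := by rw [sgn, hbeq]; rfl
        have f2 : sgn (!true) a b = 1 := by rw [sgn, hbeq]; rfl
        rw [f1, f2]
        rw [p1, p2]
        generalize ((A ^ (writhe D₁ + writheFrom D₂ (s₁ ++ b :: a :: s₂)) : Kˣ) : K) = W
        simp only [if_true, Bool.not_true]
        linear_combination (-(((A : K) - (A : K)⁻¹) / h)) * W * hsk
      | false =>
        have f1 : sgn false a b = 1 := by rw [sgn, hbeq]; rfl
        have f2 : sgn (!false) a b = -1 := by rw [sgn, hbeq]; rfl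
        rw [f1, f2]
        rw [p1, p2]
        generalize ((A ^ (writhe D₁ + writheFrom D₂ (s₁ ++ b :: a :: s₂)) : Kˣ) : K) = W
        simp only [if_false, Bool.not_false, Bool.false_eq_true]
        linear_combination (((A : K) - (A : K)⁻¹) / h) * W * hsk
  dir := by
    intro a c
    cases a <;> cases c <;> first | exact Or.inl rfl | exact Or.inr rfl
  be_zero := by
    intro a b o h
    rw [if_neg h]
  ga_zero := fun a b o hne => if_neg (show ¬ b = !a from hne)
  kap_unit := by
    rw [if_pos rfl, isUnit_iff_ne_zero]
    exact inv_ne_zero A.ne_zero
  ga_unit := by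
    intro a
    rw [if_pos (show Dir.op a = !a from rfl), if_pos rfl, isUnit_iff_ne_zero]
    exact neg_ne_zero.2 h.ne_zero
  rel := by
    intro a
    have h1 : a ≠ Dir.op a := by cases a <;> simp [Dir.op]
    rw [if_neg h1, if_pos (show Dir.op a = !a from rfl), if_pos rfl, if_pos rfl,
      if_neg (by simp)]
    have hh : (h : K) ≠ 0 := h.ne_zero
    field_simp
    ring
  unknot := by
    intro a
    rw [frF_nil, mul_one, frF_eq P A h (by simp) (by cases a <;> rfl), hP.unknot' P a, map_one,
      mul_one]
    have : writhe [cup 0 a, cap 0] = 0 := by cases a <;> rfl
    rw [this, zpow_zero, Units.val_one, mul_one]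

end Pool.Agent.Helper26.WD
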