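import Pool.Agent.Helper26.WD.KauFun
import Pool.Agent.Helper26.WD.ExistsB
import Pool.Agent.Helper26.WD.Framed
import Pool.Agent.Helper54.Dub.Main

/-!
# From the Dubrovnik polynomial to the Kauffman polynomial
-/

namespace Pool.Agent.Helper26.WD

set_option linter.unusedSectionVars false

open Piece LaurentPolynomial Complex

/-- The factor of a piece. -/
noncomputable def epsP : Piece Unit → ℂ
  | cup i _ => (-1) ^ i
  | cap i => (-1) ^ (i + 1)
  | cr _ o => if o then I else -I

/-- The factor of a diagram. -/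
noncomputable def eps (D : List (Piece Unit)) : ℂ := (D.map epsP).prod

theorem eps_append (D D' : List (Piece Unit)) : eps (D ++ D') = eps D * eps D' := by
  simp [eps]

theorem eps_pair (p q : Piece Unit) : eps [p, q] = epsP p * epsP q := by
  simp [eps]

theorem eps_one (p : Piece Unit) : eps [p] = epsP p := by
  simp [eps]

theorem eps_nil : eps [] = 1 := by
  simp [eps]

theorem eps_three (p q r : Piece Unit) : eps [p, q, r] = epsP p * (epsP q * epsP r) := by
  simp [eps]

theorem epsP_shift_two (y : Piece Unit) : epsP (y.shift 2) = epsP y := by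
  cases y with
  | cup i a => simp only [shift, epsP]; ring
  | cap i => simp only [shift, epsP]; ring
  | cr i o => rfl

theorem epsP_shift_zero (y : Piece Unit) : epsP (y.shift 0) = epsP y := by
  rw [shift_zero]

theorem neg_one_sq_pow (i : ℕ) : ((-1 : ℂ) ^ i) * (-1) ^ i = 1 := by
  rw [← mul_pow]
  norm_num

theorem eps_regMove {A B : List (Piece Unit)} (hM : RegMove A B) : eps A = eps B := by
  have hI : (I : ℂ) * I = -1 := I_mul_I
  cases hM with
  | far x y hxy =>
    rw [eps_pair, eps_pair]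
    have h1 : epsP (y.shift x.out) = epsP y := by
      cases x with
      | cup i a => exact epsP_shift_two y
      | cap i => exact epsP_shift_zero y
      | cr i o => exact epsP_shift_two y
    have h2 : epsP (y.shift x.inn) = epsP y := by
      cases x with
      | cup i a => exact epsP_shift_zero y
      | cap i => exact epsP_shift_two y
      | cr i o => exact epsP_shift_two y
    rw [h1, h2, mul_comm]
  | zigR i a =>
    rw [eps_pair, eps_nil]
    simp only [epsP]
    linear_combination neg_one_sq_pow i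
  | zigL i a =>
    rw [eps_pair, eps_nil]
    simp only [epsP]
    linear_combination neg_one_sq_pow i
  | slideCup i a o =>
    rw [eps_pair, eps_pair]
    cases o
    · simp only [epsP, Bool.not_false, if_true, if_false, Bool.false_eq_true]
      ring
    · simp only [epsP, Bool.not_true, if_true, if_false, Bool.false_eq_true]
      ring
  | slideCap i o =>
    rw [eps_pair, eps_pair]
    cases o
    · simp only [epsP, Bool.not_false, if_true, if_false, Bool.false_eq_true]
      ring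
    · simp only [epsP, Bool.not_true, if_true, if_false, Bool.false_eq_true]
      ring
  | r2 i o =>
    rw [eps_pair, eps_nil]
    cases o
    · simp only [epsP, Bool.not_false, if_true, if_false, Bool.false_eq_true]
      linear_combination -hI
    · simp only [epsP, Bool.not_true, if_true, if_false, Bool.false_eq_true]
      linear_combination -hI
  | r3 i o₁ o₂ o₃ ho =>
    rw [eps_three, eps_three]
    simp only [epsP]
    ring

/-- A Kauffman functional from a Dubrovnik functional. -/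
theorem kauFun_of_dub (a z : ℂˣ) (f : List (Piece Unit) → ℂ)
    (h1 : ∀ D D', StepBy RegMove D D' → f D = f D') (h2 : f [] = 1)
    (h3 : ∀ D, run D [] ≠ some [] → f D = 0)
    (h4 : f [cup 0 (), cap 0] = (I * a - (I * a)⁻¹) / (-I * z) + 1)
    (h5 : ∀ (D₁ D₂ : List (Piece Unit)) (i : ℕ) (o : Bool),
        IsDiagram (D₁ ++ [cup i (), cr i o] ++ D₂) →
        f (D₁ ++ [cup i (), cr i o] ++ D₂) =
          (if o then (I * (a : ℂ))⁻¹ else I * a) * f (D₁ ++ [cup i ()] ++ D₂))
    (h6 : ∀ (D₁ D₂ : List (Piece Unit)) (i : ℕ) (o : Bool),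
        IsDiagram (D₁ ++ [cr i o, cap i] ++ D₂) →
        f (D₁ ++ [cr i o, cap i] ++ D₂) =
          (if o then (I * (a : ℂ))⁻¹ else I * a) * f (D₁ ++ [cap i] ++ D₂))
    (h7 : ∀ (D₁ D₂ : List (Piece Unit)) (i : ℕ),
        IsDiagram (D₁ ++ [cr i true] ++ D₂) →
        f (D₁ ++ [cr i true] ++ D₂) - f (D₁ ++ [cr i false] ++ D₂) =
          (-I * z) * (f (D₁ ++ D₂) - f (D₁ ++ [cap i, cup i ()] ++ D₂))) :
    KauFun a z (fun D => eps D * f D) := by
  have hI : (I : ℂ) * I = -1 := I_mul_I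
  have hII : (I : ℂ)⁻¹ = -I := inv_I
  have ha : (a : ℂ) * (a : ℂ)⁻¹ = 1 := mul_inv_cancel₀ a.ne_zero
  have hz : (z : ℂ) ≠ 0 := z.ne_zero
  refine ⟨?_, ?_, ?_, ?_, ?_, ?_, ?_⟩
  · intro D D' h
    rw [h1 D D' h]
    obtain ⟨D₁, A, B, D₂, hM, rfl, rfl, -, -⟩ := h
    rw [eps_append, eps_append, eps_append, eps_append, eps_regMove hM]
  · change eps [] * f [] = 1
    rw [eps_nil, h2, one_mul]
  · intro D hD
    change eps D * f D = 0
    rw [h3 D hD, mul_zero]
  · show eps [cup 0 (), cap 0] * f [cup 0 (), cap 0] = _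
    rw [h4, eps_pair]
    simp only [epsP, mul_inv, hII]
    have hI0 : (I : ℂ) ≠ 0 := I_ne_zero
    field_simp
    ring
  · intro D₁ D₂ i o hd
    change eps (D₁ ++ [cup i (), cr i o] ++ D₂) * f (D₁ ++ [cup i (), cr i o] ++ D₂) =
      (if o then (a : ℂ)⁻¹ else a) * (eps (D₁ ++ [cup i ()] ++ D₂) * f (D₁ ++ [cup i ()] ++ D₂))
    rw [h5 D₁ D₂ i o hd, eps_append, eps_append, eps_append, eps_append, eps_pair, eps_one]
    cases o
    · simp only [epsP, if_false, Bool.false_eq_true]
      linear_combination (-(a : ℂ) * eps D₁ * (-1) ^ i * eps D₂ * f (D₁ ++ [cup i ()] ++ D₂)) * hI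
    · simp only [epsP, if_true, mul_inv, hII]
      linear_combination (-(a : ℂ)⁻¹ * eps D₁ * (-1) ^ i * eps D₂ *
        f (D₁ ++ [cup i ()] ++ D₂)) * hI
  · intro D₁ D₂ i o hd
    change eps (D₁ ++ [cr i o, cap i] ++ D₂) * f (D₁ ++ [cr i o, cap i] ++ D₂) =
      (if o then (a : ℂ)⁻¹ else a) * (eps (D₁ ++ [cap i] ++ D₂) * f (D₁ ++ [cap i] ++ D₂))
    rw [h6 D₁ D₂ i o hd, eps_append, eps_append, eps_append, eps_append, eps_pair, eps_one]
    cases o
    · simp only [epsP, if_false, Bool.false_eq_true]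
      linear_combination (-(a : ℂ) * eps D₁ * (-1) ^ (i + 1) * eps D₂ *
        f (D₁ ++ [cap i] ++ D₂)) * hI
    · simp only [epsP, if_true, mul_inv, hII]
      linear_combination (-(a : ℂ)⁻¹ * eps D₁ * (-1) ^ (i + 1) * eps D₂ *
        f (D₁ ++ [cap i] ++ D₂)) * hI
  · intro D₁ D₂ i o hd
    have key : ∀ o, IsDiagram (D₁ ++ [cr i o] ++ D₂) → IsDiagram (D₁ ++ [cr i true] ++ D₂) := by
      intro o hd
      unfold IsDiagram at hd ⊢
      rw [run_append, run_append] at hd ⊢
      exact hd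
    have h8 := h7 D₁ D₂ i (key o hd)
    have e1 : eps (D₁ ++ D₂) = eps D₁ * eps D₂ := eps_append _ _
    have e2 : eps (D₁ ++ [cap i, cup i ()] ++ D₂) = -(eps D₁ * eps D₂) := by
      rw [eps_append, eps_append, eps_pair]
      simp only [epsP]
      linear_combination (-(eps D₁ * eps D₂)) * neg_one_sq_pow i
    have e3 : eps (D₁ ++ [cr i true] ++ D₂) = I * (eps D₁ * eps D₂) := by
      rw [eps_append, eps_append, eps_one]
      simp only [epsP, if_true]
      ring
    have e4 : eps (D₁ ++ [cr i false] ++ D₂) = -I * (eps D₁ * eps D₂) := by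
      rw [eps_append, eps_append, eps_one]
      simp only [epsP, if_false, Bool.false_eq_true]
      ring
    change eps (D₁ ++ [cr i o] ++ D₂) * f (D₁ ++ [cr i o] ++ D₂) +
      eps (D₁ ++ [cr i (!o)] ++ D₂) * f (D₁ ++ [cr i (!o)] ++ D₂) =
      z * (eps (D₁ ++ D₂) * f (D₁ ++ D₂) +
        eps (D₁ ++ [cap i, cup i ()] ++ D₂) * f (D₁ ++ [cap i, cup i ()] ++ D₂))
    cases o
    · rw [Bool.not_false, e1, e2, e3, e4]
      linear_combination (I * (eps D₁ * eps D₂)) * h8 -
        (z * (eps D₁ * eps D₂) * (f (D₁ ++ D₂) - f (D₁ ++ [cap i, cup i ()] ++ D₂))) * hI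
    · rw [Bool.not_true, e1, e2, e3, e4]
      linear_combination (I * (eps D₁ * eps D₂)) * h8 -
        (z * (eps D₁ * eps D₂) * (f (D₁ ++ D₂) - f (D₁ ++ [cap i, cup i ()] ++ D₂))) * hI

/-- Kauffman functionals over the complex numbers. -/
theorem exists_kauFun {P : List (Piece Bool) → LaurentPolynomial (LaurentPolynomial ℤ)}
    (hP : IsHomfly P) (a z : ℂˣ) : ∃ g, KauFun a z g := by
  have hI0 : (I : ℂ) ≠ 0 := I_ne_zero
  obtain ⟨q, hq⟩ : ∃ q : ℂ, q ^ 2 - (-I * z) * q - 1 = 0 := by
    obtain ⟨s, hs⟩ := IsAlgClosed.exists_pow_nat_eq ((-I * (z : ℂ)) ^ 2 + 4) (n := 2) (by norm_num)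
    refine ⟨(-I * z + s) / 2, ?_⟩
    linear_combination (1 / 4 : ℂ) * hs
  have hq0 : q ≠ 0 := by
    rintro rfl
    norm_num at hq
  have hqi : q * q⁻¹ = 1 := mul_inv_cancel₀ hq0
  have hh : -I * (z : ℂ) = q - q⁻¹ := by
    linear_combination (-q⁻¹) * hq + (q + I * z) * hqi
  have hh0 : -I * (z : ℂ) ≠ 0 := mul_ne_zero (neg_ne_zero.2 hI0) z.ne_zero
  obtain ⟨A, hA⟩ := IsAlgClosed.exists_pow_nat_eq (I * (a : ℂ) * q) (n := 2) (by norm_num)
  have hA0 : A ≠ 0 := by
    rintro rfl
    have : I * (a : ℂ) * q ≠ 0 := mul_ne_zero (mul_ne_zero hI0 a.ne_zero) hq0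
    exact this (by rw [← hA]; norm_num)
  have hal : A ^ 2 / q = I * a := by
    rw [hA]
    field_simp
  let Au : ℂˣ := Units.mk0 A hA0
  let hu : ℂˣ := Units.mk0 (-I * z) hh0
  obtain ⟨f, h1, h2, h3, h4, h5, h6, h7⟩ := Helper54.Dub.exists_dubrovnik
    (framedSkein P Au hu hP) q A (-I * z) hq0 hA0 hh hh0
    (by change (if true then (Au : ℂ)⁻¹ else Au) = A⁻¹; rw [if_pos rfl]; rfl)
    (by change (if false then (Au : ℂ)⁻¹ else Au) = A; rw [if_neg (by simp)]; rfl)
    (fun _ _ _ => rfl) (fun _ _ _ => rfl) (fun _ _ _ => rfl) rfl (frF_nil P Au hu)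
  rw [hal] at h4
  simp only [hal] at h5 h6
  exact ⟨_, kauFun_of_dub a z f h1 h2 h3 h4 h5 h6 h7⟩

/-- The Kauffman polynomial exists. -/
theorem exists_kauffman_of {P : List (Piece Bool) → LaurentPolynomial (LaurentPolynomial ℤ)}
    (hP : IsHomfly P) : ∃ B, IsKauffman B :=
  exists_isKauffman_of (exists_kauFun hP)

end Pool.Agent.Helper26.WD
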