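import Pool.Agent.Helper26.WD.KnotW
import Pool.Agent.Helper26.WD.Exists
import Pool.Agent.Helper26.WD.Signs

/-!
# Existence of the polynomials and the counterexample
-/

namespace Pool.Agent.Helper26.WD

open Piece

/-- The Kauffman polynomial exists. -/
theorem exists_kauffman : ∃ B, IsKauffman B := by
  obtain ⟨P, hP⟩ := exists_homfly
  exact exists_kauffman_of hP

end Pool.Agent.Helper26.WD
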