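import Pool.Agent.Helper26.WD.Univ
import Pool.Agent.Helper26.WD.Sep

/-!
# HOMFLY functionals with values in a field
-/

namespace Pool.Agent.Helper26.WD

set_option linter.unusedSectionVars false

open Piece LaurentPolynomial

/-- Moves do not involve the empty diagram. -/
theorem stepByMove_ne_nil {Ω : Type} [DecidableEq Ω] [Dir Ω] {D D' : List (Piece Ω)}
    (h : StepBy Move D D') : D ≠ [] ∧ D' ≠ [] := by
  obtain ⟨D₁, A, B, D₂, hM, h1, h2, hd, hd'⟩ := h
  cases hM with
  | reg hR => exact stepBy_ne_nil ⟨D₁, A, B, D₂, hR, h1, h2, hd, hd'⟩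
  | curlCup i a o => subst h1 h2; constructor <;> simp
  | curlCap i o => subst h1 h2; constructor <;> simp

variable {K : Type} [Field K]

/-- A HOMFLY functional with values in a field. -/
structure HomFun (l m : Kˣ) (f : List (Piece Bool) → K) : Prop where
  move : ∀ D D', StepBy Move D D' → f D = f D'
  nil : f [] = 1
  zero : ∀ D, run D [] ≠ some [] → f D = 0
  unknot : (m : K) * f [cup 0 true, cap 0] = (l : K)⁻¹ - l
  skein : ∀ (D₁ D₂ : List (Piece Bool)) (i : ℕ) (s₁ s₂ : List Bool) (a b : Bool),
    run D₁ [] = some (s₁ ++ a :: b :: s₂) → s₁.length = i →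
    run D₂ (s₁ ++ b :: a :: s₂) = some [] →
    (l : K)⁻¹ * f (D₁ ++ [posCr i a b] ++ D₂) - l * f (D₁ ++ [negCr i a b] ++ D₂)
      = m * f (D₁ ++ smooth i a b ++ D₂)

variable {l m : Kˣ} {f : List (Piece Bool) → K}

theorem HomFun.unknot' (h : HomFun l m f) (a : Bool) :
    f [cup 0 a, cap 0] = ((l : K)⁻¹ - l) * (m : K)⁻¹ := by
  have hm : (m : K) ≠ 0 := m.ne_zero
  have h0 : f [cup 0 true, cap 0] = ((l : K)⁻¹ - l) * (m : K)⁻¹ := by
    rw [← h.unknot]
    field_simp
  cases a with
  | true => exact h0
  | false =>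
    rw [← h0]
    have h1 : f [cup 0 true, cr 0 true, cap 0] = f [cup 0 false, cap 0] := by
      apply h.move
      exact ⟨[], [cup 0 true, cr 0 true], [cup 0 false], [cap 0], Move.curlCup 0 true true, rfl,
        rfl, rfl, rfl⟩
    have h2 : f [cup 0 true, cr 0 true, cap 0] = f [cup 0 true, cap 0] := by
      apply h.move
      exact ⟨[cup 0 true], [cr 0 true, cap 0], [cap 0], [], Move.curlCap 0 true, rfl,
        rfl, rfl, rfl⟩
    rw [← h1, h2]

theorem HomFun.skein' (h : HomFun l m f) (D₁ D₂ : List (Piece Bool)) (i : ℕ) (o : Bool)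
    (s : List Bool)
    (a b : Bool) (hr : run D₁ [] = some s) (ha : s[i]? = some a) (hb : s[i + 1]? = some b)
    (hd : IsDiagram (D₁ ++ [cr i o] ++ D₂)) :
    f (D₁ ++ [cr i o] ++ D₂) =
      (if (a == b) == o then (l : K) * l else (l : K)⁻¹ * (l : K)⁻¹) *
        f (D₁ ++ [cr i (!o)] ++ D₂) +
      ((if a = b then (if o then (l : K) * m else -((l : K)⁻¹ * m)) else 0) * f (D₁ ++ D₂) +
      (if a = b then 0 else (if o then -((l : K)⁻¹ * m) else (l : K) * m)) *
        f (D₁ ++ [cap i, cup i b] ++ D₂)) := by
  obtain ⟨hs, hl⟩ := split_of_get ha hb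
  generalize s.take i = s₁ at hs hl
  generalize s.drop (i + 2) = s₂ at hs
  subst hs
  unfold IsDiagram at hd
  have hd2 : run D₂ (s₁ ++ b :: a :: s₂) = some [] := by
    rw [run_append, run_append, hr, Option.bind_some, run_singleton,
      step_cr_split _ _ _ _ _ _ hl, Option.bind_some] at hd
    exact hd
  have hsk := h.skein D₁ D₂ i s₁ s₂ a b hr hl hd2
  have hL : (l : K) * (l : K)⁻¹ = 1 := mul_inv_cancel₀ l.ne_zero
  by_cases hab : a = b
  · subst hab
    simp only [posCr, negCr, smooth, beq_self_eq_true, Bool.not_true, if_true,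
      List.append_nil] at hsk
    cases o with
    | true =>
      simp only [beq_self_eq_true, Bool.not_true, if_true, zero_mul, add_zero]
      generalize f (D₁ ++ [cr i true] ++ D₂) = x at hsk ⊢
      generalize f (D₁ ++ [cr i false] ++ D₂) = y at hsk ⊢
      generalize f (D₁ ++ D₂) = z at hsk ⊢
      linear_combination (l : K) * hsk - x * hL
    | false =>
      simp only [beq_self_eq_true, Bool.not_false, if_true, zero_mul, add_zero,
        show ((true == false) = true) = False from by simp, if_false,
        show (false = true) = False from by simp]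
      generalize f (D₁ ++ [cr i true] ++ D₂) = x at hsk ⊢
      generalize f (D₁ ++ [cr i false] ++ D₂) = y at hsk ⊢
      generalize f (D₁ ++ D₂) = z at hsk ⊢
      linear_combination -(l : K)⁻¹ * hsk - y * hL
  · have hbeq : (a == b) = false := by simpa using hab
    simp only [posCr, negCr, smooth, hbeq, Bool.not_false, if_neg hab] at hsk ⊢
    cases o with
    | true =>
      simp only [Bool.not_true, if_true, zero_mul, zero_add, if_false,
        show ((false == true) = true) = False from by simp]
      generalize f (D₁ ++ [cr i true] ++ D₂) = x at hsk ⊢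
      generalize f (D₁ ++ [cr i false] ++ D₂) = y at hsk ⊢
      generalize f (D₁ ++ [cap i, cup i b] ++ D₂) = z at hsk ⊢
      linear_combination -(l : K)⁻¹ * hsk - x * hL
    | false =>
      simp only [Bool.not_false, if_true, zero_mul, zero_add, beq_self_eq_true, if_false,
        show (false = true) = False from by simp]
      generalize f (D₁ ++ [cr i true] ++ D₂) = x at hsk ⊢
      generalize f (D₁ ++ [cr i false] ++ D₂) = y at hsk ⊢
      generalize f (D₁ ++ [cap i, cup i b] ++ D₂) = z at hsk ⊢
      linear_combination (l : K) * hsk - y * hL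

/-- The skein functional given by a HOMFLY functional. -/
noncomputable def HomFun.skeinF (h : HomFun l m f) : Skein Bool K where
  f := f
  kap := fun _ => 1
  al := fun a b o => if (a == b) == o then (l : K) * l else (l : K)⁻¹ * (l : K)⁻¹
  be := fun a b o => if a = b then (if o then (l : K) * m else -((l : K)⁻¹ * m)) else 0
  ga := fun a b o => if a = b then 0 else (if o then -((l : K)⁻¹ * m) else (l : K) * m)
  de := ((l : K)⁻¹ - l) * (m : K)⁻¹
  zero := h.zero
  reg := by
    intro D D' hs
    obtain ⟨D₁, A, B, D₂, hM, h1, h2, hd, hd'⟩ := hs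
    exact h.move _ _ ⟨D₁, A, B, D₂, Move.reg hM, h1, h2, hd, hd'⟩
  curlCup := by
    intro D₁ D₂ i a o hd
    have hd' : IsDiagram (D₁ ++ [cup i (Dir.op a)] ++ D₂) := by
      unfold IsDiagram at hd ⊢
      rw [run_append, run_append] at hd ⊢
      cases hs : run D₁ [] with
      | none => rw [hs] at hd; simp at hd
      | some s =>
        rw [hs, Option.bind_some] at hd
        rw [Option.bind_some, ← run_curlCup i a o s]
        exact hd
    rw [one_mul]
    exact h.move _ _ ⟨D₁, _, _, D₂, Move.curlCup i a o, rfl, rfl, hd, hd'⟩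
  curlCap := by
    intro D₁ D₂ i o hd
    have hd' : IsDiagram (D₁ ++ [cap i] ++ D₂) := by
      unfold IsDiagram at hd ⊢
      rw [run_append, run_append] at hd ⊢
      cases hs : run D₁ [] with
      | none => rw [hs] at hd; simp at hd
      | some s =>
        rw [hs, Option.bind_some] at hd
        rw [Option.bind_some, ← run_curlCap i o s]
        exact hd
    rw [one_mul]
    exact h.move _ _ ⟨D₁, _, _, D₂, Move.curlCap i o, rfl, rfl, hd, hd'⟩
  skein := fun D₁ D₂ i o s a b hr ha hb hd => h.skein' D₁ D₂ i o s a b hr ha hb hd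
  dir := by
    intro a c
    cases a <;> cases c <;> first | exact Or.inl rfl | exact Or.inr rfl
  be_zero := by
    intro a b o h
    rw [if_neg h]
  ga_zero := by
    intro a b o h
    rw [if_pos]
    cases a <;> cases b <;> first | rfl | (exact absurd rfl h)
  kap_unit := isUnit_one
  ga_unit := by
    intro a
    rw [if_neg (by cases a <;> simp [Dir.op]), if_pos rfl, isUnit_iff_ne_zero]
    exact neg_ne_zero.2 (mul_ne_zero (inv_ne_zero l.ne_zero) m.ne_zero)
  rel := by
    intro a
    have hL : (l : K) * (l : K)⁻¹ = 1 := mul_inv_cancel₀ l.ne_zero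
    have hM : (m : K) * (m : K)⁻¹ = 1 := mul_inv_cancel₀ m.ne_zero
    have h1 : a ≠ Dir.op a := by cases a <;> simp [Dir.op]
    have h2 : (a == Dir.op a) = false := by simpa using h1
    rw [if_neg h1, if_neg h1, h2]
    simp only [show ((false == true) = true) = False from by simp, if_false, if_true]
    linear_combination (-1 : K) * hL + (l : K)⁻¹ * ((l : K)⁻¹ - l) * hM
  unknot := by
    intro a
    rw [h.nil, mul_one]
    exact h.unknot' a

/-- The universal algebra of coefficients for the HOMFLY polynomial. -/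
noncomputable def algH : Alg Bool (LaurentPolynomial (LaurentPolynomial ℤ)) where
  one := 1
  add := fun x y => x + y
  al := fun a b o x => (if (a == b) == o then C (T 2) else C (T (-2))) * x
  be := fun a b o x => (if a = b then (if o then C (T 1) * T 1 else -(C (T (-1)) * T 1)) else 0) * x
  ga := fun a b o x => (if a = b then 0 else (if o then -(C (T (-1)) * T 1) else C (T 1) * T 1)) * x
  kap := fun _ x => x
  de := fun x => (C (T (-1)) - C (T 1)) * x
  cp := fun x => T 1 * x
  hasBe := fun a b => a == b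
  hasGa := fun a b => !(a == b)
  op := fun a => !a
  eqb := fun a b => a == b

/-- The universal algorithm computes every HOMFLY functional. -/
noncomputable def HomFun.interp (h : HomFun l m f) : Interp h.skeinF algH where
  ι := evK l m
  u := m
  one := map_one _
  add := fun x y => map_add _ x y
  al := by
    intro a b o x
    change evK l m ((if (a == b) == o then C (T 2) else C (T (-2))) * x) =
      (if (a == b) == o then (l : K) * l else (l : K)⁻¹ * (l : K)⁻¹) * evK l m x
    rw [map_mul]
    congr 1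
    split_ifs
    · rw [evK_CT, zpow_two, Units.val_mul]
    · rw [evK_CT, zpow_neg, zpow_two, mul_inv, Units.val_mul, Units.val_inv_eq_inv_val]
  be := by
    intro a b o x
    change evK l m ((if a = b then (if o then C (T 1) * T 1 else -(C (T (-1)) * T 1)) else 0) * x)
      = (if a = b then (if o then (l : K) * m else -((l : K)⁻¹ * m)) else 0) * evK l m x
    rw [map_mul]
    congr 1
    split_ifs
    · rw [map_mul, evK_CT, evK_T]; simp
    · rw [map_neg, map_mul, evK_CT, evK_T]; simp
    · rw [map_zero]
  ga := by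
    intro a b o x
    change evK l m ((if a = b then 0 else (if o then -(C (T (-1)) * T 1) else C (T 1) * T 1)) * x)
      = (if a = b then 0 else (if o then -((l : K)⁻¹ * m) else (l : K) * m)) * evK l m x
    rw [map_mul]
    congr 1
    split_ifs
    · rw [map_zero]
    · rw [map_neg, map_mul, evK_CT, evK_T]; simp
    · rw [map_mul, evK_CT, evK_T]; simp
  kap := fun _ x => (one_mul _).symm
  de := by
    intro x
    change evK l m ((C (T (-1)) - C (T 1)) * x) = m * (((l : K)⁻¹ - l) * (m : K)⁻¹) * evK l m x
    rw [map_mul, map_sub, evK_CT, evK_CT]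
    have hM : (m : K) * (m : K)⁻¹ = 1 := mul_inv_cancel₀ m.ne_zero
    simp only [zpow_neg, zpow_one, Units.val_inv_eq_inv_val]
    linear_combination (-((l : K)⁻¹ - l) * evK l m x) * hM
  cp := by
    intro x
    change evK l m (T 1 * x) = _
    rw [map_mul, evK_T, zpow_one]
  hasBe := by
    intro a b o h
    change (if a = b then _ else 0) = (0 : K)
    change (a == b) = false at h
    rw [if_neg (by simpa using h)]
  hasGa := by
    intro a b o h
    change (if a = b then 0 else _) = (0 : K)
    change (!(a == b)) = false at h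
    rw [if_pos (by simpa using h)]
  hasGa' := by
    intro a b h
    change (!(a == b)) = true at h
    cases a <;> cases b <;> first | rfl | (simp at h)
  op := fun _ => rfl
  eqb := by
    intro a b
    change (a == b) = true ↔ a = b
    simp

/-- Existence of the HOMFLY polynomial, provided that there are enough HOMFLY functionals. -/
theorem exists_isHomfly [CharZero K] (Z : Kˣ → Set Kˣ) (hZ : {l | (Z l).Infinite}.Infinite)
    (hne : ∀ l, ∀ m ∈ Z l, (l : K)⁻¹ - l ≠ 0)
    (hf : ∀ l, ∀ m ∈ Z l, ∃ f, HomFun l m f) : ∃ P, IsHomfly P := by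
  choose! f hf using hf
  let J : Type := {p : Kˣ × Kˣ // p.2 ∈ Z p.1}
  have hJ : Nonempty J := by
    obtain ⟨l, hl⟩ := hZ.nonempty
    obtain ⟨m, hm⟩ := Set.Infinite.nonempty hl
    exact ⟨⟨(l, m), hm⟩⟩
  let F : J → Skein Bool K := fun j => (hf j.1.1 j.1.2 j.2).skeinF
  have hTT : (T 1 : LaurentPolynomial (LaurentPolynomial ℤ)) * T (-1) = 1 := by
    rw [← T_add]; simp
  obtain ⟨Q, hQ⟩ := exists_univ F (fun j => evK j.1.1 j.1.2) algH (C (T (-1)) - C (T 1)) (T 1)
    (T (-1)) (fun _ _ => rfl) (fun _ => rfl) (fun j => (hf j.1.1 j.1.2 j.2).interp)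
    (fun _ _ => rfl) (fun j => by
      change ((j.1.2 : Kˣ) : K) = evK _ _ (T 1)
      rw [evK_T, zpow_one])
    (fun j => by
      change evK _ _ (C (T (-1)) - C (T 1)) = evK _ _ (T 1) * ((((j.1.1 : Kˣ) : K)⁻¹ - (j.1.1 : Kˣ))
        * ((j.1.2 : Kˣ) : K)⁻¹)
      rw [map_sub, evK_CT, evK_CT, evK_T]
      have hM : ((j.1.2 : Kˣ) : K) * ((j.1.2 : Kˣ) : K)⁻¹ = 1 := mul_inv_cancel₀ j.1.2.ne_zero
      simp only [zpow_neg, zpow_one, Units.val_inv_eq_inv_val]
      linear_combination (-(((j.1.1 : Kˣ) : K)⁻¹ - (j.1.1 : Kˣ))) * hM) hTT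
    (fun j => (hf j.1.1 j.1.2 j.2).nil)
  have hQ' : ∀ l, ∀ m ∈ Z l, ∀ D, D ≠ [] → run D [] = some [] →
      f l m D = (((l : K)⁻¹ - l) * (m : K)⁻¹) * evK l m (Q D) := by
    intro l m hm D h1 h2
    exact hQ D h1 h2 ⟨(l, m), hm⟩
  have hde : ∀ l, ∀ m ∈ Z l, ((l : K)⁻¹ - l) * (m : K)⁻¹ ≠ 0 := by
    intro l m hm
    exact mul_ne_zero (hne l m hm) (inv_ne_zero m.ne_zero)
  refine ⟨Q, ⟨?_, ?_, ?_⟩⟩
  · intro D D' h
    induction h with
    | rel D D' h =>
      obtain ⟨h1, h2⟩ := stepByMove_ne_nil h
      rw [← sub_eq_zero]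
      apply eq_zero_of_evK _ Z hZ
      intro l m hm
      have h3 := (hf l m hm).move D D' h
      obtain ⟨D₁, A, B, D₂, hM, rfl, rfl, hd, hd'⟩ := h
      rw [hQ' l m hm _ h1 hd, hQ' l m hm _ h2 hd'] at h3
      rw [map_sub, mul_left_cancel₀ (hde l m hm) h3, sub_self]
    | refl _ => rfl
    | symm _ _ _ ih => exact ih.symm
    | trans _ _ _ _ _ ih₁ ih₂ => exact ih₁.trans ih₂
  · rw [← sub_eq_zero]
    apply eq_zero_of_evK _ Z hZ
    intro l m hm
    have h3 := (hf l m hm).unknot' true
    rw [hQ' l m hm _ (by simp) rfl] at h3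
    have h4 : evK l m (Q [cup 0 true, cap 0]) = 1 := by
      apply mul_left_cancel₀ (hde l m hm)
      rw [h3, mul_one]
    rw [map_sub, h4, map_one, sub_self]
  · intro D₁ D₂ i s₁ s₂ a b h1 h2 h3
    rw [← sub_eq_zero]
    apply eq_zero_of_evK _ Z hZ
    intro l m hm
    have hD₁ : D₁ ≠ [] := by
      rintro rfl
      simp at h1
    have hc : ∀ o, run (D₁ ++ [cr i o] ++ D₂) [] = some [] := by
      intro o
      rw [run_append, run_append, h1, Option.bind_some, run_singleton,
        step_cr_split _ _ _ _ _ _ h2, Option.bind_some]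
      exact h3
    have hs : run (D₁ ++ smooth i a b ++ D₂) [] = some [] := by
      by_cases hab : a = b
      · subst hab
        rw [smooth, if_pos rfl, List.append_nil, run_append, h1, Option.bind_some]
        exact h3
      · have hab' : b = Dir.op a := by
          cases a <;> cases b <;> first | rfl | (exact absurd rfl hab)
        rw [smooth, if_neg hab, run_append, run_append, h1, Option.bind_some, run_pair,
          step_cap_split _ _ _ _ _ h2 hab', Option.bind_some, step_cup_split _ _ _ _ h2,
          Option.bind_some]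
        have : a = Dir.op b := by rw [hab', Dir.op_op]
        rw [← this]
        exact h3
    have hsk := (hf l m hm).skein D₁ D₂ i s₁ s₂ a b h1 h2 h3
    have hp : run (D₁ ++ [posCr i a b] ++ D₂) [] = some [] := hc _
    have hn : run (D₁ ++ [negCr i a b] ++ D₂) [] = some [] := hc _
    rw [hQ' l m hm _ (by simp [hD₁]) hp, hQ' l m hm _ (by simp [hD₁]) hn,
      hQ' l m hm _ (by simp [hD₁]) hs] at hsk
    rw [map_sub, map_sub, map_mul, map_mul, map_mul, evK_CT, evK_CT, evK_T]
    simp only [zpow_neg, zpow_one, Units.val_inv_eq_inv_val]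
    apply mul_left_cancel₀ (hde l m hm)
    linear_combination hsk

end Pool.Agent.Helper26.WD
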