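import Pool.Agent.Helper26.WD.SoundRun
import Pool.Agent.Helper26.WD.AlgP

/-!
# The HOMFLY polynomial as a skein functional
-/

namespace Pool.Agent.Helper26.WD

set_option linter.unusedSectionVars false

open Piece LaurentPolynomial

section

variable {Ω : Type} [DecidableEq Ω] [Dir Ω]

/-- Regular moves do not involve the empty diagram. -/
theorem stepBy_ne_nil {D D' : List (Piece Ω)} (h : StepBy RegMove D D') : D ≠ [] ∧ D' ≠ [] := by
  obtain ⟨D₁, A, B, D₂, hM, rfl, rfl, hd, hd'⟩ := h
  constructor
  · intro h0
    simp only [List.append_eq_nil_iff] at h0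
    obtain ⟨⟨-, rfl⟩, -⟩ := h0
    cases hM
  · intro h0
    simp only [List.append_eq_nil_iff] at h0
    obtain ⟨⟨rfl, rfl⟩, rfl⟩ := h0
    simp only [List.nil_append, List.append_nil, IsDiagram] at hd
    cases hM with
    | zigR i a =>
      cases i with
      | zero => simp [step] at hd
      | succ i => simp [step] at hd
    | zigL i a => simp [step] at hd
    | r2 i o => simp [step] at hd

theorem split_of_get {s : List Ω} {i : ℕ} {a b : Ω} (ha : s[i]? = some a)
    (hb : s[i + 1]? = some b) :
    s = s.take i ++ a :: b :: s.drop (i + 2) ∧ (s.take i).length = i := by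
  obtain ⟨h1, h2⟩ := List.getElem?_eq_some_iff.1 ha
  obtain ⟨h3, h4⟩ := List.getElem?_eq_some_iff.1 hb
  constructor
  · conv_lhs => rw [← List.take_append_drop i s]
    rw [List.drop_eq_getElem_cons h1, List.drop_eq_getElem_cons h3, h2, h4]
  · simp; omega

theorem step_cr_split (s₁ s₂ : List Ω) (a b : Ω) (i : ℕ) (o : Bool) (h : s₁.length = i) :
    step (cr i o) (s₁ ++ a :: b :: s₂) = some (s₁ ++ b :: a :: s₂) := by
  subst h
  simp [step]

theorem step_cap_split (s₁ s₂ : List Ω) (a b : Ω) (i : ℕ) (h : s₁.length = i)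
    (hab : b = Dir.op a) : step (cap i) (s₁ ++ a :: b :: s₂) = some (s₁ ++ s₂) := by
  subst h hab
  simp [step]

theorem step_cup_split (s₁ s₂ : List Ω) (a : Ω) (i : ℕ) (h : s₁.length = i) :
    step (cup i a) (s₁ ++ s₂) = some (s₁ ++ a :: Dir.op a :: s₂) := by
  subst h
  simp [step]

end

section Homfly

variable {S : Type} [CommRing S] (P : List (Piece Bool) → LaurentPolynomial (LaurentPolynomial ℤ))
  (hP : IsHomfly P) (φ : LaurentPolynomial (LaurentPolynomial ℤ) →+* S)

include hP in
theorem IsHomfly.reg {D D' : List (Piece Bool)} (h : StepBy RegMove D D') : P D = P D' := by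
  apply hP.isotopy
  apply Relation.EqvGen.rel
  obtain ⟨D₁, A, B, D₂, hM, h1, h2, hd, hd'⟩ := h
  exact ⟨D₁, A, B, D₂, Move.reg hM, h1, h2, hd, hd'⟩

include hP in
theorem IsHomfly.unknot' (a : Bool) : P [cup 0 a, cap 0] = 1 := by
  cases a with
  | true => exact hP.unknot
  | false =>
    rw [← hP.unknot]
    have h1 : P [cup 0 true, cr 0 true, cap 0] = P [cup 0 false, cap 0] := by
      apply hP.isotopy
      apply Relation.EqvGen.rel
      exact ⟨[], [cup 0 true, cr 0 true], [cup 0 false], [cap 0], Move.curlCup 0 true true, rfl,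
        rfl, rfl, rfl⟩
    have h2 : P [cup 0 true, cr 0 true, cap 0] = P [cup 0 true, cap 0] := by
      apply hP.isotopy
      apply Relation.EqvGen.rel
      exact ⟨[cup 0 true], [cr 0 true, cap 0], [cap 0], [], Move.curlCap 0 true, rfl,
        rfl, rfl, rfl⟩
    rw [← h1, h2]

/-- The functional. -/
noncomputable def homF (D : List (Piece Bool)) : S :=
  if D = [] then 1 else if run D [] = some [] then
    (φ (C (T (-1))) - φ (C (T 1))) * φ (T (-1)) * φ (P D) else 0

theorem homF_eq {D : List (Piece Bool)} (h : D ≠ []) (hd : run D [] = some []) :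
    homF P φ D = (φ (C (T (-1))) - φ (C (T 1))) * φ (T (-1)) * φ (P D) := by
  rw [homF, if_neg h, if_pos hd]

theorem homF_nil : homF P φ [] = 1 := by
  rw [homF, if_pos rfl]

include hP in
theorem IsHomfly.skein' (D₁ D₂ : List (Piece Bool)) (i : ℕ) (o : Bool) (s : List Bool)
    (a b : Bool) (h : run D₁ [] = some s) (ha : s[i]? = some a) (hb : s[i + 1]? = some b)
    (hd : IsDiagram (D₁ ++ [cr i o] ++ D₂)) :
    homF P φ (D₁ ++ [cr i o] ++ D₂) =
      (if (a == b) == o then φ (C (T 1)) * φ (C (T 1)) else φ (C (T (-1))) * φ (C (T (-1)))) *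
        homF P φ (D₁ ++ [cr i (!o)] ++ D₂) +
      ((if a = b then (if o then φ (C (T 1)) * φ (T 1) else -(φ (C (T (-1))) * φ (T 1))) else 0) *
        homF P φ (D₁ ++ D₂) +
      (if a = b then 0 else (if o then -(φ (C (T (-1))) * φ (T 1)) else φ (C (T 1)) * φ (T 1))) *
        homF P φ (D₁ ++ [cap i, cup i b] ++ D₂)) := by
  obtain ⟨hs, hl⟩ := split_of_get ha hb
  generalize s.take i = s₁ at hs hl
  generalize s.drop (i + 2) = s₂ at hs
  subst hs
  have hne : D₁ ≠ [] := by
    rintro rfl
    simp at h
  unfold IsDiagram at hd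
  have hd2 : run D₂ (s₁ ++ b :: a :: s₂) = some [] := by
    rw [run_append, run_append, h, Option.bind_some, run_singleton,
      step_cr_split _ _ _ _ _ _ hl, Option.bind_some] at hd
    exact hd
  have hd' : run (D₁ ++ [cr i (!o)] ++ D₂) [] = some [] := by
    rw [run_append, run_append, h, Option.bind_some, run_singleton,
      step_cr_split _ _ _ _ _ _ hl, Option.bind_some]
    exact hd2
  have hsk := congrArg φ (hP.skein D₁ D₂ i s₁ s₂ a b h hl hd2)
  simp only [map_sub, map_mul] at hsk
  have hL : φ (C (T 1)) * φ (C (T (-1))) = 1 := by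
    rw [← map_mul, ← map_mul, ← T_add]
    simp
  rw [homF_eq P φ (by simp [hne]) hd, homF_eq P φ (by simp [hne]) hd']
  by_cases hab : a = b
  · subst hab
    have hd0 : run (D₁ ++ D₂) [] = some [] := by
      rw [run_append, h, Option.bind_some]
      exact hd2
    rw [homF_eq P φ (by simp [hne]) hd0]
    simp only [posCr, negCr, smooth, beq_self_eq_true, Bool.not_true, if_true,
      List.append_nil] at hsk
    cases o with
    | true =>
      simp only [beq_self_eq_true, Bool.not_true, if_true, zero_mul, add_zero]
      generalize φ (P (D₁ ++ [cr i true] ++ D₂)) = x at hsk ⊢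
      generalize φ (P (D₁ ++ [cr i false] ++ D₂)) = y at hsk ⊢
      generalize φ (P (D₁ ++ D₂)) = z at hsk ⊢
      have h3 : x = φ (C (T 1)) * φ (C (T 1)) * y + φ (C (T 1)) * φ (T 1) * z := by
        linear_combination φ (C (T 1)) * hsk - x * hL
      rw [h3]
      ring
    | false =>
      simp only [beq_self_eq_true, Bool.not_false, if_true, zero_mul, add_zero,
        show ((true == false) = true) = False from by simp, if_false,
        show (false = true) = False from by simp]
      generalize φ (P (D₁ ++ [cr i true] ++ D₂)) = x at hsk ⊢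
      generalize φ (P (D₁ ++ [cr i false] ++ D₂)) = y at hsk ⊢
      generalize φ (P (D₁ ++ D₂)) = z at hsk ⊢
      have h3 : y = φ (C (T (-1))) * φ (C (T (-1))) * x - φ (C (T (-1))) * φ (T 1) * z := by
        linear_combination -φ (C (T (-1))) * hsk - y * hL
      rw [h3]
      ring
  · have hab' : b = Dir.op a := by
      cases a <;> cases b <;> first | rfl | (exact absurd rfl hab)
    have hd0 : run (D₁ ++ [cap i, cup i b] ++ D₂) [] = some [] := by
      rw [run_append, run_append, h, Option.bind_some, run_pair,
        step_cap_split _ _ _ _ _ hl hab', Option.bind_some, step_cup_split _ _ _ _ hl,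
        Option.bind_some]
      have : a = Dir.op b := by rw [hab', Dir.op_op]
      rw [← this]
      exact hd2
    rw [homF_eq P φ (by simp [hne]) hd0]
    have hbeq : (a == b) = false := by simpa using hab
    simp only [posCr, negCr, smooth, hbeq, Bool.not_false, if_neg hab] at hsk ⊢
    cases o with
    | true =>
      simp only [Bool.not_true, if_true, zero_mul, zero_add, if_false,
        show ((false == true) = true) = False from by simp]
      generalize φ (P (D₁ ++ [cr i true] ++ D₂)) = x at hsk ⊢
      generalize φ (P (D₁ ++ [cr i false] ++ D₂)) = y at hsk ⊢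
      generalize φ (P (D₁ ++ [cap i, cup i b] ++ D₂)) = z at hsk ⊢
      have h3 : x = φ (C (T (-1))) * φ (C (T (-1))) * y - φ (C (T (-1))) * φ (T 1) * z := by
        linear_combination -φ (C (T (-1))) * hsk - x * hL
      rw [h3]
      ring
    | false =>
      simp only [Bool.not_false, if_true, zero_mul, zero_add, beq_self_eq_true, if_false,
        show (false = true) = False from by simp]
      generalize φ (P (D₁ ++ [cr i true] ++ D₂)) = x at hsk ⊢
      generalize φ (P (D₁ ++ [cr i false] ++ D₂)) = y at hsk ⊢
      generalize φ (P (D₁ ++ [cap i, cup i b] ++ D₂)) = z at hsk ⊢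
      have h3 : y = φ (C (T 1)) * φ (C (T 1)) * x + φ (C (T 1)) * φ (T 1) * z := by
        linear_combination φ (C (T 1)) * hsk - y * hL
      rw [h3]
      ring

theorem isUnit_map_T (φ : LaurentPolynomial (LaurentPolynomial ℤ) →+* S) (n : ℤ) :
    IsUnit (φ (T n)) := (isUnit_T n).map φ

theorem isUnit_map_CT (φ : LaurentPolynomial (LaurentPolynomial ℤ) →+* S) (n : ℤ) :
    IsUnit (φ (C (T n))) := ((isUnit_T n).map C).map φ

/-- The skein functional given by the HOMFLY polynomial. -/
noncomputable def homSkein : Skein Bool S where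
  f := homF P φ
  kap := fun _ => 1
  al := fun a b o => if (a == b) == o then φ (C (T 1)) * φ (C (T 1)) else
    φ (C (T (-1))) * φ (C (T (-1)))
  be := fun a b o => if a = b then (if o then φ (C (T 1)) * φ (T 1) else
    -(φ (C (T (-1))) * φ (T 1))) else 0
  ga := fun a b o => if a = b then 0 else (if o then -(φ (C (T (-1))) * φ (T 1)) else
    φ (C (T 1)) * φ (T 1))
  de := (φ (C (T (-1))) - φ (C (T 1))) * φ (T (-1))
  zero := by
    intro D hD
    rw [homF, if_neg, if_neg hD]
    rintro rfl
    simp at hD
  reg := by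
    intro D D' h
    obtain ⟨h1, h2⟩ := stepBy_ne_nil h
    have h3 := hP.reg P h
    obtain ⟨D₁, A, B, D₂, hM, rfl, rfl, hd, hd'⟩ := h
    rw [homF_eq P φ h1 hd, homF_eq P φ h2 hd', h3]
  curlCup := by
    intro D₁ D₂ i a o hd
    have hd' : IsDiagram (D₁ ++ [cup i (Dir.op a)] ++ D₂) := by
      unfold IsDiagram at hd ⊢
      rw [run_append, run_append] at hd ⊢
      cases hs : run D₁ [] with
      | none => rw [hs] at hd; simp at hd
      | some s =>
        rw [hs, Option.bind_some] at hd
        rw [Option.bind_some, ← run_curlCup i a o s]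
        exact hd
    rw [homF_eq P φ (by simp) hd, homF_eq P φ (by simp) hd', one_mul]
    congr 2
    apply hP.isotopy
    apply Relation.EqvGen.rel
    exact ⟨D₁, _, _, D₂, Move.curlCup i a o, rfl, rfl, hd, hd'⟩
  curlCap := by
    intro D₁ D₂ i o hd
    have hd' : IsDiagram (D₁ ++ [cap i] ++ D₂) := by
      unfold IsDiagram at hd ⊢
      rw [run_append, run_append] at hd ⊢
      cases hs : run D₁ [] with
      | none => rw [hs] at hd; simp at hd
      | some s =>
        rw [hs, Option.bind_some] at hd
        rw [Option.bind_some, ← run_curlCap i o s]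
        exact hd
    rw [homF_eq P φ (by simp) hd, homF_eq P φ (by simp) hd', one_mul]
    congr 2
    apply hP.isotopy
    apply Relation.EqvGen.rel
    exact ⟨D₁, _, _, D₂, Move.curlCap i o, rfl, rfl, hd, hd'⟩
  skein := fun D₁ D₂ i o s a b h ha hb hd => hP.skein' P φ D₁ D₂ i o s a b h ha hb hd
  dir := by
    intro a c
    cases a <;> cases c <;> first | exact Or.inl rfl | exact Or.inr rfl
  be_zero := by
    intro a b o h
    rw [if_neg h]
  ga_zero := by
    intro a b o h
    rw [if_pos]
    cases a <;> cases b <;> first | rfl | (exact absurd rfl h)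
  kap_unit := isUnit_one
  ga_unit := by
    intro a
    rw [if_neg (by cases a <;> simp [Dir.op]), if_pos rfl]
    exact ((isUnit_map_CT φ _).mul (isUnit_map_T φ _)).neg
  rel := by
    intro a
    have hL : φ (C (T 1)) * φ (C (T (-1))) = 1 := by
      rw [← map_mul, ← map_mul, ← T_add]
      simp
    have hM : φ (T 1) * φ (T (-1)) = 1 := by
      rw [← map_mul, ← T_add]
      simp
    have h1 : a ≠ Dir.op a := by cases a <;> simp [Dir.op]
    have h2 : (a == Dir.op a) = false := by simpa using h1
    rw [if_neg h1, if_neg h1, h2]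
    simp only [show ((false == true) = true) = False from by simp, if_false, if_true]
    linear_combination (-1 : S) * hL + φ (C (T (-1))) * (φ (C (T (-1))) - φ (C (T 1))) * hM +
      (1 - 1) * hM
  unknot := by
    intro a
    rw [homF_nil, homF_eq P φ (by simp) (by cases a <;> rfl), hP.unknot' P a, map_one]

end Homfly

end Pool.Agent.Helper26.WD
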