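import Pool.Agent.Helper26.WD.Homfly

/-!
# The HOMFLY polynomial at `l = 3` modulo `7`
-/

namespace Pool.Agent.Helper26.WD

set_option linter.unusedSectionVars false

open Piece LaurentPolynomial

/-- The unit `3` modulo `7`. -/
def three : (ZMod 7)ˣ := ⟨3, 5, by decide, by decide⟩

/-- Evaluation at `l = 3` modulo `7`. -/
noncomputable def evl : LaurentPolynomial ℤ →+* ZMod 7 :=
  LaurentPolynomial.eval₂ (Int.castRingHom (ZMod 7)) three

/-- Evaluation at `l = 3` modulo `7`. -/
noncomputable def evm : LaurentPolynomial (LaurentPolynomial ℤ) →+* LaurentPolynomial (ZMod 7) :=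
  AddMonoidAlgebra.mapRingHom ℤ evl

theorem evm_C (x : LaurentPolynomial ℤ) : evm (C x) = C (evl x) := by
  ext n
  rw [evm, AddMonoidAlgebra.coeff_mapRingHom]
  simp only [← single_eq_C, AddMonoidAlgebra.coeff_single, Finsupp.single_apply]
  split_ifs <;> simp

theorem evm_T (n : ℤ) : evm (T n) = T n := by
  ext k
  rw [evm, AddMonoidAlgebra.coeff_mapRingHom]
  simp only [T, AddMonoidAlgebra.coeff_single, Finsupp.single_apply]
  split_ifs <;> simp

theorem evl_T_one : evl (T 1) = 3 := by
  rw [evl, eval₂_T]
  rfl

theorem evl_T_neg_one : evl (T (-1)) = 5 := by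
  rw [evl, eval₂_T]
  rfl

/-- The Laurent polynomial with given coefficients. -/
noncomputable def toL : List ℕ → LaurentPolynomial (ZMod 7)
  | [] => 0
  | x :: xs => C (x : ZMod 7) + T 1 * toL xs

theorem toL_cns (x : ℕ) (xs : List ℕ) : toL (cns x xs) = C (x : ZMod 7) + T 1 * toL xs := by
  match xs with
  | [] =>
    cases x with
    | zero => simp [cns, toL]
    | succ n => simp [cns, toL]
  | y :: ys => rfl

theorem toL_padd (x y : List ℕ) : toL (padd x y) = toL x + toL y := by
  induction x generalizing y with
  | nil =>
    change toL y = 0 + toL y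
    rw [zero_add]
  | cons a x ih =>
    match y with
    | [] =>
      change toL (a :: x) = toL (a :: x) + 0
      rw [add_zero]
    | b :: y =>
      change toL (cns (Nat.mod (Nat.add a b) 7) (padd x y)) = toL (a :: x) + toL (b :: y)
      rw [toL_cns, ih, toL, toL]
      have : ((Nat.mod (Nat.add a b) 7 : ℕ) : ZMod 7) = (a : ZMod 7) + (b : ZMod 7) := by
        change (((a + b) % 7 : ℕ) : ZMod 7) = _
        rw [ZMod.natCast_mod]
        push_cast
        ring
      rw [this, map_add]
      ring

theorem toL_pmul (c : ℕ) (x : List ℕ) : toL (pmul c x) = C (c : ZMod 7) * toL x := by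
  induction x with
  | nil =>
    change (0 : LaurentPolynomial (ZMod 7)) = _
    simp [toL]
  | cons a x ih =>
    change toL (Nat.mod (Nat.mul c a) 7 :: pmul c x) = _
    rw [toL, ih, toL]
    have : ((Nat.mod (Nat.mul c a) 7 : ℕ) : ZMod 7) = (c : ZMod 7) * (a : ZMod 7) := by
      change (((c * a) % 7 : ℕ) : ZMod 7) = _
      rw [ZMod.natCast_mod]
      push_cast
      ring
    rw [this, map_mul]
    ring

theorem toL_shf (x : List ℕ) : toL (shf x) = T 1 * toL x := by
  match x with
  | [] =>
    change (0 : LaurentPolynomial (ZMod 7)) = _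
    simp [toL]
  | a :: x =>
    change toL (0 :: a :: x) = _
    rw [toL]
    simp

theorem eqB_eq (a b : Bool) : eqB a b = (a == b) := by cases a <;> cases b <;> rfl

theorem opB_eq (a : Bool) : opB a = !a := by cases a <;> rfl

/-- The coefficients. -/
theorem c33 : (C (3 : ZMod 7) : LaurentPolynomial (ZMod 7)) * C 3 = C 2 := by
  rw [← map_mul]; rfl

theorem c55 : (C (5 : ZMod 7) : LaurentPolynomial (ZMod 7)) * C 5 = C 4 := by
  rw [← map_mul]; rfl

theorem cn5 : -(C (5 : ZMod 7) : LaurentPolynomial (ZMod 7)) = C 2 := by
  rw [← map_neg]; rfl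

variable (P : List (Piece Bool) → LaurentPolynomial (LaurentPolynomial ℤ)) (hP : IsHomfly P)

/-- The algorithm computes the HOMFLY polynomial. -/
noncomputable def homInterp : Interp (homSkein P hP evm) algP where
  ι := toL
  u := T 1
  one := by
    change toL [1] = 1
    simp [toL]
  add := toL_padd
  al := by
    intro a b o x
    change toL (Bool.rec (motive := fun _ => List ℕ) (pmul 4 x) (pmul 2 x) (posB a b o)) =
      (if (a == b) == o then evm (C (T 1)) * evm (C (T 1)) else
        evm (C (T (-1))) * evm (C (T (-1)))) * toL x
    rw [evm_C, evm_C, evl_T_one, evl_T_neg_one, c33, c55, posB, eqB_eq, eqB_eq]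
    cases h : ((a == b) == o) with
    | true =>
      rw [if_pos rfl]
      change toL (pmul 2 x) = _
      rw [toL_pmul]
      rfl
    | false =>
      rw [if_neg (by simp)]
      change toL (pmul 4 x) = _
      rw [toL_pmul]
      rfl
  be := by
    intro a b o x
    change toL (Bool.rec (motive := fun _ => List ℕ) []
      (Bool.rec (motive := fun _ => List ℕ) (shf (pmul 2 x)) (shf (pmul 3 x)) o) (eqB a b)) =
      (if a = b then (if o then evm (C (T 1)) * evm (T 1) else
        -(evm (C (T (-1))) * evm (T 1))) else 0) * toL x
    rw [evm_C, evm_C, evl_T_one, evl_T_neg_one, evm_T, eqB_eq]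
    by_cases h : a = b
    · have h' : (a == b) = true := by simpa using h
      rw [h', if_pos h]
      cases o with
      | true =>
        change toL (shf (pmul 3 x)) = _
        rw [if_pos rfl, toL_shf, toL_pmul]
        push_cast
        ring
      | false =>
        change toL (shf (pmul 2 x)) = _
        rw [if_neg (by simp), toL_shf, toL_pmul]
        push_cast
        rw [← cn5]
        ring
    · have h' : (a == b) = false := by simpa using h
      rw [h', if_neg h]
      change toL [] = _
      simp [toL]
  ga := by
    intro a b o x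
    change toL (Bool.rec (motive := fun _ => List ℕ)
      (Bool.rec (motive := fun _ => List ℕ) (shf (pmul 3 x)) (shf (pmul 2 x)) o) [] (eqB a b)) =
      (if a = b then 0 else (if o then -(evm (C (T (-1))) * evm (T 1)) else
        evm (C (T 1)) * evm (T 1))) * toL x
    rw [evm_C, evm_C, evl_T_one, evl_T_neg_one, evm_T, eqB_eq]
    by_cases h : a = b
    · have h' : (a == b) = true := by simpa using h
      rw [h', if_pos h]
      change toL [] = _
      simp [toL]
    · have h' : (a == b) = false := by simpa using h
      rw [h', if_neg h]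
      cases o with
      | true =>
        change toL (shf (pmul 2 x)) = _
        rw [if_pos rfl, toL_shf, toL_pmul]
        push_cast
        rw [← cn5]
        ring
      | false =>
        change toL (shf (pmul 3 x)) = _
        rw [if_neg (by simp), toL_shf, toL_pmul]
        push_cast
        ring
  kap := by
    intro o x
    change toL x = 1 * toL x
    rw [one_mul]
  de := by
    intro x
    change toL (pmul 2 x) = T 1 * ((evm (C (T (-1))) - evm (C (T 1))) * evm (T (-1))) * toL x
    rw [evm_C, evm_C, evl_T_one, evl_T_neg_one, evm_T, toL_pmul]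
    have h1 : (T 1 : LaurentPolynomial (ZMod 7)) * T (-1) = 1 := by rw [← T_add]; simp
    have h2 : (C (5 : ZMod 7) : LaurentPolynomial (ZMod 7)) - C 3 = C 2 := by
      rw [← map_sub]; rfl
    push_cast
    linear_combination (-(C (5 : ZMod 7) - C 3) * toL x : LaurentPolynomial (ZMod 7)) * h1 -
      toL x * h2
  cp := toL_shf
  hasBe := by
    intro a b o h
    change (if a = b then _ else 0) = (0 : LaurentPolynomial (ZMod 7))
    change eqB a b = false at h
    rw [eqB_eq] at h
    rw [if_neg (by simpa using h)]
  hasGa := by
    intro a b o h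
    change (if a = b then 0 else _) = (0 : LaurentPolynomial (ZMod 7))
    change opB (eqB a b) = false at h
    rw [eqB_eq, opB_eq] at h
    rw [if_pos (by simpa using h)]
  hasGa' := by
    intro a b h
    change opB (eqB a b) = true at h
    cases a <;> cases b <;> first | rfl | (simp [opB, eqB] at h)
  op := by
    intro a
    cases a <;> rfl
  eqb := by
    intro a b
    change eqB a b = true ↔ a = b
    rw [eqB_eq]
    simp

end Pool.Agent.Helper26.WD
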