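import Pool.Agent.Helper26.WD.Coeffs
import Pool.Agent.Helper26.WD.Cmp.Value

/-!
# The `m`-degree of the HOMFLY polynomial of the Whitehead double
-/

namespace Pool.Agent.Helper26.WD

open Piece LaurentPolynomial

theorem run_wdouble_nil : run wdouble [] = some [] := by decide +kernel

theorem caps_wdouble : caps wdouble = 9 := by decide +kernel

theorem getD_value : ((decF 64 17406556684031605677045071481686458368).getD 40 0 : ZMod 7) ≠ 0 := by
  decide +kernel

theorem val_stP (l : List ℕ) : ((stP 0 [] l).val : List (List ℕ)) = l.map (decF 64) := by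
  induction l with
  | nil => rfl
  | cons x l ih =>
    change decF 64 x :: _ = _
    rw [List.map_cons, ← ih]
    rfl

theorem homfly_wdouble {P : List (Piece Bool) → LaurentPolynomial (LaurentPolynomial ℤ)}
    (hP : IsHomfly P) : ∃ p, IsMaxExp (P wdouble) p ∧ 32 ≤ p := by
  apply exists_isMaxExp
  have h := value_sound (homInterp P hP) run_wdouble_nil
  rw [run_wdouble, caps_wdouble, val_stP] at h
  change (T 1 : LaurentPolynomial (ZMod 7)) ^ 9 * homF P evm wdouble =
    (List.map toL (List.map (decF 64) [17406556684031605677045071481686458368])).sum *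
      homF P evm [] at h
  rw [homF_nil, mul_one, homF_eq P evm (by simp [wdouble, clasp]) run_wdouble_nil, evm_C, evm_C,
    evl_T_one, evl_T_neg_one, evm_T, ← map_sub, T_pow, mul_assoc, List.map_cons, List.map_nil,
    List.map_cons, List.map_nil, List.sum_cons, List.sum_nil, add_zero] at h
  have h40 := congrArg (fun g : LaurentPolynomial (ZMod 7) => g.coeff ((40 : ℕ) : ℤ)) h
  simp only [coeff_T_mul, coeff_C_mul, coeff_toL] at h40
  have h1 := getD_value
  rw [← h40] at h1
  have h2 : (evm (P wdouble)).coeff 32 ≠ 0 := by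
    intro h0
    apply h1
    have : (((40 : ℕ) : ℤ) - ((9 : ℕ) : ℤ) * 1 - -1) = 32 := by norm_num
    rw [this, h0, mul_zero]
  intro h0
  apply h2
  rw [evm, AddMonoidAlgebra.coeff_mapRingHom, h0, map_zero]

end Pool.Agent.Helper26.WD
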