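import Pool.Agent.Helper26.WD.Coeffs
import Pool.Agent.Helper26.WD.AlgK

/-!
# The Kauffman polynomial as a skein functional
-/

namespace Pool.Agent.Helper26.WD

set_option linter.unusedSectionVars false

open Piece LaurentPolynomial

section Kauffman

variable (B : List (Piece Unit) → LaurentPolynomial (LaurentPolynomial ℤ)) (hB : IsKauffman B)

/-- The value of a circle. -/
noncomputable def kde : LaurentPolynomial (LaurentPolynomial ℤ) :=
  (C (T 1) + C (T (-1))) * T (-1) - 1

/-- The functional. -/
noncomputable def kauF (D : List (Piece Unit)) : LaurentPolynomial (LaurentPolynomial ℤ) :=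
  if D = [] then 1 else if run D [] = some [] then kde * B D else 0

theorem kauF_eq {D : List (Piece Unit)} (h : D ≠ []) (hd : run D [] = some []) :
    kauF B D = kde * B D := by
  rw [kauF, if_neg h, if_pos hd]

theorem kauF_nil : kauF B [] = 1 := by
  rw [kauF, if_pos rfl]

/-- The skein functional given by the Kauffman polynomial. -/
noncomputable def kauSkein : Skein Unit (LaurentPolynomial (LaurentPolynomial ℤ)) where
  f := kauF B
  kap := fun o => C (T (if o then -1 else 1))
  al := fun _ _ _ => -1
  be := fun _ _ _ => T 1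
  ga := fun _ _ _ => T 1
  de := kde
  zero := by
    intro D hD
    rw [kauF, if_neg, if_neg hD]
    rintro rfl
    simp at hD
  reg := by
    intro D D' h
    obtain ⟨h1, h2⟩ := stepBy_ne_nil h
    have h3 := hB.regular D D' (Relation.EqvGen.rel _ _ h)
    obtain ⟨D₁, A, B', D₂, hM, rfl, rfl, hd, hd'⟩ := h
    rw [kauF_eq B h1 hd, kauF_eq B h2 hd', h3]
  curlCup := by
    intro D₁ D₂ i a o hd
    have hd' : IsDiagram (D₁ ++ [cup i (Dir.op a)] ++ D₂) := by
      unfold IsDiagram at hd ⊢
      rw [run_append, run_append] at hd ⊢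
      cases hs : run D₁ [] with
      | none => rw [hs] at hd; simp at hd
      | some s =>
        rw [hs, Option.bind_some] at hd
        rw [Option.bind_some, ← run_curlCup i a o s]
        exact hd
    rw [kauF_eq B (by simp) hd, kauF_eq B (by simp) hd', hB.curlCup D₁ D₂ i o hd]
    have : Dir.op a = () := rfl
    rw [this]
    ring
  curlCap := by
    intro D₁ D₂ i o hd
    have hd' : IsDiagram (D₁ ++ [cap i] ++ D₂) := by
      unfold IsDiagram at hd ⊢
      rw [run_append, run_append] at hd ⊢
      cases hs : run D₁ [] with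
      | none => rw [hs] at hd; simp at hd
      | some s =>
        rw [hs, Option.bind_some] at hd
        rw [Option.bind_some, ← run_curlCap i o s]
        exact hd
    rw [kauF_eq B (by simp) hd, kauF_eq B (by simp) hd', hB.curlCap D₁ D₂ i o hd]
    ring
  skein := by
    intro D₁ D₂ i o s a b h ha hb hd
    have hsk := hB.skein D₁ D₂ i o hd
    obtain ⟨hs, hl⟩ := split_of_get ha hb
    generalize s.take i = s₁ at hs hl
    generalize s.drop (i + 2) = s₂ at hs
    subst hs
    have hne : D₁ ≠ [] := by
      rintro rfl
      simp at h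
    unfold IsDiagram at hd
    have hd2 : run D₂ (s₁ ++ b :: a :: s₂) = some [] := by
      rw [run_append, run_append, h, Option.bind_some, run_singleton,
        step_cr_split _ _ _ _ _ _ hl, Option.bind_some] at hd
      exact hd
    have hd' : run (D₁ ++ [cr i (!o)] ++ D₂) [] = some [] := by
      rw [run_append, run_append, h, Option.bind_some, run_singleton,
        step_cr_split _ _ _ _ _ _ hl, Option.bind_some]
      exact hd2
    have hd3 : run (D₁ ++ D₂) [] = some [] := by
      rw [run_append, h, Option.bind_some]
      exact hd2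
    have hd4 : run (D₁ ++ [cap i, cup i b] ++ D₂) [] = some [] := by
      rw [run_append, run_append, h, Option.bind_some, run_pair,
        step_cap_split _ _ _ _ _ hl rfl, Option.bind_some, step_cup_split _ _ _ _ hl,
        Option.bind_some]
      exact hd2
    rw [kauF_eq B (by simp [hne]) hd, kauF_eq B (by simp [hne]) hd',
      kauF_eq B (by simp [hne]) hd3, kauF_eq B (by simp [hne]) hd4]
    linear_combination kde * hsk
  dir := fun _ _ => Or.inl rfl
  be_zero := fun a b _ h => absurd rfl h
  ga_zero := fun a b _ h => absurd rfl h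
  kap_unit := by
    rw [if_pos rfl]
    exact (isUnit_T (-1)).map C
  ga_unit := fun _ => isUnit_T 1
  rel := by
    intro a
    rw [if_pos rfl, if_neg (by simp)]
    have hM : (T 1 : LaurentPolynomial (LaurentPolynomial ℤ)) * T (-1) = 1 := by
      rw [← T_add]
      simp
    rw [kde]
    linear_combination (-(C (T 1) + C (T (-1)))) * hM
  unknot := by
    intro a
    rw [kauF_nil, mul_one, kauF_eq B (by simp) (by rfl)]
    have : a = () := rfl
    rw [this, hB.unknot, mul_one]

end Kauffman

/-- The polynomial in `z` with given coefficients. -/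
noncomputable def toZ : List ℤ → LaurentPolynomial (LaurentPolynomial ℤ)
  | [] => 0
  | x :: xs => C (C x) + T 1 * toZ xs

/-- The polynomial in `a` with given coefficients. -/
noncomputable def toA : List (List ℤ) → LaurentPolynomial (LaurentPolynomial ℤ)
  | [] => 0
  | x :: xs => toZ x + C (T 1) * toA xs

/-- The element with given coefficients. -/
noncomputable def toK (x : KC) : LaurentPolynomial (LaurentPolynomial ℤ) :=
  C (T (-(x.1 : ℤ))) * toA x.2

theorem toZ_cnz (x : ℤ) (xs : List ℤ) : toZ (cnz x xs) = C (C x) + T 1 * toZ xs := by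
  match xs with
  | [] =>
    match x with
    | Int.ofNat 0 => simp [cnz, toZ]
    | Int.ofNat (n + 1) => rfl
    | Int.negSucc n => rfl
  | y :: ys => rfl

theorem toZ_zadd (x y : List ℤ) : toZ (zadd x y) = toZ x + toZ y := by
  induction x generalizing y with
  | nil =>
    change toZ y = 0 + toZ y
    rw [zero_add]
  | cons a x ih =>
    match y with
    | [] =>
      change toZ (a :: x) = toZ (a :: x) + 0
      rw [add_zero]
    | b :: y =>
      change toZ (cnz (a + b) (zadd x y)) = toZ (a :: x) + toZ (b :: y)
      rw [toZ_cnz, ih, toZ, toZ]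
      simp only [map_add]
      ring

theorem toZ_zneg (x : List ℤ) : toZ (zneg x) = -toZ x := by
  induction x with
  | nil =>
    change (0 : LaurentPolynomial (LaurentPolynomial ℤ)) = _
    simp [toZ]
  | cons a x ih =>
    change toZ (-a :: zneg x) = _
    rw [toZ, ih, toZ]
    simp only [map_neg]
    ring

theorem toZ_zshf (x : List ℤ) : toZ (zshf x) = T 1 * toZ x := by
  match x with
  | [] =>
    change (0 : LaurentPolynomial (LaurentPolynomial ℤ)) = _
    simp [toZ]
  | a :: x =>
    change toZ (0 :: a :: x) = _
    rw [toZ]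
    simp

theorem toA_cne (x : List ℤ) (xs : List (List ℤ)) :
    toA (cne x xs) = toZ x + C (T 1) * toA xs := by
  match xs with
  | [] =>
    match x with
    | [] => simp [cne, toZ, toA]
    | a :: l => rfl
  | y :: ys => rfl

theorem toA_aadd (x y : List (List ℤ)) : toA (aadd x y) = toA x + toA y := by
  induction x generalizing y with
  | nil =>
    change toA y = 0 + toA y
    rw [zero_add]
  | cons a x ih =>
    match y with
    | [] =>
      change toA (a :: x) = toA (a :: x) + 0
      rw [add_zero]
    | b :: y =>
      change toA (cne (zadd a b) (aadd x y)) = toA (a :: x) + toA (b :: y)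
      rw [toA_cne, ih, toA, toA, toZ_zadd]
      ring

theorem toA_pre (n : ℕ) (x : List (List ℤ)) : toA (pre n x) = C (T n) * toA x := by
  induction n with
  | zero =>
    change toA x = _
    simp
  | succ n ih =>
    change toA ([] :: pre n x) = _
    rw [toA, ih, toZ, zero_add, ← mul_assoc, ← map_mul, ← T_add]
    congr 3
    push_cast
    ring

theorem toA_mapL (f : List ℤ → List ℤ) (c : LaurentPolynomial (LaurentPolynomial ℤ))
    (h : ∀ x, toZ (f x) = c * toZ x) (x : List (List ℤ)) : toA (mapL f x) = c * toA x := by
  induction x with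
  | nil =>
    change (0 : LaurentPolynomial (LaurentPolynomial ℤ)) = _
    simp [toA]
  | cons a x ih =>
    change toA (f a :: mapL f x) = _
    rw [toA, ih, toA, h]
    ring

theorem toK_kneg (x : KC) : toK (kneg x) = -1 * toK x := by
  change C (T (-(x.1 : ℤ))) * toA (mapL zneg x.2) = -1 * (C (T (-(x.1 : ℤ))) * toA x.2)
  rw [toA_mapL zneg (-1) (fun x => by rw [toZ_zneg]; ring)]
  ring

theorem toK_kz (x : KC) : toK (kz x) = T 1 * toK x := by
  change C (T (-(x.1 : ℤ))) * toA (mapL zshf x.2) = T 1 * (C (T (-(x.1 : ℤ))) * toA x.2)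
  rw [toA_mapL zshf (T 1) toZ_zshf]
  ring

theorem toK_kai (x : KC) : toK (kai x) = C (T (-1)) * toK x := by
  change C (T (-((x.1 + 1 : ℕ) : ℤ))) * toA x.2 = C (T (-1)) * (C (T (-(x.1 : ℤ))) * toA x.2)
  rw [← mul_assoc, ← map_mul, ← T_add]
  congr 3
  push_cast
  ring

theorem toK_ka (x : KC) : toK (ka x) = C (T 1) * toK x := by
  obtain ⟨n, l⟩ := x
  cases n with
  | zero =>
    change C (T (-((0 : ℕ) : ℤ))) * toA ([] :: l) = C (T 1) * (C (T (-((0 : ℕ) : ℤ))) * toA l)
    rw [toA, toZ]
    simp
  | succ n =>
    change C (T (-(n : ℤ))) * toA l = C (T 1) * (C (T (-((n + 1 : ℕ) : ℤ))) * toA l)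
    rw [← mul_assoc, ← map_mul, ← T_add]
    congr 3
    push_cast
    ring

theorem toK_kadd (x y : KC) : toK (kadd x y) = toK x + toK y := by
  obtain ⟨m, l⟩ := x
  obtain ⟨n, l'⟩ := y
  match l, l' with
  | [], l' =>
    change toK (n, l') = C (T (-(m : ℤ))) * 0 + toK (n, l')
    rw [mul_zero, zero_add]
  | a :: l, [] =>
    change toK (m, a :: l) = toK (m, a :: l) + C (T (-(n : ℤ))) * 0
    rw [mul_zero, add_zero]
  | a :: l, b :: l' =>
    change toK (ifb (Nat.ble m n) (n, aadd (pre (n - m) (a :: l)) (b :: l'))
      (m, aadd (a :: l) (pre (m - n) (b :: l')))) = _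
    cases h : Nat.ble m n with
    | true =>
      have hmn : m ≤ n := Nat.le_of_ble_eq_true h
      change C (T (-(n : ℤ))) * toA (aadd (pre (n - m) (a :: l)) (b :: l')) =
        C (T (-(m : ℤ))) * toA (a :: l) + C (T (-(n : ℤ))) * toA (b :: l')
      rw [toA_aadd, toA_pre, mul_add, ← mul_assoc, ← map_mul, ← T_add]
      congr 4
      push_cast [Nat.cast_sub hmn]
      ring
    | false =>
      have hmn : n ≤ m := by
        have : ¬ m ≤ n := fun h' => by
          rw [Nat.ble_eq_true_of_le h'] at h
          exact absurd h (by simp)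
        omega
      change C (T (-(m : ℤ))) * toA (aadd (a :: l) (pre (m - n) (b :: l'))) =
        C (T (-(m : ℤ))) * toA (a :: l) + C (T (-(n : ℤ))) * toA (b :: l')
      rw [toA_aadd, toA_pre, mul_add, ← mul_assoc (C (T (-(m : ℤ)))) (C (T _)), ← map_mul,
        ← T_add]
      congr 4
      push_cast [Nat.cast_sub hmn]
      ring

variable (B : List (Piece Unit) → LaurentPolynomial (LaurentPolynomial ℤ)) (hB : IsKauffman B)

/-- The algorithm computes the Kauffman polynomial. -/
noncomputable def kauInterp : Interp (kauSkein B hB) algK where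
  ι := toK
  u := T 1
  one := by
    change toK (0, [[1]]) = 1
    simp [toK, toA, toZ]
  add := toK_kadd
  al := fun _ _ _ x => toK_kneg x
  be := fun _ _ _ x => toK_kz x
  ga := fun _ _ _ x => toK_kz x
  kap := by
    intro o x
    cases o with
    | false => exact toK_ka x
    | true => exact toK_kai x
  de := by
    intro x
    change toK (kadd (kadd (ka x) (kai x)) (kneg (kz x))) = T 1 * kde * toK x
    have h1 : (T 1 : LaurentPolynomial (LaurentPolynomial ℤ)) * T (-1) = 1 := by
      rw [← T_add]; simp
    rw [toK_kadd, toK_kadd, toK_ka, toK_kai, toK_kneg, toK_kz, kde]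
    linear_combination (-((C (T 1) + C (T (-1))) * toK x)) * h1
  cp := toK_kz
  hasBe := by
    intro a b o h
    change true = false at h
    simp at h
  hasGa := by
    intro a b o h
    change true = false at h
    simp at h
  hasGa' := fun _ _ _ => rfl
  op := fun _ => rfl
  eqb := fun _ _ => ⟨fun _ => rfl, fun _ => rfl⟩

end Pool.Agent.Helper26.WD
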