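import Pool.Agent.Helper26.WD.HomFun
import Pool.Agent.Helper26.WD.Kauffman

/-!
# Kauffman functionals with values in a field
-/

namespace Pool.Agent.Helper26.WD

set_option linter.unusedSectionVars false

open Piece LaurentPolynomial

variable {K : Type} [Field K]

/-- A Kauffman functional with values in a field. -/
structure KauFun (a z : Kˣ) (g : List (Piece Unit) → K) : Prop where
  reg : ∀ D D', StepBy RegMove D D' → g D = g D'
  nil : g [] = 1
  zero : ∀ D, run D [] ≠ some [] → g D = 0
  unknot : g [cup 0 (), cap 0] = ((a : K) + (a : K)⁻¹) / z - 1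
  curlCup : ∀ (D₁ D₂ : List (Piece Unit)) (i : ℕ) (o : Bool),
    IsDiagram (D₁ ++ [cup i (), cr i o] ++ D₂) →
    g (D₁ ++ [cup i (), cr i o] ++ D₂) =
      (if o then (a : K)⁻¹ else a) * g (D₁ ++ [cup i ()] ++ D₂)
  curlCap : ∀ (D₁ D₂ : List (Piece Unit)) (i : ℕ) (o : Bool),
    IsDiagram (D₁ ++ [cr i o, cap i] ++ D₂) →
    g (D₁ ++ [cr i o, cap i] ++ D₂) = (if o then (a : K)⁻¹ else a) * g (D₁ ++ [cap i] ++ D₂)
  skein : ∀ (D₁ D₂ : List (Piece Unit)) (i : ℕ) (o : Bool),
    IsDiagram (D₁ ++ [cr i o] ++ D₂) →
    g (D₁ ++ [cr i o] ++ D₂) + g (D₁ ++ [cr i (!o)] ++ D₂) =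
      z * (g (D₁ ++ D₂) + g (D₁ ++ [cap i, cup i ()] ++ D₂))

variable {a z : Kˣ} {g : List (Piece Unit) → K}

/-- The skein functional given by a Kauffman functional. -/
noncomputable def KauFun.skeinF (h : KauFun a z g) : Skein Unit K where
  f := g
  kap := fun o => if o then (a : K)⁻¹ else a
  al := fun _ _ _ => -1
  be := fun _ _ _ => z
  ga := fun _ _ _ => z
  de := ((a : K) + (a : K)⁻¹) / z - 1
  zero := h.zero
  reg := h.reg
  curlCup := fun D₁ D₂ i _ o hd => h.curlCup D₁ D₂ i o hd
  curlCap := h.curlCap
  skein := by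
    intro D₁ D₂ i o s a b _ _ _ hd
    have hsk := h.skein D₁ D₂ i o hd
    have hb : b = () := rfl
    subst hb
    linear_combination hsk
  dir := fun _ _ => Or.inl rfl
  be_zero := fun a b _ h => absurd rfl h
  ga_zero := fun a b _ h => absurd rfl h
  kap_unit := by
    rw [if_pos rfl, isUnit_iff_ne_zero]
    exact inv_ne_zero a.ne_zero
  ga_unit := fun _ => z.isUnit
  rel := by
    intro _
    rw [if_pos rfl, if_neg (by simp)]
    have hz : (z : K) ≠ 0 := z.ne_zero
    field_simp
    ring
  unknot := by
    intro b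
    have hb : b = () := rfl
    rw [hb, h.nil, mul_one]
    exact h.unknot

/-- The universal algebra of coefficients for the Kauffman polynomial. -/
noncomputable def algU : Alg Unit (LaurentPolynomial (LaurentPolynomial ℤ)) where
  one := 1
  add := fun x y => x + y
  al := fun _ _ _ x => -1 * x
  be := fun _ _ _ x => T 1 * x
  ga := fun _ _ _ x => T 1 * x
  kap := fun o x => C (T (if o then -1 else 1)) * x
  de := fun x => (C (T 1) + C (T (-1)) - T 1) * x
  cp := fun x => T 1 * x
  hasBe := fun _ _ => true
  hasGa := fun _ _ => true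
  op := fun a => a
  eqb := fun _ _ => true

theorem evK_kap (a z : Kˣ) (o : Bool) :
    evK a z (C (T (if o then -1 else 1))) = if o then (a : K)⁻¹ else a := by
  cases o with
  | true => rw [if_pos rfl, if_pos rfl, evK_CT]; simp
  | false => rw [if_neg (by simp), if_neg (by simp), evK_CT]; simp

theorem evK_kde (a z : Kˣ) : evK a z (C (T 1) + C (T (-1)) - T 1) =
    (z : K) * (((a : K) + (a : K)⁻¹) / z - 1) := by
  rw [map_sub, map_add, evK_CT, evK_CT, evK_T]
  have hz : (z : K) ≠ 0 := z.ne_zero
  simp only [zpow_one, zpow_neg, Units.val_inv_eq_inv_val]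
  field_simp

/-- The universal algorithm computes every Kauffman functional. -/
noncomputable def KauFun.interp (h : KauFun a z g) : Interp h.skeinF algU where
  ι := evK a z
  u := z
  one := map_one _
  add := fun x y => map_add _ x y
  al := by
    intro _ _ _ x
    change evK a z (-1 * x) = -1 * evK a z x
    rw [map_mul, map_neg, map_one]
  be := by
    intro _ _ _ x
    change evK a z (T 1 * x) = z * evK a z x
    rw [map_mul, evK_T, zpow_one]
  ga := by
    intro _ _ _ x
    change evK a z (T 1 * x) = z * evK a z x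
    rw [map_mul, evK_T, zpow_one]
  kap := by
    intro o x
    change evK a z (C (T (if o then -1 else 1)) * x) = (if o then (a : K)⁻¹ else a) * evK a z x
    rw [map_mul, evK_kap]
  de := by
    intro x
    change evK a z ((C (T 1) + C (T (-1)) - T 1) * x) = z * (((a : K) + (a : K)⁻¹) / z - 1) *
      evK a z x
    rw [map_mul, evK_kde]
  cp := by
    intro x
    change evK a z (T 1 * x) = _
    rw [map_mul, evK_T, zpow_one]
  hasBe := by
    intro _ _ _ h
    change true = false at h
    simp at h
  hasGa := by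
    intro _ _ _ h
    change true = false at h
    simp at h
  hasGa' := fun _ _ _ => rfl
  op := fun _ => rfl
  eqb := fun _ _ => ⟨fun _ => rfl, fun _ => rfl⟩

/-- Existence of the Kauffman polynomial, provided that there are enough Kauffman functionals. -/
theorem exists_isKauffman [CharZero K] (Z : Kˣ → Set Kˣ) (hZ : {l | (Z l).Infinite}.Infinite)
    (hne : ∀ a, ∀ z ∈ Z a, ((a : K) + (a : K)⁻¹) / z - 1 ≠ 0)
    (hf : ∀ a, ∀ z ∈ Z a, ∃ g, KauFun a z g) : ∃ B, IsKauffman B := by
  choose! f hf using hf
  let J : Type := {p : Kˣ × Kˣ // p.2 ∈ Z p.1}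
  have hJ : Nonempty J := by
    obtain ⟨l, hl⟩ := hZ.nonempty
    obtain ⟨m, hm⟩ := Set.Infinite.nonempty hl
    exact ⟨⟨(l, m), hm⟩⟩
  let F : J → Skein Unit K := fun j => (hf j.1.1 j.1.2 j.2).skeinF
  have hTT : (T 1 : LaurentPolynomial (LaurentPolynomial ℤ)) * T (-1) = 1 := by
    rw [← T_add]; simp
  obtain ⟨Q, hQ⟩ := exists_univ F (fun j => evK j.1.1 j.1.2) algU (C (T 1) + C (T (-1)) - T 1)
    (T 1) (T (-1)) (fun _ _ => rfl) (fun _ => rfl) (fun j => (hf j.1.1 j.1.2 j.2).interp)
    (fun _ _ => rfl) (fun j => by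
      change ((j.1.2 : Kˣ) : K) = evK _ _ (T 1)
      rw [evK_T, zpow_one])
    (fun j => by
      change evK _ _ (C (T 1) + C (T (-1)) - T 1) = evK _ _ (T 1) *
        ((((j.1.1 : Kˣ) : K) + ((j.1.1 : Kˣ) : K)⁻¹) / (j.1.2 : Kˣ) - 1)
      rw [evK_kde, evK_T, zpow_one]) hTT
    (fun j => (hf j.1.1 j.1.2 j.2).nil)
  have hQ' : ∀ a, ∀ z ∈ Z a, ∀ D, D ≠ [] → run D [] = some [] →
      f a z D = (((a : K) + (a : K)⁻¹) / z - 1) * evK a z (Q D) := by
    intro a z hm D h1 h2
    exact hQ D h1 h2 ⟨(a, z), hm⟩
  refine ⟨Q, ⟨?_, ?_, ?_, ?_, ?_⟩⟩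
  · intro D D' h
    induction h with
    | rel D D' h =>
      obtain ⟨h1, h2⟩ := stepBy_ne_nil h
      rw [← sub_eq_zero]
      apply eq_zero_of_evK _ Z hZ
      intro a z hm
      have h3 := (hf a z hm).reg D D' h
      obtain ⟨D₁, A, B, D₂, hM, rfl, rfl, hd, hd'⟩ := h
      rw [hQ' a z hm _ h1 hd, hQ' a z hm _ h2 hd'] at h3
      rw [map_sub, mul_left_cancel₀ (hne a z hm) h3, sub_self]
    | refl _ => rfl
    | symm _ _ _ ih => exact ih.symm
    | trans _ _ _ _ _ ih₁ ih₂ => exact ih₁.trans ih₂
  · rw [← sub_eq_zero]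
    apply eq_zero_of_evK _ Z hZ
    intro a z hm
    have h3 := (hf a z hm).unknot
    rw [hQ' a z hm _ (by simp) rfl] at h3
    have h4 : evK a z (Q [cup 0 (), cap 0]) = 1 := by
      apply mul_left_cancel₀ (hne a z hm)
      rw [h3, mul_one]
    rw [map_sub, h4, map_one, sub_self]
  · intro D₁ D₂ i o hd
    rw [← sub_eq_zero]
    apply eq_zero_of_evK _ Z hZ
    intro a z hm
    have hd' : IsDiagram (D₁ ++ [cup i ()] ++ D₂) := by
      unfold IsDiagram at hd ⊢
      rw [run_append, run_append] at hd ⊢
      cases hs : run D₁ [] with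
      | none => rw [hs] at hd; simp at hd
      | some s =>
        rw [hs, Option.bind_some] at hd
        rw [Option.bind_some]
        have := run_curlCup i () o s
        change run [cup i (), cr i o] s = run [cup i ()] s at this
        rw [← this]
        exact hd
    have h3 := (hf a z hm).curlCup D₁ D₂ i o hd
    rw [hQ' a z hm _ (by simp) hd, hQ' a z hm _ (by simp) hd'] at h3
    rw [map_sub, map_mul, evK_kap]
    apply mul_left_cancel₀ (hne a z hm)
    linear_combination h3
  · intro D₁ D₂ i o hd
    rw [← sub_eq_zero]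
    apply eq_zero_of_evK _ Z hZ
    intro a z hm
    have hd' : IsDiagram (D₁ ++ [cap i] ++ D₂) := by
      unfold IsDiagram at hd ⊢
      rw [run_append, run_append] at hd ⊢
      cases hs : run D₁ [] with
      | none => rw [hs] at hd; simp at hd
      | some s =>
        rw [hs, Option.bind_some] at hd
        rw [Option.bind_some, ← run_curlCap i o s]
        exact hd
    have h3 := (hf a z hm).curlCap D₁ D₂ i o hd
    rw [hQ' a z hm _ (by simp) hd, hQ' a z hm _ (by simp) hd'] at h3
    rw [map_sub, map_mul, evK_kap]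
    apply mul_left_cancel₀ (hne a z hm)
    linear_combination h3
  · intro D₁ D₂ i o hd
    rw [← sub_eq_zero]
    apply eq_zero_of_evK _ Z hZ
    intro a z hm
    have hsk := (hf a z hm).skein D₁ D₂ i o hd
    unfold IsDiagram at hd
    cases hr : run D₁ [] with
    | none => rw [run_append, run_append, hr] at hd; simp at hd
    | some s =>
      have hd0 := hd
      rw [run_append, run_append, hr, Option.bind_some, run_singleton] at hd
      cases hr2 : step (cr i o) s with
      | none => rw [hr2] at hd; simp at hd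
      | some s' =>
        obtain ⟨hl, -⟩ := of_step_cr hr2
        rw [hr2, Option.bind_some] at hd
        obtain ⟨hs, hl'⟩ := split_of_get (s := s) (i := i) (a := ()) (b := ())
          (List.getElem?_eq_getElem (by omega)) (List.getElem?_eq_getElem (by omega))
        generalize s.take i = s₁ at hs hl'
        generalize s.drop (i + 2) = s₂ at hs
        subst hs
        rw [step_cr_split _ _ _ _ _ _ hl'] at hr2
        simp only [Option.some.injEq] at hr2
        subst hr2
        have hne' : D₁ ≠ [] := by
          rintro rfl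
          simp at hr
        have hd1 : run (D₁ ++ [cr i (!o)] ++ D₂) [] = some [] := by
          rw [run_append, run_append, hr, Option.bind_some, run_singleton,
            step_cr_split _ _ _ _ _ _ hl', Option.bind_some]
          exact hd
        have hd3 : run (D₁ ++ D₂) [] = some [] := by
          rw [run_append, hr, Option.bind_some]
          exact hd
        have hd4 : run (D₁ ++ [cap i, cup i ()] ++ D₂) [] = some [] := by
          rw [run_append, run_append, hr, Option.bind_some, run_pair,
            step_cap_split _ _ _ _ _ hl' rfl, Option.bind_some, step_cup_split _ _ _ _ hl',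
            Option.bind_some]
          exact hd
        rw [hQ' a z hm _ (by simp [hne']) hd0, hQ' a z hm _ (by simp [hne']) hd1,
          hQ' a z hm _ (by simp [hne']) hd3, hQ' a z hm _ (by simp [hne']) hd4] at hsk
        rw [map_sub, map_add, map_mul, map_add, evK_T, zpow_one]
        apply mul_left_cancel₀ (hne a z hm)
        linear_combination hsk

end Pool.Agent.Helper26.WD
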