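import Pool.Agent.Helper26.WD.Kauffman

/-!
# The `z`-degree of the Kauffman polynomial of the knot
-/

namespace Pool.Agent.Helper26.WD

open Piece LaurentPolynomial

theorem coeff_toZ_of_length (l : List ℤ) (k : ℤ) (h : (l.length : ℤ) ≤ k) :
    (toZ l).coeff k = 0 := by
  induction l generalizing k with
  | nil => simp [toZ]
  | cons x l ih =>
    simp only [List.length_cons, Nat.cast_add, Nat.cast_one] at h
    rw [toZ, AddMonoidAlgebra.coeff_add, Finsupp.add_apply, coeff_C, coeff_T_mul,
      if_neg (by omega), ih _ (by omega), add_zero]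

theorem coeff_toZ_neg (l : List ℤ) (k : ℤ) (h : k < 0) : (toZ l).coeff k = 0 := by
  induction l generalizing k with
  | nil => simp [toZ]
  | cons x l ih =>
    rw [toZ, AddMonoidAlgebra.coeff_add, Finsupp.add_apply, coeff_C, coeff_T_mul,
      if_neg (by omega), ih _ (by omega), add_zero]

theorem coeff_toZ (l : List ℤ) (k : ℕ) : (toZ l).coeff (k : ℤ) = C (l.getD k 0) := by
  induction l generalizing k with
  | nil => simp [toZ]
  | cons x l ih =>
    rw [toZ, AddMonoidAlgebra.coeff_add, Finsupp.add_apply, coeff_C, coeff_T_mul]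
    cases k with
    | zero =>
      rw [coeff_toZ_neg _ _ (by norm_num)]
      simp
    | succ k =>
      have h1 : ((k + 1 : ℕ) : ℤ) - 1 = (k : ℤ) := by push_cast; ring
      rw [h1, ih, if_neg (by omega), zero_add]
      simp

theorem coeff_toA_of_length (ls : List (List ℤ)) (m : ℕ) (h : ∀ l ∈ ls, l.length ≤ m) (k : ℤ)
    (hk : (m : ℤ) ≤ k) : (toA ls).coeff k = 0 := by
  induction ls with
  | nil => simp [toA]
  | cons l ls ih =>
    have h1 := h l (by simp)
    rw [toA, AddMonoidAlgebra.coeff_add, Finsupp.add_apply, coeff_C_mul,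
      ih (fun l hl => h l (by simp [hl])), coeff_toZ_of_length l k (by omega)]
    simp

theorem coeff_toA_neg (ls : List (List ℤ)) (k : ℕ) (i : ℤ) (hi : i < 0) :
    ((toA ls).coeff (k : ℤ)).coeff i = 0 := by
  induction ls generalizing i with
  | nil => simp [toA]
  | cons l ls ih =>
    rw [toA, AddMonoidAlgebra.coeff_add, Finsupp.add_apply, coeff_C_mul, coeff_toZ,
      AddMonoidAlgebra.coeff_add, Finsupp.add_apply, coeff_C, coeff_T_mul, if_neg (by omega),
      ih _ (by omega), add_zero]

theorem coeff_toA (ls : List (List ℤ)) (k i : ℕ) :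
    ((toA ls).coeff (k : ℤ)).coeff (i : ℤ) = (ls.getD i []).getD k 0 := by
  induction ls generalizing i with
  | nil => simp [toA]
  | cons l ls ih =>
    rw [toA, AddMonoidAlgebra.coeff_add, Finsupp.add_apply, coeff_C_mul, coeff_toZ,
      AddMonoidAlgebra.coeff_add, Finsupp.add_apply, coeff_C, coeff_T_mul]
    cases i with
    | zero =>
      rw [coeff_toA_neg _ _ _ (by norm_num)]
      simp
    | succ i =>
      have h1 : ((i + 1 : ℕ) : ℤ) - 1 = (i : ℤ) := by push_cast; ring
      rw [h1, ih, if_neg (by omega), zero_add]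
      simp

theorem maxExp_kval : IsMaxExp (toK kval) 18 := by
  constructor
  · intro h0
    rw [toK, coeff_C_mul] at h0
    have h1 : (toA kval.2).coeff 18 = 0 := by
      rw [← one_mul ((toA kval.2).coeff 18), ← T_zero, show (0 : ℤ) = (kval.1 : ℤ) +
        -(kval.1 : ℤ) by ring, T_add, mul_assoc, h0, mul_zero]
    have h2 := coeff_toA kval.2 18 5
    rw [show (((18 : ℕ) : ℤ)) = 18 by norm_num, h1] at h2
    revert h2
    simp [kval]
  · intro k hk
    rw [toK, coeff_C_mul, coeff_toA_of_length kval.2 19 (by decide) k (by omega), mul_zero]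

theorem run_knotU : run (knot.map Piece.forget) [] = some [] := by decide

theorem caps_knotU : caps (knot.map Piece.forget) = 4 := by decide

theorem kauffman_knot {B : List (Piece Unit) → LaurentPolynomial (LaurentPolynomial ℤ)}
    (hB : IsKauffman B) : IsMaxExp (B (knot.map Piece.forget)) 14 := by
  have h := value_sound (kauInterp B hB) run_knotU
  rw [caps_knotU, run_knotK] at h
  change (T 1 : LaurentPolynomial (LaurentPolynomial ℤ)) ^ 4 *
    kauF B (knot.map Piece.forget) = (List.map toK [kval]).sum * kauF B [] at h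
  rw [kauF_nil, mul_one, kauF_eq B (by simp [knot]) run_knotU, T_pow, List.map_cons,
    List.map_nil, List.sum_cons, List.sum_nil, add_zero] at h
  generalize B (knot.map Piece.forget) = g at h ⊢
  have key : ∀ k : ℤ, (toK kval).coeff k =
      (T 1 + T (-1)) * g.coeff (k - 3) - g.coeff (k - 4) := by
    intro k
    have h1 : (T (((4 : ℕ) : ℤ) * 1) : LaurentPolynomial (LaurentPolynomial ℤ)) * (kde * g) =
        T 3 * (C (T 1 + T (-1)) * g) - T 4 * g := by
      rw [kde, show (T (((4 : ℕ) : ℤ) * 1) : LaurentPolynomial (LaurentPolynomial ℤ)) =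
        T 3 * T 1 by rw [← T_add]; norm_num, show (T 4 :
        LaurentPolynomial (LaurentPolynomial ℤ)) = T 3 * T 1 by rw [← T_add]; norm_num, map_add]
      have hM : (T 1 : LaurentPolynomial (LaurentPolynomial ℤ)) * T (-1) = 1 := by
        rw [← T_add]
        simp
      linear_combination T 3 * (C (T 1) + C (T (-1))) * g * hM
    rw [← h, h1, AddMonoidAlgebra.coeff_sub, Finsupp.sub_apply, coeff_T_mul, coeff_T_mul,
      coeff_C_mul]
  have hg : ∃ k, g.coeff k ≠ 0 := by
    by_contra h0
    push Not at h0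
    apply maxExp_kval.1
    rw [key, h0, h0]
    simp
  obtain ⟨k, hk⟩ := hg
  obtain ⟨n, hn, -⟩ := exists_isMaxExp hk
  have h2 : IsMaxExp (toK kval) (n + 4) := by
    constructor
    · rw [key, hn.2 (n + 4 - 3) (by omega), mul_zero, zero_sub, neg_ne_zero]
      rw [show n + 4 - 4 = n by ring]
      exact hn.1
    · intro j hj
      rw [key, hn.2 (j - 3) (by omega), hn.2 (j - 4) (by omega)]
      simp
  have h3 := h2.unique maxExp_kval
  have h4 : n = 14 := by omega
  rw [h4] at hn
  exact hn

theorem maxExp_kauffmanF {B : List (Piece Unit) → LaurentPolynomial (LaurentPolynomial ℤ)}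
    {D : List (Piece Bool)} {n : ℤ} (h : IsMaxExp (B (D.map Piece.forget)) n) :
    IsMaxExp (kauffmanF B D) n := by
  constructor
  · rw [kauffmanF, coeff_C_mul]
    intro h0
    apply h.1
    rw [← one_mul ((B (D.map Piece.forget)).coeff n), ← T_zero, show (0 : ℤ) = writhe D +
        -(writhe D) by ring, T_add, mul_assoc, h0, mul_zero]
  · intro k hk
    rw [kauffmanF, coeff_C_mul, h.2 k hk, mul_zero]

theorem kauffmanF_knot {B : List (Piece Unit) → LaurentPolynomial (LaurentPolynomial ℤ)}
    (hB : IsKauffman B) : IsMaxExp (kauffmanF B knot) 14 :=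
  maxExp_kauffmanF (kauffman_knot hB)

end Pool.Agent.Helper26.WD
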