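import Pool.Agent.Helper26.WD.Color
import Pool.Agent.Helper26.WD.Prog
import Pool.Agent.Helper26.WD.HomflyW
import Pool.Agent.Helper26.WD.KauffmanK

/-!
# The knot and its Whitehead double
-/

namespace Pool.Agent.Helper26.WD

set_option linter.unusedSectionVars false

open Piece

theorem cols_knot : cols knot = 9 := by decide +kernel

theorem cols_unknot : cols [(cup 0 true : Piece Bool), cap 0] = 3 := by decide +kernel

theorem knot_nontrivial : ¬ Isotopic knot [cup 0 true, cap 0] := by
  intro h
  have := cols_isotopic h
  rw [cols_knot, cols_unknot] at this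
  omega

section

variable {Ω : Type}

/-- The identifications of minima forced by a labelling. -/
def lab : List (Piece Ω) → ℕ → List ℕ → List (ℕ × ℕ)
  | [], _, _ => []
  | cup i _ :: D, n, t => lab D (n + 1) (t.take i ++ n :: n :: t.drop i)
  | cap i :: D, n, t =>
    match t.drop i with
    | a :: b :: t' => (a, b) :: lab D n (t.take i ++ t')
    | _ => []
  | cr i _ :: D, n, t =>
    match t.drop i with
    | a :: b :: t' => lab D n (t.take i ++ b :: a :: t')
    | _ => []

theorem lab_sound {α : Type} (x : ℕ → α) (D : List (Piece Ω)) (n : ℕ) (t : List ℕ)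
    (h : Labels x D n (t.map x)) : ∀ p ∈ lab D n t, x p.1 = x p.2 := by
  induction D generalizing n t with
  | nil => intro p hp; simp [lab] at hp
  | cons q D ih =>
    cases q with
    | cup i a =>
      simp only [lab]
      apply ih
      simpa [Labels, List.map_take, List.map_drop] using h
    | cap i =>
      simp only [lab]
      simp only [Labels, ← List.map_drop, ← List.map_take] at h
      match ht : t.drop i with
      | [] => simp
      | [a] => simp
      | a :: b :: t' =>
        rw [ht] at h
        simp only [List.map_cons] at h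
        obtain ⟨h1, h2⟩ := h
        intro p hp
        simp only [List.mem_cons] at hp
        rcases hp with rfl | hp
        · exact h1
        · exact ih n (t.take i ++ t') (by simpa using h2) p hp
    | cr i o =>
      simp only [lab]
      simp only [Labels, ← List.map_drop, ← List.map_take] at h
      match ht : t.drop i with
      | [] => simp
      | [a] => simp
      | a :: b :: t' =>
        rw [ht] at h
        simp only [List.map_cons] at h
        exact ih n (t.take i ++ b :: a :: t') (by simpa using h)

end

/-- One round of propagation of an identification. -/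
def prop (E : List (ℕ × ℕ)) (c : List ℕ) : List ℕ :=
  E.foldl (fun c p => if p.1 ∈ c then p.2 :: c else if p.2 ∈ c then p.1 :: c else c) c

theorem prop_sound {α : Type} (x : ℕ → α) (v : α) (E : List (ℕ × ℕ))
    (hE : ∀ p ∈ E, x p.1 = x p.2) (c : List ℕ) (hc : ∀ i ∈ c, x i = v) :
    ∀ i ∈ prop E c, x i = v := by
  induction E generalizing c with
  | nil => exact hc
  | cons p E ih =>
    simp only [prop, List.foldl_cons]
    apply ih (fun q hq => hE q (by simp [hq]))
    have h1 := hE p (by simp)
    split_ifs with h2 h3
    · intro i hi
      rcases List.mem_cons.1 hi with rfl | hi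
      · rw [← h1]; exact hc _ h2
      · exact hc i hi
    · intro i hi
      rcases List.mem_cons.1 hi with rfl | hi
      · rw [h1]; exact hc _ h3
      · exact hc i hi
    · exact hc

theorem isKnot_of_check {D : List (Piece Bool)} (h1 : run D [] = some []) (h2 : D ≠ [])
    (k : ℕ) (h3 : ∀ i < minima D, i ∈ (prop (lab D 0 []))^[k] [0]) : IsKnot D := by
  refine ⟨h1, h2, fun x hx i hi j hj => ?_⟩
  have hE := lab_sound x D 0 [] hx
  have key : ∀ k, ∀ i ∈ (prop (lab D 0 []))^[k] [0], x i = x 0 := by
    intro k
    induction k with
    | zero => intro i hi; simp at hi; rw [hi]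
    | succ k ih =>
      rw [Function.iterate_succ_apply']
      exact prop_sound x (x 0) _ hE _ ih
  rw [key k i (h3 i hi), key k j (h3 j hj)]

theorem isKnot_knot : IsKnot knot :=
  isKnot_of_check (by decide +kernel) (by simp [knot]) 3 (by decide +kernel)

theorem isKnot_wdouble : IsKnot wdouble :=
  isKnot_of_check (by decide +kernel) (by simp [wdouble, clasp]) 8 (by decide +kernel)

theorem isWhiteheadDouble_wdouble : IsWhiteheadDouble knot wdouble := by
  refine ⟨knot₁, [cap 0], [false, true], 0, 0, true, true, rfl, by decide +kernel, by simp, rfl⟩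

/-- The counterexample. -/
theorem counterexample : ∃ K W : List (Piece Bool), IsKnot K ∧ ¬ Isotopic K [cup 0 true, cap 0] ∧
    IsWhiteheadDouble K W ∧ IsKnot W ∧
    ∀ P B : _, IsHomfly P → IsKauffman B →
      ∃ p f : ℤ, IsMaxExp (P W) p ∧ IsMaxExp (kauffmanF B K) f ∧ 2 * f + 2 < p := by
  refine ⟨knot, wdouble, isKnot_knot, knot_nontrivial, isWhiteheadDouble_wdouble, isKnot_wdouble,
    fun P B hP hB => ?_⟩
  obtain ⟨p, hp, hp'⟩ := homfly_wdouble hP
  exact ⟨p, 14, hp, kauffmanF_knot hB, by omega⟩

end Pool.Agent.Helper26.WD
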