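import Pool.Agent.Helper26.WD.Defs

/-!
# The evaluation algorithm

All functions are written with recursors, so that the kernel evaluates them quickly.
-/

namespace Pool.Agent.Helper26.WD

open Piece

/-- Arithmetic of coefficients. -/
structure Alg (Ω C : Type) where
  one : C
  add : C → C → C
  al : Ω → Ω → Bool → C → C
  be : Ω → Ω → Bool → C → C
  ga : Ω → Ω → Bool → C → C
  kap : Bool → C → C
  de : C → C
  cp : C → C
  hasBe : Ω → Ω → Bool
  hasGa : Ω → Ω → Bool
  op : Ω → Ω
  eqb : Ω → Ω → Bool

/-- Nested lists: `L C 0 = C`, `L C (n + 1) = List (L C n)`. -/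
def L (C : Type) : ℕ → Type
  | 0 => C
  | n + 1 => List (L C n)

section Lists

variable {Ω C β γ : Type}

/-- Entrywise sum of lists. -/
def zipA (f : β → β → β) (l : List β) : List β → List β :=
  List.rec (motive := fun _ => List β → List β) (fun ys => ys)
    (fun x xs ih ys => List.rec (motive := fun _ => List β) (x :: xs)
      (fun y ys _ => f x y :: ih ys) ys) l

theorem zipA_nil (f : β → β → β) (ys : List β) : zipA f [] ys = ys := rfl

theorem zipA_cons_nil (f : β → β → β) (x : β) (xs : List β) : zipA f (x :: xs) [] = x :: xs := rfl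

theorem zipA_cons_cons (f : β → β → β) (x y : β) (xs ys : List β) :
    zipA f (x :: xs) (y :: ys) = f x y :: zipA f xs ys := rfl

/-- Map. -/
def mapL (f : β → γ) (l : List β) : List γ :=
  List.rec (motive := fun _ => List γ) [] (fun x _ ih => f x :: ih) l

theorem mapL_nil (f : β → γ) : mapL f [] = [] := rfl

theorem mapL_cons (f : β → γ) (x : β) (l : List β) : mapL f (x :: l) = f x :: mapL f l := rfl

/-- The list `[z, …, z, x]`, with `x` at position `i`. -/
def single (z x : β) (i : ℕ) : List β :=
  Nat.rec (motive := fun _ => List β) [x] (fun _ ih => z :: ih) i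

theorem single_zero (z x : β) : single z x 0 = [x] := rfl

theorem single_succ (z x : β) (i : ℕ) : single z x (i + 1) = z :: single z x i := rfl

/-- Whether the entry at position `n` is `x`. -/
def isAt (eqb : Ω → Ω → Bool) (x : Ω) (n : ℕ) : List Ω → Bool :=
  Nat.rec (motive := fun _ => List Ω → Bool)
    (fun l => List.rec (motive := fun _ => Bool) false (fun y _ _ => eqb y x) l)
    (fun _ ih l => List.rec (motive := fun _ => Bool) false (fun _ t _ => ih t) l) n

theorem isAt_nil (eqb : Ω → Ω → Bool) (x : Ω) (n : ℕ) : isAt eqb x n [] = false := by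
  cases n <;> rfl

theorem isAt_zero (eqb : Ω → Ω → Bool) (x y : Ω) (t : List Ω) :
    isAt eqb x 0 (y :: t) = eqb y x := rfl

theorem isAt_succ (eqb : Ω → Ω → Bool) (x y : Ω) (n : ℕ) (t : List Ω) :
    isAt eqb x (n + 1) (y :: t) = isAt eqb x n t := rfl

/-- Interchange of the entries at the positions `n` and `n + 1`. -/
def swp (n : ℕ) : List Ω → List Ω :=
  Nat.rec (motive := fun _ => List Ω → List Ω)
    (fun l => List.rec (motive := fun _ => List Ω) [] (fun a t _ =>
      List.rec (motive := fun _ => List Ω) [a] (fun b u _ => b :: a :: u) t) l)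
    (fun _ ih l => List.rec (motive := fun _ => List Ω) [] (fun a t _ => a :: ih t) l) n

theorem swp_nil (n : ℕ) : swp n ([] : List Ω) = [] := by cases n <;> rfl

theorem swp_zero (a b : Ω) (t : List Ω) : swp 0 (a :: b :: t) = b :: a :: t := rfl

theorem swp_succ (n : ℕ) (a : Ω) (t : List Ω) : swp (n + 1) (a :: t) = a :: swp n t := rfl

/-- Deletion of the entry at position `n`. -/
def ers (n : ℕ) : List Ω → List Ω :=
  Nat.rec (motive := fun _ => List Ω → List Ω)
    (fun l => List.rec (motive := fun _ => List Ω) [] (fun _ t _ => t) l)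
    (fun _ ih l => List.rec (motive := fun _ => List Ω) [] (fun a t _ => a :: ih t) l) n

theorem ers_nil (n : ℕ) : ers n ([] : List Ω) = [] := by cases n <;> rfl

theorem ers_zero (a : Ω) (t : List Ω) : ers 0 (a :: t) = t := rfl

theorem ers_succ (n : ℕ) (a : Ω) (t : List Ω) : ers (n + 1) (a :: t) = a :: ers n t := rfl

/-- Insertion of `b, b'` at the positions `n` and `n + 1`. -/
def insS (b b' : Ω) (n : ℕ) : List Ω → List Ω :=
  Nat.rec (motive := fun _ => List Ω → List Ω) (fun s => b :: b' :: s)
    (fun _ ih l => List.rec (motive := fun _ => List Ω) [] (fun a t _ => a :: ih t) l) n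

theorem insS_zero (b b' : Ω) (t : List Ω) : insS b b' 0 t = b :: b' :: t := rfl

theorem insS_succ (b b' : Ω) (n : ℕ) (a : Ω) (t : List Ω) :
    insS b b' (n + 1) (a :: t) = a :: insS b b' n t := rfl

/-- Deletion of the entries at the positions `n` and `n + 1`. -/
def delS (n : ℕ) : List Ω → List Ω :=
  Nat.rec (motive := fun _ => List Ω → List Ω)
    (fun l => List.rec (motive := fun _ => List Ω) [] (fun _ t _ =>
      List.rec (motive := fun _ => List Ω) [] (fun _ u _ => u) t) l)
    (fun _ ih l => List.rec (motive := fun _ => List Ω) [] (fun a t _ => a :: ih t) l) n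

theorem delS_zero (a b : Ω) (t : List Ω) : delS 0 (a :: b :: t) = t := rfl

theorem delS_succ (n : ℕ) (a : Ω) (t : List Ω) : delS (n + 1) (a :: t) = a :: delS n t := rfl

/-- Local minimum: children. -/
def cupL (f g : β → List γ) (n : ℕ) : List β → List (List γ) :=
  Nat.rec (motive := fun _ => List β → List (List γ))
    (fun l => List.rec (motive := fun _ => List (List γ)) []
      (fun x t _ => [] :: [] :: mapL g (x :: t)) l)
    (fun _ ih l => List.rec (motive := fun _ => List (List γ)) [] (fun x t _ => f x :: ih t) l) n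

theorem cupL_nil (f g : β → List γ) (n : ℕ) : cupL f g n [] = [] := by cases n <;> rfl

theorem cupL_zero (f g : β → List γ) (x : β) (t : List β) :
    cupL f g 0 (x :: t) = [] :: [] :: mapL g (x :: t) := rfl

theorem cupL_succ (f g : β → List γ) (n : ℕ) (x : β) (t : List β) :
    cupL f g (n + 1) (x :: t) = f x :: cupL f g n t := rfl

/-- Map with index. -/
def mapI (g : ℕ → β → γ) (l : List β) : ℕ → List γ :=
  List.rec (motive := fun _ => ℕ → List γ) (fun _ => []) (fun x _ ih i => g i x :: ih (Nat.succ i)) l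

theorem mapI_nil (g : ℕ → β → γ) (i : ℕ) : mapI g [] i = [] := rfl

theorem mapI_cons (g : ℕ → β → γ) (x : β) (l : List β) (i : ℕ) :
    mapI g (x :: l) i = g i x :: mapI g l (i + 1) := rfl

/-- Crossing at a position `p ≥ 1`: children. -/
def crL (f g : ℕ → List β → List β) (pr₁ pr₂ : List β → List β → List β) (n : ℕ) :
    ℕ → List (List β) → List (List β) :=
  Nat.rec (motive := fun _ => ℕ → List (List β) → List (List β))
    (fun i l => List.rec (motive := fun _ => List (List β)) [] (fun x t _ =>
      List.rec (motive := fun _ => List (List β)) [pr₁ x [], pr₂ x []]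
        (fun y u _ => pr₁ x y :: pr₂ x y :: mapI g u (Nat.succ (Nat.succ i))) t) l)
    (fun _ ih i l => List.rec (motive := fun _ => List (List β)) []
      (fun x t _ => f i x :: ih (Nat.succ i) t) l) n

theorem crL_nil (f g : ℕ → List β → List β) (pr₁ pr₂ : List β → List β → List β) (n i : ℕ) :
    crL f g pr₁ pr₂ n i [] = [] := by cases n <;> rfl

theorem crL_zero_one (f g : ℕ → List β → List β) (pr₁ pr₂ : List β → List β → List β) (i : ℕ)
    (x : List β) : crL f g pr₁ pr₂ 0 i [x] = [pr₁ x [], pr₂ x []] := rfl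

theorem crL_zero (f g : ℕ → List β → List β) (pr₁ pr₂ : List β → List β → List β) (i : ℕ)
    (x y : List β) (u : List (List β)) :
    crL f g pr₁ pr₂ 0 i (x :: y :: u) = pr₁ x y :: pr₂ x y :: mapI g u (i + 2) := rfl

theorem crL_succ (f g : ℕ → List β → List β) (pr₁ pr₂ : List β → List β → List β) (n i : ℕ)
    (x : List β) (t : List (List β)) :
    crL f g pr₁ pr₂ (n + 1) i (x :: t) = f i x :: crL f g pr₁ pr₂ n (i + 1) t := rfl

/-- Crossing at position `0`: the contribution of an arc, without its first entry. -/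
def rowL (z : β) (i : ℕ) (w₁ w₂ : β → β) (n : ℕ) : List β → List (List β) :=
  Nat.rec (motive := fun _ => List β → List (List β))
    (fun l => [] :: mapL (fun g => single z (w₂ g) i) l)
    (fun _ ih l => List.rec (motive := fun _ => List (List β)) []
      (fun g t _ => single z (w₁ g) (Nat.pred i) :: ih t) l) n

theorem rowL_zero (z : β) (i : ℕ) (w₁ w₂ : β → β) (l : List β) :
    rowL z i w₁ w₂ 0 l = [] :: mapL (fun g => single z (w₂ g) i) l := rfl

theorem rowL_succ_nil (z : β) (i : ℕ) (w₁ w₂ : β → β) (n : ℕ) :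
    rowL z i w₁ w₂ (n + 1) [] = [] := rfl

theorem rowL_succ (z : β) (i : ℕ) (w₁ w₂ : β → β) (n : ℕ) (g : β) (l : List β) :
    rowL z i w₁ w₂ (n + 1) (g :: l) = single z (w₁ g) (i - 1) :: rowL z i w₁ w₂ n l := rfl

/-- The first `n` entries. -/
def keepL (n : ℕ) : List β → List β :=
  Nat.rec (motive := fun _ => List β → List β) (fun _ => [])
    (fun _ ih l => List.rec (motive := fun _ => List β) [] (fun x t _ => x :: ih t) l) n

theorem keepL_zero (l : List β) : keepL 0 l = [] := rfl

theorem keepL_nil (n : ℕ) : keepL n ([] : List β) = [] := by cases n <;> rfl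

theorem keepL_succ (n : ℕ) (x : β) (l : List β) : keepL (n + 1) (x :: l) = x :: keepL n l := rfl

/-- The first `n` entries are replaced by `z`. -/
def dropL (z : β) (n : ℕ) : List β → List β :=
  Nat.rec (motive := fun _ => List β → List β) (fun l => l)
    (fun _ ih l => List.rec (motive := fun _ => List β) [] (fun _ t _ => z :: ih t) l) n

theorem dropL_zero (z : β) (l : List β) : dropL z 0 l = l := rfl

theorem dropL_nil (z : β) (n : ℕ) : dropL z n ([] : List β) = [] := by cases n <;> rfl

theorem dropL_succ (z : β) (n : ℕ) (x : β) (l : List β) :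
    dropL z (n + 1) (x :: l) = z :: dropL z n l := rfl

/-- Local maximum at a position `p ≥ 1`: children. -/
def capL (f g : ℕ → β → γ) (n : ℕ) : ℕ → List β → List γ :=
  Nat.rec (motive := fun _ => ℕ → List β → List γ)
    (fun i l => List.rec (motive := fun _ => List γ) [] (fun _ t _ =>
      List.rec (motive := fun _ => List γ) [] (fun _ u _ => mapI g u (Nat.succ (Nat.succ i))) t) l)
    (fun _ ih i l => List.rec (motive := fun _ => List γ) []
      (fun x t _ => f i x :: ih (Nat.succ i) t) l) n

theorem capL_nil (f g : ℕ → β → γ) (n i : ℕ) : capL f g n i [] = [] := by cases n <;> rfl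

theorem capL_zero_one (f g : ℕ → β → γ) (i : ℕ) (x : β) : capL f g 0 i [x] = [] := rfl

theorem capL_zero (f g : ℕ → β → γ) (i : ℕ) (x y : β) (u : List β) :
    capL f g 0 i (x :: y :: u) = mapI g u (i + 2) := rfl

theorem capL_succ (f g : ℕ → β → γ) (n i : ℕ) (x : β) (t : List β) :
    capL f g (n + 1) i (x :: t) = f i x :: capL f g n (i + 1) t := rfl

/-- The entry at position `n`. -/
def nth (n : ℕ) : List (List β) → List β :=
  Nat.rec (motive := fun _ => List (List β) → List β)
    (fun l => List.rec (motive := fun _ => List β) [] (fun x _ _ => x) l)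
    (fun _ ih l => List.rec (motive := fun _ => List β) [] (fun _ t _ => ih t) l) n

theorem nth_nil (n : ℕ) : nth n ([] : List (List β)) = [] := by cases n <;> rfl

theorem nth_zero (x : List β) (t : List (List β)) : nth 0 (x :: t) = x := rfl

theorem nth_succ (n : ℕ) (x : List β) (t : List (List β)) : nth (n + 1) (x :: t) = nth n t := rfl

/-- Crossings `n - 1, …, 0`. -/
def dragLT (f : ℕ → Bool → List Ω → β → β) (n : ℕ) : List Ω → β → β :=
  Nat.rec (motive := fun _ => List Ω → β → β) (fun _ v => v)
    (fun n ih s v => ih (swp n s) (f n false s v)) n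

theorem dragLT_zero (f : ℕ → Bool → List Ω → β → β) (s : List Ω) (v : β) :
    dragLT f 0 s v = v := rfl

theorem dragLT_succ (f : ℕ → Bool → List Ω → β → β) (n : ℕ) (s : List Ω) (v : β) :
    dragLT f (n + 1) s v = dragLT f n (swp n s) (f n false s v) := rfl

/-- Crossings `p, p + 1, …, p + n - 1`. -/
def dragRT (f : ℕ → Bool → List Ω → β → β) (n : ℕ) : ℕ → List Ω → β → β :=
  Nat.rec (motive := fun _ => ℕ → List Ω → β → β) (fun _ _ v => v)
    (fun _ ih p s v => ih (Nat.succ p) (swp p s) (f p true s v)) n

theorem dragRT_zero (f : ℕ → Bool → List Ω → β → β) (p : ℕ) (s : List Ω) (v : β) :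
    dragRT f 0 p s v = v := rfl

theorem dragRT_succ (f : ℕ → Bool → List Ω → β → β) (n p : ℕ) (s : List Ω) (v : β) :
    dragRT f (n + 1) p s v = dragRT f n (p + 1) (swp p s) (f p true s v) := rfl

/-- Sum of the contributions of the entries of a list. -/
def sumL (h : ℕ → β → γ → γ) (l : List β) : ℕ → γ → γ :=
  List.rec (motive := fun _ => ℕ → γ → γ) (fun _ acc => acc)
    (fun x _ ih i acc => ih (Nat.succ i) (h i x acc)) l

theorem sumL_nil (h : ℕ → β → γ → γ) (i : ℕ) (acc : γ) : sumL h [] i acc = acc := rfl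

theorem sumL_cons (h : ℕ → β → γ → γ) (x : β) (l : List β) (i : ℕ) (acc : γ) :
    sumL h (x :: l) i acc = sumL h l (i + 1) (h i x acc) := rfl

/-- Case distinction. -/
def ifb (b : Bool) (x y : β) : β := Bool.rec (motive := fun _ => β) y x b

theorem ifb_true (x y : β) : ifb true x y = x := rfl

theorem ifb_false (x y : β) : ifb false x y = y := rfl

/-- Whether a list is empty. -/
def isNil (l : List β) : Bool := List.rec (motive := fun _ => Bool) true (fun _ _ _ => false) l

/-- The first two entries. -/
def hd2 (l : List Ω) (d : β) (f : Ω → Ω → β) : β :=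
  List.rec (motive := fun _ => β) d (fun a t _ =>
    List.rec (motive := fun _ => β) d (fun b _ _ => f a b) t) l

theorem hd2_cons (a b : Ω) (t : List Ω) (d : β) (f : Ω → Ω → β) : hd2 (a :: b :: t) d f = f a b :=
  rfl

/-- Deletion of the first `n` entries. -/
def drp (n : ℕ) : List Ω → List Ω :=
  Nat.rec (motive := fun _ => List Ω → List Ω) (fun l => l)
    (fun _ ih l => List.rec (motive := fun _ => List Ω) [] (fun _ t _ => ih t) l) n

theorem drp_zero (l : List Ω) : drp 0 l = l := rfl

theorem drp_succ (n : ℕ) (a : Ω) (l : List Ω) : drp (n + 1) (a :: l) = drp n l := rfl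

end Lists

section Vectors

variable {Ω C : Type}

/-- Sum of vectors. -/
def addT (A : Alg Ω C) (n : ℕ) : L C n → L C n → L C n :=
  Nat.rec (motive := fun n => L C n → L C n → L C n) A.add (fun n ih => zipA (β := L C n) ih) n

theorem addT_succ (A : Alg Ω C) (n : ℕ) (x y : L C (n + 1)) :
    addT A (n + 1) x y = zipA (β := L C n) (addT A n) x y := rfl

/-- Map on coefficients. -/
def mapT (g : C → C) (n : ℕ) : L C n → L C n :=
  Nat.rec (motive := fun n => L C n → L C n) g (fun n ih => mapL (β := L C n) (γ := L C n) ih) n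

theorem mapT_succ (g : C → C) (n : ℕ) (x : L C (n + 1)) :
    mapT g (n + 1) x = mapL (β := L C n) (γ := L C n) (mapT g n) x := rfl

/-- The action of a local minimum. -/
def cupT (C : Type) (k : ℕ) : ℕ → L C (k + 1) → L C (k + 2) :=
  Nat.rec (motive := fun k => ℕ → L C (k + 1) → L C (k + 2))
    (fun _ v => ([v] : List (List C)))
    (fun k ih p v => Nat.rec (motive := fun _ => L C (k + 3)) ([v] : List (List (L C (k + 1))))
      (fun p _ => cupL (β := L C (k + 1)) (γ := L C (k + 1)) (ih (Nat.pred p)) (ih p) p v) p) k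

theorem cupT_zero (C : Type) (p : ℕ) (v : L C 1) : cupT C 0 p v = ([v] : List (List C)) := rfl

theorem cupT_succ_zero (C : Type) (k : ℕ) (v : L C (k + 2)) :
    cupT C (k + 1) 0 v = ([v] : List (List (L C (k + 1)))) := rfl

theorem cupT_succ_succ (C : Type) (k p : ℕ) (v : L C (k + 2)) :
    cupT C (k + 1) (p + 1) v =
      cupL (β := L C (k + 1)) (γ := L C (k + 1)) (cupT C k (p - 1)) (cupT C k p) p v := rfl

/-- Crossing at position `0`: the contribution of the child of index `i + 1`. -/
def crZ (A : Alg Ω C) (k : ℕ) (f : ℕ → Bool → List Ω → L C (k + 2) → L C (k + 2)) (o : Bool)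
    (a b : Ω) (t : List Ω) (i : ℕ) (x : L C (k + 2)) (acc : L C (k + 3)) : L C (k + 3) :=
  ifb (isNil (β := L C (k + 1)) x) acc
   (ifb (isAt A.eqb (A.op a) (Nat.succ i) t)
      ((fun (y : L C (k + 2)) (acc₁ : L C (k + 3)) =>
        (fun (acc₂ : L C (k + 3)) =>
          ifb (A.hasGa a b) (addT A (Nat.succ (Nat.succ (Nat.succ k))) acc₂
        ([mapT (fun c => A.ga a b o (A.kap false c)) (Nat.succ (Nat.succ k))
          (dragRT f i 0 (ers (Nat.succ i) t) y)] : List (L C (k + 2)))) acc₂)
         (ifb (A.hasBe a b) (addT A (Nat.succ (Nat.succ (Nat.succ k))) acc₁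
        (single (β := L C (k + 2)) ([] : List (L C (k + 1)))
          (mapT (A.be a b o) (Nat.succ (Nat.succ k)) y) (Nat.succ i)))
        acc₁))
       (ifb (β := L C (k + 2)) o (keepL (β := L C (k + 1)) i x)
         (dropL (β := L C (k + 1)) ([] : List (L C k)) i x))
       (addT A (Nat.succ (Nat.succ (Nat.succ k))) acc
        ([] :: rowL (β := L C (k + 1)) ([] : List (L C k)) i
          (ifb o (mapT (A.al a b o) (Nat.succ k)) (fun g => g))
          (ifb o (fun g => g) (mapT (A.al a b o) (Nat.succ k))) i x)))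
      acc)

/-- Crossing at a position `p + 1`. -/
def crP (A : Alg Ω C) (k : ℕ)
    (f : ℕ → Bool → List Ω → L C (k + 1) → L C (k + 1)) (p : ℕ) (o : Bool)
    (a : Ω) (t : List Ω) (x y : Ω) (v : L C (k + 2)) : L C (k + 2) :=
  (fun (main : L C (k + 2)) =>
    ifb (A.hasGa x y)
      (ifb o
        (ifb (isAt A.eqb (A.op a) (Nat.succ p) t)
          ((fun w : List (L C k) => ifb (isNil w) main
            (addT A (Nat.succ (Nat.succ k)) main
              (mapT (fun c => A.ga x y o (A.kap true c)) (Nat.succ (Nat.succ k))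
                (cupT C k (Nat.succ p) (dragLT f p (ers (Nat.succ p) t) w)))))
            (nth (β := L C k) (Nat.succ p) v)) main)
        (ifb (isAt A.eqb (A.op a) p t)
          ((fun w : List (L C k) => ifb (isNil w) main
            (addT A (Nat.succ (Nat.succ k)) main
              (mapT (A.ga x y o) (Nat.succ (Nat.succ k))
                (cupT C k (Nat.succ p) (dragLT f p (ers p t) w)))))
            (nth (β := L C k) p v)) main)) main)
   (crL (β := L C k)
          (fun i w => f (Nat.pred p) o (ers i t) w)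
          (fun i w => f p o (ers i t) w)
          (ifb o (fun _ w => mapT (A.al x y o) (Nat.succ k) w)
            (fun u w => ifb (A.hasBe x y)
              (addT A (Nat.succ k) w (mapT (A.be x y o) (Nat.succ k) u)) w))
          (ifb o (fun u w => ifb (A.hasBe x y)
              (addT A (Nat.succ k) u (mapT (A.be x y o) (Nat.succ k) w)) u)
            (fun u _ => mapT (A.al x y o) (Nat.succ k) u)) p 0 v)

/-- The action of a crossing. -/
def crT (A : Alg Ω C) (k : ℕ) : ℕ → Bool → List Ω → L C (k + 1) → L C (k + 1) :=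
  Nat.rec (motive := fun k => ℕ → Bool → List Ω → L C (k + 1) → L C (k + 1))
    (fun _ _ _ v => v)
    (fun k f p o s v => ifb (β := L C (k + 2)) (isNil (β := L C (k + 1)) v)
      ([] : List (L C (k + 1)))
     (List.rec (motive := fun _ => L C (k + 2)) v (fun a t _ =>
      Nat.rec (motive := fun _ => L C (k + 2))
       (Nat.rec (motive := fun k => (ℕ → Bool → List Ω → L C (k + 1) → L C (k + 1)) →
          L C (k + 2) → L C (k + 2))
        (fun _ v => mapT (A.kap o) 2 v)
        (fun k _ f v =>
          List.rec (motive := fun _ => L C (k + 3)) v (fun b _ _ =>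
           List.rec (motive := fun _ => L C (k + 3)) v (fun c rest _ =>
            sumL (γ := L C (k + 3)) (crZ A k f o a b t) rest 0
              ([mapT (A.kap o) (Nat.succ (Nat.succ k)) c] : List (L C (k + 2)))) v) t) k f v)
       (fun p _ => hd2 (drp p t) v (fun x y => crP A k f p o a t x y v)) p) s)) k

theorem crT_nil (A : Alg Ω C) (k p : ℕ) (o : Bool) (s : List Ω) :
    crT A (k + 1) p o s ([] : List (L C (k + 1))) = ([] : List (L C (k + 1))) := rfl

theorem crT_pos (A : Alg Ω C) (k p : ℕ) (o : Bool) (a : Ω) (t : List Ω) (c : L C (k + 1))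
    (v : List (L C (k + 1))) :
    crT A (k + 1) (p + 1) o (a :: t) (c :: v : List (L C (k + 1))) =
      hd2 (drp p t) (c :: v : List (L C (k + 1)))
        (fun x y => crP A k (crT A k) p o a t x y (c :: v : List (L C (k + 1)))) := rfl

theorem crT_one (A : Alg Ω C) (o : Bool) (a : Ω) (t : List Ω) (c : L C 1) (v : List (L C 1)) :
    crT A 1 0 o (a :: t) (c :: v : List (L C 1)) = mapT (A.kap o) 2 (c :: v : List (L C 1)) := rfl

theorem crT_zero (A : Alg Ω C) (k : ℕ) (o : Bool) (a b : Ω) (t : List Ω) (c : L C (k + 2))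
    (v : List (L C (k + 2))) :
    crT A (k + 2) 0 o (a :: b :: t) (c :: v : List (L C (k + 2))) =
      sumL (γ := L C (k + 3)) (crZ A k (crT A (k + 1)) o a b (b :: t)) v 0
        ([mapT (A.kap o) (k + 2) c] : List (L C (k + 2))) := rfl

/-- Local maximum at position `0`: the contribution of the child of index `i`. -/
def capZ (A : Alg Ω C) (k : ℕ) (f : ℕ → Bool → List Ω → L C (k + 1) → L C (k + 1))
    (a : Ω) (t : List Ω) (i : ℕ) (x : L C (k + 1)) (acc : L C (k + 1)) : L C (k + 1) :=
  ifb (isNil (β := L C k) x) acc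
    (ifb (isAt A.eqb (A.op a) i t)
      (Nat.rec (motive := fun _ => L C (k + 1)) (addT A (Nat.succ k) acc (mapT A.de (Nat.succ k) x))
        (fun i _ => addT A (Nat.succ k) acc (mapT (fun c => A.cp (A.kap false c)) (Nat.succ k)
          (dragRT f i 0 (ers (Nat.succ i) t) x))) i) acc)

/-- Local maximum at a position `p + 1`. -/
def capP (A : Alg Ω C) (k : ℕ) (h : ℕ → List Ω → L C (k + 2) → L C (k + 1))
    (f : ℕ → Bool → List Ω → L C (k + 2) → L C (k + 2))
    (p : ℕ) (a : Ω) (t : List Ω) (v : L C (k + 3)) : L C (k + 2) :=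
  (fun r₁ : L C (k + 2) =>
    ifb (isAt A.eqb (A.op a) (Nat.succ p) t)
      ((fun w : List (L C (k + 1)) => ifb (isNil w) r₁
        (addT A (Nat.succ (Nat.succ k)) r₁ (mapT (fun c => A.cp (A.kap true c))
          (Nat.succ (Nat.succ k)) (dragLT f p (ers (Nat.succ p) t) w))))
        (nth (β := L C (k + 1)) (Nat.succ p) v)) r₁)
   ((fun main : L C (k + 2) =>
    ifb (isAt A.eqb (A.op a) p t)
      ((fun w : List (L C (k + 1)) => ifb (isNil w) main
        (addT A (Nat.succ (Nat.succ k)) main (mapT A.cp
          (Nat.succ (Nat.succ k)) (dragLT f p (ers p t) w))))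
        (nth (β := L C (k + 1)) p v)) main)
    (capL (β := L C (k + 2)) (γ := L C (k + 1))
        (fun i w => h (Nat.pred p) (ers i t) w)
        (fun i w => h p (ers i t) w) p 0 v))

/-- The action of a local maximum. -/
def capT (A : Alg Ω C) (k : ℕ) : ℕ → List Ω → L C (k + 2) → L C (k + 1) :=
  Nat.rec (motive := fun k => ℕ → List Ω → L C (k + 2) → L C (k + 1))
    (fun _ s v => List.rec (motive := fun _ => L C 1) ([] : List C) (fun a t _ =>
      sumL (β := L C 1) (γ := L C 1) (capZ A 0 (crT A 0) a t) v 0 ([] : List C)) s)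
    (fun k h p s v => List.rec (motive := fun _ => L C (k + 2)) ([] : List (L C (k + 1)))
      (fun a t _ =>
      Nat.rec (motive := fun _ => L C (k + 2))
        (sumL (β := L C (k + 2)) (γ := L C (k + 2)) (capZ A (Nat.succ k) (crT A (Nat.succ k)) a t)
          v 0 ([] : List (L C (k + 1))))
        (fun p _ => capP A k h (crT A (Nat.succ k)) p a t v) p) s) k

theorem capT_zero (A : Alg Ω C) (k : ℕ) (a : Ω) (t : List Ω) (v : L C (k + 2)) :
    capT A k 0 (a :: t) v = sumL (β := L C (k + 1)) (γ := L C (k + 1))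
      (capZ A k (crT A k) a t) v 0 ([] : List (L C k)) := by
  cases k <;> rfl

theorem capT_succ (A : Alg Ω C) (k p : ℕ) (a : Ω) (t : List Ω) (v : L C (k + 3)) :
    capT A (k + 1) (p + 1) (a :: t) v = capP A k (capT A k) (crT A (k + 1)) p a t v := rfl

end Vectors

/-- States of the evaluation. -/
structure St (Ω C : Type) where
  k : ℕ
  s : List Ω
  v : L C (k + 1)

/-- One step of the evaluation. -/
def stepT {Ω C : Type} (A : Alg Ω C) (p : Piece Ω) (x : St Ω C) : St Ω C :=
  match p with
  | cup i b => ⟨Nat.succ x.k, insS b (A.op b) i x.s, cupT C x.k i x.v⟩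
  | cap i => Nat.rec (motive := fun k => L C (k + 1) → St Ω C) (fun _ => ⟨0, [], ([] : List C)⟩)
      (fun k _ v => ⟨k, delS i x.s, capT A k i x.s v⟩) x.k x.v
  | cr i o => ⟨x.k, swp i x.s, crT A x.k i o x.s x.v⟩

/-- Evaluation of a list of pieces. -/
def runT {Ω C : Type} (A : Alg Ω C) (D : List (Piece Ω)) : St Ω C → St Ω C :=
  List.rec (motive := fun _ => St Ω C → St Ω C) (fun x => x) (fun p _ ih x => ih (stepT A p x)) D

theorem runT_nil {Ω C : Type} (A : Alg Ω C) (x : St Ω C) : runT A [] x = x := rfl

theorem runT_cons {Ω C : Type} (A : Alg Ω C) (p : Piece Ω) (D : List (Piece Ω)) (x : St Ω C) :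
    runT A (p :: D) x = runT A D (stepT A p x) := rfl

end Pool.Agent.Helper26.WD
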