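import Pool.Agent.Helper26.WD.Runs
import Pool.Agent.Helper26.WD.Tree

/-!
# Facts on lists of directions
-/

namespace Pool.Agent.Helper26.WD

set_option linter.unusedSectionVars false

open Piece

section

variable {Ω : Type}

theorem length_swp (p : ℕ) (t : List Ω) : (swp p t).length = t.length := by
  induction p generalizing t with
  | zero =>
    match t with
    | [] => rfl
    | [a] => rfl
    | a :: b :: u => rfl
  | succ p ih =>
    match t with
    | [] => rfl
    | a :: t => rw [swp_succ, List.length_cons, List.length_cons, ih]

theorem swp_swp (p : ℕ) (t : List Ω) : swp p (swp p t) = t := by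
  induction p generalizing t with
  | zero =>
    match t with
    | [] => rfl
    | [a] => rfl
    | a :: b :: u => rfl
  | succ p ih =>
    match t with
    | [] => rfl
    | a :: t => rw [swp_succ, swp_succ, ih]

theorem getElem?_swp_left {i p : ℕ} (h : i < p) (t : List Ω) : (swp p t)[i]? = t[i]? := by
  induction p generalizing i t with
  | zero => omega
  | succ p ih =>
    match t with
    | [] => rfl
    | a :: t =>
      rw [swp_succ]
      match i with
      | 0 => rfl
      | i + 1 => rw [List.getElem?_cons_succ, List.getElem?_cons_succ, ih (by omega)]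

theorem getElem?_swp_right {i p : ℕ} (h : p + 1 < i) (t : List Ω) : (swp p t)[i]? = t[i]? := by
  induction p generalizing i t with
  | zero =>
    obtain ⟨j, rfl⟩ : ∃ j, i = j + 2 := ⟨i - 2, by omega⟩
    match t with
    | [] => rfl
    | [a] => rfl
    | a :: b :: u => rfl
  | succ p ih =>
    match t with
    | [] => rfl
    | a :: t =>
      rw [swp_succ]
      match i with
      | 0 => omega
      | i + 1 => rw [List.getElem?_cons_succ, List.getElem?_cons_succ, ih (by omega)]

theorem getElem?_swp_self {p : ℕ} {t : List Ω} (h : p + 1 < t.length) :
    (swp p t)[p]? = t[p + 1]? := by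
  induction p generalizing t with
  | zero =>
    match t with
    | [] => simp at h
    | [a] => simp at h
    | a :: b :: u => rfl
  | succ p ih =>
    match t with
    | [] => rfl
    | a :: t =>
      rw [swp_succ, List.getElem?_cons_succ, List.getElem?_cons_succ, ih (by simpa using h)]

theorem getElem?_swp_succ {p : ℕ} {t : List Ω} (h : p + 1 < t.length) :
    (swp p t)[p + 1]? = t[p]? := by
  induction p generalizing t with
  | zero =>
    match t with
    | [] => simp at h
    | [a] => simp at h
    | a :: b :: u => rfl
  | succ p ih =>
    match t with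
    | [] => rfl
    | a :: t =>
      rw [swp_succ, List.getElem?_cons_succ, List.getElem?_cons_succ, ih (by simpa using h)]

theorem ers_swp_left {i q : ℕ} (h : i ≤ q) (t : List Ω) :
    ers i (swp (q + 1) t) = swp q (ers i t) := by
  induction i generalizing q t with
  | zero =>
    match t with
    | [] => rw [swp_nil, ers_nil, swp_nil]
    | a :: t => rfl
  | succ i ih =>
    obtain ⟨q, rfl⟩ : ∃ r, q = r + 1 := ⟨q - 1, by omega⟩
    match t with
    | [] => rfl
    | a :: t => rw [swp_succ, ers_succ, ih (by omega), ers_succ, swp_succ]

theorem ers_swp_right {i p : ℕ} (h : p + 1 < i) (t : List Ω) :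
    ers i (swp p t) = swp p (ers i t) := by
  induction p generalizing i t with
  | zero =>
    obtain ⟨j, rfl⟩ : ∃ j, i = j + 2 := ⟨i - 2, by omega⟩
    match t with
    | [] => rfl
    | [a] => rfl
    | a :: b :: u => rfl
  | succ p ih =>
    obtain ⟨i, rfl⟩ : ∃ j, i = j + 1 := ⟨i - 1, by omega⟩
    match t with
    | [] => rfl
    | a :: t => rw [swp_succ, ers_succ, ih (by omega), ers_succ, swp_succ]

theorem ers_swp_self {p : ℕ} {t : List Ω} (h : p + 1 < t.length) :
    ers p (swp p t) = ers (p + 1) t := by
  induction p generalizing t with
  | zero =>
    match t with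
    | [] => simp at h
    | [a] => simp at h
    | a :: b :: u => rfl
  | succ p ih =>
    match t with
    | [] => rfl
    | a :: t => rw [swp_succ, ers_succ, ih (by simpa using h), ers_succ]

theorem ers_swp_succ {p : ℕ} {t : List Ω} (h : p + 1 < t.length) :
    ers (p + 1) (swp p t) = ers p t := by
  induction p generalizing t with
  | zero =>
    match t with
    | [] => simp at h
    | [a] => simp at h
    | a :: b :: u => rfl
  | succ p ih =>
    match t with
    | [] => rfl
    | a :: t => rw [swp_succ, ers_succ, ih (by simpa using h), ers_succ]

theorem getElem?_ers_left {i j : ℕ} (h : j < i) (t : List Ω) : (ers i t)[j]? = t[j]? := by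
  induction i generalizing j t with
  | zero => omega
  | succ i ih =>
    match t with
    | [] => rfl
    | a :: t =>
      rw [ers_succ]
      match j with
      | 0 => rfl
      | j + 1 => rw [List.getElem?_cons_succ, List.getElem?_cons_succ, ih (by omega)]

theorem getElem?_ers_right {i j : ℕ} (h : i ≤ j) (t : List Ω) : (ers i t)[j]? = t[j + 1]? := by
  induction i generalizing j t with
  | zero =>
    match t with
    | [] => rfl
    | a :: t => rfl
  | succ i ih =>
    match t with
    | [] => rfl
    | a :: t =>
      rw [ers_succ]
      match j with
      | 0 => omega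
      | j + 1 => rw [List.getElem?_cons_succ, List.getElem?_cons_succ, ih (by omega)]

theorem length_ers {i : ℕ} {t : List Ω} (h : i < t.length) : (ers i t).length + 1 = t.length := by
  induction i generalizing t with
  | zero =>
    match t with
    | [] => simp at h
    | a :: t => rfl
  | succ i ih =>
    match t with
    | [] => simp at h
    | a :: t =>
      have := ih (t := t) (by simpa using h)
      rw [ers_succ, List.length_cons, List.length_cons, this]

theorem ers_ers {i j : ℕ} (h : j ≤ i) (t : List Ω) : ers j (ers (i + 1) t) = ers i (ers j t) := by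
  induction j generalizing i t with
  | zero =>
    match t with
    | [] => rw [ers_nil, ers_nil, ers_nil]
    | a :: t => rfl
  | succ j ih =>
    obtain ⟨i, rfl⟩ : ∃ r, i = r + 1 := ⟨i - 1, by omega⟩
    match t with
    | [] => rfl
    | a :: t => rw [ers_succ, ers_succ, ih (by omega), ers_succ, ers_succ]

theorem getElem?_insS_left {i p : ℕ} (b b' : Ω) (h : i < p) (t : List Ω) :
    (insS b b' p t)[i]? = t[i]? := by
  induction p generalizing i t with
  | zero => omega
  | succ p ih =>
    match t with
    | [] => rfl
    | a :: t =>
      rw [insS_succ]
      match i with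
      | 0 => rfl
      | i + 1 => rw [List.getElem?_cons_succ, List.getElem?_cons_succ, ih (by omega)]

theorem getElem?_insS_right {i p : ℕ} (b b' : Ω) (h : p ≤ i) (t : List Ω) :
    (insS b b' p t)[i + 2]? = t[i]? := by
  induction p generalizing i t with
  | zero => rfl
  | succ p ih =>
    match t with
    | [] => rfl
    | a :: t =>
      obtain ⟨i, rfl⟩ : ∃ r, i = r + 1 := ⟨i - 1, by omega⟩
      rw [insS_succ]
      rw [show i + 1 + 2 = (i + 2) + 1 from rfl, List.getElem?_cons_succ,
        List.getElem?_cons_succ, ih (by omega)]

theorem ers_insS_left {i q : ℕ} (b b' : Ω) (h : i ≤ q) {t : List Ω} (ht : q + 1 ≤ t.length) :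
    ers i (insS b b' (q + 1) t) = insS b b' q (ers i t) := by
  induction i generalizing q t with
  | zero =>
    match t with
    | [] => simp at ht
    | a :: t => rfl
  | succ i ih =>
    obtain ⟨q, rfl⟩ : ∃ r, q = r + 1 := ⟨q - 1, by omega⟩
    match t with
    | [] => rfl
    | a :: t => rw [insS_succ, ers_succ, ih (by omega) (by simpa using ht), ers_succ, insS_succ]

theorem ers_insS_right {i p : ℕ} (b b' : Ω) (h : p ≤ i) (t : List Ω) :
    ers (i + 2) (insS b b' p t) = insS b b' p (ers i t) := by
  induction p generalizing i t with
  | zero => rfl
  | succ p ih =>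
    obtain ⟨i, rfl⟩ : ∃ r, i = r + 1 := ⟨i - 1, by omega⟩
    match t with
    | [] => rfl
    | a :: t =>
      rw [insS_succ, show i + 1 + 2 = (i + 2) + 1 from rfl, ers_succ, ih (by omega), ers_succ,
        insS_succ]

theorem length_insS {p : ℕ} (b b' : Ω) {t : List Ω} (h : p ≤ t.length) :
    (insS b b' p t).length = t.length + 2 := by
  induction p generalizing t with
  | zero => rfl
  | succ p ih =>
    match t with
    | [] => simp at h
    | a :: t => rw [insS_succ, List.length_cons, List.length_cons, ih (by simpa using h)]

theorem getElem?_delS_left {i p : ℕ} (h : i < p) (t : List Ω) : (delS p t)[i]? = t[i]? := by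
  induction p generalizing i t with
  | zero => omega
  | succ p ih =>
    match t with
    | [] => rfl
    | a :: t =>
      rw [delS_succ]
      match i with
      | 0 => rfl
      | i + 1 => rw [List.getElem?_cons_succ, List.getElem?_cons_succ, ih (by omega)]

theorem getElem?_delS_right {i p : ℕ} (h : p ≤ i) (t : List Ω) : (delS p t)[i]? = t[i + 2]? := by
  induction p generalizing i t with
  | zero =>
    match t with
    | [] => rfl
    | [a] => rfl
    | a :: b :: t => rfl
  | succ p ih =>
    obtain ⟨i, rfl⟩ : ∃ r, i = r + 1 := ⟨i - 1, by omega⟩
    match t with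
    | [] => rfl
    | a :: t =>
      rw [delS_succ, show i + 1 + 2 = (i + 2) + 1 from rfl, List.getElem?_cons_succ,
        List.getElem?_cons_succ, ih (by omega)]

theorem ers_delS_left {i q : ℕ} (h : i ≤ q) (t : List Ω) :
    ers i (delS (q + 1) t) = delS q (ers i t) := by
  induction i generalizing q t with
  | zero =>
    match t with
    | [] => cases q <;> rfl
    | a :: t => rfl
  | succ i ih =>
    obtain ⟨q, rfl⟩ : ∃ r, q = r + 1 := ⟨q - 1, by omega⟩
    match t with
    | [] => rfl
    | a :: t => rw [delS_succ, ers_succ, ih (by omega), ers_succ, delS_succ]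

theorem ers_delS_right {j p : ℕ} (h : p ≤ j) (t : List Ω) :
    ers j (delS p t) = delS p (ers (j + 2) t) := by
  induction p generalizing j t with
  | zero =>
    match t with
    | [] => cases j <;> rfl
    | [a] => cases j <;> rfl
    | a :: b :: t => rfl
  | succ p ih =>
    obtain ⟨j, rfl⟩ : ∃ r, j = r + 1 := ⟨j - 1, by omega⟩
    match t with
    | [] => rfl
    | a :: t =>
      rw [delS_succ, ers_succ, ih (by omega), show j + 1 + 2 = (j + 2) + 1 from rfl, ers_succ,
        delS_succ]

theorem ers_ers_self {p : ℕ} {t : List Ω} (h : p + 1 < t.length) :
    ers p (ers p t) = delS p t := by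
  induction p generalizing t with
  | zero =>
    match t with
    | [] => simp at h
    | [a] => simp at h
    | a :: b :: u => rfl
  | succ p ih =>
    match t with
    | [] => rfl
    | a :: t => rw [ers_succ, ers_succ, ih (by simpa using h), delS_succ]

theorem ers_ers_succ {p : ℕ} {t : List Ω} (h : p + 1 < t.length) :
    ers p (ers (p + 1) t) = delS p t := by
  rw [ers_ers (le_refl p), ers_ers_self h]

theorem length_delS {p : ℕ} {t : List Ω} (h : p + 1 < t.length) :
    (delS p t).length + 2 = t.length := by
  induction p generalizing t with
  | zero =>
    match t with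
    | [] => simp at h
    | [a] => simp at h
    | a :: b :: u => rfl
  | succ p ih =>
    match t with
    | [] => simp at h
    | a :: t =>
      have := ih (t := t) (by simpa using h)
      rw [delS_succ, List.length_cons, List.length_cons]
      omega

theorem insS_delS {p : ℕ} {t : List Ω} {x y : Ω} (hx : t[p]? = some x) (hy : t[p + 1]? = some y) :
    insS y x p (delS p t) = swp p t := by
  induction p generalizing t with
  | zero =>
    match t with
    | [] => simp at hx
    | [a] => simp at hy
    | a :: b :: u =>
      simp at hx hy
      subst hx hy
      rfl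
  | succ p ih =>
    match t with
    | [] => simp at hx
    | a :: t => rw [delS_succ, insS_succ, ih (by simpa using hx) (by simpa using hy), swp_succ]

theorem drp_eq {p : ℕ} {t : List Ω} {x y : Ω} (hx : t[p]? = some x) (hy : t[p + 1]? = some y) :
    ∃ u, drp p t = x :: y :: u := by
  induction p generalizing t with
  | zero =>
    match t with
    | [] => simp at hx
    | [a] => simp at hy
    | a :: b :: u =>
      simp at hx hy
      subst hx hy
      exact ⟨u, rfl⟩
  | succ p ih =>
    match t with
    | [] => simp at hx
    | a :: t => exact ih (by simpa using hx) (by simpa using hy)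

theorem isAt_iff {eqb : Ω → Ω → Bool} (h : ∀ a b, eqb a b = true ↔ a = b) (x : Ω) (n : ℕ)
    (t : List Ω) : isAt eqb x n t = true ↔ t[n]? = some x := by
  induction n generalizing t with
  | zero =>
    match t with
    | [] => simp [isAt_nil]
    | a :: t => simp [isAt_zero, h]
  | succ n ih =>
    match t with
    | [] => simp [isAt_nil]
    | a :: t => rw [isAt_succ, ih, List.getElem?_cons_succ]

/-- Dragging the entry at position `n` to the front. -/
def dragLB : ℕ → List Ω → List Ω
  | 0, s => s
  | n + 1, s => dragLB n (swp n s)

theorem dragLB_eq {n : ℕ} {s : List Ω} {x : Ω} (h : s[n]? = some x) :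
    dragLB n s = x :: ers n s := by
  induction n generalizing s with
  | zero =>
    match s with
    | [] => simp at h
    | a :: s =>
      simp at h
      subst h
      rfl
  | succ n ih =>
    have hl : n + 1 < s.length := by
      by_contra hc
      rw [List.getElem?_eq_none (by omega)] at h
      simp at h
    rw [dragLB, ih (by rw [getElem?_swp_self hl]; exact h), ers_swp_self hl]

/-- Dragging the entry at position `p` by `n` positions. -/
def dragRB : ℕ → ℕ → List Ω → List Ω
  | 0, _, s => s
  | n + 1, p, s => dragRB n (p + 1) (swp p s)

theorem dragRB_succ_cons (n p : ℕ) (a : Ω) (s : List Ω) :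
    dragRB n (p + 1) (a :: s) = a :: dragRB n p s := by
  induction n generalizing p s with
  | zero => rfl
  | succ n ih => rw [dragRB, swp_succ, ih, dragRB]

theorem dragRB_eq {n : ℕ} {u : List Ω} {b : Ω} (h : u[n]? = some b) :
    dragRB n 0 (b :: ers n u) = u := by
  induction n generalizing u with
  | zero =>
    match u with
    | [] => simp at h
    | a :: u =>
      simp at h
      subst h
      rfl
  | succ n ih =>
    match u with
    | [] => simp at h
    | a :: u =>
      rw [ers_succ, dragRB, swp_zero, dragRB_succ_cons, ih (by simpa using h)]

end

section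

variable {Ω : Type} [DecidableEq Ω] [Dir Ω]

theorem step_cr_eq {p : ℕ} {s : List Ω} (o : Bool) (h : p + 1 < s.length) :
    step (cr p o) s = some (swp p s) := by
  induction p generalizing s with
  | zero =>
    match s with
    | [] => simp at h
    | [a] => simp at h
    | a :: b :: u => rfl
  | succ p ih =>
    match s with
    | [] => simp at h
    | a :: s =>
      have := step_shift_one (cr p o) a s
      change step (cr (p + 1) o) (a :: s) = _ at this
      rw [this, ih (by simpa using h)]
      rfl

theorem step_cup_eq {p : ℕ} {s : List Ω} (b : Ω) (h : p ≤ s.length) :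
    step (cup p b) s = some (insS b (Dir.op b) p s) := by
  induction p generalizing s with
  | zero => simp [step, insS_zero]
  | succ p ih =>
    match s with
    | [] => simp at h
    | a :: s =>
      have := step_shift_one (cup p b) a s
      change step (cup (p + 1) b) (a :: s) = _ at this
      rw [this, ih (by simpa using h)]
      rfl

theorem step_cap_eq {p : ℕ} {s : List Ω} {x : Ω} (h : s[p]? = some x)
    (h' : s[p + 1]? = some (Dir.op x)) : step (cap p) s = some (delS p s) := by
  induction p generalizing s with
  | zero =>
    match s with
    | [] => simp at h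
    | [a] => simp at h'
    | a :: b :: u =>
      simp at h h'
      subst h h'
      simp [step, delS_zero]
  | succ p ih =>
    match s with
    | [] => simp at h
    | a :: s =>
      have := step_shift_one (cap p) a s
      change step (cap (p + 1)) (a :: s) = _ at this
      rw [this, ih (by simpa using h) (by simpa using h')]
      rfl

theorem of_step_cr {p : ℕ} {o : Bool} {s s' : List Ω} (h : step (cr p o) s = some s') :
    p + 1 < s.length ∧ s' = swp p s := by
  have h1 : p + 1 < s.length := by
    simp only [step] at h
    match hd : s.drop p, h with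
    | a :: b :: u, _ =>
      have := congrArg List.length hd
      simp at this
      omega
    | [a], h => simp at h
    | [], h => simp at h
  refine ⟨h1, ?_⟩
  rw [step_cr_eq o h1, Option.some.injEq] at h
  exact h.symm

theorem of_step_cup {p : ℕ} {b : Ω} {s s' : List Ω} (h : step (cup p b) s = some s') :
    p ≤ s.length ∧ s' = insS b (Dir.op b) p s := by
  have h1 : p ≤ s.length := by
    simp only [step] at h
    split_ifs at h with h2
    exact h2
  refine ⟨h1, ?_⟩
  rw [step_cup_eq b h1, Option.some.injEq] at h
  exact h.symm

theorem of_step_cap {p : ℕ} {s s' : List Ω} (h : step (cap p) s = some s') :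
    (∃ x, s[p]? = some x ∧ s[p + 1]? = some (Dir.op x)) ∧ s' = delS p s := by
  have h1 : ∃ x, s[p]? = some x ∧ s[p + 1]? = some (Dir.op x) := by
    simp only [step] at h
    match hd : s.drop p, h with
    | a :: b :: u, h =>
      simp only at h
      split_ifs at h with h2
      refine ⟨a, ?_, ?_⟩
      · have : (s.drop p)[0]? = some a := by rw [hd]; rfl
        rwa [List.getElem?_drop] at this
      · have : (s.drop p)[1]? = some b := by rw [hd]; rfl
        rwa [List.getElem?_drop, h2] at this
    | [a], h => simp at h
    | [], h => simp at h
  refine ⟨h1, ?_⟩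
  obtain ⟨x, hx, hx'⟩ := h1
  rw [step_cap_eq hx hx', Option.some.injEq] at h
  exact h.symm

end

end Pool.Agent.Helper26.WD
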