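import Pool.Agent.Helper26.WD.Runs

/-!
# The representation of tangles attached to a skein functional
-/

namespace Pool.Agent.Helper26.WD

set_option linter.unusedSectionVars false

open Piece

/-- A functional on diagrams satisfying a skein relation. -/
structure Skein (Ω : Type) [DecidableEq Ω] [Dir Ω] (S : Type) [CommRing S] where
  /-- the functional -/
  f : List (Piece Ω) → S
  /-- the factor of a curl -/
  kap : Bool → S
  /-- coefficient of the switched crossing -/
  al : Ω → Ω → Bool → S
  /-- coefficient of the vertical smoothing -/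
  be : Ω → Ω → Bool → S
  /-- coefficient of the horizontal smoothing -/
  ga : Ω → Ω → Bool → S
  /-- value of a circle -/
  de : S
  zero : ∀ D, run D [] ≠ some [] → f D = 0
  reg : ∀ D D', StepBy RegMove D D' → f D = f D'
  curlCup : ∀ (D₁ D₂ : List (Piece Ω)) (i : ℕ) (a : Ω) (o : Bool),
    IsDiagram (D₁ ++ [cup i a, cr i o] ++ D₂) →
    f (D₁ ++ [cup i a, cr i o] ++ D₂) = kap o * f (D₁ ++ [cup i (Dir.op a)] ++ D₂)
  curlCap : ∀ (D₁ D₂ : List (Piece Ω)) (i : ℕ) (o : Bool),
    IsDiagram (D₁ ++ [cr i o, cap i] ++ D₂) →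
    f (D₁ ++ [cr i o, cap i] ++ D₂) = kap o * f (D₁ ++ [cap i] ++ D₂)
  skein : ∀ (D₁ D₂ : List (Piece Ω)) (i : ℕ) (o : Bool) (s : List Ω) (a b : Ω),
    run D₁ [] = some s → s[i]? = some a → s[i + 1]? = some b →
    IsDiagram (D₁ ++ [cr i o] ++ D₂) →
    f (D₁ ++ [cr i o] ++ D₂) = al a b o * f (D₁ ++ [cr i (!o)] ++ D₂) +
      (be a b o * f (D₁ ++ D₂) + ga a b o * f (D₁ ++ [cap i, cup i b] ++ D₂))
  dir : ∀ a c : Ω, a = c ∨ a = Dir.op c
  be_zero : ∀ a b o, a ≠ b → be a b o = 0
  ga_zero : ∀ a b o, b ≠ Dir.op a → ga a b o = 0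
  kap_unit : IsUnit (kap true)
  ga_unit : ∀ a, IsUnit (ga a (Dir.op a) true)
  rel : ∀ a, kap true = al a (Dir.op a) true * kap false +
    (be a (Dir.op a) true + ga a (Dir.op a) true * de)
  unknot : ∀ a, f [cup 0 a, cap 0] = de * f []

namespace Skein

variable {Ω : Type} [DecidableEq Ω] [Dir Ω] {S : Type} [CommRing S]

/-- The space on which diagrams act. -/
abbrev E (Ω S : Type) : Type := List (Piece Ω) → S

/-- The action of a piece. -/
def op (S : Type) [CommRing S] (p : Piece Ω) : E Ω S →ₗ[S] E Ω S where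
  toFun φ := fun R => φ (p :: R)
  map_add' _ _ := rfl
  map_smul' _ _ := rfl

theorem op_apply (p : Piece Ω) (φ : E Ω S) (R : List (Piece Ω)) : op S p φ R = φ (p :: R) := rfl

variable (F : Skein Ω S)

/-- The vector of a partial diagram. -/
def vec (D : List (Piece Ω)) : E Ω S := fun R => F.f (D ++ R)

theorem vec_append_singleton (D : List (Piece Ω)) (p : Piece Ω) :
    F.vec (D ++ [p]) = op S p (F.vec D) := by
  funext R
  simp [vec, op_apply]

theorem vec_eq_zero {D : List (Piece Ω)} (h : run D [] = none) : F.vec D = 0 := by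
  funext R
  apply F.zero
  rw [run_append, h]
  simp

/-- The span of the vectors of partial diagrams whose lists of directions satisfy `Q`. -/
def M (Q : List Ω → Prop) : Submodule S (E Ω S) :=
  Submodule.span S {φ | ∃ D s, run D [] = some s ∧ Q s ∧ φ = F.vec D}

theorem vec_mem {Q : List Ω → Prop} {D : List (Piece Ω)} {s : List Ω} (h : run D [] = some s)
    (hs : Q s) : F.vec D ∈ F.M Q :=
  Submodule.subset_span ⟨D, s, h, hs, rfl⟩

theorem M_mono {Q Q' : List Ω → Prop} (h : ∀ s, Q s → Q' s) {φ : E Ω S} (hφ : φ ∈ F.M Q) :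
    φ ∈ F.M Q' := by
  refine Submodule.span_mono ?_ hφ
  rintro φ ⟨D, s, h1, h2, rfl⟩
  exact ⟨D, s, h1, h s h2, rfl⟩

theorem op_mem {Q Q' : List Ω → Prop} (p : Piece Ω)
    (h : ∀ s, Q s → ∀ t, step p s = some t → Q' t) {φ : E Ω S} (hφ : φ ∈ F.M Q) :
    op S p φ ∈ F.M Q' := by
  induction hφ using Submodule.span_induction with
  | mem φ hφ =>
    obtain ⟨D, s, h1, h2, rfl⟩ := hφ
    rw [← vec_append_singleton]
    cases hs : step p s with
    | none =>
      rw [vec_eq_zero]
      · exact Submodule.zero_mem _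
      · rw [run_append, h1]
        simp [hs]
    | some t =>
      refine F.vec_mem (s := t) ?_ (h s h2 t hs)
      rw [run_append, h1]
      simp [hs]
  | zero => rw [map_zero]; exact Submodule.zero_mem _
  | add x y _ _ hx hy => rw [map_add]; exact Submodule.add_mem _ hx hy
  | smul c x _ hx => rw [map_smul]; exact Submodule.smul_mem _ c hx

/-- Equality of linear maps on `M Q` can be checked on vectors of diagrams. -/
theorem ext_M {Q : List Ω → Prop} (L₁ L₂ : E Ω S →ₗ[S] E Ω S)
    (h : ∀ D s, run D [] = some s → Q s → L₁ (F.vec D) = L₂ (F.vec D))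
    {φ : E Ω S} (hφ : φ ∈ F.M Q) : L₁ φ = L₂ φ := by
  induction hφ using Submodule.span_induction with
  | mem φ hφ =>
    obtain ⟨D, s, h1, h2, rfl⟩ := hφ
    exact h D s h1 h2
  | zero => rw [map_zero, map_zero]
  | add x y _ _ hx hy => rw [map_add, map_add, hx, hy]
  | smul c x _ hx => rw [map_smul, map_smul, hx]

/-- The action of a list of pieces. -/
def opL (S : Type) [CommRing S] (A : List (Piece Ω)) : E Ω S →ₗ[S] E Ω S where
  toFun φ := fun R => φ (A ++ R)
  map_add' _ _ := rfl
  map_smul' _ _ := rfl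

theorem opL_vec (A D : List (Piece Ω)) : opL S A (F.vec D) = F.vec (D ++ A) := by
  funext R
  simp [vec, opL]

theorem opL_cons (p : Piece Ω) (A : List (Piece Ω)) (φ : E Ω S) :
    opL S (p :: A) φ = opL S A (op S p φ) := rfl

theorem opL_nil (φ : E Ω S) : opL S ([] : List (Piece Ω)) φ = φ := rfl

/-- Local moves give relations between the operators. -/
theorem regMove {Q : List Ω → Prop} {A B : List (Piece Ω)} (hM : RegMove A B)
    (h : ∀ s, Q s → run A s = run B s) {φ : E Ω S} (hφ : φ ∈ F.M Q) :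
    opL S A φ = opL S B φ := by
  refine F.ext_M _ _ (fun D s h1 h2 => ?_) hφ
  rw [opL_vec, opL_vec]
  funext R
  simp only [vec]
  by_cases hd : run (D ++ A ++ R) [] = some []
  · apply F.reg
    refine ⟨D, A, B, R, hM, rfl, rfl, hd, ?_⟩
    unfold IsDiagram
    rw [run_append, run_append, h1, Option.bind_some, ← h s h2]
    rw [run_append, run_append, h1, Option.bind_some] at hd
    exact hd
  · rw [F.zero _ hd, F.zero]
    rw [run_append, run_append, h1, Option.bind_some, ← h s h2]
    rw [run_append, run_append, h1, Option.bind_some] at hd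
    exact hd

/-- All vectors of partial diagrams. -/
def V : Submodule S (E Ω S) := F.M (fun _ => True)

theorem mem_V {Q : List Ω → Prop} {φ : E Ω S} (hφ : φ ∈ F.M Q) : φ ∈ F.V :=
  F.M_mono (fun _ _ => trivial) hφ

theorem op_mem_V (p : Piece Ω) {φ : E Ω S} (hφ : φ ∈ F.V) : op S p φ ∈ F.V :=
  F.op_mem p (fun _ _ _ _ => trivial) hφ

theorem far (x y : Piece Ω) (h : x.pos ≤ y.pos) {φ : E Ω S} (hφ : φ ∈ F.V) :
    op S (y.shift x.out) (op S x φ) = op S x (op S (y.shift x.inn) φ) :=
  F.regMove (RegMove.far x y h) (fun s _ => run_far x y h s) hφ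

theorem cr_cr {i j : ℕ} (h : i + 2 ≤ j) (o o' : Bool) {φ : E Ω S} (hφ : φ ∈ F.V) :
    op S (cr j o') (op S (cr i o) φ) = op S (cr i o) (op S (cr j o') φ) := by
  obtain ⟨k, rfl⟩ : ∃ k, j = k + 2 := ⟨j - 2, by omega⟩
  exact F.far (cr i o) (cr k o') (by simp only [pos]; omega) hφ

theorem cr_cup {i j : ℕ} (h : i ≤ j) (a : Ω) (o : Bool) {φ : E Ω S} (hφ : φ ∈ F.V) :
    op S (cr (j + 2) o) (op S (cup i a) φ) = op S (cup i a) (op S (cr j o) φ) :=
  F.far (cup i a) (cr j o) h hφ

theorem cup_cr {i j : ℕ} (h : i + 2 ≤ j) (a : Ω) (o : Bool) {φ : E Ω S} (hφ : φ ∈ F.V) :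
    op S (cup j a) (op S (cr i o) φ) = op S (cr i o) (op S (cup j a) φ) := by
  obtain ⟨k, rfl⟩ : ∃ k, j = k + 2 := ⟨j - 2, by omega⟩
  exact F.far (cr i o) (cup k a) (by simp only [pos]; omega) hφ

theorem cap_cr {i j : ℕ} (h : i + 2 ≤ j) (o : Bool) {φ : E Ω S} (hφ : φ ∈ F.V) :
    op S (cap j) (op S (cr i o) φ) = op S (cr i o) (op S (cap j) φ) := by
  obtain ⟨k, rfl⟩ : ∃ k, j = k + 2 := ⟨j - 2, by omega⟩
  exact F.far (cr i o) (cap k) (by simp only [pos]; omega) hφ

theorem cr_cap {i j : ℕ} (h : i ≤ j) (o : Bool) {φ : E Ω S} (hφ : φ ∈ F.V) :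
    op S (cr j o) (op S (cap i) φ) = op S (cap i) (op S (cr (j + 2) o) φ) :=
  F.far (cap i) (cr j o) h hφ

theorem cap_cup {i j : ℕ} (h : i ≤ j) (a : Ω) {φ : E Ω S} (hφ : φ ∈ F.V) :
    op S (cap (j + 2)) (op S (cup i a) φ) = op S (cup i a) (op S (cap j) φ) :=
  F.far (cup i a) (cap j) h hφ

theorem cup_cup {i j : ℕ} (h : i ≤ j) (a b : Ω) {φ : E Ω S} (hφ : φ ∈ F.V) :
    op S (cup (j + 2) b) (op S (cup i a) φ) = op S (cup i a) (op S (cup j b) φ) :=
  F.far (cup i a) (cup j b) h hφ

theorem slideCup (i : ℕ) (a : Ω) (o : Bool) {φ : E Ω S} (hφ : φ ∈ F.V) :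
    op S (cr (i + 1) o) (op S (cup i a) φ) = op S (cr i (!o)) (op S (cup (i + 1) a) φ) :=
  F.regMove (RegMove.slideCup i a o) (fun s _ => run_slideCup i a o s) hφ

theorem slideCap (i : ℕ) (o : Bool) {φ : E Ω S} (hφ : φ ∈ F.V) :
    op S (cap (i + 1)) (op S (cr i o) φ) = op S (cap i) (op S (cr (i + 1) (!o)) φ) :=
  F.regMove (RegMove.slideCap i o) (fun s _ => run_slideCap i o s) hφ

theorem r3 (i : ℕ) (o₁ o₂ o₃ : Bool) (h : ¬ (o₁ = o₃ ∧ o₂ ≠ o₁)) {φ : E Ω S} (hφ : φ ∈ F.V) :
    op S (cr i o₃) (op S (cr (i + 1) o₂) (op S (cr i o₁) φ)) =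
      op S (cr (i + 1) o₁) (op S (cr i o₂) (op S (cr (i + 1) o₃) φ)) :=
  F.regMove (RegMove.r3 i o₁ o₂ o₃ h) (fun s _ => run_r3 i o₁ o₂ o₃ s) hφ

theorem r2 {n : ℕ} (i : ℕ) (o : Bool) (h : i + 1 < n) {φ : E Ω S}
    (hφ : φ ∈ F.M (fun s => n ≤ s.length)) :
    op S (cr i (!o)) (op S (cr i o) φ) = φ :=
  F.regMove (RegMove.r2 i o) (fun s hs => run_r2 i o _ s (by omega)) hφ

theorem zigR (i : ℕ) (a : Ω) {φ : E Ω S} (hφ : φ ∈ F.M (fun s => s[i]? = some a)) :
    op S (cap (i + 1)) (op S (cup i a) φ) = φ :=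
  F.regMove (RegMove.zigR i a) (fun s hs => run_zigR i a s hs) hφ

theorem zigL (i : ℕ) (a : Ω) {φ : E Ω S} (hφ : φ ∈ F.M (fun s => s[i]? = some (Dir.op a))) :
    op S (cap i) (op S (cup (i + 1) a) φ) = φ :=
  F.regMove (RegMove.zigL i a) (fun s hs => run_zigL i a s hs) hφ

theorem curl_cup (i : ℕ) (a : Ω) (o : Bool) {φ : E Ω S} (hφ : φ ∈ F.V) :
    op S (cr i o) (op S (cup i a) φ) = F.kap o • op S (cup i (Dir.op a)) φ := by
  refine F.ext_M ((op S (cr i o)) ∘ₗ (op S (cup i a))) (F.kap o • op S (cup i (Dir.op a)))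
    (fun D s h1 _ => ?_) hφ
  simp only [LinearMap.comp_apply, LinearMap.smul_apply]
  rw [← vec_append_singleton, ← vec_append_singleton, ← vec_append_singleton]
  funext R
  simp only [vec, Pi.smul_apply, smul_eq_mul, List.append_assoc]
  have e := run_curlCup i a o s
  by_cases hd : run (D ++ [cup i a, cr i o] ++ R) [] = some []
  · have := F.curlCup D R i a o hd
    simpa only [List.append_assoc, List.cons_append, List.nil_append] using this
  · have h3 := F.zero _ hd
    have h4 : run (D ++ [cup i (Dir.op a)] ++ R) [] ≠ some [] := by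
      rw [run_append, run_append, h1, Option.bind_some, ← e]
      rw [run_append, run_append, h1, Option.bind_some] at hd
      exact hd
    have h5 := F.zero _ h4
    simp only [List.append_assoc, List.cons_append, List.nil_append] at h3 h5 ⊢
    rw [h3, h5, mul_zero]

theorem curl_cap (i : ℕ) (o : Bool) {φ : E Ω S} (hφ : φ ∈ F.V) :
    op S (cap i) (op S (cr i o) φ) = F.kap o • op S (cap i) φ := by
  refine F.ext_M ((op S (cap i)) ∘ₗ (op S (cr i o))) (F.kap o • op S (cap i))
    (fun D s h1 _ => ?_) hφ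
  simp only [LinearMap.comp_apply, LinearMap.smul_apply]
  rw [← vec_append_singleton, ← vec_append_singleton, ← vec_append_singleton]
  funext R
  simp only [vec, Pi.smul_apply, smul_eq_mul, List.append_assoc]
  have e := run_curlCap i o s
  by_cases hd : run (D ++ [cr i o, cap i] ++ R) [] = some []
  · have := F.curlCap D R i o hd
    simpa only [List.append_assoc, List.cons_append, List.nil_append] using this
  · have h3 := F.zero _ hd
    have h4 : run (D ++ [cap i] ++ R) [] ≠ some [] := by
      rw [run_append, run_append, h1, Option.bind_some, ← e]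
      rw [run_append, run_append, h1, Option.bind_some] at hd
      exact hd
    have h5 := F.zero _ h4
    simp only [List.append_assoc, List.cons_append, List.nil_append] at h3 h5 ⊢
    rw [h3, h5, mul_zero]

theorem skein_rel (i : ℕ) (o : Bool) (a b : Ω) {φ : E Ω S}
    (hφ : φ ∈ F.M (fun s => s[i]? = some a ∧ s[i + 1]? = some b)) :
    op S (cr i o) φ = F.al a b o • op S (cr i (!o)) φ +
      (F.be a b o • φ + F.ga a b o • op S (cup i b) (op S (cap i) φ)) := by
  refine F.ext_M (op S (cr i o)) (F.al a b o • op S (cr i (!o)) +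
      (F.be a b o • LinearMap.id + F.ga a b o • ((op S (cup i b)) ∘ₗ (op S (cap i)))))
    (fun D s h1 hs => ?_) hφ
  simp only [LinearMap.comp_apply, LinearMap.smul_apply, LinearMap.add_apply, LinearMap.id_apply]
  rw [← vec_append_singleton, ← vec_append_singleton, ← vec_append_singleton,
    ← vec_append_singleton]
  funext R
  simp only [vec, Pi.smul_apply, smul_eq_mul, List.append_assoc, Pi.add_apply]
  -- decompose `s`
  obtain ⟨s₁, s₂, rfl, rfl⟩ : ∃ s₁ s₂, s = s₁ ++ a :: b :: s₂ ∧ s₁.length = i := by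
    obtain ⟨ha, hb⟩ := hs
    have hi : i + 1 < s.length := by
      by_contra hc
      rw [List.getElem?_eq_none (by omega)] at hb
      simp at hb
    rw [List.getElem?_eq_getElem (by omega)] at ha hb
    refine ⟨s.take i, s.drop (i + 2), ?_, by simp; omega⟩
    rw [Option.some.injEq] at ha hb
    rw [← ha, ← hb, List.cons_getElem_drop_succ, List.cons_getElem_drop_succ, List.take_append_drop]
  have hstep : ∀ o, step (cr s₁.length o) (s₁ ++ a :: b :: s₂) = some (s₁ ++ b :: a :: s₂) := by
    intro o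
    simp [step]
  by_cases hd : run (D ++ [cr s₁.length o] ++ R) [] = some []
  · have := F.skein D R s₁.length o _ a b h1 hs.1 hs.2 hd
    simpa only [List.append_assoc, List.cons_append, List.nil_append] using this
  · have hd' : run R (s₁ ++ b :: a :: s₂) ≠ some [] := by
      rw [run_append, run_append, h1, Option.bind_some, run_singleton, hstep] at hd
      exact hd
    have h3 : run (D ++ [cr s₁.length (!o)] ++ R) [] ≠ some [] := by
      rw [run_append, run_append, h1, Option.bind_some, run_singleton, hstep]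
      exact hd'
    have h0 := F.zero _ hd
    have h0' := F.zero _ h3
    have e1 : F.be a b o * F.f (D ++ R) = 0 := by
      by_cases hab : a = b
      · subst hab
        rw [F.zero, mul_zero]
        rw [run_append, h1, Option.bind_some]
        exact hd'
      · rw [F.be_zero _ _ _ hab, zero_mul]
    have e2 : F.ga a b o * F.f (D ++ ([cap s₁.length, cup s₁.length b] ++ R)) = 0 := by
      by_cases hab : b = Dir.op a
      · rw [F.zero, mul_zero]
        rw [run_append, h1, Option.bind_some, run_append, run_pair]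
        have e3 : step (cap s₁.length : Piece Ω) (s₁ ++ a :: b :: s₂) = some (s₁ ++ s₂) := by
          simp [step, hab]
        have e4 : step (cup s₁.length b) (s₁ ++ s₂) = some (s₁ ++ b :: a :: s₂) := by
          simp [step, hab, Dir.op_op]
        rw [e3, Option.bind_some, e4, Option.bind_some]
        exact hd'
      · rw [F.ga_zero _ _ _ hab, zero_mul]
    simp only [List.append_assoc, List.cons_append, List.nil_append] at h0 h0' e2 ⊢
    rw [h0, h0', e1, e2, mul_zero, add_zero, add_zero]

/-- The direction of a small circle does not matter. -/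
theorem circle_dir (i : ℕ) (a : Ω) {φ : E Ω S} (hφ : φ ∈ F.V) :
    op S (cap i) (op S (cup i (Dir.op a)) φ) = op S (cap i) (op S (cup i a) φ) := by
  have h1 := F.curl_cup i a true hφ
  have h2 := F.curl_cap i true (F.op_mem_V (cup i a) hφ)
  rw [h1, map_smul] at h2
  exact F.kap_unit.smul_left_cancel.mp h2

theorem getElem?_insert_cup (i : ℕ) (a : Ω) (s t : List Ω) (h : step (cup i a) s = some t) :
    t[i]? = some a ∧ t[i + 1]? = some (Dir.op a) := by
  simp only [step] at h
  split_ifs at h with hi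
  rw [Option.some.injEq] at h
  subst h
  have hl : (s.take i).length = i := by simp [hi]
  constructor
  · rw [List.getElem?_append_right (by omega)]
    simp [hl]
  · rw [List.getElem?_append_right (by omega)]
    simp [hl]

/-- A small circle just below a local minimum. -/
theorem circle_cup (i : ℕ) (a c : Ω) {φ : E Ω S} (hφ : φ ∈ F.V) :
    op S (cup i c) (op S (cap i) (op S (cup i a) φ)) = F.de • op S (cup i c) φ := by
  have key : op S (cup i c) (op S (cap i) (op S (cup i (Dir.op c)) φ)) =
      F.de • op S (cup i c) φ := by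
    have hm : op S (cup i (Dir.op c)) φ ∈
        F.M (fun s => s[i]? = some (Dir.op c) ∧ s[i + 1]? = some c) := by
      refine F.op_mem _ (fun s _ t ht => ?_) hφ
      have := getElem?_insert_cup i (Dir.op c) s t ht
      rwa [Dir.op_op] at this
    have h1 := F.skein_rel i true (Dir.op c) c hm
    rw [F.curl_cup i (Dir.op c) true hφ, Bool.not_true, F.curl_cup i (Dir.op c) false hφ,
      Dir.op_op] at h1
    have h2 : F.be (Dir.op c) c true • op S (cup i (Dir.op c)) φ =
        F.be (Dir.op c) c true • op S (cup i c) φ := by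
      by_cases h : Dir.op c = c
      · rw [h]
      · rw [F.be_zero _ _ _ h, zero_smul, zero_smul]
    rw [h2] at h1
    have h3 := F.rel (Dir.op c)
    rw [Dir.op_op] at h3
    rw [h3] at h1
    have h4 : F.ga (Dir.op c) c true • (op S (cup i c) (op S (cap i) (op S (cup i (Dir.op c)) φ))) =
        F.ga (Dir.op c) c true • (F.de • op S (cup i c) φ) := by
      have h5 : (F.al (Dir.op c) c true * F.kap false +
          (F.be (Dir.op c) c true + F.ga (Dir.op c) c true * F.de)) • op S (cup i c) φ =
          F.al (Dir.op c) c true • F.kap false • op S (cup i c) φ +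
          (F.be (Dir.op c) c true • op S (cup i c) φ +
          F.ga (Dir.op c) c true • F.de • op S (cup i c) φ) := by
        simp only [add_smul, mul_smul]
      rw [h5] at h1
      have h6 := add_left_cancel h1
      exact (add_left_cancel h6).symm
    have hu := F.ga_unit (Dir.op c)
    rw [Dir.op_op] at hu
    exact hu.smul_left_cancel.mp h4
  rcases F.dir a c with rfl | rfl
  · rw [← F.circle_dir i a hφ]
    exact key
  · exact key

theorem circ (i : ℕ) (a : Ω) {φ : E Ω S}
    (hφ : φ ∈ F.M (fun s => i ≤ s.length ∧ s ≠ [])) :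
    op S (cap i) (op S (cup i a) φ) = F.de • φ := by
  refine F.ext_M ((op S (cap i)) ∘ₗ (op S (cup i a))) (F.de • LinearMap.id)
    (fun D s h1 hs => ?_) hφ
  simp only [LinearMap.comp_apply, LinearMap.smul_apply, LinearMap.id_apply]
  have hV : F.vec D ∈ F.V := F.vec_mem h1 trivial
  have e : step (cup i a) s = some (s.take i ++ a :: Dir.op a :: s.drop i) := by
    simp [step, hs.1]
  have hM : op S (cap i) (op S (cup i a) (F.vec D)) ∈ F.M (fun t => t = s) := by
    rw [← vec_append_singleton, ← vec_append_singleton]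
    refine F.vec_mem ?_ rfl
    rw [List.append_assoc, run_append, h1]
    exact run_circle i a s hs.1
  have hM0 : F.vec D ∈ F.M (fun t => t = s) := F.vec_mem h1 rfl
  rcases Nat.lt_or_ge i s.length with hi | hi
  · obtain ⟨c, hc⟩ : ∃ c, s[i]? = some c := ⟨s[i], List.getElem?_eq_getElem hi⟩
    have h2 := F.zigR i c (F.M_mono (Q' := fun t => t[i]? = some c) (by rintro _ rfl; exact hc) hM)
    have h3 := F.zigR i c (F.M_mono (Q' := fun t => t[i]? = some c) (by rintro _ rfl; exact hc) hM0)
    rw [F.circle_cup i a c hV, map_smul, h3] at h2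
    exact h2.symm
  · obtain ⟨j, rfl⟩ : ∃ j, i = j + 1 := by
      refine ⟨i - 1, ?_⟩
      have : 0 < s.length := List.length_pos_iff.mpr hs.2
      omega
    have hj : j < s.length := by omega
    obtain ⟨c, hc⟩ : ∃ c, s[j]? = some (Dir.op c) :=
      ⟨Dir.op s[j], by rw [Dir.op_op]; exact List.getElem?_eq_getElem hj⟩
    have h2 := F.zigL j c
      (F.M_mono (Q' := fun t => t[j]? = some (Dir.op c)) (by rintro _ rfl; exact hc) hM)
    have h3 := F.zigL j c
      (F.M_mono (Q' := fun t => t[j]? = some (Dir.op c)) (by rintro _ rfl; exact hc) hM0)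
    rw [F.circle_cup (j + 1) a c hV, map_smul, h3] at h2
    exact h2.symm

theorem circ_nil (a : Ω) : op S (cap 0) (op S (cup 0 a) (F.vec [])) = F.de • F.vec [] := by
  funext R
  change F.f (cup 0 a :: cap 0 :: R) = F.de * F.f R
  cases R with
  | nil => exact F.unknot a
  | cons x R =>
    have hz : step x ([] : List Ω) = none →
        F.f (cup 0 a :: cap 0 :: x :: R) = F.de * F.f (x :: R) := by
      intro h
      rw [F.zero, F.zero, mul_zero]
      · simp [h]
      · simp [h, step_cup_zero, step_cap_zero]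
    cases x with
    | cap i => exact hz (by simp [step])
    | cr i o => exact hz (by simp [step])
    | cup i c =>
      cases i with
      | succ i => exact hz (by simp [step])
      | zero =>
        have h0 : F.vec [] ∈ F.V := F.vec_mem (s := []) rfl trivial
        have := congrFun (F.circle_cup 0 a c h0) R
        exact this

end Skein

end Pool.Agent.Helper26.WD
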