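import Pool.Agent.Helper26.WD.Defs

/-!
# The effect of diagrams on directions
-/

namespace Pool.Agent.Helper26.WD

set_option linter.unusedSectionVars false

open Piece

section Runs

variable {Ω : Type} [DecidableEq Ω] [Dir Ω]

theorem run_append (A B : List (Piece Ω)) (s : List Ω) :
    run (A ++ B) s = (run A s).bind (run B) := by
  induction A generalizing s with
  | nil => rfl
  | cons p A ih =>
    simp only [List.cons_append, run]
    cases h : step p s with
    | none => rfl
    | some t => simp [ih]

theorem run_singleton (p : Piece Ω) (s : List Ω) : run [p] s = step p s := by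
  simp only [run]
  cases step p s <;> rfl

@[simp] theorem run_cons (p : Piece Ω) (A : List (Piece Ω)) (s : List Ω) :
    run (p :: A) s = (step p s).bind (run A) := rfl

@[simp] theorem run_nil (s : List Ω) : run ([] : List (Piece Ω)) s = some s := rfl

theorem step_shift_one (p : Piece Ω) (c : Ω) (s : List Ω) :
    step (p.shift 1) (c :: s) = (step p s).map (c :: ·) := by
  cases p with
  | cup i a => simp only [shift, step, List.length_cons, Nat.add_le_add_iff_right,
      List.take_succ_cons, List.drop_succ_cons]; split_ifs <;> rfl
  | cap i =>
    simp only [shift, step, List.take_succ_cons, List.drop_succ_cons]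
    match s.drop i with
    | [] => rfl
    | [a] => rfl
    | a :: b :: t => simp only; split_ifs <;> rfl
  | cr i o =>
    simp only [shift, step, List.take_succ_cons, List.drop_succ_cons]
    match s.drop i with
    | [] => rfl
    | [a] => rfl
    | a :: b :: t => rfl

theorem shift_shift (p : Piece Ω) (i j : ℕ) : (p.shift i).shift j = p.shift (i + j) := by
  cases p <;> simp [shift, Nat.add_assoc]

theorem step_shift_two (p : Piece Ω) (c d : Ω) (s : List Ω) :
    step (p.shift 2) (c :: d :: s) = (step p s).map (fun t => c :: d :: t) := by
  have : p.shift 2 = (p.shift 1).shift 1 := by rw [shift_shift]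
  rw [this, step_shift_one, step_shift_one]
  cases step p s <;> rfl

theorem step_shift_nil {p : Piece Ω} {k : ℕ} (_ : 0 < k) {s : List Ω}
    (hs : s.length < k) : step (p.shift k) s = none := by
  cases p with
  | cup i a => simp only [shift, step]; rw [if_neg (by omega)]
  | cap i => simp only [shift, step]; rw [List.drop_eq_nil_of_le (by omega)]
  | cr i o => simp only [shift, step]; rw [List.drop_eq_nil_of_le (by omega)]

theorem exists_shift (p : Piece Ω) (h : 1 ≤ p.pos) : ∃ q : Piece Ω, p = q.shift 1 ∧
    q.pos + 1 = p.pos ∧ q.inn = p.inn ∧ q.out = p.out := by
  cases p with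
  | cup i a => exact ⟨cup (i - 1) a, by simp [shift, pos] at *; omega, by simp [pos] at *; omega,
      rfl, rfl⟩
  | cap i => exact ⟨cap (i - 1), by simp [shift, pos] at *; omega, by simp [pos] at *; omega,
      rfl, rfl⟩
  | cr i o => exact ⟨cr (i - 1) o, by simp [shift, pos] at *; omega, by simp [pos] at *; omega,
      rfl, rfl⟩

theorem run_pair (p q : Piece Ω) (s : List Ω) : run [p, q] s = (step p s).bind (step q) := by
  rw [run_cons]
  cases step p s with
  | none => rfl
  | some t => rw [Option.bind_some, Option.bind_some, run_singleton]

theorem step_cup_zero (a : Ω) (s : List Ω) : step (cup 0 a) s = some (a :: Dir.op a :: s) := by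
  simp [step]

theorem step_cap_zero (a b : Ω) (s : List Ω) :
    step (cap 0) (a :: b :: s) = if b = Dir.op a then some s else none := by
  simp [step]

theorem step_cr_zero (a b : Ω) (o : Bool) (s : List Ω) :
    step (cr 0 o) (a :: b :: s) = some (b :: a :: s) := by
  simp [step]

theorem shift_zero (y : Piece Ω) : y.shift 0 = y := by cases y <;> rfl

/-- Far commutativity at the level of directions. -/
theorem run_far (x y : Piece Ω) (h : x.pos ≤ y.pos) (s : List Ω) :
    run [x, y.shift x.out] s = run [y.shift x.inn, x] s := by
  obtain ⟨n, hn⟩ : ∃ n, n = x.pos := ⟨_, rfl⟩
  rw [run_pair, run_pair]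
  induction n generalizing x y s with
  | zero =>
    cases x with
    | cup i a =>
      obtain rfl : i = 0 := hn.symm
      rw [step_cup_zero, Option.bind_some]
      change step (y.shift 2) _ = (step (y.shift 0) s).bind _
      rw [step_shift_two, shift_zero]
      cases step y s with
      | none => rfl
      | some t => rw [Option.bind_some, step_cup_zero]; rfl
    | cap i =>
      obtain rfl : i = 0 := hn.symm
      change (step (cap 0) s).bind (step (y.shift 0)) = (step (y.shift 2) s).bind (step (cap 0))
      rw [shift_zero]
      match s with
      | [] => rw [step_shift_nil (by norm_num) (by simp)]; rfl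
      | [a] => rw [step_shift_nil (by norm_num) (by simp)]; rfl
      | a :: b :: t =>
        rw [step_shift_two, step_cap_zero]
        by_cases hb : b = Dir.op a
        · rw [if_pos hb, Option.bind_some]
          cases step y t with
          | none => rfl
          | some u => rw [Option.map_some, Option.bind_some, step_cap_zero, if_pos hb]
        · rw [if_neg hb, Option.bind_none]
          cases step y t with
          | none => rfl
          | some u => rw [Option.map_some, Option.bind_some, step_cap_zero, if_neg hb]
    | cr i o =>
      obtain rfl : i = 0 := hn.symm
      change (step (cr 0 o) s).bind (step (y.shift 2)) = (step (y.shift 2) s).bind (step (cr 0 o))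
      match s with
      | [] => rw [step_shift_nil (by norm_num) (by simp)]; rfl
      | [a] => rw [step_shift_nil (by norm_num) (by simp)]; rfl
      | a :: b :: t =>
        rw [step_shift_two, step_cr_zero, Option.bind_some, step_shift_two]
        cases step y t with
        | none => rfl
        | some u => rw [Option.map_some, Option.map_some, Option.bind_some, step_cr_zero]
  | succ n ih =>
    obtain ⟨x', rfl, hx', hxi, hxo⟩ := exists_shift x (by omega)
    obtain ⟨y', rfl, hy', -, -⟩ := exists_shift y (by omega)
    rw [← hxi, ← hxo]
    match s with
    | [] =>
      rw [step_shift_nil (k := 1) (by norm_num) (by simp), shift_shift, shift_shift,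
        step_shift_nil (k := 1 + x'.inn) (by omega) (by simp)]
      rfl
    | c :: s =>
      have h1 := ih x' y' (by omega) s (by omega)
      rw [step_shift_one, shift_shift, shift_shift, Nat.add_comm 1, Nat.add_comm 1,
        ← shift_shift, ← shift_shift, step_shift_one]
      have e1 : ((step x' s).map (c :: ·)).bind (step ((y'.shift x'.out).shift 1))
          = ((step x' s).bind (step (y'.shift x'.out))).map (c :: ·) := by
        cases step x' s with
        | none => rfl
        | some t => rw [Option.map_some, Option.bind_some, Option.bind_some, step_shift_one]
      have e2 : ((step (y'.shift x'.inn) s).map (c :: ·)).bind (step (x'.shift 1))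
          = ((step (y'.shift x'.inn) s).bind (step x')).map (c :: ·) := by
        cases step (y'.shift x'.inn) s with
        | none => rfl
        | some t => rw [Option.map_some, Option.bind_some, Option.bind_some, step_shift_one]
      rw [e1, e2, h1]

/-- Reduction of statements about directions to position `0`. -/
theorem run_shift_one (A : List (Piece Ω)) (c : Ω) (s : List Ω) :
    run (A.map (shift 1)) (c :: s) = (run A s).map (c :: ·) := by
  induction A generalizing s with
  | nil => rfl
  | cons p A ih =>
    simp only [List.map_cons, run_cons, step_shift_one]
    cases step p s with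
    | none => rfl
    | some t => simp [ih]

theorem run_slideCup (i : ℕ) (a : Ω) (o : Bool) (s : List Ω) :
    run [cup i a, cr (i + 1) o] s = run [cup (i + 1) a, cr i (!o)] s := by
  induction i generalizing s with
  | zero =>
    match s with
    | [] => simp [run, step]
    | c :: s => simp [run, step]
  | succ i ih =>
    match s with
    | [] => simp [run, step]
    | c :: s =>
      have h1 := run_shift_one [cup i a, cr (i + 1) o] c s
      have h2 := run_shift_one [cup (i + 1) a, cr i (!o)] c s
      simp only [List.map_cons, List.map_nil, shift] at h1 h2
      rw [h1, h2, ih]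

theorem run_slideCap (i : ℕ) (o : Bool) (s : List Ω) :
    run [cr i o, cap (i + 1)] s = run [cr (i + 1) (!o), cap i] s := by
  induction i generalizing s with
  | zero =>
    match s with
    | [] => simp [run, step]
    | [a] => simp [run, step]
    | [a, b] => simp [run, step]
    | a :: b :: c :: s => simp [run, step]
  | succ i ih =>
    match s with
    | [] => simp [run, step]
    | c :: s =>
      have h1 := run_shift_one [cr i o, cap (i + 1)] c s
      have h2 := run_shift_one [cr (i + 1) (!o), cap i] c s
      simp only [List.map_cons, List.map_nil, shift] at h1 h2
      rw [h1, h2, ih]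

theorem run_r3 (i : ℕ) (o₁ o₂ o₃ : Bool) (s : List Ω) :
    run [cr i o₁, cr (i + 1) o₂, cr i o₃] s = run [cr (i + 1) o₃, cr i o₂, cr (i + 1) o₁] s := by
  induction i generalizing s with
  | zero =>
    match s with
    | [] => simp [run, step]
    | [a] => simp [run, step]
    | [a, b] => simp [run, step]
    | a :: b :: c :: s => simp [run, step]
  | succ i ih =>
    match s with
    | [] => simp [run, step]
    | c :: s =>
      have h1 := run_shift_one [cr i o₁, cr (i + 1) o₂, cr i o₃] c s
      have h2 := run_shift_one [cr (i + 1) o₃, cr i o₂, cr (i + 1) o₁] c s
      simp only [List.map_cons, List.map_nil, shift] at h1 h2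
      rw [h1, h2, ih]

theorem run_curlCup (i : ℕ) (a : Ω) (o : Bool) (s : List Ω) :
    run [cup i a, cr i o] s = run [cup i (Dir.op a)] s := by
  induction i generalizing s with
  | zero => simp [run, step, Dir.op_op]
  | succ i ih =>
    match s with
    | [] => simp [run, step]
    | c :: s =>
      have h1 := run_shift_one [cup i a, cr i o] c s
      have h2 := run_shift_one [cup i (Dir.op a)] c s
      simp only [List.map_cons, List.map_nil, shift] at h1 h2
      rw [h1, h2, ih]

theorem op_eq_iff (a b : Ω) : a = Dir.op b ↔ b = Dir.op a := by
  constructor
  · rintro rfl; rw [Dir.op_op]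
  · rintro rfl; rw [Dir.op_op]

theorem run_curlCap (i : ℕ) (o : Bool) (s : List Ω) :
    run [cr i o, cap i] s = run [cap i] s := by
  induction i generalizing s with
  | zero =>
    match s with
    | [] => simp [run, step]
    | [a] => simp [run, step]
    | a :: b :: s =>
      simp only [run, step, List.drop_zero, List.take_zero, List.nil_append, Option.bind_some,
        Option.bind_fun_some]
      by_cases h : b = Dir.op a
      · rw [if_pos h, if_pos ((op_eq_iff a b).mpr h)]
      · rw [if_neg h, if_neg (fun h' => h ((op_eq_iff a b).mp h'))]
  | succ i ih =>
    match s with
    | [] => simp [run, step]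
    | c :: s =>
      have h1 := run_shift_one [cr i o, cap i] c s
      have h2 := run_shift_one [(cap i : Piece Ω)] c s
      simp only [List.map_cons, List.map_nil, shift] at h1 h2
      rw [h1, h2, ih]

theorem run_r2 (i : ℕ) (o o' : Bool) (s : List Ω) (h : i + 1 < s.length) :
    run [cr i o, cr i o'] s = some s := by
  induction i generalizing s with
  | zero =>
    match s with
    | [] => simp at h
    | [a] => simp at h
    | a :: b :: s => simp [run, step]
  | succ i ih =>
    match s with
    | [] => simp at h
    | c :: s =>
      have h1 := run_shift_one [cr i o, cr i o'] c s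
      simp only [List.map_cons, List.map_nil, shift] at h1
      rw [h1, ih s (by simpa using h)]
      rfl

theorem run_zigR (i : ℕ) (a : Ω) (s : List Ω) (h : s[i]? = some a) :
    run [cup i a, cap (i + 1)] s = some s := by
  induction i generalizing s with
  | zero =>
    match s with
    | [] => simp at h
    | b :: s =>
      simp at h
      subst h
      simp [run, step, Dir.op_op]
  | succ i ih =>
    match s with
    | [] => simp at h
    | c :: s =>
      have h1 := run_shift_one [cup i a, cap (i + 1)] c s
      simp only [List.map_cons, List.map_nil, shift] at h1
      rw [h1, ih s (by simpa using h)]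
      rfl

theorem run_zigL (i : ℕ) (a : Ω) (s : List Ω) (h : s[i]? = some (Dir.op a)) :
    run [cup (i + 1) a, cap i] s = some s := by
  induction i generalizing s with
  | zero =>
    match s with
    | [] => simp at h
    | b :: s =>
      simp at h
      subst h
      simp [run, step, Dir.op_op]
  | succ i ih =>
    match s with
    | [] => simp at h
    | c :: s =>
      have h1 := run_shift_one [cup (i + 1) a, cap i] c s
      simp only [List.map_cons, List.map_nil, shift] at h1
      rw [h1, ih s (by simpa using h)]
      rfl

theorem run_circle (i : ℕ) (a : Ω) (s : List Ω) (h : i ≤ s.length) :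
    run [cup i a, cap i] s = some s := by
  induction i generalizing s with
  | zero => simp [run, step]
  | succ i ih =>
    match s with
    | [] => simp at h
    | c :: s =>
      have h1 := run_shift_one [cup i a, cap i] c s
      simp only [List.map_cons, List.map_nil, shift] at h1
      rw [h1, ih s (by simpa using h)]
      rfl

end Runs


end Pool.Agent.Helper26.WD
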