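import Pool.Agent.Helper26.WD.Blocks
import Pool.Agent.Helper26.WD.Lists

/-!
# Soundness of the evaluation algorithm
-/

namespace Pool.Agent.Helper26.WD

set_option linter.unusedSectionVars false

open Piece

namespace Skein

variable {Ω : Type} [DecidableEq Ω] [Dir Ω] {S : Type} [CommRing S]

/-- The arc from position `0` to position `i + 1` above the strands `t`, if the directions fit. -/
def blk (S : Type) [CommRing S] (a : Ω) (t : List Ω) (i : ℕ) : E Ω S →ₗ[S] E Ω S :=
  if t[i]? = some (Dir.op a) then W S a i else 0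

theorem blk_pos {a : Ω} {t : List Ω} {i : ℕ} (h : t[i]? = some (Dir.op a)) :
    blk S a t i = W S a i := if_pos h

theorem blk_neg {a : Ω} {t : List Ω} {i : ℕ} (h : t[i]? ≠ some (Dir.op a)) :
    blk S a t i = 0 := if_neg h

theorem blk_nil (a : Ω) (i : ℕ) : blk S a [] i = 0 := by
  rw [blk_neg]
  simp

theorem blk_congr {a : Ω} {t t' : List Ω} {i i' : ℕ} (h : t[i]? = t'[i']?)
    {φ φ' : E Ω S} (hφ : t[i]? = some (Dir.op a) → W S a i φ = W S a i' φ') :
    blk S a t i φ = blk S a t' i' φ' := by
  by_cases h1 : t[i]? = some (Dir.op a)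
  · rw [blk_pos h1, blk_pos (by rw [← h]; exact h1), hφ h1]
  · rw [blk_neg h1, blk_neg (by rw [← h]; exact h1)]
    rfl

variable (F : Skein Ω S)

/-- The span of the vectors of partial diagrams with list of directions `s`. -/
def At (s : List Ω) : Submodule S (E Ω S) := F.M (fun t => t = s)

theorem At_V {s : List Ω} {φ : E Ω S} (h : φ ∈ F.At s) : φ ∈ F.V := F.mem_V h

theorem At_Len {s : List Ω} {φ : E Ω S} (h : φ ∈ F.At s) {n : ℕ} (hn : n ≤ s.length) :
    φ ∈ F.Len n := F.M_mono (by rintro _ rfl; exact hn) h

theorem At_get {s : List Ω} {φ : E Ω S} (h : φ ∈ F.At s) {i : ℕ} {x : Ω} (hn : s[i]? = some x) :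
    φ ∈ F.M (fun t => t[i]? = some x) := F.M_mono (by rintro _ rfl; exact hn) h

theorem op_At {s s' : List Ω} (p : Piece Ω) (h : step p s = some s') {φ : E Ω S}
    (hφ : φ ∈ F.At s) : op S p φ ∈ F.At s' :=
  F.op_mem p (by
    rintro _ rfl t ht
    rw [h, Option.some.injEq] at ht
    exact ht.symm) hφ

theorem vec_nil_At : F.vec [] ∈ F.At [] := F.vec_mem rfl rfl

theorem W_At {a : Ω} {i : ℕ} {t : List Ω} (h : t[i]? = some (Dir.op a)) {φ : E Ω S}
    (hφ : φ ∈ F.At (ers i t)) : W S a i φ ∈ F.At (a :: t) := by
  induction i generalizing t with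
  | zero =>
    match t with
    | [] => simp at h
    | b :: t =>
      simp at h
      subst h
      exact F.op_At _ (by rw [step_cup_zero]; rfl) hφ
  | succ i ih =>
    have hl : i + 1 < t.length := by
      by_contra hc
      rw [List.getElem?_eq_none (by omega)] at h
      simp at h
    have h1 : (swp i t)[i]? = some (Dir.op a) := by rw [getElem?_swp_self hl]; exact h
    have h2 := ih h1 (by rw [ers_swp_self hl]; exact hφ)
    rw [W_succ]
    have h3 := step_cr_eq (p := i + 1) (s := a :: swp i t) true
      (by rw [List.length_cons, length_swp]; omega)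
    rw [swp_succ, swp_swp] at h3
    exact F.op_At _ h3 h2

theorem blk_At (a : Ω) (i : ℕ) (t : List Ω) {φ : E Ω S}
    (hφ : φ ∈ F.At (ers i t)) : blk S a t i φ ∈ F.At (a :: t) := by
  by_cases h : t[i]? = some (Dir.op a)
  · rw [blk_pos h]
    exact F.W_At h hφ
  · rw [blk_neg h]
    exact Submodule.zero_mem _

end Skein

open Skein

section Sem

variable {Ω : Type} [DecidableEq Ω] [Dir Ω] {S : Type} [CommRing S] {C β : Type}

/-- The vector of a list of children of index `i, i + 1, …`. -/
def semL (S : Type) [CommRing S] (g : List Ω → β → E Ω S) (a : Ω) (t : List Ω) :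
    ℕ → List β → E Ω S
  | _, [] => 0
  | i, x :: xs => blk S a t i (g (ers i t) x) + semL S g a t (i + 1) xs

theorem semL_nil (g : List Ω → β → E Ω S) (a : Ω) (t : List Ω) (i : ℕ) :
    semL S g a t i [] = 0 := rfl

theorem semL_cons (g : List Ω → β → E Ω S) (a : Ω) (t : List Ω) (i : ℕ) (x : β) (xs : List β) :
    semL S g a t i (x :: xs) = blk S a t i (g (ers i t) x) + semL S g a t (i + 1) xs := rfl

/-- An interpretation of the coefficients. -/
structure Interp (F : Skein Ω S) (A : Alg Ω C) where
  ι : C → S
  u : S
  one : ι A.one = 1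
  add : ∀ x y, ι (A.add x y) = ι x + ι y
  al : ∀ a b o x, ι (A.al a b o x) = F.al a b o * ι x
  be : ∀ a b o x, ι (A.be a b o x) = F.be a b o * ι x
  ga : ∀ a b o x, ι (A.ga a b o x) = F.ga a b o * ι x
  kap : ∀ o x, ι (A.kap o x) = F.kap o * ι x
  de : ∀ x, ι (A.de x) = u * F.de * ι x
  cp : ∀ x, ι (A.cp x) = u * ι x
  hasBe : ∀ a b o, A.hasBe a b = false → F.be a b o = 0
  hasGa : ∀ a b o, A.hasGa a b = false → F.ga a b o = 0
  hasGa' : ∀ a b, A.hasGa a b = true → b = Dir.op a
  op : ∀ a, A.op a = Dir.op a
  eqb : ∀ a b, A.eqb a b = true ↔ a = b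

variable {F : Skein Ω S} {A : Alg Ω C} (I : Interp F A)

/-- The vector of a tree. -/
def semV (I : Interp F A) : (k : ℕ) → List Ω → L C (k + 1) → E Ω S
  | 0, _, v => ((v : List C).map I.ι).sum • F.vec []
  | _ + 1, [], _ => 0
  | k + 1, a :: t, v => semL (β := L C (k + 1)) S (semV I k) a t 0 v

theorem semV_zero (s : List Ω) (v : L C 1) :
    semV I 0 s v = ((v : List C).map I.ι).sum • F.vec [] := rfl

theorem semV_succ_nil (k : ℕ) (v : L C (k + 2)) : semV I (k + 1) [] v = 0 := rfl

theorem semV_succ (k : ℕ) (a : Ω) (t : List Ω) (v : L C (k + 2)) :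
    semV I (k + 1) (a :: t) v = semL (β := L C (k + 1)) S (semV I k) a t 0 v := rfl

/-- The empty list represents zero. -/
theorem semV_nil (k : ℕ) (s : List Ω) : semV I k s ([] : List (L C k)) = 0 := by
  match k, s with
  | 0, s =>
    change (([] : List C).map I.ι).sum • F.vec [] = 0
    simp
  | k + 1, [] => rfl
  | k + 1, a :: t => rfl

theorem semL_At (g : List Ω → β → E Ω S) (a : Ω) (t : List Ω)
    (hg : ∀ i x, i < t.length → g (ers i t) x ∈ F.At (ers i t)) (i : ℕ) (l : List β) :
    semL S g a t i l ∈ F.At (a :: t) := by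
  induction l generalizing i with
  | nil => exact Submodule.zero_mem _
  | cons x l ih =>
    rw [semL_cons]
    refine Submodule.add_mem _ ?_ (ih _)
    by_cases h : i < t.length
    · exact F.blk_At a i t (hg i x h)
    · rw [blk_neg]
      · exact Submodule.zero_mem _
      · rw [List.getElem?_eq_none (by omega)]
        simp

theorem semV_At {k : ℕ} {s : List Ω} (hs : s.length = 2 * k) (v : L C (k + 1)) :
    semV I k s v ∈ F.At s := by
  induction k generalizing s with
  | zero =>
    obtain rfl : s = [] := List.length_eq_zero_iff.mp (by simpa using hs)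
    exact Submodule.smul_mem _ _ F.vec_nil_At
  | succ k ih =>
    match s with
    | [] => simp at hs
    | a :: t =>
      rw [semV_succ]
      refine semL_At _ a t (fun i x hi => ih ?_ x) _ _
      have := length_ers hi
      simp at hs
      omega

/-! ### Linearity -/

theorem semL_zipA {g : List Ω → β → E Ω S} {f : β → β → β}
    (h : ∀ s x y, g s (f x y) = g s x + g s y) (a : Ω) (t : List Ω) (i : ℕ) (v w : List β) :
    semL S g a t i (zipA f v w) = semL S g a t i v + semL S g a t i w := by
  induction v generalizing i w with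
  | nil => rw [zipA_nil, semL_nil, zero_add]
  | cons x v ih =>
    match w with
    | [] => rw [zipA_cons_nil, semL_nil, add_zero]
    | y :: w =>
      rw [zipA_cons_cons, semL_cons, semL_cons, semL_cons, h, map_add, ih]
      abel

theorem sum_zipA (v w : List C) :
    ((zipA A.add v w).map I.ι).sum = (v.map I.ι).sum + (w.map I.ι).sum := by
  induction v generalizing w with
  | nil => rw [zipA_nil]; simp
  | cons x v ih =>
    match w with
    | [] => rw [zipA_cons_nil]; simp
    | y :: w =>
      rw [zipA_cons_cons]
      simp only [List.map_cons, List.sum_cons]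
      rw [ih, I.add]
      abel

theorem sum_mapL {h : C → C} {r : S} (hr : ∀ c, I.ι (h c) = r * I.ι c) (v : List C) :
    ((mapL h v).map I.ι).sum = r * (v.map I.ι).sum := by
  induction v with
  | nil => simp [mapL_nil]
  | cons x v ih =>
    rw [mapL_cons]
    simp only [List.map_cons, List.sum_cons]
    rw [ih, hr]
    ring

theorem semV_addT (k : ℕ) (s : List Ω) (v w : L C (k + 1)) :
    semV I k s (addT A (k + 1) v w) = semV I k s v + semV I k s w := by
  induction k generalizing s with
  | zero =>
    rw [semV_zero, semV_zero, semV_zero, ← add_smul]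
    congr 1
    exact sum_zipA I v w
  | succ k ih =>
    match s with
    | [] => rw [semV_succ_nil, semV_succ_nil, semV_succ_nil, add_zero]
    | a :: t =>
      rw [semV_succ, semV_succ, semV_succ, addT_succ]
      exact semL_zipA (fun s x y => ih s x y) a t 0 v w

theorem semL_mapL {g : List Ω → β → E Ω S} {h : β → β} {r : S}
    (hr : ∀ s x, g s (h x) = r • g s x) (a : Ω) (t : List Ω) (i : ℕ) (v : List β) :
    semL S g a t i (mapL h v) = r • semL S g a t i v := by
  induction v generalizing i with
  | nil => rw [mapL_nil, semL_nil, smul_zero]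
  | cons x v ih =>
    rw [mapL_cons, semL_cons, semL_cons, hr, map_smul, ih, smul_add]

theorem semV_mapT {h : C → C} {r : S} (hr : ∀ c, I.ι (h c) = r * I.ι c) (k : ℕ) (s : List Ω)
    (v : L C (k + 1)) : semV I k s (mapT h (k + 1) v) = r • semV I k s v := by
  induction k generalizing s with
  | zero =>
    rw [semV_zero, semV_zero, smul_smul]
    congr 1
    exact sum_mapL I hr v
  | succ k ih =>
    match s with
    | [] => rw [semV_succ_nil, semV_succ_nil, smul_zero]
    | a :: t =>
      rw [semV_succ, semV_succ, mapT_succ]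
      exact semL_mapL (fun s x => ih s x) a t 0 v

theorem semL_single {g : List Ω → β → E Ω S} {z : β} (hz : ∀ s, g s z = 0) (a : Ω) (t : List Ω)
    (i m : ℕ) (x : β) :
    semL S g a t i (single z x m) = blk S a t (i + m) (g (ers (i + m) t) x) := by
  induction m generalizing i with
  | zero => rw [single_zero, semL_cons, semL_nil, add_zero, Nat.add_zero]
  | succ m ih =>
    rw [single_succ, semL_cons, hz, map_zero, zero_add, ih]
    congr 2 <;> first | omega | (congr 1; omega)

theorem isNil_or (l : List β) : (l = [] ∧ isNil l = true) ∨ (l ≠ [] ∧ isNil l = false) := by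
  cases l with
  | nil => exact Or.inl ⟨rfl, rfl⟩
  | cons x l => exact Or.inr ⟨by simp, rfl⟩

/-! ### Local minima -/

theorem cup_semL_right {γ : Type} (b : Ω) {k : ℕ} {g : List Ω → β → E Ω S}
    {g' : List Ω → List γ → E Ω S} {h : β → List γ} (p : ℕ) (a : Ω) (t : List Ω)
    (hg : ∀ i x, i < t.length → g (ers i t) x ∈ F.At (ers i t))
    (hk : t.length = k + 1)
    (H : ∀ s x, s.length = k → p ≤ s.length →
      op S (cup p b) (g s x) = g' (insS b (Dir.op b) p s) (h x))
    (i : ℕ) (hi : p ≤ i) (l : List β) :
    op S (cup (p + 1) b) (semL S g a t i l) =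
      semL S g' a (insS b (Dir.op b) p t) (i + 2) (mapL h l) := by
  induction l generalizing i with
  | nil => rw [semL_nil, mapL_nil, semL_nil, map_zero]
  | cons x l ih =>
    rw [semL_cons, mapL_cons, semL_cons, map_add, ih (i + 1) (by omega)]
    congr 1
    by_cases h1 : t[i]? = some (Dir.op a)
    · have hl : i < t.length := by
        by_contra hc
        rw [List.getElem?_eq_none (by omega)] at h1
        simp at h1
      have hle := length_ers hl
      rw [blk_pos h1, blk_pos (by rw [getElem?_insS_right _ _ hi]; exact h1),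
        F.cup_W_left hi a b (F.At_Len (hg i x hl) (by omega)), H _ _ (by omega) (by omega),
        ers_insS_right _ _ hi]
    · rw [blk_neg h1, blk_neg (by rw [getElem?_insS_right _ _ hi]; exact h1)]
      simp

theorem cup_semL {γ : Type} (b : Ω) {k : ℕ} {g : List Ω → β → E Ω S}
    {g' : List Ω → List γ → E Ω S} {f h : β → List γ} (p : ℕ) (a : Ω) (t : List Ω)
    (hg : ∀ i x, i < t.length → g (ers i t) x ∈ F.At (ers i t))
    (hk : t.length = k + 1) (hp : p ≤ t.length)
    (hz : ∀ s, g' s [] = 0)
    (Hf : ∀ s x, s.length = k → p - 1 ≤ s.length →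
      op S (cup (p - 1) b) (g s x) = g' (insS b (Dir.op b) (p - 1) s) (f x))
    (H : ∀ s x, s.length = k → p ≤ s.length →
      op S (cup p b) (g s x) = g' (insS b (Dir.op b) p s) (h x))
    (i n : ℕ) (hi : i + n = p) (l : List β) :
    op S (cup (p + 1) b) (semL S g a t i l) =
      semL S g' a (insS b (Dir.op b) p t) i (cupL f h n l) := by
  induction n generalizing i l with
  | zero =>
    obtain rfl : i = p := by omega
    match l with
    | [] => rw [cupL_nil, semL_nil, semL_nil, map_zero]
    | x :: l =>
      have e : semL S g' a (insS b (Dir.op b) i t) i ([] :: [] :: mapL h (x :: l)) =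
          semL S g' a (insS b (Dir.op b) i t) (i + 2) (mapL h (x :: l)) := by
        rw [semL_cons, semL_cons, hz, hz, map_zero, map_zero, zero_add, zero_add]
      rw [cupL_zero, e]
      exact cup_semL_right b i a t hg hk H i (le_refl i) (x :: l)
  | succ n ih =>
    match l with
    | [] => rw [cupL_nil, semL_nil, semL_nil, map_zero]
    | x :: l =>
      rw [semL_cons, cupL_succ, semL_cons, map_add, ih (i + 1) (by omega)]
      congr 1
      obtain ⟨q, rfl⟩ : ∃ q, p = q + 1 := ⟨p - 1, by omega⟩
      rw [Nat.add_sub_cancel] at Hf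
      by_cases h1 : t[i]? = some (Dir.op a)
      · have hl : i < t.length := by
          by_contra hc
          rw [List.getElem?_eq_none (by omega)] at h1
          simp at h1
        have hle := length_ers hl
        rw [blk_pos h1, blk_pos (by rw [getElem?_insS_left _ _ (by omega)]; exact h1),
          F.cup_W_right (by omega) a b (F.At_V (hg i x hl)), Hf _ _ (by omega) (by omega),
          ers_insS_left _ _ (by omega) hp]
      · rw [blk_neg h1, blk_neg (by rw [getElem?_insS_left _ _ (by omega)]; exact h1)]
        simp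

theorem cup_sound (b : Ω) (k p : ℕ) (s : List Ω) (hs : s.length = 2 * k) (hp : p ≤ s.length)
    (v : L C (k + 1)) :
    op S (cup p b) (semV I k s v) = semV I (k + 1) (insS b (Dir.op b) p s) (cupT C k p v) := by
  have h0 : ∀ (k : ℕ) (s : List Ω) (v : L C (k + 1)), op S (cup 0 b) (semV I k s v) =
      semV I (k + 1) (b :: Dir.op b :: s) ([v] : List (L C (k + 1))) := by
    intro k s v
    rw [semV_succ, semL_cons, semL_nil, add_zero, blk_pos rfl]
    rfl
  induction k generalizing p s with
  | zero =>
    obtain rfl : s = [] := List.length_eq_zero_iff.mp (by simpa using hs)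
    obtain rfl : p = 0 := by simpa using hp
    rw [cupT_zero]
    exact h0 0 [] v
  | succ k ih =>
    match p with
    | 0 =>
      rw [cupT_succ_zero]
      exact h0 (k + 1) s v
    | p + 1 =>
      match s with
      | [] => simp at hs
      | a :: t =>
        simp only [List.length_cons] at hs hp
        rw [semV_succ, cupT_succ_succ, insS_succ, semV_succ]
        refine cup_semL (β := L C (k + 1)) (γ := L C (k + 1)) (k := 2 * k) b p a t
          (fun i x hi => semV_At I ?_ x) (by omega) (by omega) (fun s => semV_nil I _ s)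
          (fun s x h1 h2 => ih _ _ h1 h2 x) (fun s x h1 h2 => ih _ _ h1 h2 x) 0 p (by omega) v
        have := length_ers hi
        omega

end Sem

end Pool.Agent.Helper26.WD
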