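import Pool.Agent.Helper26.WD.Sound

/-!
# Soundness of the evaluation algorithm: crossings
-/

namespace Pool.Agent.Helper26.WD

set_option linter.unusedSectionVars false

open Piece Skein

variable {Ω : Type} [DecidableEq Ω] [Dir Ω] {S : Type} [CommRing S] {C β γ : Type}

theorem op_inj {a b : Ω} (h : Dir.op a = Dir.op b) : a = b := by
  rw [← Dir.op_op a, h, Dir.op_op]

theorem lt_of_get {t : List Ω} {i : ℕ} {x : Ω} (h : t[i]? = some x) : i < t.length := by
  by_contra hc
  rw [List.getElem?_eq_none (by omega)] at h
  simp at h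

theorem ers_eq_of_get {p : ℕ} {t : List Ω} {x : Ω} (h : t[p]? = some x)
    (h' : t[p + 1]? = some x) : ers p t = ers (p + 1) t := by
  induction p generalizing t with
  | zero =>
    match t with
    | [] => simp at h
    | [a] => simp at h'
    | a :: b :: u =>
      simp at h h'
      subst h h'
      rfl
  | succ p ih =>
    match t with
    | [] => rfl
    | a :: t => rw [ers_succ, ih (by simpa using h) (by simpa using h'), ers_succ]

variable {F : Skein Ω S} {A : Alg Ω C} (I : Interp F A)

/-- Soundness for crossings at level `k`. -/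
def CrOK (k : ℕ) : Prop :=
  ∀ (p : ℕ) (o : Bool) (s : List Ω) (v : L C (k + 1)), s.length = 2 * k → p + 1 < s.length →
    op S (cr p o) (semV I k s v) = semV I k (swp p s) (crT A k p o s v)

theorem dragL_sound {k : ℕ} (hk : CrOK I k) (n : ℕ) (s : List Ω) (v : L C (k + 1))
    (hs : s.length = 2 * k) (hn : n < s.length) :
    dragL Ω S n (semV I k s v) = semV I k (dragLB n s) (dragLT (crT A k) n s v) := by
  induction n generalizing s v with
  | zero => rfl
  | succ n ih =>
    rw [dragL_succ, hk n false s v hs hn, dragLT_succ, dragLB,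
      ih _ _ (by rw [length_swp]; exact hs) (by rw [length_swp]; omega)]

theorem drag_succ' (p n : ℕ) (φ : E Ω S) :
    drag Ω S p (n + 1) φ = drag Ω S (p + 1) n (op S (cr p true) φ) := by
  induction n with
  | zero => rfl
  | succ n ih =>
    rw [drag_succ, ih, drag_succ, show p + 1 + n = p + (n + 1) by omega]

theorem dragR_sound {k : ℕ} (hk : CrOK I k) (n p : ℕ) (s : List Ω) (v : L C (k + 1))
    (hs : s.length = 2 * k) (hn : p + n < s.length) :
    drag Ω S p n (semV I k s v) = semV I k (dragRB n p s) (dragRT (crT A k) n p s v) := by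
  induction n generalizing p s v with
  | zero => rfl
  | succ n ih =>
    rw [drag_succ', hk p true s v hs (by omega), dragRT_succ, dragRB,
      ih _ _ _ (by rw [length_swp]; exact hs) (by rw [length_swp]; omega)]

/-! ### Crossings at positions `p + 1` -/

theorem cr_semL_right (o : Bool) {g : List Ω → β → E Ω S} (p : ℕ) (a : Ω) (t : List Ω)
    (hg : ∀ i x, i < t.length → g (ers i t) x ∈ F.At (ers i t))
    (h : ℕ → β → β)
    (H : ∀ i x, p + 1 < i → i < t.length →
      op S (cr p o) (g (ers i t) x) = g (swp p (ers i t)) (h i x))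
    (i : ℕ) (hi : p + 2 ≤ i) (l : List β) :
    op S (cr (p + 1) o) (semL S g a t i l) = semL S g a (swp p t) i (mapI h l i) := by
  induction l generalizing i with
  | nil => rw [semL_nil, mapI_nil, semL_nil, map_zero]
  | cons x l ih =>
    rw [semL_cons, mapI_cons, semL_cons, map_add, ih (i + 1) (by omega)]
    congr 1
    by_cases h1 : t[i]? = some (Dir.op a)
    · have hl := lt_of_get h1
      rw [blk_pos h1, blk_pos (by rw [getElem?_swp_right (by omega)]; exact h1),
        F.cr_W_left (by omega) a o (F.At_V (hg i x hl)), H _ _ (by omega) hl,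
        ers_swp_right (by omega)]
    · rw [blk_neg h1, blk_neg (by rw [getElem?_swp_right (by omega)]; exact h1)]
      simp

theorem cr_semL (o : Bool) {g : List Ω → List γ → E Ω S} (p : ℕ) (a : Ω) (t : List Ω)
    (hg : ∀ i x, i < t.length → g (ers i t) x ∈ F.At (ers i t))
    (hz : ∀ s, g s [] = 0)
    (fl fr : ℕ → List γ → List γ) (pr₁ pr₂ : List γ → List γ → List γ)
    (Hl : ∀ i x, i < p → i < t.length →
      op S (cr (p - 1) o) (g (ers i t) x) = g (swp (p - 1) (ers i t)) (fl i x))
    (Hr : ∀ i x, p + 1 < i → i < t.length →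
      op S (cr p o) (g (ers i t) x) = g (swp p (ers i t)) (fr i x))
    (EX : List γ → List γ → E Ω S) (hEX : EX [] [] = 0)
    (Hp : ∀ x y, op S (cr (p + 1) o) (blk S a t p (g (ers p t) x) +
      blk S a t (p + 1) (g (ers (p + 1) t) y)) =
      blk S a (swp p t) p (g (ers p (swp p t)) (pr₁ x y)) +
      blk S a (swp p t) (p + 1) (g (ers (p + 1) (swp p t)) (pr₂ x y)) + EX x y)
    (i n : ℕ) (hi : i + n = p) (l : List (List γ)) :
    op S (cr (p + 1) o) (semL S g a t i l) =
      semL S g a (swp p t) i (crL fl fr pr₁ pr₂ n i l) + EX (nth n l) (nth (n + 1) l) := by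
  induction n generalizing i l with
  | zero =>
    obtain rfl : i = p := by omega
    match l with
    | [] => rw [crL_nil, semL_nil, semL_nil, map_zero, nth_nil, nth_nil, hEX, add_zero]
    | [x] =>
      have h := Hp x []
      rw [hz, map_zero, add_zero] at h
      rw [crL_zero_one, semL_cons, semL_nil, add_zero, h, semL_cons, semL_cons, semL_nil, add_zero]
      rfl
    | x :: y :: u =>
      rw [crL_zero, semL_cons, semL_cons, semL_cons, semL_cons, ← add_assoc, map_add, Hp x y,
        cr_semL_right o i a t hg fr Hr (i + 2) (le_refl _) u, nth_zero]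
      have : nth (0 + 1) (x :: y :: u) = y := rfl
      rw [this]
      abel
  | succ n ih =>
    match l with
    | [] => rw [crL_nil, semL_nil, semL_nil, map_zero, nth_nil, nth_nil, hEX, add_zero]
    | x :: l =>
      rw [semL_cons, crL_succ, semL_cons, map_add, ih (i + 1) (by omega), nth_succ, nth_succ,
        ← add_assoc]
      congr 2
      obtain ⟨q, rfl⟩ : ∃ q, p = q + 1 := ⟨p - 1, by omega⟩
      rw [Nat.add_sub_cancel] at Hl
      by_cases h1 : t[i]? = some (Dir.op a)
      · have hl := lt_of_get h1
        rw [blk_pos h1, blk_pos (by rw [getElem?_swp_left (by omega)]; exact h1),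
          F.cr_W_right (by omega) a o (F.At_V (hg i x hl)), Hl _ _ (by omega) hl,
          ers_swp_left (by omega)]
      · rw [blk_neg h1, blk_neg (by rw [getElem?_swp_left (by omega)]; exact h1)]
        simp

/-- The two arcs at the crossing. -/
theorem cr_pair_true {p : ℕ} {a : Ω} {t : List Ω} {X Y : Ω} (hX : t[p]? = some X)
    (hY : t[p + 1]? = some Y) {φx φy φy' : E Ω S} (_hx : φx ∈ F.At (ers p t))
    (hy : φy ∈ F.At (ers (p + 1) t)) (hyy : X = Y → φy' = φy) :
    op S (cr (p + 1) true) (blk S a t p φx + blk S a t (p + 1) φy) =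
      blk S a (swp p t) p (F.al X Y true • φy) +
      blk S a (swp p t) (p + 1) (φx + F.be X Y true • φy') +
      F.ga X Y true • op S (cup (p + 1) Y) (op S (cap (p + 1)) (blk S a t (p + 1) φy)) := by
  have hl := lt_of_get hY
  have e1 := getElem?_swp_self (p := p) (t := t) hl
  have e2 := getElem?_swp_succ (p := p) (t := t) hl
  have h1 : op S (cr (p + 1) true) (blk S a t p φx) = blk S a (swp p t) (p + 1) φx := by
    by_cases h : t[p]? = some (Dir.op a)
    · rw [blk_pos h, blk_pos (by rw [e2]; exact h), W_succ]
    · rw [blk_neg h, blk_neg (by rw [e2]; exact h)]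
      simp
  have h2 : op S (cr (p + 1) true) (blk S a t (p + 1) φy) =
      F.al X Y true • blk S a (swp p t) p φy + (F.be X Y true • blk S a (swp p t) (p + 1) φy +
      F.ga X Y true • op S (cup (p + 1) Y) (op S (cap (p + 1)) (blk S a t (p + 1) φy))) := by
    by_cases h : t[p + 1]? = some (Dir.op a)
    · have hm : blk S a t (p + 1) φy ∈ F.At (a :: t) := F.blk_At a (p + 1) t hy
      have hs := F.skein_rel (p + 1) true X Y (F.M_mono (Q' := fun s => s[p + 1]? = some X ∧
        s[p + 1 + 1]? = some Y) (by
          rintro _ rfl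
          exact ⟨by rw [List.getElem?_cons_succ]; exact hX,
            by rw [List.getElem?_cons_succ]; exact hY⟩) hm)
      rw [hs]
      congr 1
      · congr 1
        rw [blk_pos h, blk_pos (by rw [e1]; exact h), Bool.not_true]
        refine F.cr_W_succ_false p a (F.At_Len hy ?_)
        have := length_ers hl
        omega
      · congr 1
        by_cases hXY : X = Y
        · rw [blk_pos h, blk_pos]
          rw [e2, hX, hXY, ← hY]
          exact h
        · rw [F.be_zero _ _ _ hXY, zero_smul, zero_smul]
    · have h0 : blk S a (swp p t) p φy = 0 := by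
        rw [blk_neg (by rw [e1]; exact h)]
        rfl
      have h0' : F.be X Y true • blk S a (swp p t) (p + 1) φy = 0 := by
        by_cases hXY : X = Y
        · rw [blk_neg]
          · simp
          · rw [e2, hX, hXY, ← hY]
            exact h
        · rw [F.be_zero _ _ _ hXY, zero_smul]
      rw [blk_neg h, h0, h0']
      simp
  have h3 : F.be X Y true • blk S a (swp p t) (p + 1) φy' =
      F.be X Y true • blk S a (swp p t) (p + 1) φy := by
    by_cases hXY : X = Y
    · rw [hyy hXY]
    · rw [F.be_zero _ _ _ hXY, zero_smul, zero_smul]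
  rw [map_add, h1, h2, map_add, map_smul, map_smul, h3]
  abel

theorem cr_pair_false {p : ℕ} {a : Ω} {t : List Ω} {X Y : Ω} (hX : t[p]? = some X)
    (hY : t[p + 1]? = some Y) {φx φy φx' : E Ω S} (hx : φx ∈ F.At (ers p t))
    (hy : φy ∈ F.At (ers (p + 1) t)) (hxx : X = Y → φx' = φx) :
    op S (cr (p + 1) false) (blk S a t p φx + blk S a t (p + 1) φy) =
      blk S a (swp p t) p (φy + F.be X Y false • φx') +
      blk S a (swp p t) (p + 1) (F.al X Y false • φx) +
      F.ga X Y false • op S (cup (p + 1) Y) (op S (cap (p + 1)) (blk S a t p φx)) := by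
  have hl := lt_of_get hY
  have e1 := getElem?_swp_self (p := p) (t := t) hl
  have e2 := getElem?_swp_succ (p := p) (t := t) hl
  have h1 : op S (cr (p + 1) false) (blk S a t (p + 1) φy) = blk S a (swp p t) p φy := by
    by_cases h : t[p + 1]? = some (Dir.op a)
    · rw [blk_pos h, blk_pos (by rw [e1]; exact h)]
      refine F.cr_W_succ_false p a (F.At_Len hy ?_)
      have := length_ers hl
      omega
    · rw [blk_neg h, blk_neg (by rw [e1]; exact h)]
      simp
  have h2 : op S (cr (p + 1) false) (blk S a t p φx) =
      F.al X Y false • blk S a (swp p t) (p + 1) φx + (F.be X Y false • blk S a (swp p t) p φx +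
      F.ga X Y false • op S (cup (p + 1) Y) (op S (cap (p + 1)) (blk S a t p φx))) := by
    by_cases h : t[p]? = some (Dir.op a)
    · have hm : blk S a t p φx ∈ F.At (a :: t) := F.blk_At a p t hx
      have hs := F.skein_rel (p + 1) false X Y (F.M_mono (Q' := fun s => s[p + 1]? = some X ∧
        s[p + 1 + 1]? = some Y) (by
          rintro _ rfl
          exact ⟨by rw [List.getElem?_cons_succ]; exact hX,
            by rw [List.getElem?_cons_succ]; exact hY⟩) hm)
      rw [hs]
      congr 1
      · congr 1
        rw [blk_pos h, blk_pos (by rw [e2]; exact h), Bool.not_false, W_succ]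
      · congr 1
        by_cases hXY : X = Y
        · rw [blk_pos h, blk_pos]
          rw [e1, hY, ← hXY, ← hX]
          exact h
        · rw [F.be_zero _ _ _ hXY, zero_smul, zero_smul]
    · have h0 : blk S a (swp p t) (p + 1) φx = 0 := by
        rw [blk_neg (by rw [e2]; exact h)]
        rfl
      have h0' : F.be X Y false • blk S a (swp p t) p φx = 0 := by
        by_cases hXY : X = Y
        · rw [blk_neg]
          · simp
          · rw [e1, hY, ← hXY, ← hX]
            exact h
        · rw [F.be_zero _ _ _ hXY, zero_smul]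
      rw [blk_neg h, h0, h0']
      simp
  have h3 : F.be X Y false • blk S a (swp p t) p φx' =
      F.be X Y false • blk S a (swp p t) p φx := by
    by_cases hXY : X = Y
    · rw [hxx hXY]
    · rw [F.be_zero _ _ _ hXY, zero_smul, zero_smul]
  rw [map_add, h1, h2, map_add, map_smul, map_smul, h3]
  abel

/-- The term with the horizontal smoothing. -/
theorem cup_cap_true {k p : ℕ} (hk : CrOK I k) {a : Ω} {t : List Ω} {X Y : Ω}
    (hX : t[p]? = some X) (hY : t[p + 1]? = some Y) (ht : t.length = 2 * k + 1)
    (hYX : Y = Dir.op X) (h : t[p + 1]? = some (Dir.op a)) (w : L C (k + 1)) :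
    op S (cup (p + 1) Y) (op S (cap (p + 1)) (blk S a t (p + 1) (semV I k (ers (p + 1) t) w))) =
      F.kap true • semV I (k + 1) (a :: swp p t)
        (cupT C k (p + 1) (dragLT (crT A k) p (ers (p + 1) t) w)) := by
  have hl := lt_of_get hY
  have hle := length_ers hl
  have hXa : X = a := by
    rw [hY, Option.some.injEq, hYX] at h
    exact op_inj h
  subst hXa
  have hm : semV I k (ers (p + 1) t) w ∈ F.At (ers (p + 1) t) := semV_At I (by omega) w
  have hg : (ers (p + 1) t)[p]? = some X := by rw [getElem?_ers_left (by omega)]; exact hX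
  rw [blk_pos h, F.cap_W_right_end' p X (F.At_get hm hg),
    dragL_sound I hk p _ w (by omega) (by omega), dragLB_eq hg, ers_ers_succ hl, map_smul]
  have hd := length_delS hl
  rw [cup_sound I Y k (p + 1) (X :: delS p t) (by rw [List.length_cons]; omega)
    (by rw [List.length_cons]; omega), insS_succ]
  have e : insS Y (Dir.op Y) p (delS p t) = swp p t := by
    rw [hYX, Dir.op_op, ← hYX]
    exact insS_delS hX hY
  rw [e]

theorem cup_cap_false {k p : ℕ} (hk : CrOK I k) {a : Ω} {t : List Ω} {X Y : Ω}
    (hX : t[p]? = some X) (hY : t[p + 1]? = some Y) (ht : t.length = 2 * k + 1)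
    (hYX : Y = Dir.op X) (h : t[p]? = some (Dir.op a)) (w : L C (k + 1)) :
    op S (cup (p + 1) Y) (op S (cap (p + 1)) (blk S a t p (semV I k (ers p t) w))) =
      semV I (k + 1) (a :: swp p t)
        (cupT C k (p + 1) (dragLT (crT A k) p (ers p t) w)) := by
  have hl := lt_of_get hY
  have hle := length_ers (t := t) (i := p) (by omega)
  have hYa : Y = a := by
    rw [hX, Option.some.injEq] at h
    rw [hYX, h, Dir.op_op]
  subst hYa
  have hm : semV I k (ers p t) w ∈ F.At (ers p t) := semV_At I (by omega) w
  have hg : (ers p t)[p]? = some Y := by rw [getElem?_ers_right (le_refl p)]; exact hY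
  rw [blk_pos h, F.cap_W_right_end p Y (F.At_get hm hg),
    dragL_sound I hk p _ w (by omega) (by omega), dragLB_eq hg, ers_ers_self hl]
  have hd := length_delS hl
  rw [cup_sound I Y k (p + 1) (Y :: delS p t) (by rw [List.length_cons]; omega)
    (by rw [List.length_cons]; omega), insS_succ]
  have e : insS Y (Dir.op Y) p (delS p t) = swp p t := by
    have : Dir.op Y = X := by rw [hYX, Dir.op_op]
    rw [this]
    exact insS_delS hX hY
  rw [e]

theorem semV_ifb_be {k : ℕ} (s : List Ω) (X Y : Ω) (o : Bool) (x y : L C (k + 1)) :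
    semV I k s (ifb (A.hasBe X Y) (addT A (Nat.succ k) x (mapT (A.be X Y o) (Nat.succ k) y)) x) =
      semV I k s x + F.be X Y o • semV I k s y := by
  cases h : A.hasBe X Y with
  | true =>
    rw [ifb_true]
    change semV I k s (addT A (k + 1) x (mapT (A.be X Y o) (k + 1) y)) = _
    rw [semV_addT, semV_mapT I (fun c => I.be X Y o c)]
  | false => rw [ifb_false, I.hasBe X Y o h, zero_smul, add_zero]

/-- The second part of `crP`. -/
def crPE (A : Alg Ω C) (k : ℕ)
    (f : ℕ → Bool → List Ω → L C (k + 1) → L C (k + 1)) (p : ℕ) (o : Bool)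
    (a : Ω) (t : List Ω) (x y : Ω) (v : L C (k + 2)) (main : L C (k + 2)) : L C (k + 2) :=
  ifb (A.hasGa x y)
      (ifb o
        (ifb (isAt A.eqb (A.op a) (Nat.succ p) t)
          ((fun w : List (L C k) => ifb (isNil w) main
            (addT A (Nat.succ (Nat.succ k)) main
              (mapT (fun c => A.ga x y o (A.kap true c)) (Nat.succ (Nat.succ k))
                (cupT C k (Nat.succ p) (dragLT f p (ers (Nat.succ p) t) w)))))
            (nth (β := L C k) (Nat.succ p) v)) main)
        (ifb (isAt A.eqb (A.op a) p t)
          ((fun w : List (L C k) => ifb (isNil w) main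
            (addT A (Nat.succ (Nat.succ k)) main
              (mapT (A.ga x y o) (Nat.succ (Nat.succ k))
                (cupT C k (Nat.succ p) (dragLT f p (ers p t) w)))))
            (nth (β := L C k) p v)) main)) main

theorem crP_eq (A : Alg Ω C) (k : ℕ)
    (f : ℕ → Bool → List Ω → L C (k + 1) → L C (k + 1)) (p : ℕ) (o : Bool)
    (a : Ω) (t : List Ω) (x y : Ω) (v : L C (k + 2)) :
    crP A k f p o a t x y v = crPE A k f p o a t x y v (crL (β := L C k)
          (fun i w => f (Nat.pred p) o (ers i t) w)
          (fun i w => f p o (ers i t) w)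
          (ifb o (fun _ w => mapT (A.al x y o) (Nat.succ k) w)
            (fun u w => ifb (A.hasBe x y)
              (addT A (Nat.succ k) w (mapT (A.be x y o) (Nat.succ k) u)) w))
          (ifb o (fun u w => ifb (A.hasBe x y)
              (addT A (Nat.succ k) u (mapT (A.be x y o) (Nat.succ k) w)) u)
            (fun u _ => mapT (A.al x y o) (Nat.succ k) u)) p 0 v) := rfl

theorem crPE_true {k : ℕ} (hk : CrOK I k) (p : ℕ) (a : Ω) (t : List Ω) (X Y : Ω)
    (hX : t[p]? = some X) (hY : t[p + 1]? = some Y) (ht : t.length = 2 * k + 1)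
    (v main : L C (k + 2)) :
    semV I (k + 1) (a :: swp p t) (crPE A k (crT A k) p true a t X Y v main) =
      semV I (k + 1) (a :: swp p t) main +
      F.ga X Y true • op S (cup (p + 1) Y) (op S (cap (p + 1))
        (blk S a t (p + 1) (semV I k (ers (p + 1) t) (nth (β := L C k) (p + 1) v)))) := by
  simp only [crPE, ifb_true]
  cases hga : A.hasGa X Y with
  | false => rw [ifb_false, I.hasGa X Y true hga, zero_smul, add_zero]
  | true =>
    rw [ifb_true]
    cases his : isAt A.eqb (A.op a) (Nat.succ p) t with
    | false =>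
      rw [ifb_false, blk_neg, LinearMap.zero_apply, map_zero, map_zero, smul_zero, add_zero]
      intro h
      rw [← I.op, ← isAt_iff I.eqb] at h
      change isAt A.eqb (A.op a) (Nat.succ p) t = true at h
      rw [h] at his
      simp at his
    | true =>
      rw [ifb_true]
      have h' : t[p + 1]? = some (Dir.op a) := by
        rw [← I.op, ← isAt_iff I.eqb]
        exact his
      rcases isNil_or (nth (β := L C k) (Nat.succ p) v) with ⟨h1, h2⟩ | ⟨h1, h2⟩
      · rw [h2, ifb_true]
        change _ = _ + F.ga X Y true • op S (cup (p + 1) Y) (op S (cap (p + 1))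
          (blk S a t (p + 1) (semV I k (ers (p + 1) t) (nth (β := L C k) (Nat.succ p) v))))
        rw [h1, semV_nil]
        simp
      · rw [h2, ifb_false]
        change semV I (k + 1) (a :: swp p t) (addT A (k + 2) _ (mapT _ (k + 2) _)) = _
        rw [semV_addT, semV_mapT I (r := F.ga X Y true * F.kap true)
          (fun c => by rw [I.ga, I.kap, mul_assoc])]
        congr 1
        rw [cup_cap_true I hk hX hY ht (I.hasGa' X Y hga) h', smul_smul]

theorem crPE_false {k : ℕ} (hk : CrOK I k) (p : ℕ) (a : Ω) (t : List Ω) (X Y : Ω)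
    (hX : t[p]? = some X) (hY : t[p + 1]? = some Y) (ht : t.length = 2 * k + 1)
    (v main : L C (k + 2)) :
    semV I (k + 1) (a :: swp p t) (crPE A k (crT A k) p false a t X Y v main) =
      semV I (k + 1) (a :: swp p t) main +
      F.ga X Y false • op S (cup (p + 1) Y) (op S (cap (p + 1))
        (blk S a t p (semV I k (ers p t) (nth (β := L C k) p v)))) := by
  simp only [crPE, ifb_false]
  cases hga : A.hasGa X Y with
  | false => rw [ifb_false, I.hasGa X Y false hga, zero_smul, add_zero]
  | true =>
    rw [ifb_true]
    cases his : isAt A.eqb (A.op a) p t with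
    | false =>
      rw [ifb_false, blk_neg, LinearMap.zero_apply, map_zero, map_zero, smul_zero, add_zero]
      intro h
      rw [← I.op, ← isAt_iff I.eqb] at h
      rw [h] at his
      simp at his
    | true =>
      rw [ifb_true]
      have h' : t[p]? = some (Dir.op a) := by
        rw [← I.op, ← isAt_iff I.eqb]
        exact his
      rcases isNil_or (nth (β := L C k) p v) with ⟨h1, h2⟩ | ⟨h1, h2⟩
      · rw [h2, ifb_true]
        change _ = _ + F.ga X Y false • op S (cup (p + 1) Y) (op S (cap (p + 1))
          (blk S a t p (semV I k (ers p t) (nth (β := L C k) p v))))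
        rw [h1, semV_nil]
        simp
      · rw [h2, ifb_false]
        change semV I (k + 1) (a :: swp p t) (addT A (k + 2) _ (mapT _ (k + 2) _)) = _
        rw [semV_addT, semV_mapT I (fun c => I.ga X Y false c)]
        congr 1
        rw [cup_cap_false I hk hX hY ht (I.hasGa' X Y hga) h']

theorem crP_sound {k : ℕ} (hk : CrOK I k) (p : ℕ) (o : Bool) (a : Ω) (t : List Ω) (X Y : Ω)
    (hX : t[p]? = some X) (hY : t[p + 1]? = some Y) (ht : t.length = 2 * k + 1)
    (v : L C (k + 2)) :
    op S (cr (p + 1) o) (semV I (k + 1) (a :: t) v) =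
      semV I (k + 1) (a :: swp p t) (crP A k (crT A k) p o a t X Y v) := by
  have hl := lt_of_get hY
  have hat : ∀ i (x : L C (k + 1)), i < t.length → semV I k (ers i t) x ∈ F.At (ers i t) := by
    intro i x hi
    have := length_ers hi
    exact semV_At I (by omega) x
  have Hl : ∀ i (x : L C (k + 1)), i < p → i < t.length →
      op S (cr (p - 1) o) (semV I k (ers i t) x) =
        semV I k (swp (p - 1) (ers i t)) (crT A k (Nat.pred p) o (ers i t) x) := by
    intro i x hi hi'
    have := length_ers hi'
    exact hk (p - 1) o _ x (by omega) (by omega)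
  have Hr : ∀ i (x : L C (k + 1)), p + 1 < i → i < t.length →
      op S (cr p o) (semV I k (ers i t) x) =
        semV I k (swp p (ers i t)) (crT A k p o (ers i t) x) := by
    intro i x hi hi'
    have := length_ers hi'
    exact hk p o _ x (by omega) (by omega)
  have e1 := ers_swp_self (p := p) (t := t) hl
  have e2 := ers_swp_succ (p := p) (t := t) hl
  have hbe : X = Y → ers p t = ers (p + 1) t := by
    intro h
    exact ers_eq_of_get hX (by rw [h]; exact hY)
  cases o with
  | true =>
    have key := cr_semL (F := F) (γ := L C k) true (g := semV I k) p a t hat (semV_nil I k)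
      (fun i w => crT A k (Nat.pred p) true (ers i t) w)
      (fun i w => crT A k p true (ers i t) w)
      (fun _ w => mapT (A.al X Y true) (Nat.succ k) w)
      (fun u w => ifb (A.hasBe X Y)
              (addT A (Nat.succ k) u (mapT (A.be X Y true) (Nat.succ k) w)) u)
      Hl Hr (fun _ y => F.ga X Y true • op S (cup (p + 1) Y) (op S (cap (p + 1))
        (blk S a t (p + 1) (semV I k (ers (p + 1) t) y))))
      (by rw [semV_nil]; simp)
      (by
        intro x y
        rw [cr_pair_true (F := F) hX hY (hat p x (by omega)) (hat (p + 1) y hl)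
          (φy' := semV I k (ers p t) y) (fun h => by rw [hbe h])]
        congr 2
        · rw [e1]
          congr 1
          exact (semV_mapT I (fun c => I.al X Y true c) k _ _).symm
        · rw [e2]
          congr 1
          exact (semV_ifb_be I _ X Y true x y).symm)
      0 p (by omega) v
    exact key.trans (crPE_true I hk p a t X Y hX hY ht v _).symm
  | false =>
    have key := cr_semL (F := F) (γ := L C k) false (g := semV I k) p a t hat (semV_nil I k)
      (fun i w => crT A k (Nat.pred p) false (ers i t) w)
      (fun i w => crT A k p false (ers i t) w)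
      (fun u w => ifb (A.hasBe X Y)
              (addT A (Nat.succ k) w (mapT (A.be X Y false) (Nat.succ k) u)) w)
      (fun u _ => mapT (A.al X Y false) (Nat.succ k) u)
      Hl Hr (fun x _ => F.ga X Y false • op S (cup (p + 1) Y) (op S (cap (p + 1))
        (blk S a t p (semV I k (ers p t) x))))
      (by rw [semV_nil]; simp)
      (by
        intro x y
        rw [cr_pair_false (F := F) hX hY (hat p x (by omega)) (hat (p + 1) y hl)
          (φx' := semV I k (ers (p + 1) t) x) (fun h => by rw [hbe h])]
        congr 2
        · rw [e1]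
          congr 1
          exact (semV_ifb_be I _ X Y false y x).symm
        · rw [e2]
          congr 1
          exact (semV_mapT I (fun c => I.al X Y false c) k _ _).symm)
      0 p (by omega) v
    exact key.trans (crPE_false I hk p a t X Y hX hY ht v _).symm

end Pool.Agent.Helper26.WD
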