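import Pool.Agent.Helper26.WD.SoundZ

/-!
# Soundness of the evaluation algorithm: the main theorem
-/

namespace Pool.Agent.Helper26.WD

set_option linter.unusedSectionVars false

open Piece Skein

variable {Ω : Type} [DecidableEq Ω] [Dir Ω] {S : Type} [CommRing S] {C β γ : Type}

theorem semL_out (g : List Ω → β → E Ω S) (a : Ω) (t : List Ω) (i : ℕ) (h : t.length ≤ i)
    (l : List β) : semL S g a t i l = 0 := by
  induction l generalizing i with
  | nil => rfl
  | cons x l ih =>
    rw [semL_cons, ih (i + 1) (by omega), blk_neg, LinearMap.zero_apply, add_zero]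
    rw [List.getElem?_eq_none h]
    simp

variable {F : Skein Ω S} {A : Alg Ω C} (I : Interp F A)

/-! ### Crossings -/

theorem cr_blk_zero (o : Bool) (a b : Ω) (u : List Ω) {φ : E Ω S} (hφ : φ ∈ F.V) :
    op S (cr 0 o) (blk S a (b :: u) 0 φ) = F.kap o • blk S b (a :: u) 0 φ := by
  by_cases h : b = Dir.op a
  · have h' : a = Dir.op b := by rw [h, Dir.op_op]
    rw [blk_pos (a := a) (by simp [h]), blk_pos (a := b) (by simp [← h']), h]
    exact F.cr_W_zero a o hφ
  · have h' : a ≠ Dir.op b := by
      intro h'
      apply h
      rw [h', Dir.op_op]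
    rw [blk_neg (a := a) (by simp [h]), blk_neg (a := b) (by simp [h'])]
    simp

theorem sumL_crZ {k : ℕ} (hk : CrOK I (k + 1)) (o : Bool) (a b : Ω) (u : List Ω)
    (hu : u.length = 2 * k + 2) (rest : List (L C (k + 2))) (i : ℕ) (acc : L C (k + 3)) :
    semV I (k + 2) (b :: a :: u)
      (sumL (γ := L C (k + 3)) (crZ A k (crT A (k + 1)) o a b (b :: u)) rest i acc) =
      semV I (k + 2) (b :: a :: u) acc +
      op S (cr 0 o) (semL (β := L C (k + 2)) S (semV I (k + 1)) a (b :: u) (i + 1) rest) := by
  induction rest generalizing i acc with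
  | nil => rw [sumL_nil, semL_nil, map_zero, add_zero]
  | cons x rest ih =>
    rw [sumL_cons, ih, crZ_sound I hk o a b u hu i x acc, semL_cons, map_add, add_assoc]

theorem crT_sound (k : ℕ) : CrOK I k := by
  induction k with
  | zero =>
    intro p o s v hs hp
    omega
  | succ k ih =>
    intro p o s v hs hp
    match s, hs, hp with
    | [], hs, hp => simp at hs
    | [a], hs, hp =>
      simp only [List.length_cons, List.length_nil] at hs
      omega
    | a :: b :: u, hs, hp =>
    match (v : List (L C (k + 1))) with
    | [] =>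
      rw [crT_nil]
      have h1 : semV I (k + 1) (a :: b :: u) ([] : List (L C (k + 1))) = 0 := semV_nil I _ _
      have h2 : semV I (k + 1) (swp p (a :: b :: u)) ([] : List (L C (k + 1))) = 0 :=
        semV_nil I _ _
      rw [h1, h2, map_zero]
    | c :: rest =>
    match p with
    | p + 1 =>
      simp only [List.length_cons] at hs hp
      have hl : p + 1 < (b :: u).length := by rw [List.length_cons]; omega
      obtain ⟨X, hX⟩ : ∃ X, (b :: u)[p]? = some X :=
        ⟨_, List.getElem?_eq_getElem (by omega)⟩
      obtain ⟨Y, hY⟩ : ∃ Y, (b :: u)[p + 1]? = some Y :=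
        ⟨_, List.getElem?_eq_getElem hl⟩
      obtain ⟨w, hw⟩ := drp_eq hX hY
      rw [crT_pos, hw, hd2_cons, swp_succ]
      exact crP_sound I ih p o a (b :: u) X Y hX hY (by rw [List.length_cons]; omega) _
    | 0 =>
      rw [swp_zero]
      match k, ih, c, rest with
      | 0, ih, c, rest =>
        simp only [List.length_cons] at hs
        obtain rfl : u = [] := List.length_eq_zero_iff.mp (by omega)
        rw [crT_one]
        change _ = semV I 1 [b, a] (mapT (A.kap o) (1 + 1) (c :: rest : List (L C 1)))
        rw [semV_mapT I (fun c => I.kap o c)]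
        change op S (cr 0 o) (semL (β := L C 1) S (semV I 0) a [b] 0 (c :: rest)) =
          F.kap o • semL (β := L C 1) S (semV I 0) b [a] 0 (c :: rest)
        rw [semL_cons, semL_cons, semL_out _ _ _ _ (by simp), semL_out _ _ _ _ (by simp),
          add_zero, add_zero]
        exact cr_blk_zero o a b [] (F.At_V (semV_At I (s := []) rfl c))
      | k + 1, ih, c, rest =>
        simp only [List.length_cons] at hs
        rw [crT_zero, sumL_crZ I ih o a b u (by omega)]
        change op S (cr 0 o) (semL (β := L C (k + 2)) S (semV I (k + 1)) a (b :: u) 0 (c :: rest)) =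
          _
        rw [semL_cons, map_add]
        congr 1
        have hm : semV I (k + 1) u c ∈ F.At u := semV_At I (by omega) c
        rw [ers_zero, cr_blk_zero o a b u (F.At_V hm)]
        rw [semV_mapT_single I (fun c => I.kap o c) (k + 1) b a u c]
        rw [semV_succ, semL_cons, semL_nil, add_zero]
        rfl

/-! ### Local maxima -/

theorem circle_sound (k : ℕ) (a : Ω) (s : List Ω) (hs : s.length = 2 * k) (x : L C (k + 1)) :
    op S (cap 0) (op S (cup 0 a) (semV I k s x)) = F.de • semV I k s x := by
  match k with
  | 0 =>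
    rw [semV_zero, map_smul, map_smul, F.circ_nil, smul_comm]
  | k + 1 =>
    have hm := semV_At I hs x
    refine F.circ 0 a (F.M_mono ?_ hm)
    rintro _ rfl
    refine ⟨Nat.zero_le _, ?_⟩
    rintro rfl
    simp at hs

theorem capZ_sound {k : ℕ} (a : Ω) (t : List Ω) (ht : t.length = 2 * k) (i : ℕ)
    (x : L C (k + 1)) (acc : L C (k + 1)) :
    semV I k t (capZ A k (crT A k) a (Dir.op a :: t) i x acc) =
      semV I k t acc + I.u • op S (cap 0) (blk S a (Dir.op a :: t) i
        (semV I k (ers i (Dir.op a :: t)) x)) := by
  unfold capZ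
  rcases isNil_or (β := L C k) x with ⟨h1, h2⟩ | ⟨h1, h2⟩
  · rw [h2, ifb_true, h1]
    have : semV I k (ers i (Dir.op a :: t)) ([] : List (L C k)) = 0 := semV_nil I _ _
    rw [this, map_zero, map_zero, smul_zero, add_zero]
  rw [h2, ifb_false]
  cases his : isAt A.eqb (A.op a) i (Dir.op a :: t) with
  | false =>
    rw [ifb_false, blk_neg, LinearMap.zero_apply, map_zero, smul_zero, add_zero]
    intro h
    rw [← I.op, ← isAt_iff I.eqb] at h
    rw [I.op] at h his
    rw [h] at his
    simp at his
  | true =>
    rw [ifb_true]
    have h' : (Dir.op a :: t)[i]? = some (Dir.op a) := by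
      have := (isAt_iff I.eqb _ _ _).mp his
      rwa [I.op] at this
    rw [blk_pos h']
    match i with
    | 0 =>
      change semV I k t (addT A (k + 1) acc (mapT A.de (k + 1) x)) = _
      rw [semV_addT, semV_mapT I (fun c => I.de c), W_zero, ers_zero, circle_sound I k a t ht x,
        smul_smul]
    | i + 1 =>
      have h'' : t[i]? = some (Dir.op a) := by rwa [List.getElem?_cons_succ] at h'
      have hi := lt_of_get h''
      have hle := length_ers hi
      change semV I k t (addT A (k + 1) acc (mapT (fun c => A.cp (A.kap false c)) (k + 1)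
        (dragRT (crT A k) i 0 (ers (i + 1) (Dir.op a :: t)) x))) = _
      rw [semV_addT, semV_mapT I (r := I.u * F.kap false)
        (fun c => by rw [I.cp, I.kap, mul_assoc]), ers_succ]
      congr 1
      have hm : semV I k (Dir.op a :: ers i t) x ∈ F.At (Dir.op a :: ers i t) :=
        semV_At I (by rw [List.length_cons]; omega) x
      rw [F.cap_W_left_end i a (F.At_get hm rfl),
        dragR_sound I (crT_sound I k) i 0 _ x (by rw [List.length_cons]; omega)
        (by rw [List.length_cons]; omega), dragRB_eq h'', smul_smul]

theorem sumL_capZ {k : ℕ} (a : Ω) (t : List Ω) (ht : t.length = 2 * k)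
    (v : List (L C (k + 1))) (i : ℕ) (acc : L C (k + 1)) :
    semV I k t
      (sumL (β := L C (k + 1)) (γ := L C (k + 1)) (capZ A k (crT A k) a (Dir.op a :: t)) v i acc) =
      semV I k t acc +
      I.u • op S (cap 0) (semL (β := L C (k + 1)) S (semV I k) a (Dir.op a :: t) i v) := by
  induction v generalizing i acc with
  | nil => rw [sumL_nil, semL_nil, map_zero, smul_zero, add_zero]
  | cons x v ih =>
    rw [sumL_cons, ih, capZ_sound I a t ht i x acc, semL_cons, map_add, smul_add, add_assoc]

/-- Soundness for local maxima. -/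
def CapOK (k : ℕ) : Prop :=
  ∀ (p : ℕ) (s : List Ω) (v : L C (k + 2)), s.length = 2 * k + 2 →
    (∃ x, s[p]? = some x ∧ s[p + 1]? = some (Dir.op x)) →
    I.u • op S (cap p) (semV I (k + 1) s v) = semV I k (delS p s) (capT A k p s v)

theorem capL_right {r : S} {g : List Ω → β → E Ω S} {g' : List Ω → γ → E Ω S} (p : ℕ) (a : Ω)
    (t : List Ω)
    (hg : ∀ i x, i < t.length → g (ers i t) x ∈ F.At (ers i t))
    (h : ℕ → β → γ)
    (H : ∀ i x, p + 2 ≤ i → i < t.length →
      r • op S (cap p) (g (ers i t) x) = g' (delS p (ers i t)) (h i x))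
    (i : ℕ) (hi : p ≤ i) (l : List β) :
    r • op S (cap (p + 1)) (semL S g a t (i + 2) l) =
      semL S g' a (delS p t) i (mapI h l (i + 2)) := by
  induction l generalizing i with
  | nil => rw [semL_nil, mapI_nil, semL_nil, map_zero, smul_zero]
  | cons x l ih =>
    rw [semL_cons, mapI_cons, semL_cons, map_add, smul_add]
    rw [show i + 2 + 1 = (i + 1) + 2 by omega, ih (i + 1) (by omega)]
    congr 1
    by_cases h1 : t[i + 2]? = some (Dir.op a)
    · have hl := lt_of_get h1
      have hle := length_ers hl
      rw [blk_pos h1, blk_pos (by rw [getElem?_delS_right hi]; exact h1),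
        F.cap_W_left hi a (F.At_Len (hg (i + 2) x hl) (by omega)), ers_delS_right hi,
        ← H _ _ (by omega) hl, map_smul]
    · rw [blk_neg h1, blk_neg (by rw [getElem?_delS_right hi]; exact h1)]
      simp

theorem capL_sound {r : S} {g : List Ω → List γ → E Ω S} {g' : List Ω → β → E Ω S}
    (p : ℕ) (a : Ω) (t : List Ω) (ht : p + 1 < t.length)
    (hg : ∀ i x, i < t.length → g (ers i t) x ∈ F.At (ers i t))
    (hz : ∀ s, g s [] = 0)
    (f h : ℕ → List γ → β)
    (Hl : ∀ i x, i < p → i < t.length →
      r • op S (cap (p - 1)) (g (ers i t) x) = g' (delS (p - 1) (ers i t)) (f i x))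
    (Hr : ∀ i x, p + 2 ≤ i → i < t.length →
      r • op S (cap p) (g (ers i t) x) = g' (delS p (ers i t)) (h i x))
    (i n : ℕ) (hi : i + n = p) (l : List (List γ)) :
    r • op S (cap (p + 1)) (semL S g a t i l) =
      semL S g' a (delS p t) i (capL f h n i l) +
      r • op S (cap (p + 1)) (blk S a t p (g (ers p t) (nth n l))) +
      r • op S (cap (p + 1)) (blk S a t (p + 1) (g (ers (p + 1) t) (nth (n + 1) l))) := by
  induction n generalizing i l with
  | zero =>
    obtain rfl : i = p := by omega
    match l with
    | [] =>
      rw [capL_nil, semL_nil, semL_nil, nth_nil, nth_nil, hz, hz]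
      simp
    | [x] =>
      rw [capL_zero_one, semL_nil, nth_zero, semL_cons, semL_nil, add_zero]
      have : nth (0 + 1) [x] = [] := rfl
      rw [this, hz]
      simp
    | x :: y :: w =>
      rw [capL_zero, semL_cons, semL_cons, map_add, map_add, smul_add, smul_add,
        capL_right (F := F) i a t hg h Hr i (le_refl i) w, nth_zero]
      have : nth (0 + 1) (x :: y :: w) = y := rfl
      rw [this]
      abel
  | succ n ih =>
    match l with
    | [] =>
      rw [capL_nil, semL_nil, semL_nil, nth_nil, nth_nil, hz, hz]
      simp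
    | x :: l =>
      rw [semL_cons, capL_succ, semL_cons, map_add, smul_add, ih (i + 1) (by omega), nth_succ,
        nth_succ, ← add_assoc, ← add_assoc]
      congr 3
      obtain ⟨q, rfl⟩ : ∃ q, p = q + 1 := ⟨p - 1, by omega⟩
      rw [Nat.add_sub_cancel] at Hl
      by_cases h1 : t[i]? = some (Dir.op a)
      · have hl := lt_of_get h1
        rw [blk_pos h1, blk_pos (by rw [getElem?_delS_left (by omega)]; exact h1),
          F.cap_W_right (by omega) a (F.At_V (hg i x hl)), ers_delS_left (by omega),
          ← Hl _ _ (by omega) hl, map_smul]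
      · rw [blk_neg h1, blk_neg (by rw [getElem?_delS_left (by omega)]; exact h1)]
        simp

/-- The second part of `capP`. -/
def capPE (A : Alg Ω C) (k : ℕ)
    (f : ℕ → Bool → List Ω → L C (k + 2) → L C (k + 2))
    (p : ℕ) (a : Ω) (t : List Ω) (v : L C (k + 3)) (main : L C (k + 2)) : L C (k + 2) :=
  (fun r₁ : L C (k + 2) =>
    ifb (isAt A.eqb (A.op a) (Nat.succ p) t)
      ((fun w : List (L C (k + 1)) => ifb (isNil w) r₁
        (addT A (Nat.succ (Nat.succ k)) r₁ (mapT (fun c => A.cp (A.kap true c))
          (Nat.succ (Nat.succ k)) (dragLT f p (ers (Nat.succ p) t) w))))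
        (nth (β := L C (k + 1)) (Nat.succ p) v)) r₁)
   (ifb (isAt A.eqb (A.op a) p t)
      ((fun w : List (L C (k + 1)) => ifb (isNil w) main
        (addT A (Nat.succ (Nat.succ k)) main (mapT A.cp
          (Nat.succ (Nat.succ k)) (dragLT f p (ers p t) w))))
        (nth (β := L C (k + 1)) p v)) main)

theorem capP_eq (A : Alg Ω C) (k : ℕ) (h : ℕ → List Ω → L C (k + 2) → L C (k + 1))
    (f : ℕ → Bool → List Ω → L C (k + 2) → L C (k + 2))
    (p : ℕ) (a : Ω) (t : List Ω) (v : L C (k + 3)) :
    capP A k h f p a t v = capPE A k f p a t v (capL (β := L C (k + 2)) (γ := L C (k + 1))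
        (fun i w => h (Nat.pred p) (ers i t) w)
        (fun i w => h p (ers i t) w) p 0 v) := rfl

theorem capPE_sound {k : ℕ} (p : ℕ) (a : Ω) (t : List Ω) (ht : t.length = 2 * k + 3)
    (x : Ω) (hx : t[p]? = some x) (hx' : t[p + 1]? = some (Dir.op x)) (v : L C (k + 3))
    (main : L C (k + 2)) :
    semV I (k + 1) (a :: delS p t) (capPE A k (crT A (k + 1)) p a t v main) =
      semV I (k + 1) (a :: delS p t) main +
      I.u • op S (cap (p + 1)) (blk S a t p
        (semV I (k + 1) (ers p t) (nth (β := L C (k + 1)) p v))) +
      I.u • op S (cap (p + 1)) (blk S a t (p + 1)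
        (semV I (k + 1) (ers (p + 1) t) (nth (β := L C (k + 1)) (p + 1) v))) := by
  have hl := lt_of_get hx'
  -- the first part
  have h1 : semV I (k + 1) (a :: delS p t) (ifb (isAt A.eqb (A.op a) p t)
      ((fun w : List (L C (k + 1)) => ifb (isNil w) main
        (addT A (Nat.succ (Nat.succ k)) main (mapT A.cp
          (Nat.succ (Nat.succ k)) (dragLT (crT A (k + 1)) p (ers p t) w))))
        (nth (β := L C (k + 1)) p v)) main) =
      semV I (k + 1) (a :: delS p t) main +
      I.u • op S (cap (p + 1)) (blk S a t p
        (semV I (k + 1) (ers p t) (nth (β := L C (k + 1)) p v))) := by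
    cases his : isAt A.eqb (A.op a) p t with
    | false =>
      rw [ifb_false, blk_neg, LinearMap.zero_apply, map_zero, smul_zero, add_zero]
      intro h
      rw [← I.op, ← isAt_iff I.eqb] at h
      rw [h] at his
      simp at his
    | true =>
      rw [ifb_true]
      have h' : t[p]? = some (Dir.op a) := by
        rw [← I.op, ← isAt_iff I.eqb]
        exact his
      rcases isNil_or (nth (β := L C (k + 1)) p v) with ⟨h1, h2⟩ | ⟨h1, h2⟩
      · simp only [h1]
        change semV I (k + 1) (a :: delS p t) main = _
        have : semV I (k + 1) (ers p t) ([] : List (L C (k + 1))) = 0 := semV_nil I _ _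
        rw [this]
        simp
      · simp only [h2]
        rw [ifb_false]
        change semV I (k + 1) (a :: delS p t) (addT A (k + 2) main (mapT A.cp (k + 2) _)) = _
        rw [semV_addT, semV_mapT I (fun c => I.cp c), blk_pos h']
        congr 2
        have hle := length_ers (t := t) (i := p) (by omega)
        have hxa : Dir.op x = a := by
          rw [hx, Option.some.injEq] at h'
          rw [h', Dir.op_op]
        have hm : semV I (k + 1) (ers p t) (nth (β := L C (k + 1)) p v) ∈ F.At (ers p t) :=
          semV_At I (by omega) _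
        have hg : (ers p t)[p]? = some a := by
          rw [getElem?_ers_right (le_refl p), hx', hxa]
        rw [F.cap_W_right_end p a (F.At_get hm hg),
          dragL_sound I (crT_sound I (k + 1)) p _ _ (by omega) (by omega), dragLB_eq hg,
          ers_ers_self hl]
  unfold capPE
  rw [← h1]
  generalize ifb (isAt A.eqb (A.op a) p t)
      ((fun w : List (L C (k + 1)) => ifb (isNil w) main
        (addT A (Nat.succ (Nat.succ k)) main (mapT A.cp
          (Nat.succ (Nat.succ k)) (dragLT (crT A (k + 1)) p (ers p t) w))))
        (nth (β := L C (k + 1)) p v)) main = r₁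
  beta_reduce
  cases his : isAt A.eqb (A.op a) (Nat.succ p) t with
  | false =>
    rw [ifb_false, blk_neg, LinearMap.zero_apply, map_zero, smul_zero, add_zero]
    intro h
    rw [← I.op, ← isAt_iff I.eqb] at h
    change isAt A.eqb (A.op a) (Nat.succ p) t = true at h
    rw [h] at his
    simp at his
  | true =>
    rw [ifb_true]
    have h' : t[p + 1]? = some (Dir.op a) := by
      rw [← I.op, ← isAt_iff I.eqb]
      exact his
    rcases isNil_or (nth (β := L C (k + 1)) (p + 1) v) with ⟨h1, h2⟩ | ⟨h1, h2⟩
    · simp only [Nat.succ_eq_add_one, h1]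
      change semV I (k + 1) (a :: delS p t) r₁ = _
      have : semV I (k + 1) (ers (p + 1) t) ([] : List (L C (k + 1))) = 0 := semV_nil I _ _
      rw [this]
      simp
    · simp only [Nat.succ_eq_add_one, h2]
      rw [ifb_false]
      change semV I (k + 1) (a :: delS p t) (addT A (k + 2) r₁ (mapT _ (k + 2) _)) = _
      rw [semV_addT, semV_mapT I (r := I.u * F.kap true)
        (fun c => by rw [I.cp, I.kap, mul_assoc]), blk_pos h']
      congr 1
      have hle := length_ers hl
      have hxa : x = a := by
        rw [hx', Option.some.injEq] at h'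
        exact op_inj h'
      have hm : semV I (k + 1) (ers (p + 1) t) (nth (β := L C (k + 1)) (p + 1) v) ∈
          F.At (ers (p + 1) t) := semV_At I (by omega) _
      have hg : (ers (p + 1) t)[p]? = some a := by
        rw [getElem?_ers_left (by omega), hx, hxa]
      rw [F.cap_W_right_end' p a (F.At_get hm hg),
        dragL_sound I (crT_sound I (k + 1)) p _ _ (by omega) (by omega), dragLB_eq hg,
        ers_ers_succ hl, smul_smul]

theorem capT_sound (k : ℕ) : CapOK I k := by
  induction k with
  | zero =>
    intro p s v hs hp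
    obtain ⟨x, hx, hx'⟩ := hp
    have hl := lt_of_get hx'
    obtain rfl : p = 0 := by omega
    match s, hs with
    | [a, b], hs =>
      simp at hx hx'
      subst hx hx'
      have e := sumL_capZ I a [] rfl v 0 ([] : List C)
      have h0 : semV I 0 ([] : List Ω) ([] : List C) = 0 := semV_nil I 0 []
      rw [capT_zero, delS_zero]
      exact (e.trans ((congrArg (fun z => z + _) h0).trans (zero_add _))).symm
  | succ k ih =>
    intro p s v hs hp
    obtain ⟨x, hx, hx'⟩ := hp
    match s, hs with
    | a :: t, hs =>
      simp only [List.length_cons] at hs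
      match p with
      | 0 =>
        match t with
        | b :: t =>
          simp at hx hx'
          subst hx hx'
          simp only [List.length_cons] at hs
          rw [capT_zero, delS_zero, sumL_capZ I a t (by omega)]
          have : semV I (k + 1) t ([] : List (L C (k + 1))) = 0 := semV_nil I _ _
          rw [this, zero_add]
          rfl
      | p + 1 =>
        rw [List.getElem?_cons_succ] at hx hx'
        have hl := lt_of_get hx'
        rw [capT_succ, capP_eq, delS_succ, capPE_sound I p a t (by omega) x hx hx']
        have hlen : ∀ i, i < t.length → (ers i t).length = 2 * k + 2 := by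
          intro i hi
          have := length_ers hi
          omega
        refine capL_sound (F := F) (γ := L C (k + 1)) (β := L C (k + 1)) (g := semV I (k + 1))
          (g' := semV I k) p a t hl
          (fun i x hi => semV_At I (by have := hlen i hi; omega) x) (semV_nil I (k + 1))
          _ _ ?_ ?_ 0 p (by omega) v
        · intro i y hi hi'
          obtain ⟨q, rfl⟩ : ∃ q, p = q + 1 := ⟨p - 1, by omega⟩
          refine ih _ _ _ (hlen i hi') ⟨x, ?_, ?_⟩
          · rw [Nat.add_sub_cancel, getElem?_ers_right (by omega)]
            exact hx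
          · rw [Nat.add_sub_cancel, getElem?_ers_right (by omega)]
            exact hx'
        · intro i y hi hi'
          refine ih _ _ _ (hlen i hi') ⟨x, ?_, ?_⟩
          · rw [getElem?_ers_left (by omega)]
            exact hx
          · rw [getElem?_ers_left (by omega)]
            exact hx'

end Pool.Agent.Helper26.WD
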