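import Pool.Agent.Helper26.WD.SoundCr

/-!
# Soundness of the evaluation algorithm: crossings at position `0`
-/

namespace Pool.Agent.Helper26.WD

set_option linter.unusedSectionVars false

open Piece Skein

variable {Ω : Type} [DecidableEq Ω] [Dir Ω] {S : Type} [CommRing S] {C β γ : Type}

theorem semL_keep_drop {g : List Ω → β → E Ω S} {z : β} (hz : ∀ s, g s z = 0) (a : Ω)
    (t : List Ω) (i n : ℕ) (l : List β) :
    semL S g a t i l = semL S g a t i (keepL n l) + semL S g a t i (dropL z n l) := by
  induction n generalizing i l with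
  | zero => rw [keepL_zero, dropL_zero, semL_nil, zero_add]
  | succ n ih =>
    match l with
    | [] => rw [keepL_nil, dropL_nil, semL_nil, zero_add]
    | x :: l =>
      rw [keepL_succ, dropL_succ, semL_cons, semL_cons, semL_cons, hz, map_zero, zero_add,
        ih (i + 1) l, add_assoc]

variable {F : Skein Ω S}

/-- Two arcs, case 1. -/
theorem cr_blk_left {i j : ℕ} (h : j < i) (a b : Ω) (u : List Ω) {φ : E Ω S} (hφ : φ ∈ F.V) :
    op S (cr 0 false) (blk S a (b :: u) (i + 1) (blk S b (ers i u) j φ)) =
      blk S b (a :: u) (j + 1) (blk S a (ers j u) (i - 1) φ) := by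
  obtain ⟨m, rfl⟩ : ∃ m, i = m + 1 := ⟨i - 1, by omega⟩
  have e1 : (ers (m + 1) u)[j]? = u[j]? := getElem?_ers_left h u
  have e2 : (ers j u)[m]? = u[m + 1]? := getElem?_ers_right (by omega) u
  by_cases h1 : u[m + 1]? = some (Dir.op a)
  · by_cases h2 : u[j]? = some (Dir.op b)
    · rw [blk_pos (by rw [List.getElem?_cons_succ]; exact h1), blk_pos (by rw [e1]; exact h2),
        blk_pos (by rw [List.getElem?_cons_succ]; exact h2), Nat.add_sub_cancel,
        blk_pos (by rw [e2]; exact h1)]
      exact F.cr_W_W_left (by omega) a b hφ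
    · rw [blk_neg (a := b) (t := ers (m + 1) u) (by rw [e1]; exact h2),
        blk_neg (a := b) (t := a :: u) (by rw [List.getElem?_cons_succ]; exact h2)]
      simp
  · rw [blk_neg (a := a) (t := b :: u) (by rw [List.getElem?_cons_succ]; exact h1),
      Nat.add_sub_cancel, blk_neg (a := a) (t := ers j u) (by rw [e2]; exact h1)]
    simp

/-- Two arcs, case 2. -/
theorem cr_blk_right {i j : ℕ} (h : i ≤ j) (a b : Ω) (u : List Ω) {φ : E Ω S} (hφ : φ ∈ F.V) :
    op S (cr 0 true) (blk S a (b :: u) (i + 1) (blk S b (ers i u) j φ)) =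
      blk S b (a :: u) (j + 2) (blk S a (ers (j + 1) u) i φ) := by
  have e1 : (ers i u)[j]? = u[j + 1]? := getElem?_ers_right h u
  have e2 : (ers (j + 1) u)[i]? = u[i]? := getElem?_ers_left (by omega) u
  by_cases h1 : u[i]? = some (Dir.op a)
  · by_cases h2 : u[j + 1]? = some (Dir.op b)
    · rw [blk_pos (by rw [List.getElem?_cons_succ]; exact h1), blk_pos (by rw [e1]; exact h2),
        blk_pos (by rw [List.getElem?_cons_succ]; exact h2),
        blk_pos (by rw [e2]; exact h1)]
      exact F.cr_W_W_right h a b hφ
    · rw [blk_neg (a := b) (t := ers i u) (by rw [e1]; exact h2),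
        blk_neg (a := b) (t := a :: u) (by rw [List.getElem?_cons_succ]; exact h2)]
      simp
  · rw [blk_neg (a := a) (t := b :: u) (by rw [List.getElem?_cons_succ]; exact h1),
      blk_neg (a := a) (t := ers (j + 1) u) (by rw [e2]; exact h1)]
    simp

/-- The first entries of a row. -/
theorem row_keep {g : List Ω → β → E Ω S} (a b : Ω) (u : List Ω) (i n j : ℕ) (h : j + n = i)
    (hi : i < u.length) (hj : ∀ j < i, ∀ x, g (ers j (ers i u)) x ∈ F.V) (l : List β) :
    op S (cr 0 false) (blk S a (b :: u) (i + 1) (semL S g b (ers i u) j (keepL n l))) =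
      semL S (fun s x => blk S a s.tail (i - 1) (g (ers (i - 1) s.tail) x)) b (a :: u) (j + 1)
        (keepL n l) := by
  induction n generalizing j l with
  | zero => simp [keepL_zero, semL_nil]
  | succ n ih =>
    match l with
    | [] => simp [keepL_nil, semL_nil]
    | x :: l =>
      rw [keepL_succ, semL_cons, semL_cons, map_add, map_add, ih (j + 1) (by omega),
        cr_blk_left (F := F) (by omega) a b u (hj j (by omega) x)]
      congr 3
      rw [ers_succ, List.tail_cons]
      obtain ⟨m, rfl⟩ : ∃ m, i = m + 1 := ⟨i - 1, by omega⟩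
      rw [Nat.add_sub_cancel, ers_ers (by omega)]

/-- The last entries of a row. -/
theorem row_drop {g : List Ω → β → E Ω S} (a b : Ω) (u : List Ω) (i j : ℕ) (h : i ≤ j)
    (hi : i < u.length) (hj : ∀ j < (ers i u).length, ∀ x, g (ers j (ers i u)) x ∈ F.V)
    (l : List β) :
    op S (cr 0 true) (blk S a (b :: u) (i + 1) (semL S g b (ers i u) j l)) =
      semL S (fun s x => blk S a s.tail i (g (ers i s.tail) x)) b (a :: u) (j + 2) l := by
  induction l generalizing j with
  | nil => simp [semL_nil]
  | cons x l ih =>
    rw [semL_cons, semL_cons, map_add, map_add, ih (j + 1) (by omega)]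
    congr 1
    by_cases hjl : j < (ers i u).length
    · rw [cr_blk_right (F := F) h a b u (hj j hjl x)]
      congr 2
      rw [show j + 2 = (j + 1) + 1 from rfl, ers_succ, List.tail_cons, ers_ers h]
    · have hle := length_ers hi
      rw [blk_neg (a := b) (t := ers i u), blk_neg (a := b) (t := a :: u)]
      · simp
      · rw [List.getElem?_eq_none (by rw [List.length_cons]; omega)]
        simp
      · rw [List.getElem?_eq_none (by omega)]
        simp

theorem semL_dropL {g : List Ω → β → E Ω S} {z : β} (hz : ∀ s, g s z = 0) (a : Ω)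
    (t : List Ω) (j n : ℕ) (l : List β) :
    semL S g a t j (dropL z n l) = semL S g a t (j + n) (drp n l) := by
  induction n generalizing j l with
  | zero => rfl
  | succ n ih =>
    match l with
    | [] => rfl
    | x :: l =>
      rw [dropL_succ, semL_cons, hz, map_zero, zero_add, ih, drp_succ,
        show j + 1 + n = j + (n + 1) by omega]

theorem semL_mapL' {g : List Ω → γ → E Ω S} {h : β → γ} (a : Ω) (t : List Ω) (i : ℕ)
    (l : List β) :
    semL S g a t i (mapL h l) = semL S (fun s x => g s (h x)) a t i l := by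
  induction l generalizing i with
  | nil => rfl
  | cons x l ih => rw [mapL_cons, semL_cons, semL_cons, ih]

theorem semL_congr {g g' : List Ω → β → E Ω S} (a : Ω) (t : List Ω) (i : ℕ)
    (h : ∀ j, i ≤ j → ∀ x, g (ers j t) x = g' (ers j t) x) (l : List β) :
    semL S g a t i l = semL S g' a t i l := by
  induction l generalizing i with
  | nil => rfl
  | cons x l ih => rw [semL_cons, semL_cons, ih (i + 1) (fun j hj => h j (by omega)), h i (le_refl i)]

theorem semL_smul {g : List Ω → β → E Ω S} (r : S) (a : Ω) (t : List Ω) (i : ℕ) (l : List β) :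
    semL S (fun s x => r • g s x) a t i l = r • semL S g a t i l := by
  induction l generalizing i with
  | nil => rw [semL_nil, semL_nil, smul_zero]
  | cons x l ih => rw [semL_cons, semL_cons, ih, map_smul, smul_add]

theorem semL_rowL {g : List Ω → β → E Ω S} {G : List Ω → List β → E Ω S} {z : β}
    {w₁ w₂ : β → β} {c₁ c₂ : S} (hG : ∀ s, G s [] = 0)
    (hG' : ∀ a r y m, G (a :: r) (single z y m) = blk S a r m (g (ers m r) y))
    (h₁ : ∀ s y, g s (w₁ y) = c₁ • g s y) (h₂ : ∀ s y, g s (w₂ y) = c₂ • g s y)
    (a b : Ω) (u : List Ω) (i j n : ℕ) (h : j + n = i) (l : List β) :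
    semL S G b (a :: u) (j + 1) (rowL z i w₁ w₂ n l) =
      c₁ • semL S (fun s x => blk S a s.tail (i - 1) (g (ers (i - 1) s.tail) x)) b (a :: u) (j + 1)
        (keepL n l) +
      c₂ • semL S (fun s x => blk S a s.tail i (g (ers i s.tail) x)) b (a :: u) (i + 2)
        (drp n l) := by
  induction n generalizing j l with
  | zero =>
    obtain rfl : j = i := by omega
    rw [rowL_zero, semL_cons, hG, map_zero, zero_add, semL_mapL', keepL_zero, semL_nil, smul_zero,
      zero_add, drp_zero, ← semL_smul]
    refine semL_congr b (a :: u) (j + 2) (fun m hm x => ?_) l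
    obtain ⟨m, rfl⟩ : ∃ m', m = m' + 1 := ⟨m - 1, by omega⟩
    rw [ers_succ, hG', List.tail_cons, h₂, map_smul]
  | succ n ih =>
    match l with
    | [] => rw [rowL_succ_nil, semL_nil, keepL_nil, semL_nil]; simp [drp, semL_nil]
    | x :: l =>
      rw [rowL_succ, semL_cons, ih (j + 1) (by omega), keepL_succ, semL_cons, drp_succ, smul_add,
        ers_succ, hG', List.tail_cons, h₁, map_smul, map_smul]
      abel

variable {A : Alg Ω C} (I : Interp F A)

theorem semV_single (k : ℕ) (a : Ω) (r : List Ω) (y : L C (k + 1)) (m : ℕ) :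
    semV I (k + 1) (a :: r) (single (β := L C (k + 1)) ([] : List (L C k)) y m) =
      blk S a r m (semV I k (ers m r) y) := by
  have h := semL_single (S := S) (g := semV I k) (z := ([] : List (L C k)))
    (fun s => semV_nil I k s) a r 0 m y
  rw [Nat.zero_add] at h
  exact h

theorem semV_mapT_single {h : C → C} {r : S} (hr : ∀ c, I.ι (h c) = r * I.ι c) (k : ℕ)
    (b a : Ω) (u : List Ω) (v : L C (k + 1)) :
    semV I (k + 1) (b :: a :: u) ([mapT h (k + 1) v] : List (L C (k + 1))) =
      r • semV I (k + 1) (b :: a :: u) ([v] : List (L C (k + 1))) := by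
  rw [semV_succ, semV_succ, semL_cons, semL_cons, semL_nil, add_zero, add_zero,
    semV_mapT I hr, map_smul]

theorem row_sound {k : ℕ} {a b : Ω} {u : List Ω} (i : ℕ) {w₁ w₂ : L C (k + 1) → L C (k + 1)}
    {c₁ c₂ : S} (h₁ : ∀ s y, semV I k s (w₁ y) = c₁ • semV I k s y)
    (h₂ : ∀ s y, semV I k s (w₂ y) = c₂ • semV I k s y)
    (hu : u.length = 2 * k + 2) (hi : i < u.length) (x : L C (k + 2)) :
    semV I (k + 2) (b :: a :: u) ([] :: rowL (β := L C (k + 1)) ([] : List (L C k)) i w₁ w₂ i x) =
      c₁ • op S (cr 0 false) (blk S a (b :: u) (i + 1)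
        (semV I (k + 1) (b :: ers i u) (keepL (β := L C (k + 1)) i x))) +
      c₂ • op S (cr 0 true) (blk S a (b :: u) (i + 1)
        (semV I (k + 1) (b :: ers i u)
          (dropL (β := L C (k + 1)) ([] : List (L C k)) i x))) := by
  have hle := length_ers hi
  have hj : ∀ j < (ers i u).length, ∀ x, semV I k (ers j (ers i u)) x ∈ F.V := by
    intro j hj x
    have := length_ers hj
    exact F.At_V (semV_At I (by omega) x)
  have e1 : op S (cr 0 false) (blk S a (b :: u) (i + 1)
        (semV I (k + 1) (b :: ers i u) (keepL (β := L C (k + 1)) i x))) =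
      semL S (fun s x => blk S a s.tail (i - 1) (semV I k (ers (i - 1) s.tail) x)) b (a :: u) (0 + 1)
        (keepL (β := L C (k + 1)) i x) :=
    row_keep (F := F) (g := semV I k) a b u i i 0 (by omega) hi
      (fun j hj' x => hj j (by omega) x) x
  have e2 : semV I (k + 1) (b :: ers i u) (dropL (β := L C (k + 1)) ([] : List (L C k)) i x) =
      semL (β := L C (k + 1)) S (semV I k) b (ers i u) i (drp i x) := by
    have := semL_dropL (S := S) (g := semV I k) (z := ([] : List (L C k)))
      (fun s => semV_nil I k s) b (ers i u) 0 i x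
    rw [Nat.zero_add] at this
    exact this
  have e3 : op S (cr 0 true) (blk S a (b :: u) (i + 1)
      (semL (β := L C (k + 1)) S (semV I k) b (ers i u) i (drp i x))) =
      semL S (fun s x => blk S a s.tail i (semV I k (ers i s.tail) x)) b (a :: u) (i + 2)
        (drp i x) :=
    row_drop (F := F) (g := semV I k) a b u i i (le_refl i) hi hj (drp i x)
  rw [e1, e2, e3]
  have e4 := semL_rowL (S := S) (g := semV I k) (G := semV I (k + 1)) (z := ([] : List (L C k)))
    (w₁ := w₁) (w₂ := w₂) (c₁ := c₁) (c₂ := c₂) (fun s => semV_nil I (k + 1) s)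
    (fun a r y m => semV_single I k a r y m) h₁ h₂ a b u i 0 i (by omega) x
  rw [← e4]
  change blk S b (a :: u) 0 (semV I (k + 1) (ers 0 (a :: u)) ([] : List (L C (k + 1)))) + _ = _
  rw [semV_nil, map_zero, zero_add]
  rfl

/-- The skein relation for the two leftmost strands. -/
theorem skein_blk {a b : Ω} {u : List Ω} (o : Bool) (i : ℕ) {φ : E Ω S}
    (hφ : φ ∈ F.At (ers i (b :: u))) :
    op S (cr 0 o) (blk S a (b :: u) i φ) =
      F.al a b o • op S (cr 0 (!o)) (blk S a (b :: u) i φ) +
      (F.be a b o • blk S a (b :: u) i φ +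
      F.ga a b o • op S (cup 0 b) (op S (cap 0) (blk S a (b :: u) i φ))) := by
  have hm := F.blk_At a i (b :: u) hφ
  exact F.skein_rel 0 o a b (F.M_mono (Q' := fun s => s[0]? = some a ∧ s[0 + 1]? = some b) (by
    rintro _ rfl
    exact ⟨rfl, rfl⟩) hm)

theorem crZ_sound {k : ℕ} (hk : CrOK I (k + 1)) (o : Bool) (a b : Ω) (u : List Ω)
    (hu : u.length = 2 * k + 2) (i : ℕ) (x : L C (k + 2)) (acc : L C (k + 3)) :
    semV I (k + 2) (b :: a :: u) (crZ A k (crT A (k + 1)) o a b (b :: u) i x acc) =
      semV I (k + 2) (b :: a :: u) acc +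
      op S (cr 0 o) (blk S a (b :: u) (i + 1) (semV I (k + 1) (ers (i + 1) (b :: u)) x)) := by
  unfold crZ
  rcases isNil_or (β := L C (k + 1)) x with ⟨h1, h2⟩ | ⟨h1, h2⟩
  · rw [h2, ifb_true, h1]
    have : semV I (k + 1) (ers (i + 1) (b :: u)) ([] : List (L C (k + 1))) = 0 := semV_nil I _ _
    rw [this, map_zero, map_zero, add_zero]
  rw [h2, ifb_false]
  cases his : isAt A.eqb (A.op a) (Nat.succ i) (b :: u) with
  | false =>
    rw [ifb_false, blk_neg, LinearMap.zero_apply, map_zero, add_zero]
    intro h
    rw [← I.op, ← isAt_iff I.eqb] at h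
    change isAt A.eqb (A.op a) (Nat.succ i) (b :: u) = true at h
    rw [h] at his
    simp at his
  | true =>
    rw [ifb_true]
    have h' : (b :: u)[i + 1]? = some (Dir.op a) := by
      rw [← I.op, ← isAt_iff I.eqb]
      exact his
    have h'' : u[i]? = some (Dir.op a) := by rwa [List.getElem?_cons_succ] at h'
    have hi : i < u.length := lt_of_get h''
    have hle := length_ers hi
    rw [ers_succ]
    -- the two parts of `x`
    have hx : semV I (k + 1) (b :: ers i u) x =
        semV I (k + 1) (b :: ers i u) (keepL (β := L C (k + 1)) i x) +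
        semV I (k + 1) (b :: ers i u) (dropL (β := L C (k + 1)) ([] : List (L C k)) i x) :=
      semL_keep_drop (S := S) (g := semV I k) (z := ([] : List (L C k)))
        (fun s => semV_nil I k s) b (ers i u) 0 i x
    have hlen : (b :: ers i u).length = 2 * (k + 1) := by rw [List.length_cons]; omega
    -- the contribution of the part `y`
    have hpart : ∀ (y : L C (k + 2)) (acc₁ : L C (k + 3)),
        semV I (k + 2) (b :: a :: u)
          ((fun (acc₂ : L C (k + 3)) =>
          ifb (A.hasGa a b) (addT A (Nat.succ (Nat.succ (Nat.succ k))) acc₂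
        ([mapT (fun c => A.ga a b o (A.kap false c)) (Nat.succ (Nat.succ k))
          (dragRT (crT A (k + 1)) i 0 (ers (Nat.succ i) (b :: u)) y)] : List (L C (k + 2)))) acc₂)
         (ifb (A.hasBe a b) (addT A (Nat.succ (Nat.succ (Nat.succ k))) acc₁
        (single (β := L C (k + 2)) ([] : List (L C (k + 1)))
          (mapT (A.be a b o) (Nat.succ (Nat.succ k)) y) (Nat.succ i)))
        acc₁)) = semV I (k + 2) (b :: a :: u) acc₁ +
        (F.be a b o • blk S a (b :: u) (i + 1) (semV I (k + 1) (b :: ers i u) y) +
        F.ga a b o • op S (cup 0 b) (op S (cap 0)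
          (blk S a (b :: u) (i + 1) (semV I (k + 1) (b :: ers i u) y)))) := by
      intro y acc₁
      have hb : semV I (k + 2) (b :: a :: u) (ifb (A.hasBe a b)
          (addT A (Nat.succ (Nat.succ (Nat.succ k))) acc₁
          (single (β := L C (k + 2)) ([] : List (L C (k + 1)))
          (mapT (A.be a b o) (Nat.succ (Nat.succ k)) y) (Nat.succ i))) acc₁) =
          semV I (k + 2) (b :: a :: u) acc₁ +
          F.be a b o • blk S a (b :: u) (i + 1) (semV I (k + 1) (b :: ers i u) y) := by
        cases hbe : A.hasBe a b with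
        | false => rw [ifb_false, I.hasBe a b o hbe, zero_smul, add_zero]
        | true =>
          rw [ifb_true]
          change semV I (k + 2) (b :: a :: u) (addT A (k + 3) acc₁
            (single (β := L C (k + 2)) ([] : List (L C (k + 1)))
            (mapT (A.be a b o) (k + 2) y) (i + 1))) = _
          rw [semV_addT, semV_single, semV_mapT I (fun c => I.be a b o c), map_smul]
          congr 1
          by_cases hab : a = b
          · subst hab
            rfl
          · rw [F.be_zero _ _ _ hab, zero_smul, zero_smul]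
      rw [← add_assoc, ← hb]
      generalize ifb (A.hasBe a b)
          (addT A (Nat.succ (Nat.succ (Nat.succ k))) acc₁
          (single (β := L C (k + 2)) ([] : List (L C (k + 1)))
          (mapT (A.be a b o) (Nat.succ (Nat.succ k)) y) (Nat.succ i))) acc₁ = acc₂
      cases hga : A.hasGa a b with
      | false =>
        rw [I.hasGa a b o hga, zero_smul, add_zero]
        rfl
      | true =>
        have hba := I.hasGa' a b hga
        change semV I (k + 2) (b :: a :: u) (addT A (k + 3) acc₂
            ([mapT (fun c => A.ga a b o (A.kap false c)) (k + 2)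
            (dragRT (crT A (k + 1)) i 0 (ers (i + 1) (b :: u)) y)] : List (L C (k + 2)))) = _
        rw [semV_addT]
        congr 1
        have hm : semV I (k + 1) (b :: ers i u) y ∈ F.At (b :: ers i u) := semV_At I hlen y
        have hc := cup_sound I b (k + 1) 0 u (by omega) (by omega)
          (dragRT (crT A (k + 1)) i 0 (b :: ers i u) y)
        rw [blk_pos h', F.cap_W_left_end i a (F.At_get hm (by rw [← hba]; rfl)),
          dragR_sound I hk i 0 _ y hlen (by rw [List.length_cons]; omega),
          dragRB_eq (by rw [h'', hba]), map_smul, hc, cupT_succ_zero, insS_zero, smul_smul]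
        have hop : Dir.op b = a := by rw [hba, Dir.op_op]
        rw [hop]
        exact semV_mapT_single I (r := F.ga a b o * F.kap false)
            (fun c => by rw [I.ga, I.kap, mul_assoc]) (k + 1) b a u _
    cases o with
    | false =>
      simp only [ifb_false]
      refine (hpart (dropL (β := L C (k + 1)) ([] : List (L C k)) i x) _).trans ?_
      change semV I (k + 2) (b :: a :: u) (addT A (k + 3) acc
        ([] :: rowL (β := L C (k + 1)) ([] : List (L C k)) i (fun g => g)
          (mapT (A.al a b false) (k + 1)) i x)) + _ = _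
      rw [semV_addT, row_sound I i (c₁ := 1) (c₂ := F.al a b false)
        (fun s y => by rw [one_smul]) (fun s y => semV_mapT I (fun c => I.al a b false c) k s y)
        hu hi x, hx, map_add, map_add, one_smul,
        skein_blk (F := F) (a := a) (b := b) (u := u) false (i + 1)
          (φ := semV I (k + 1) (b :: ers i u)
            (dropL (β := L C (k + 1)) ([] : List (L C k)) i x)) (by
          rw [ers_succ]
          exact semV_At I hlen (dropL (β := L C (k + 1)) ([] : List (L C k)) i x)), Bool.not_false]
      abel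
    | true =>
      simp only [ifb_true]
      refine (hpart (keepL (β := L C (k + 1)) i x) _).trans ?_
      change semV I (k + 2) (b :: a :: u) (addT A (k + 3) acc
        ([] :: rowL (β := L C (k + 1)) ([] : List (L C k)) i (mapT (A.al a b true) (k + 1))
          (fun g => g) i x)) + _ = _
      rw [semV_addT, row_sound I i (c₁ := F.al a b true) (c₂ := 1)
        (fun s y => semV_mapT I (fun c => I.al a b true c) k s y) (fun s y => by rw [one_smul])
        hu hi x, hx, map_add, map_add, one_smul,
        skein_blk (F := F) (a := a) (b := b) (u := u) true (i + 1)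
          (φ := semV I (k + 1) (b :: ers i u) (keepL (β := L C (k + 1)) i x)) (by
          rw [ers_succ]
          exact semV_At I hlen (keepL (β := L C (k + 1)) i x)), Bool.not_true]
      abel

end Pool.Agent.Helper26.WD
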