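import Pool.Agent.Helper26.WD.SoundRun

/-!
# Universal values of diagrams
-/

namespace Pool.Agent.Helper26.WD

set_option linter.unusedSectionVars false

open Piece Skein

variable {Ω : Type} [DecidableEq Ω] [Dir Ω] {Λ K : Type} [CommRing Λ] [Field K]

/-- All entries of a list are divisible by `d`. -/
def AllDvd (d : Λ) (l : List Λ) : Prop := ∀ y ∈ l, d ∣ y

theorem allDvd_zipA {d : Λ} {f : Λ → Λ → Λ} (hf : ∀ x y, f x y = x + y) (l l' : List Λ)
    (hl : AllDvd d l) (hl' : AllDvd d l') : AllDvd d (zipA f l l') := by
  induction l generalizing l' with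
  | nil => exact hl'
  | cons x l ih =>
    match l' with
    | [] => exact hl
    | y :: l' =>
      intro z hz
      rw [zipA_cons_cons] at hz
      rcases List.mem_cons.1 hz with rfl | hz
      · rw [hf]
        exact dvd_add (hl x (by simp)) (hl' y (by simp))
      · exact ih l' (fun y hy => hl y (by simp [hy])) (fun y hy => hl' y (by simp [hy])) z hz

theorem allDvd_mapL {d : Λ} {f : Λ → Λ} (hf : ∀ x, f x = d * x) (l : List Λ) :
    AllDvd d (mapL f l) := by
  induction l with
  | nil => intro y hy; simp [mapL_nil] at hy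
  | cons x l ih =>
    intro y hy
    rw [mapL_cons] at hy
    rcases List.mem_cons.1 hy with rfl | hy
    · rw [hf]; exact dvd_mul_right _ _
    · exact ih y hy

theorem allDvd_cap {A : Alg Ω Λ} {d : Λ} (hadd : ∀ x y, A.add x y = x + y)
    (hde : ∀ x, A.de x = d * x) (a b : Ω) (i : ℕ) (v : L Λ 2) :
    AllDvd d (capT A 0 i [a, b] v : List Λ) := by
  change AllDvd d (sumL (β := L Λ 1) (γ := L Λ 1) (capZ A 0 (crT A 0) a [b]) v 0 ([] : List Λ))
  have key : ∀ (l : List (L Λ 1)) (j : ℕ) (acc : List Λ), AllDvd d acc →
      AllDvd d (sumL (β := L Λ 1) (γ := L Λ 1) (capZ A 0 (crT A 0) a [b]) l j acc) := by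
    intro l
    induction l with
    | nil => intro j acc h; exact h
    | cons x l ih =>
      intro j acc h
      rw [sumL_cons]
      apply ih
      unfold capZ
      cases hx : isNil (β := L Λ 0) x with
      | true => exact h
      | false =>
        rw [ifb_false]
        cases j with
        | zero =>
          cases isAt A.eqb (A.op a) 0 [b] with
          | true =>
            rw [ifb_true]
            exact allDvd_zipA hadd _ _ h (allDvd_mapL hde x)
          | false => exact h
        | succ j =>
          rw [isAt_succ, isAt_nil]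
          exact h
  exact key v 0 [] (fun y hy => by simp at hy)

theorem dvd_val {F : Skein Ω K} {A : Alg Ω Λ} (I : Interp F A) {d : Λ}
    (hadd : ∀ x y, A.add x y = x + y) (hde : ∀ x, A.de x = d * x) {D : List (Piece Ω)}
    (hne : D ≠ []) (h : run D [] = some []) :
    d ∣ ((runT A D (St.init A)).val : List Λ).sum ∧ 1 ≤ caps D := by
  obtain ⟨D', p, rfl⟩ : ∃ D' p, D = D' ++ [p] := by
    rcases List.eq_nil_or_concat D with h0 | ⟨D', p, h0⟩
    · exact absurd h0 hne
    · exact ⟨D', p, by rw [h0, List.concat_eq_append]⟩
  rw [run_append] at h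
  cases hs : run D' [] with
  | none => rw [hs] at h; simp at h
  | some s' =>
    rw [hs, Option.bind_some, run_singleton] at h
    cases p with
    | cup i a =>
      obtain ⟨h1, h2⟩ := of_step_cup h
      have h3 := congrArg List.length h2
      rw [length_insS _ _ h1] at h3
      simp at h3
    | cr i o =>
      obtain ⟨h1, h2⟩ := of_step_cr h
      have h3 := congrArg List.length h2
      rw [length_swp] at h3
      simp only [List.length_nil] at h3
      omega
    | cap i =>
      obtain ⟨⟨y, hy, hy'⟩, h2⟩ := of_step_cap h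
      have hl := (List.getElem?_eq_some_iff.1 hy').1
      have h3 := length_delS hl
      rw [← h2] at h3
      simp only [List.length_nil] at h3
      obtain ⟨h4, h5, -⟩ := run_sound I D' (St.init A) rfl hs
      rw [runT_append]
      generalize runT A D' (St.init A) = x at h4 h5
      obtain ⟨k, s, v⟩ := x
      change s = s' at h4
      change s'.length = 2 * k at h5
      subst h4
      have hk : k = 1 := by omega
      subst hk
      match s, h3 with
      | [a, b], _ =>
        constructor
        · exact List.dvd_sum (allDvd_cap hadd hde a b i v)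
        · rw [caps_append]
          simp [caps]

/-- Universal values of diagrams. -/
theorem exists_univ {J : Type} [Nonempty J] (F : J → Skein Ω K) (ev : J → Λ →+* K) (A : Alg Ω Λ)
    (d m mi : Λ) (hadd : ∀ x y, A.add x y = x + y) (hde : ∀ x, A.de x = d * x)
    (I : ∀ j, Interp (F j) A) (hι : ∀ j x, (I j).ι x = ev j x) (hu : ∀ j, (I j).u = ev j m)
    (hd : ∀ j, ev j d = ev j m * (F j).de) (hm : m * mi = 1) (h1 : ∀ j, (F j).f [] = 1) :
    ∃ Q : List (Piece Ω) → Λ, ∀ D, D ≠ [] → run D [] = some [] →
      ∀ j, (F j).f D = (F j).de * ev j (Q D) := by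
  have key : ∀ D : List (Piece Ω), ∃ x : Λ, D ≠ [] → run D [] = some [] →
      ∀ j, (F j).f D = (F j).de * ev j x := by
    intro D
    by_cases hD : D ≠ [] ∧ run D [] = some []
    · obtain ⟨hne, h⟩ := hD
      obtain ⟨j₀⟩ := ‹Nonempty J›
      obtain ⟨⟨c, hc⟩, hcaps⟩ := dvd_val (I j₀) hadd hde hne h
      obtain ⟨n, hn⟩ : ∃ n, caps D = n + 1 := ⟨caps D - 1, by omega⟩
      refine ⟨mi ^ n * c, fun _ _ j => ?_⟩
      have hv := value_sound (I j) h
      rw [h1, mul_one, hu, hn] at hv
      have hs : (((runT A D (St.init A)).val : List Λ).map (I j).ι).sum =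
          ev j (((runT A D (St.init A)).val : List Λ).sum) := by
        rw [map_list_sum]
        congr 1
        apply List.map_congr_left
        intro x _
        exact hι j x
      rw [hs, hc, map_mul, hd] at hv
      have hm' : ev j m * ev j mi = 1 := by rw [← map_mul, hm, map_one]
      rw [map_mul, map_pow]
      have h2 : ev j m ^ n * ev j mi ^ n = 1 := by rw [← mul_pow, hm', one_pow]
      calc (F j).f D = (ev j m ^ n * ev j mi ^ n) * (ev j m * ev j mi) * (F j).f D := by
            rw [h2, hm']; ring
        _ = ev j mi ^ (n + 1) * (ev j m ^ (n + 1) * (F j).f D) := by ring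
        _ = ev j mi ^ n * (ev j m * ev j mi) * (F j).de * ev j c := by rw [hv]; ring
        _ = _ := by rw [hm']; ring
    · exact ⟨0, fun h1 h2 => absurd ⟨h1, h2⟩ hD⟩
  choose Q hQ using key
  exact ⟨Q, hQ⟩

end Pool.Agent.Helper26.WD
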