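import Pool.Agent.Helper26.WD.Homfly

/-!
# The writhe
-/

namespace Pool.Agent.Helper26.WD

set_option linter.unusedSectionVars false

open Piece

/-- The sign of a crossing of strands with directions `a` and `b`. -/
def sgn (o a b : Bool) : ℤ := if o = (a == b) then 1 else -1

theorem pieceSign_cr (s₁ s₂ : List Bool) (a b : Bool) (i : ℕ) (o : Bool) (h : s₁.length = i) :
    pieceSign (cr i o) (s₁ ++ a :: b :: s₂) = sgn o a b := by
  subst h
  simp [pieceSign, sgn]

theorem writheFrom_cons (p : Piece Bool) (D : List (Piece Bool)) {s t : List Bool}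
    (h : step p s = some t) : writheFrom (p :: D) s = pieceSign p s + writheFrom D t := by
  rw [writheFrom, h, Option.getD_some]

theorem writheFrom_append (D D' : List (Piece Bool)) {s s' : List Bool} (h : run D s = some s') :
    writheFrom (D ++ D') s = writheFrom D s + writheFrom D' s' := by
  induction D generalizing s with
  | nil =>
    simp only [run_nil, Option.some.injEq] at h
    subst h
    simp [writheFrom]
  | cons p D ih =>
    rw [run_cons] at h
    cases hs : step p s with
    | none => rw [hs] at h; simp at h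
    | some t =>
      rw [hs, Option.bind_some] at h
      rw [List.cons_append, writheFrom_cons p _ hs, writheFrom_cons p _ hs, ih h, add_assoc]

theorem step_cr_some {i : ℕ} {o : Bool} {s t : List Bool} (h : step (cr i o) s = some t) :
    ∃ s₁ a b s₂, s = s₁ ++ a :: b :: s₂ ∧ s₁.length = i ∧ t = s₁ ++ b :: a :: s₂ := by
  obtain ⟨hl, -⟩ := of_step_cr h
  refine ⟨s.take i, s[i], s[i + 1], s.drop (i + 2), ?_, by simp; omega, ?_⟩
  · conv_lhs => rw [← List.take_append_drop i s]
    rw [List.drop_eq_getElem_cons (by omega : i < s.length), List.drop_eq_getElem_cons hl]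
  · simp only [step] at h
    rw [List.drop_eq_getElem_cons (by omega : i < s.length), List.drop_eq_getElem_cons hl] at h
    simpa using h.symm

theorem step_cap_some {i : ℕ} {s t : List Bool} (h : step (cap i) s = some t) :
    ∃ s₁ a s₂, s = s₁ ++ a :: Dir.op a :: s₂ ∧ s₁.length = i ∧ t = s₁ ++ s₂ := by
  obtain ⟨⟨y, hy, hy'⟩, -⟩ := of_step_cap h
  obtain ⟨h1, h2⟩ := List.getElem?_eq_some_iff.1 hy
  obtain ⟨h3, h4⟩ := List.getElem?_eq_some_iff.1 hy'
  refine ⟨s.take i, y, s.drop (i + 2), ?_, by simp; omega, ?_⟩
  · conv_lhs => rw [← List.take_append_drop i s]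
    rw [List.drop_eq_getElem_cons h1, List.drop_eq_getElem_cons h3, h2, h4]
  · simp only [step] at h
    rw [List.drop_eq_getElem_cons h1, List.drop_eq_getElem_cons h3, h2, h4] at h
    simpa using h.symm

theorem step_cup_some {i : ℕ} {a : Bool} {s t : List Bool} (h : step (cup i a) s = some t) :
    ∃ s₁ s₂, s = s₁ ++ s₂ ∧ s₁.length = i ∧ t = s₁ ++ a :: Dir.op a :: s₂ := by
  obtain ⟨hl, -⟩ := of_step_cup h
  refine ⟨s.take i, s.drop i, (List.take_append_drop i s).symm, by simp; omega, ?_⟩
  simp only [step, if_pos hl] at h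
  simpa using h.symm

theorem step_cr_succ (s₁ s₂ : List Bool) (a b c : Bool) (o : Bool) :
    step (cr (s₁.length + 1) o) (s₁ ++ c :: a :: b :: s₂) = some (s₁ ++ c :: b :: a :: s₂) := by
  have h := step_cr_split (s₁ ++ [c]) s₂ a b (s₁.length + 1) o (by simp)
  have e1 : s₁ ++ [c] ++ a :: b :: s₂ = s₁ ++ c :: a :: b :: s₂ := by simp
  have e2 : s₁ ++ [c] ++ b :: a :: s₂ = s₁ ++ c :: b :: a :: s₂ := by simp
  rw [e1, e2] at h
  exact h

theorem step_cup_succ (s₁ s₂ : List Bool) (a c : Bool) :
    step (cup (s₁.length + 1) a) (s₁ ++ c :: s₂) = some (s₁ ++ c :: a :: Dir.op a :: s₂) := by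
  have h := step_cup_split (s₁ ++ [c]) s₂ a (s₁.length + 1) (by simp)
  have e1 : s₁ ++ [c] ++ s₂ = s₁ ++ c :: s₂ := by simp
  have e2 : s₁ ++ [c] ++ a :: Dir.op a :: s₂ = s₁ ++ c :: a :: Dir.op a :: s₂ := by simp
  rw [e1, e2] at h
  exact h

/-- The part to the right of a piece. -/
theorem drop_step {x : Piece Bool} {s t : List Bool} (h : step x s = some t) (j : ℕ)
    (hj : x.pos ≤ j) : t.drop (j + x.out) = s.drop (j + x.inn) := by
  obtain ⟨d, rfl⟩ : ∃ d, j = x.pos + d := ⟨j - x.pos, by omega⟩
  cases x with
  | cup i a =>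
    obtain ⟨s₁, s₂, rfl, h1, rfl⟩ := step_cup_some h
    subst h1
    simp only [pos, out, inn]
    have e : s₁.length + d + 2 = s₁.length + (2 + d) := by omega
    rw [e, Nat.add_zero, List.drop_append, List.drop_append]
    simp [Nat.add_comm 2 d]
  | cap i =>
    obtain ⟨s₁, a, s₂, rfl, h1, rfl⟩ := step_cap_some h
    subst h1
    simp only [pos, out, inn]
    have e : s₁.length + d + 2 = s₁.length + (2 + d) := by omega
    rw [e, Nat.add_zero, List.drop_append, List.drop_append]
    simp [Nat.add_comm 2 d]
  | cr i o =>
    obtain ⟨s₁, a, b, s₂, rfl, h1, rfl⟩ := step_cr_some h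
    subst h1
    simp only [pos, out, inn]
    have e : s₁.length + d + 2 = s₁.length + (2 + d) := by omega
    rw [e, List.drop_append, List.drop_append]
    simp [Nat.add_comm 2 d]

/-- The part to the left of a piece. -/
theorem take_step {y : Piece Bool} {s t : List Bool} (h : step y s = some t) (j : ℕ)
    (hj : j ≤ y.pos) : t.take j = s.take j := by
  cases y with
  | cup i a =>
    obtain ⟨s₁, s₂, rfl, h1, rfl⟩ := step_cup_some h
    subst h1
    simp only [pos] at hj
    rw [List.take_append_of_le_length hj, List.take_append_of_le_length hj]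
  | cap i =>
    obtain ⟨s₁, a, s₂, rfl, h1, rfl⟩ := step_cap_some h
    subst h1
    simp only [pos] at hj
    rw [List.take_append_of_le_length hj, List.take_append_of_le_length hj]
  | cr i o =>
    obtain ⟨s₁, a, b, s₂, rfl, h1, rfl⟩ := step_cr_some h
    subst h1
    simp only [pos] at hj
    rw [List.take_append_of_le_length hj, List.take_append_of_le_length hj]

theorem pieceSign_shift_drop (y : Piece Bool) (m n : ℕ) (s t : List Bool)
    (h : s.drop (y.pos + m) = t.drop (y.pos + n)) :
    pieceSign (y.shift m) s = pieceSign (y.shift n) t := by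
  cases y with
  | cup i a => rfl
  | cap i => rfl
  | cr i o =>
    simp only [pos] at h
    simp only [shift, pieceSign, h]

theorem pieceSign_take (x : Piece Bool) (s t : List Bool)
    (h : s.take (x.pos + 2) = t.take (x.pos + 2)) (hx : x.inn = 2) :
    pieceSign x s = pieceSign x t := by
  cases x with
  | cup i a => rfl
  | cap i => rfl
  | cr i o =>
    simp only [pos] at h
    have h1 : (s.take (i + 2)).drop i = (t.take (i + 2)).drop i := by rw [h]
    rw [List.drop_take, List.drop_take] at h1
    have e : i + 2 - i = 2 := by omega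
    rw [e] at h1
    simp only [pieceSign]
    generalize s.drop i = u at h1 ⊢
    generalize t.drop i = v at h1 ⊢
    match u, v, h1 with
    | [], [], _ => rfl
    | [], _ :: _, h1 => simp at h1
    | _ :: _, [], h1 => simp at h1
    | [a], [b], _ => rfl
    | [a], b :: c :: v, h1 => simp at h1
    | a :: b :: u, [c], h1 => simp at h1
    | a :: b :: u, c :: d :: v, h1 =>
      simp at h1
      obtain ⟨rfl, rfl⟩ := h1
      rfl

theorem writheFrom_pair {p q : Piece Bool} {s t : List Bool} (h : step p s = some t) :
    writheFrom [p, q] s = pieceSign p s + pieceSign q t := by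
  rw [writheFrom_cons p _ h]
  simp [writheFrom]

/-- The writhe is invariant under regular isotopy. -/
theorem writheFrom_regMove {A B : List (Piece Bool)} (hM : RegMove A B) {s t : List Bool}
    (h : run A s = some t) : writheFrom A s = writheFrom B s := by
  cases hM with
  | far x y hxy =>
    have h' := h
    rw [run_far x y hxy s, run_pair] at h'
    rw [run_pair] at h
    cases hx : step x s with
    | none => rw [hx] at h; simp at h
    | some u =>
      cases hy : step (y.shift x.inn) s with
      | none => rw [hy] at h'; simp at h'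
      | some v =>
        rw [writheFrom_pair hx, writheFrom_pair hy]
        have e1 : pieceSign (y.shift x.out) u = pieceSign (y.shift x.inn) s :=
          pieceSign_shift_drop y _ _ _ _ (drop_step hx _ hxy)
        have e2 : pieceSign x v = pieceSign x s := by
          by_cases h2 : x.inn = 2
          · apply pieceSign_take x _ _ _ h2
            apply take_step hy
            rw [h2]
            cases y <;> simp only [shift, pos] at hxy ⊢ <;> omega
          · cases x with
            | cup i a => rfl
            | cap i => rfl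
            | cr i o => exact absurd rfl h2
        rw [e1, e2, add_comm]
  | zigR i a =>
    rw [run_pair] at h
    cases hx : step (cup i a) s with
    | none => rw [hx] at h; simp at h
    | some u =>
      rw [writheFrom_pair hx]
      rfl
  | zigL i a =>
    rw [run_pair] at h
    cases hx : step (cup (i + 1) a) s with
    | none => rw [hx] at h; simp at h
    | some u =>
      rw [writheFrom_pair hx]
      rfl
  | slideCup i a o =>
    rw [run_pair] at h
    cases hx : step (cup i a) s with
    | none => rw [hx] at h; simp at h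
    | some u =>
      rw [hx, Option.bind_some] at h
      rw [writheFrom_pair hx]
      obtain ⟨s₁, s₂, rfl, h1, rfl⟩ := step_cup_some hx
      obtain ⟨hl, -⟩ := of_step_cr h
      simp only [List.length_append, List.length_cons] at hl
      match s₂, hl with
      | [], hl => simp at hl; omega
      | c :: s₂, _ =>
        have e1 : step (cup (i + 1) a) (s₁ ++ c :: s₂) =
            some (s₁ ++ c :: a :: Dir.op a :: s₂) := by
          subst h1
          exact step_cup_succ s₁ s₂ a c
        rw [writheFrom_pair e1]
        have e2 : s₁ ++ a :: Dir.op a :: c :: s₂ = (s₁ ++ [a]) ++ Dir.op a :: c :: s₂ := by simp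
        rw [e2, pieceSign_cr _ _ _ _ _ _ (by simp [h1]), pieceSign_cr _ _ _ _ _ _ h1]
        change 0 + _ = 0 + _
        cases a <;> cases c <;> cases o <;> rfl
  | slideCap i o =>
    rw [run_pair] at h
    cases hx : step (cr i o) s with
    | none => rw [hx] at h; simp at h
    | some u =>
      rw [hx, Option.bind_some] at h
      rw [writheFrom_pair hx]
      obtain ⟨s₁, a, b, s₂, rfl, h1, rfl⟩ := step_cr_some hx
      obtain ⟨⟨y, hy, hy'⟩, -⟩ := of_step_cap h
      subst h1
      have e0 : ∃ s₃, s₂ = Dir.op a :: s₃ := by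
        rw [List.getElem?_append_right (by omega)] at hy hy'
        have f1 : s₁.length + 1 - s₁.length = 1 := by omega
        have f2 : s₁.length + 1 + 1 - s₁.length = 2 := by omega
        rw [f1] at hy
        rw [f2] at hy'
        match s₂, hy' with
        | [], hy' => simp at hy'
        | c :: s₃, hy' =>
          simp only [List.getElem?_cons_succ, List.getElem?_cons_zero, Option.some.injEq]
            at hy hy'
          subst hy
          exact ⟨s₃, by rw [hy']⟩
      obtain ⟨s₃, rfl⟩ := e0
      have e1 : s₁ ++ a :: b :: Dir.op a :: s₃ = (s₁ ++ [a]) ++ b :: Dir.op a :: s₃ := by simp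
      have e2 : step (cr (s₁.length + 1) (!o)) (s₁ ++ a :: b :: Dir.op a :: s₃) =
          some (s₁ ++ a :: Dir.op a :: b :: s₃) := step_cr_succ s₁ s₃ b (Dir.op a) a (!o)
      rw [writheFrom_pair e2, pieceSign_cr _ _ _ _ _ _ rfl, e1,
        pieceSign_cr _ _ _ _ _ _ (by simp)]
      change _ + 0 = _ + 0
      cases a <;> cases b <;> cases o <;> rfl
  | r2 i o =>
    rw [run_pair] at h
    cases hx : step (cr i o) s with
    | none => rw [hx] at h; simp at h
    | some u =>
      rw [writheFrom_pair hx]
      obtain ⟨s₁, a, b, s₂, rfl, h1, rfl⟩ := step_cr_some hx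
      rw [pieceSign_cr _ _ _ _ _ _ h1, pieceSign_cr _ _ _ _ _ _ h1]
      change _ = (0 : ℤ)
      cases a <;> cases b <;> cases o <;> rfl
  | r3 i o₁ o₂ o₃ ho =>
    have h' : run ([cr i o₁, cr (i + 1) o₂] ++ [cr i o₃]) s = some t := h
    rw [run_append, run_pair] at h'
    cases hx : step (cr i o₁) s with
    | none => rw [hx] at h'; simp at h'
    | some u =>
      rw [hx, Option.bind_some] at h'
      cases hy : step (cr (i + 1) o₂) u with
      | none => rw [hy] at h'; simp at h'
      | some v =>
        obtain ⟨s₁, a, b, s₂, rfl, h1, rfl⟩ := step_cr_some hx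
        obtain ⟨hl, -⟩ := of_step_cr hy
        simp only [List.length_append, List.length_cons] at hl
        match s₂, hl with
        | [], hl => simp at hl; omega
        | c :: s₂, _ =>
          subst h1
          have f1 : step (cr s₁.length o₁) (s₁ ++ a :: b :: c :: s₂) =
            some (s₁ ++ b :: a :: c :: s₂) := by simp [step]
          have f2 : step (cr (s₁.length + 1) o₂) (s₁ ++ b :: a :: c :: s₂) =
            some (s₁ ++ b :: c :: a :: s₂) := step_cr_succ s₁ s₂ a c b o₂
          have f3 : step (cr (s₁.length + 1) o₃) (s₁ ++ a :: b :: c :: s₂) =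
            some (s₁ ++ a :: c :: b :: s₂) := step_cr_succ s₁ s₂ b c a o₃
          have f4 : step (cr s₁.length o₂) (s₁ ++ a :: c :: b :: s₂) =
            some (s₁ ++ c :: a :: b :: s₂) := by simp [step]
          have g1 : s₁ ++ b :: a :: c :: s₂ = (s₁ ++ [b]) ++ a :: c :: s₂ := by simp
          have g2 : s₁ ++ a :: b :: c :: s₂ = (s₁ ++ [a]) ++ b :: c :: s₂ := by simp
          have g3 : s₁ ++ c :: a :: b :: s₂ = (s₁ ++ [c]) ++ a :: b :: s₂ := by simp
          have e1 : pieceSign (cr s₁.length o₁) (s₁ ++ a :: b :: c :: s₂) = sgn o₁ a b :=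
            pieceSign_cr _ _ _ _ _ _ rfl
          have e2 : pieceSign (cr (s₁.length + 1) o₂) (s₁ ++ b :: a :: c :: s₂) = sgn o₂ a c := by
            rw [g1]; exact pieceSign_cr _ _ _ _ _ _ (by simp)
          have e3 : pieceSign (cr s₁.length o₃) (s₁ ++ b :: c :: a :: s₂) = sgn o₃ b c :=
            pieceSign_cr _ _ _ _ _ _ rfl
          have e4 : pieceSign (cr (s₁.length + 1) o₃) (s₁ ++ a :: b :: c :: s₂) = sgn o₃ b c := by
            rw [g2]; exact pieceSign_cr _ _ _ _ _ _ (by simp)
          have e5 : pieceSign (cr s₁.length o₂) (s₁ ++ a :: c :: b :: s₂) = sgn o₂ a c :=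
            pieceSign_cr _ _ _ _ _ _ rfl
          have e6 : pieceSign (cr (s₁.length + 1) o₁) (s₁ ++ c :: a :: b :: s₂) = sgn o₁ a b := by
            rw [g3]; exact pieceSign_cr _ _ _ _ _ _ (by simp)
          rw [writheFrom_cons _ _ f1, writheFrom_pair f2, writheFrom_cons _ _ f3,
            writheFrom_pair f4, e1, e2, e3, e4, e5, e6]
          ring

end Pool.Agent.Helper26.WD
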